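import Mathlib

set_option autoImplicit false

/-!
# MP_3587c3_al: counting tuples that do not span a vector space over a finite field
-/

namespace Pool.Agent.Lib.MP_3587c3_al

open Module

variable {E W : Type*} [Field E] [Finite E] [AddCommGroup W] [Module E W] [Finite W]

/-- the kernel of a nonzero functional -/
theorem card_ker_mul (φ : Dual E W) (hφ : φ ≠ 0) :
    Nat.card E * Nat.card (LinearMap.ker φ) = Nat.card W := by
  have hs : Function.Surjective φ := LinearMap.surjective hφ
  have e := φ.quotKerEquivOfSurjective hs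
  rw [Submodule.card_eq_card_quotient_mul_card (LinearMap.ker φ), mul_comm]
  congr 1
  exact (Nat.card_congr e.toEquiv).symm

theorem card_dual : Nat.card (Dual E W) = Nat.card W := by
  have : Module.Finite E W := Module.Finite.of_finite
  have := (Module.Free.chooseBasis E W).toDualEquiv
  exact (Nat.card_congr this.toEquiv).symm

theorem exists_functional {κ : Type*} (w : κ → W)
    (hw : Submodule.span E (Set.range w) ≠ ⊤) :
    ∃ φ : Dual E W, φ ≠ 0 ∧ ∀ j, φ (w j) = 0 := by
  obtain ⟨f, hf, hf2⟩ := Submodule.exists_le_ker_of_lt_top _ (lt_top_iff_ne_top.2 hw)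
  refine ⟨f, hf, fun j => ?_⟩
  exact hf2 (Submodule.subset_span ⟨j, rfl⟩)

/-- fewer than `|W|^k / (|E| - 1)` tuples of length `k ≥ dim W` do not span `W`. -/
theorem card_nonspanning {κ : Type*} [Finite κ] (h : finrank E W ≤ Nat.card κ) :
    (Nat.card E - 1) * Nat.card {w : κ → W // Submodule.span E (Set.range w) ≠ ⊤} <
      Nat.card (κ → W) := by
  classical
  have : Fintype E := Fintype.ofFinite E
  have : Fintype W := Fintype.ofFinite W
  have : Fintype κ := Fintype.ofFinite κ
  have : Module.Finite E W := Module.Finite.of_finite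
  have : Finite (Dual E W) := Module.finite_of_finite E
  have : Fintype (Dual E W) := Fintype.ofFinite _
  set B := {w : κ → W // Submodule.span E (Set.range w) ≠ ⊤} with hB
  set S := Σ φ : {φ : Dual E W // φ ≠ 0}, (κ → LinearMap.ker φ.1) with hS
  have : Finite S := inferInstance
  have hE1 : 1 ≤ Nat.card E := Nat.card_pos
  -- the injection
  choose f hf hf2 using fun b : B => exists_functional (E := E) b.1 b.2
  let Θ : Eˣ × B → S := fun p =>
    ⟨⟨(p.1 : E) • f p.2, by
        intro h0
        rcases smul_eq_zero.1 h0 with h1 | h1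
        · exact p.1.ne_zero h1
        · exact hf p.2 h1⟩,
      fun j => ⟨p.2.1 j, by simp [hf2 p.2 j]⟩⟩
  have hΘ : Function.Injective Θ := by
    rintro ⟨c, b⟩ ⟨c', b'⟩ heq
    have h1 : (c : E) • f b = (c' : E) • f b' := by
      have := congrArg (fun s : S => s.1.1) heq
      exact this
    have h2 : b = b' := by
      apply Subtype.ext
      funext j
      have := congrArg (fun s : S => ((s.2 j : LinearMap.ker s.1.1) : W)) heq
      exact this
    subst h2
    have h3 : ((c : E) - (c' : E)) • f b = 0 := by
      apply LinearMap.ext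
      intro x
      have h4 := LinearMap.congr_fun h1 x
      simp only [LinearMap.smul_apply, LinearMap.zero_apply, smul_eq_mul] at h4 ⊢
      rw [sub_mul, h4, sub_self]
    rcases smul_eq_zero.1 h3 with h4 | h4
    · rw [Units.ext (sub_eq_zero.1 h4)]
    · exact absurd h4 (hf b)
  have hcard1 : Nat.card Eˣ * Nat.card B ≤ Nat.card S := by
    rw [← Nat.card_prod]
    exact Nat.card_le_card_of_injective Θ hΘ
  have hunits : Nat.card Eˣ = Nat.card E - 1 := by
    rw [Nat.card_eq_fintype_card, Nat.card_eq_fintype_card, Fintype.card_units]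
  rw [hunits] at hcard1
  refine lt_of_le_of_lt hcard1 ?_
  -- the size of S
  have hker : ∀ φ : {φ : Dual E W // φ ≠ 0}, Nat.card (κ → LinearMap.ker φ.1) =
      (Nat.card W / Nat.card E) ^ Nat.card κ := by
    intro φ
    rw [Nat.card_fun]
    congr 1
    have := card_ker_mul φ.1 φ.2
    rw [← this, Nat.mul_div_cancel_left _ hE1]
  have hScard : Nat.card S =
      (Nat.card W - 1) * (Nat.card W / Nat.card E) ^ Nat.card κ := by
    rw [hS, Nat.card_sigma, Finset.sum_congr rfl (fun φ _ => hker φ), Finset.sum_const,
      Finset.card_univ, smul_eq_mul]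
    congr 1
    have h1 := card_dual (E := E) (W := W)
    rw [Nat.card_eq_fintype_card] at h1
    rw [Fintype.card_subtype_compl, h1]
    simp
  rw [hScard, Nat.card_fun]
  -- arithmetic
  have hWq : Nat.card W = Nat.card E ^ finrank E W := by
    rw [Nat.card_eq_fintype_card, Nat.card_eq_fintype_card]
    exact Module.card_eq_pow_finrank
  have hE2 : 2 ≤ Nat.card E := by
    rw [Nat.card_eq_fintype_card]
    exact Fintype.one_lt_card
  have hWpos : 1 ≤ Nat.card W := Nat.card_pos
  rcases Nat.eq_zero_or_pos (finrank E W) with h0 | hpos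
  · rw [hWq, h0]
    simp
  · obtain ⟨a, ha⟩ := Nat.exists_eq_succ_of_ne_zero hpos.ne'
    have hdiv : Nat.card W / Nat.card E = Nat.card E ^ a := by
      rw [hWq, ha, pow_succ, Nat.mul_div_cancel _ hE1]
    rw [hdiv]
    have h1 : Nat.card W - 1 < Nat.card E ^ Nat.card κ := by
      have : Nat.card W ≤ Nat.card E ^ Nat.card κ := by
        rw [hWq]; exact Nat.pow_le_pow_right hE1 h
      omega
    calc (Nat.card W - 1) * (Nat.card E ^ a) ^ Nat.card κ
        < Nat.card E ^ Nat.card κ * (Nat.card E ^ a) ^ Nat.card κ :=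
          Nat.mul_lt_mul_of_pos_right h1 (by positivity)
      _ = Nat.card W ^ Nat.card κ := by
          rw [hWq, ha, ← mul_pow, pow_succ, mul_comm]

end Pool.Agent.Lib.MP_3587c3_al
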