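import Mathlib

set_option autoImplicit false

/-!
# MP_3587c3_al: splitting an irreducible representation of a commuting pair of sets
-/

namespace Pool.Agent.Lib.MP_3587c3_al

universe u

open Module

/-- a set of endomorphisms with no invariant subspace and with scalar commutant -/
structure Irr (E : Type*) {V : Type*} [Field E] [AddCommGroup V] [Module E V]
    (S : Set (Module.End E V)) : Prop where
  irr : ∀ X : Submodule E V, (∀ g ∈ S, ∀ x ∈ X, g x ∈ X) → X = ⊥ ∨ X = ⊤
  sc : ∀ T : Module.End E V, (∀ g ∈ S, ∀ v, g (T v) = T (g v)) → ∃ e : E, ∀ v, T v = e • v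

section LayerA

variable {E R V : Type*} [Field E] [Ring R] [Algebra E R] [AddCommGroup V] [Module E V]
  [Module R V] [IsScalarTower E R V] [Finite V] [Nontrivial V]

/-- `V` is a power of a simple module whose endomorphisms are scalars -/
theorem layerA (Q : Set (Module.End R V))
    (hirr : ∀ X : Submodule R V, (∀ q ∈ Q, ∀ x ∈ X, q x ∈ X) → X = ⊥ ∨ X = ⊤)
    (hsc : ∀ T : Module.End R V, (∀ q ∈ Q, ∀ v, q (T v) = T (q v)) →
      ∃ e : E, ∀ v, T v = e • v) :
    ∃ (W : Submodule R V) (k : ℕ) (_ : V ≃ₗ[R] (Fin k → W)), W ≠ ⊥ ∧ 0 < k ∧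
      ∀ d : Module.End R W, ∃ e : E, ∀ w : W, d w = e • w := by
  classical
  obtain ⟨W, hW⟩ := IsAtomic.exists_atom (Submodule R V)
  have hWs : IsSimpleModule R W := isSimpleModule_iff_isAtom.2 hW
  have hfin : Module.Finite R V := Module.Finite.of_finite
  -- the isotypic component is everything
  have htop : isotypicComponent R V W = ⊤ := by
    have hinv := hirr (isotypicComponent R V W)
      (fun q _ x hx => Submodule.IsFullyInvariant.isotypicComponent R V W q hx)
    rcases hinv with h | h
    · exfalso
      have := bot_lt_isotypicComponent W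
      rw [h] at this
      exact lt_irrefl _ this
    · exact h
  have hss : IsSemisimpleModule R V := by
    have h1 : IsSemisimpleModule R (isotypicComponent R V W) := inferInstance
    rw [htop] at h1
    exact IsSemisimpleModule.congr (Submodule.topEquiv (R := R) (M := V)).symm
  obtain ⟨k, ⟨Φ⟩⟩ :=
    (IsIsotypicOfType.of_isotypicComponent_eq_top htop).linearEquiv_fun
  have hk : 0 < k := by
    rcases Nat.eq_zero_or_pos k with rfl | h
    · exfalso
      have : Subsingleton V := Φ.toEquiv.subsingleton
      exact not_subsingleton V this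
    · exact h
  refine ⟨W, k, Φ, hW.1, hk, ?_⟩
  -- commutativity of the endomorphism ring
  have hfinD : Finite (Module.End R W) :=
    Finite.of_injective (fun f : Module.End R W => (f : W → W)) DFunLike.coe_injective
  have hcomm : ∀ a b : Module.End R W, a * b = b * a :=
    (littleWedderburn (Module.End R W)).mul_comm
  intro d
  -- the diagonal endomorphism
  let dd : (Fin k → W) →ₗ[R] (Fin k → W) := LinearMap.pi (fun i => d.comp (LinearMap.proj i))
  let T : Module.End R V := (Φ.symm.toLinearMap.comp dd).comp Φ.toLinearMap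
  have hT : ∀ v i, Φ (T v) i = d (Φ v i) := by
    intro v i
    simp [T, dd]
  -- entries of q
  have hentry : ∀ (q : Module.End R V) (v : V) (i : Fin k), Φ (q v) i =
      ∑ j, (((LinearMap.proj i).comp (Φ.toLinearMap.comp (q.comp Φ.symm.toLinearMap))).comp
        (LinearMap.single R (fun _ => W) j)) (Φ v j) := by
    intro q v i
    have h1 : Φ v = ∑ j, Pi.single j (Φ v j) := by
      rw [Finset.univ_sum_single]
    have h2 : v = Φ.symm (∑ j, Pi.single j (Φ v j)) := by
      rw [← h1, LinearEquiv.symm_apply_apply]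
    conv_lhs => rw [h2]
    simp [map_sum, Finset.sum_apply]
  obtain ⟨e, he⟩ := hsc T (by
    intro q _ v
    apply Φ.injective
    funext i
    rw [hentry q (T v) i, hT (q v) i, hentry q v i, map_sum]
    refine Finset.sum_congr rfl (fun j _ => ?_)
    rw [hT v j]
    have := LinearMap.congr_fun (hcomm
      ((((LinearMap.proj i).comp (Φ.toLinearMap.comp (q.comp Φ.symm.toLinearMap))).comp
        (LinearMap.single R (fun _ => W) j))) d) (Φ v j)
    exact this)
  refine ⟨e, fun w => ?_⟩
  have h1 := he (Φ.symm (fun _ => w))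
  have h2 := congrArg (fun v => Φ v ⟨0, hk⟩) h1
  simp only [hT, LinearEquiv.apply_symm_apply] at h2
  rw [h2]
  have h3 : Φ (e • Φ.symm (fun _ => w)) = e • (fun _ => w : Fin k → W) := by
    have : (e • Φ.symm (fun _ => w) : V) = (algebraMap E R e) • Φ.symm (fun _ => w) := by
      rw [algebraMap_smul]
    rw [this, map_smul, LinearEquiv.apply_symm_apply, algebraMap_smul]
  rw [h3]
  rfl

/-- the same in the form of an `E`-linear equivalence -/
theorem layerA2 {E R : Type*} {V : Type u} [Field E] [Ring R] [Algebra E R] [AddCommGroup V]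
    [Module E V] [Module R V] [IsScalarTower E R V] [Finite V] [Nontrivial V]
    (Q : Set (Module.End R V))
    (hirr : ∀ X : Submodule R V, (∀ q ∈ Q, ∀ x ∈ X, q x ∈ X) → X = ⊥ ∨ X = ⊤)
    (hsc : ∀ T : Module.End R V, (∀ q ∈ Q, ∀ v, q (T v) = T (q v)) →
      ∃ e : E, ∀ v, T v = e • v) :
    ∃ (k : ℕ) (W : Type u) (_ : AddCommGroup W) (_ : Module E W) (_ : Finite W)
      (_ : Nontrivial W) (Φ : V ≃ₗ[E] (Fin k → W)) (ρ : R → Module.End E W)
      (c : Module.End R V → Matrix (Fin k) (Fin k) E), 0 < k ∧
      (∀ r v i, Φ (r • v) i = ρ r (Φ v i)) ∧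
      (∀ q : Module.End R V, ∀ v i, Φ (q v) i = ∑ j, c q i j • Φ v j) := by
  classical
  obtain ⟨W, k, Φ, hW, hk, hsc⟩ := layerA (E := E) (R := R) Q hirr hsc
  choose σ hσ using hsc
  have hΦE : ∀ (e : E) (v : V), Φ (e • v) = e • Φ v := by
    intro e v
    have : (e • v : V) = (algebraMap E R e) • v := by rw [algebraMap_smul]
    rw [this, map_smul, algebraMap_smul]
  let Φ' : V ≃ₗ[E] (Fin k → W) :=
    { Φ with map_smul' := fun e v => hΦE e v }
  have hΦ' : ∀ v, Φ' v = Φ v := fun v => rfl
  have hWnt : Nontrivial W := Submodule.nontrivial_iff_ne_bot.2 hW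
  -- entries
  let ent : Module.End R V → Fin k → Fin k → Module.End R W := fun q i j =>
    ((LinearMap.proj i).comp (Φ.toLinearMap.comp (q.comp Φ.symm.toLinearMap))).comp
      (LinearMap.single R (fun _ => W) j)
  have hentry : ∀ (q : Module.End R V) (v : V) (i : Fin k), Φ (q v) i =
      ∑ j, ent q i j (Φ v j) := by
    intro q v i
    have h1 : Φ v = ∑ j, Pi.single j (Φ v j) := by
      rw [Finset.univ_sum_single]
    have h2 : v = Φ.symm (∑ j, Pi.single j (Φ v j)) := by
      rw [← h1, LinearEquiv.symm_apply_apply]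
    conv_lhs => rw [h2]
    simp [ent, map_sum, Finset.sum_apply]
  let ρ : R → Module.End E W := fun r =>
    { toFun := fun w => r • w
      map_add' := fun x y => smul_add r x y
      map_smul' := fun e w => by
        have h1 : (e • w : W) = (algebraMap E R e) • w := by rw [algebraMap_smul]
        have h2 : (e • (r • w) : W) = (algebraMap E R e) • (r • w) := by rw [algebraMap_smul]
        rw [RingHom.id_apply, h1, h2, smul_smul, smul_smul, Algebra.commutes] }
  refine ⟨k, W, inferInstance, inferInstance, inferInstance, hWnt, Φ', ρ,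
    fun q => Matrix.of (fun i j => σ (ent q i j)), hk, ?_, ?_⟩
  · intro r v i
    rw [hΦ', hΦ', map_smul]
    rfl
  · intro q v i
    rw [hΦ', hentry q v i]
    refine Finset.sum_congr rfl (fun j _ => ?_)
    rw [hσ]
    rfl

end LayerA

/-- the data of a splitting `V = W ⊗ E^k`, `P` acting on `W` and `Q` on `E^k` -/
structure SplitData (E : Type*) {V : Type u} [Field E] [AddCommGroup V] [Module E V]
    (P Q : Set (Module.End E V)) where
  k : ℕ
  W : Type u
  [i1 : AddCommGroup W]
  [i2 : Module E W]
  [i3 : Finite W]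
  [i4 : Nontrivial W]
  Φ : V ≃ₗ[E] (Fin k → W)
  ρ : Module.End E V → Module.End E W
  c : Module.End E V → Matrix (Fin k) (Fin k) E
  hk : 0 < k
  hP : ∀ p ∈ P, ∀ v i, Φ (p v) i = ρ p (Φ v i)
  hQ : ∀ q ∈ Q, ∀ v i, Φ (q v) i = ∑ j, c q i j • Φ v j

attribute [instance] SplitData.i1 SplitData.i2 SplitData.i3 SplitData.i4

theorem exists_splitData {E : Type*} {V : Type u} [Field E] [AddCommGroup V] [Module E V]
    [Finite V] [Nontrivial V] (P Q : Set (Module.End E V))
    (hPQ : ∀ p ∈ P, ∀ q ∈ Q, ∀ v, p (q v) = q (p v)) (hirr : Irr E (P ∪ Q)) :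
    Nonempty (SplitData E P Q) := by
  classical
  set R := Algebra.adjoin E P with hR
  -- elements of `Q` are `R`-linear
  have hlin : ∀ q ∈ Q, ∀ r : R, ∀ v, q (r • v) = r • q v := by
    intro q hq r v
    have h1 : R ≤ Subalgebra.centralizer E {q} := by
      rw [hR]
      apply Algebra.adjoin_le
      intro p hp
      rw [SetLike.mem_coe, Subalgebra.mem_centralizer_iff]
      intro g hg
      rw [Set.mem_singleton_iff] at hg
      subst hg
      exact LinearMap.ext (fun v => (hPQ p hp _ hq v).symm)
    have h2 := h1 r.2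
    rw [Subalgebra.mem_centralizer_iff] at h2
    exact LinearMap.congr_fun (h2 q rfl) v
  let qR : ∀ q ∈ Q, Module.End R V := fun q hq =>
    { toFun := q
      map_add' := fun x y => map_add q x y
      map_smul' := fun r v => hlin q hq r v }
  set QR : Set (Module.End R V) := {T | ∃ q, ∃ hq : q ∈ Q, T = qR q hq} with hQR
  -- restriction of scalars of `R`-submodules and endomorphisms
  have hirr' : ∀ X : Submodule R V, (∀ q ∈ QR, ∀ x ∈ X, q x ∈ X) → X = ⊥ ∨ X = ⊤ := by
    intro X hX
    have h1 := hirr.irr (X.restrictScalars E) (by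
      intro g hg x hx
      rcases hg with hg | hg
      · exact X.smul_mem (⟨g, Algebra.subset_adjoin hg⟩ : R) hx
      · exact hX (qR g hg) ⟨g, hg, rfl⟩ x hx)
    rcases h1 with h1 | h1
    · left
      rw [Submodule.eq_bot_iff] at h1 ⊢
      exact h1
    · right
      rw [Submodule.eq_top_iff'] at h1 ⊢
      exact h1
  have hsc' : ∀ T : Module.End R V, (∀ q ∈ QR, ∀ v, q (T v) = T (q v)) →
      ∃ e : E, ∀ v, T v = e • v := by
    intro T hT
    obtain ⟨e, he⟩ := hirr.sc (T.restrictScalars E) (by
      intro g hg v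
      rcases hg with hg | hg
      · exact (T.map_smul (⟨g, Algebra.subset_adjoin hg⟩ : R) v).symm
      · exact hT (qR g hg) ⟨g, hg, rfl⟩ v)
    exact ⟨e, he⟩
  obtain ⟨k, W, i1, i2, i3, i4, Φ, ρ, c, hk, hP, hQ⟩ :=
    layerA2 (E := E) (R := R) QR hirr' hsc'
  refine ⟨⟨k, W, Φ, fun p => if hp : p ∈ P then ρ ⟨p, Algebra.subset_adjoin hp⟩ else 0,
    fun q => if hq : q ∈ Q then c (qR q hq) else 0, hk, ?_, ?_⟩⟩
  · intro p hp v i
    rw [dif_pos hp]
    exact hP ⟨p, Algebra.subset_adjoin hp⟩ v i
  · intro q hq v i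
    rw [dif_pos hq]
    exact hQ (qR q hq) v i

namespace SplitData

variable {E : Type*} {V : Type u} [Field E] [AddCommGroup V] [Module E V]
    {P Q : Set (Module.End E V)} (D : SplitData E P Q)

theorem toLin_apply {k : ℕ} (A : Matrix (Fin k) (Fin k) E) (x : Fin k → E) (i : Fin k) :
    Matrix.toLin' A x i = ∑ j, A i j * x j := by
  rw [Matrix.toLin'_apply]
  rfl

theorem irr_right (hirr : Irr E (P ∪ Q)) :
    Irr E {T : Module.End E (Fin D.k → E) | ∃ q ∈ Q, T = Matrix.toLin' (D.c q)} := by
  classical
  obtain ⟨w0, hw0⟩ := exists_ne (0 : D.W)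
  constructor
  · -- irreducibility
    intro X hX
    let Y : Submodule E V :=
      { carrier := {v | ∀ φ : Dual E D.W, (fun i => φ (D.Φ v i)) ∈ X}
        zero_mem' := by
          intro φ
          have : (fun i => φ (D.Φ 0 i)) = (0 : Fin D.k → E) := by
            funext i; simp
          rw [this]; exact X.zero_mem
        add_mem' := by
          intro a b ha hb φ
          have : (fun i => φ (D.Φ (a + b) i)) =
              (fun i => φ (D.Φ a i)) + (fun i => φ (D.Φ b i)) := by
            funext i; simp
          rw [this]; exact X.add_mem (ha φ) (hb φ)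
        smul_mem' := by
          intro e a ha φ
          have : (fun i => φ (D.Φ (e • a) i)) = e • (fun i => φ (D.Φ a i)) := by
            funext i; simp
          rw [this]; exact X.smul_mem e (ha φ) }
    have hYinv := hirr.irr Y (by
      intro g hg x hx φ
      rcases hg with hg | hg
      · have h1 := hx (φ.comp (D.ρ g))
        have h2 : (fun i => φ (D.Φ (g x) i)) = (fun i => (φ.comp (D.ρ g)) (D.Φ x i)) := by
          funext i
          rw [D.hP g hg x i]
          rfl
        rw [h2]
        exact h1
      · have h1 := hX (Matrix.toLin' (D.c g)) ⟨g, hg, rfl⟩ _ (hx φ)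
        have h2 : (fun i => φ (D.Φ (g x) i)) =
            Matrix.toLin' (D.c g) (fun i => φ (D.Φ x i)) := by
          funext i
          rw [toLin_apply, D.hQ g hg x i, map_sum]
          refine Finset.sum_congr rfl (fun j _ => ?_)
          rw [map_smul, smul_eq_mul]
        rw [h2]
        exact h1)
    have hvx : ∀ x : Fin D.k → E, ∀ φ : Dual E D.W,
        (fun i => φ (D.Φ (D.Φ.symm (fun i => x i • w0)) i)) = φ w0 • x := by
      intro x φ
      funext i
      rw [LinearEquiv.apply_symm_apply, map_smul, smul_eq_mul, Pi.smul_apply, smul_eq_mul,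
        mul_comm]
    rcases hYinv with h | h
    · left
      rw [Submodule.eq_bot_iff]
      intro x hx
      have h1 : D.Φ.symm (fun i => x i • w0) ∈ Y := by
        intro φ
        rw [hvx]
        exact X.smul_mem _ hx
      rw [h, Submodule.mem_bot] at h1
      have h2 : (fun i => x i • w0) = (0 : Fin D.k → D.W) := by
        have := congrArg D.Φ h1
        rwa [LinearEquiv.apply_symm_apply, map_zero] at this
      funext i
      have h3 := congrFun h2 i
      simp only [Pi.zero_apply] at h3 ⊢
      exact (smul_eq_zero.1 h3).resolve_right hw0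
    · right
      rw [Submodule.eq_top_iff']
      intro x
      obtain ⟨φ, hφ⟩ := Module.Projective.exists_dual_ne_zero E hw0
      have h1 : D.Φ.symm (fun i => x i • w0) ∈ Y := by rw [h]; exact Submodule.mem_top
      have h2 := h1 φ
      rw [hvx] at h2
      have h3 := X.smul_mem (φ w0)⁻¹ h2
      rwa [smul_smul, inv_mul_cancel₀ hφ, one_smul] at h3
  · intro T hT
    let t : Fin D.k → Fin D.k → E := fun i j => T (Pi.single j 1) i
    have ht : ∀ x i, T x i = ∑ j, t i j * x j := by
      intro x i
      have h1 : x = ∑ j, x j • Pi.single j (1 : E) := by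
        funext l
        rw [Finset.sum_apply]
        simp [Pi.single_apply]
      conv_lhs => rw [h1]
      rw [map_sum, Finset.sum_apply]
      refine Finset.sum_congr rfl (fun j _ => ?_)
      rw [map_smul, Pi.smul_apply, smul_eq_mul, mul_comm]
    let TW : (Fin D.k → D.W) →ₗ[E] (Fin D.k → D.W) :=
      LinearMap.pi (fun i => ∑ j, t i j • LinearMap.proj j)
    have hTW : ∀ w i, TW w i = ∑ j, t i j • w j := by
      intro w i
      simp [TW, LinearMap.sum_apply]
    have hcomm : ∀ q ∈ Q, ∀ i l, ∑ j, D.c q i j * t j l = ∑ j, t i j * D.c q j l := by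
      intro q hq i l
      have h1 := congrFun (hT _ ⟨q, hq, rfl⟩ (Pi.single l 1)) i
      rw [toLin_apply, ht] at h1
      have h2 : ∀ j, Matrix.toLin' (D.c q) (Pi.single l 1) j = D.c q j l := by
        intro j
        rw [toLin_apply]
        simp [Pi.single_apply]
      simp only [h2] at h1
      exact h1
    obtain ⟨e, he⟩ := hirr.sc ((D.Φ.symm.toLinearMap.comp TW).comp D.Φ.toLinearMap) (by
      intro g hg v
      apply D.Φ.injective
      funext i
      simp only [LinearMap.comp_apply, LinearEquiv.coe_coe]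
      rw [LinearEquiv.apply_symm_apply, hTW]
      rcases hg with hg | hg
      · rw [D.hP g hg, LinearEquiv.apply_symm_apply, hTW, map_sum]
        refine Finset.sum_congr rfl (fun j _ => ?_)
        rw [D.hP g hg, map_smul]
      · rw [D.hQ g hg]
        simp only [LinearEquiv.apply_symm_apply, hTW, D.hQ g hg, Finset.smul_sum, smul_smul]
        rw [Finset.sum_comm]
        conv_rhs => rw [Finset.sum_comm]
        refine Finset.sum_congr rfl (fun l _ => ?_)
        rw [← Finset.sum_smul, ← Finset.sum_smul, hcomm g hg i l])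
    refine ⟨e, fun x => ?_⟩
    have h1 := he (D.Φ.symm (fun i => x i • w0))
    have h2 := congrArg D.Φ h1
    simp only [LinearMap.comp_apply, LinearEquiv.coe_coe, LinearEquiv.apply_symm_apply,
      map_smul] at h2
    funext i
    have h3 := congrFun h2 i
    rw [hTW, Pi.smul_apply] at h3
    simp only [smul_smul] at h3
    rw [← Finset.sum_smul] at h3
    have h4 : (T x i - e * x i) • w0 = 0 := by
      rw [sub_smul, ht, h3, sub_self]
    rw [Pi.smul_apply, smul_eq_mul]
    exact sub_eq_zero.1 ((smul_eq_zero.1 h4).resolve_right hw0)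

theorem comm_right (q : Module.End E V) (hq : q ∈ Q) (q' : Module.End E V) (hq' : q' ∈ Q)
    (hc : ∀ v, q (q' v) = q' (q v)) (u : Fin D.k → E) :
    Matrix.toLin' (D.c q) (Matrix.toLin' (D.c q') u) =
      Matrix.toLin' (D.c q') (Matrix.toLin' (D.c q) u) := by
  obtain ⟨w0, hw0⟩ := exists_ne (0 : D.W)
  have h1 := congrArg D.Φ (hc (D.Φ.symm (fun i => u i • w0)))
  funext i
  have h2 := congrFun h1 i
  rw [D.hQ q hq, D.hQ q' hq'] at h2
  simp only [D.hQ q hq, D.hQ q' hq', LinearEquiv.apply_symm_apply, smul_smul] at h2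
  simp only [← Finset.sum_smul, smul_smul] at h2
  rw [toLin_apply, toLin_apply]
  simp only [toLin_apply]
  have h3 := sub_eq_zero.2 h2
  rw [← sub_smul] at h3
  exact sub_eq_zero.1 ((smul_eq_zero.1 h3).resolve_right hw0)

end SplitData

end Pool.Agent.Lib.MP_3587c3_al
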