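import Mathlib
import Pool.Agent.Lib.MP_3587c3_al.Count
import Pool.Agent.Lib.MP_3587c3_al.Split

set_option autoImplicit false

/-!
# MP_3587c3_al: the affine simultaneous fixed point lemma over a finite field
-/

namespace Pool.Agent.Lib.MP_3587c3_al

universe u

open Module

/-- union bound -/
theorem exists_good {Ω ι : Type*} [Finite Ω] [Nonempty Ω] (A : Finset ι) (N : ℕ)
    (hA : A.card ≤ N) (bad : ι → Ω → Prop)
    (h : ∀ i ∈ A, N * Nat.card {x // bad i x} < Nat.card Ω) : ∃ x, ∀ i ∈ A, ¬ bad i x := by
  classical
  by_contra hcon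
  push Not at hcon
  have : Fintype Ω := Fintype.ofFinite Ω
  have h1 : (Finset.univ : Finset Ω) ⊆ A.biUnion (fun i => Finset.univ.filter (bad i)) := by
    intro x _
    obtain ⟨i, hi, hb⟩ := hcon x
    rw [Finset.mem_biUnion]
    exact ⟨i, hi, by simp [hb]⟩
  have h2 : Nat.card Ω ≤ ∑ i ∈ A, Nat.card {x // bad i x} := by
    rw [Nat.card_eq_fintype_card, ← Finset.card_univ]
    refine le_trans (Finset.card_le_card h1) (le_trans Finset.card_biUnion_le ?_)
    refine Finset.sum_le_sum (fun i _ => ?_)
    rw [Nat.card_eq_fintype_card, Fintype.card_subtype]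
  rcases A.eq_empty_or_nonempty with h0 | hne
  · rw [h0, Finset.sum_empty] at h2
    have : 0 < Nat.card Ω := Nat.card_pos
    omega
  · have h3 : N * Nat.card Ω ≤ ∑ i ∈ A, N * Nat.card {x // bad i x} := by
      rw [← Finset.mul_sum]
      exact Nat.mul_le_mul_left N h2
    have h4 : ∑ i ∈ A, N * Nat.card {x // bad i x} < ∑ i ∈ A, Nat.card Ω :=
      Finset.sum_lt_sum_of_nonempty hne h
    rw [Finset.sum_const, smul_eq_mul] at h4
    have h5 : A.card * Nat.card Ω ≤ N * Nat.card Ω := Nat.mul_le_mul_right _ hA
    omega

theorem card_bad {E W Ω κ : Type*} [Field E] [Finite E] [AddCommGroup W] [Module E W] [Finite W]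
    [Finite κ] (e : Ω ≃ (κ → W)) (h : finrank E W ≤ Nat.card κ) :
    (Nat.card E - 1) * Nat.card {x : Ω // ¬ (Submodule.span E (Set.range (e x)) = ⊤)} <
      Nat.card Ω := by
  have h1 : Nat.card {x : Ω // ¬ (Submodule.span E (Set.range (e x)) = ⊤)} =
      Nat.card {w : κ → W // Submodule.span E (Set.range w) ≠ ⊤} := by
    apply Nat.card_congr
    exact e.subtypeEquiv (fun x => Iff.rfl)
  rw [h1, Nat.card_congr e]
  exact card_nonspanning h

/-- a linear map fixing a spanning set is the identity -/
theorem fix_of_span {E W κ : Type*} [Field E] [AddCommGroup W] [Module E W] (T : Module.End E W)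
    (w : κ → W) (hw : ∀ l, T (w l) = w l) (x : W)
    (hx : x ∈ Submodule.span E (Set.range w)) : T x = x := by
  induction hx using Submodule.span_induction with
  | mem x hx => obtain ⟨l, rfl⟩ := hx; exact hw l
  | zero => simp
  | add x y _ _ hx hy => rw [map_add, hx, hy]
  | smul a x _ hx => rw [map_smul, hx]

theorem exists_between {E W : Type*} [Field E] [AddCommGroup W] [Module E W]
    [Module.Finite E W] (S : Submodule E W) (k : ℕ) (h1 : finrank E S ≤ k)
    (h2 : k ≤ finrank E W) : ∃ X : Submodule E W, S ≤ X ∧ finrank E X = k := by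
  induction k, h1 using Nat.le_induction with
  | base => exact ⟨S, le_rfl, rfl⟩
  | succ m hm ih =>
    obtain ⟨X, hX1, hX2⟩ := ih (by omega)
    have hne : X ≠ ⊤ := by
      intro h
      rw [h, finrank_top] at hX2
      omega
    obtain ⟨w, hw⟩ : ∃ w, w ∉ X := by
      by_contra hcon
      push Not at hcon
      exact hne ((Submodule.eq_top_iff').2 hcon)
    refine ⟨X ⊔ Submodule.span E {w}, le_trans hX1 le_sup_left, ?_⟩
    have h3 := Submodule.finrank_sup_add_finrank_inf_eq X (Submodule.span E {w})
    have h4 : X ⊓ Submodule.span E {w} = ⊥ := by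
      rw [Submodule.eq_bot_iff]
      intro y hy
      rw [Submodule.mem_inf, Submodule.mem_span_singleton] at hy
      obtain ⟨hy1, a, rfl⟩ := hy
      by_cases ha : a = 0
      · rw [ha, zero_smul]
      · exfalso
        apply hw
        have := X.smul_mem a⁻¹ hy1
        rwa [smul_smul, inv_mul_cancel₀ ha, one_smul] at this
    have h5 : w ≠ 0 := by
      rintro rfl
      exact hw X.zero_mem
    rw [h4, finrank_bot, finrank_span_singleton h5, hX2] at h3
    omega

/-- the affine lemma -/
theorem affine_main {E : Type*} {V : Type u} [Field E] [Finite E] [AddCommGroup V] [Module E V]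
    [Finite V] [Nontrivial V] {ι : Type*} (H : ι → Set (Module.End E V))
    (hcomm : ∀ i j, i ≠ j → ∀ a ∈ H i, ∀ b ∈ H j, ∀ v, a (b v) = b (a v))
    (hirr : Irr E (⋃ i, H i)) (A : Finset ι) (hA : ∀ i ∉ A, ∀ h ∈ H i, ∀ v, h v = v)
    (hcard : A.card ≤ Nat.card E - 1) (o n : ι → V) :
    ∃ v : V, ∀ i, ∀ h ∈ H i, h (v - o i) = v - o i → h (n i) = n i := by
  classical
  have hunion : ∀ i, (H i ∪ ⋃ j ∈ {j | j ≠ i}, H j) = ⋃ i, H i := by
    intro i
    ext x
    simp only [Set.mem_union, Set.mem_iUnion, Set.mem_ofPred_eq]
    constructor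
    · rintro (h | ⟨j, _, h⟩)
      · exact ⟨i, h⟩
      · exact ⟨j, h⟩
    · rintro ⟨j, h⟩
      by_cases hj : j = i
      · left; rw [← hj]; exact h
      · right; exact ⟨j, hj, h⟩
  have hD : ∀ i, Nonempty (SplitData E (H i) (⋃ j ∈ {j | j ≠ i}, H j)) := by
    intro i
    apply exists_splitData
    · intro a ha b hb v
      rw [Set.mem_iUnion₂] at hb
      obtain ⟨j, hj, hb⟩ := hb
      exact hcomm i j (Ne.symm hj) a ha b hb v
    · rw [hunion i]
      exact hirr
  obtain ⟨D⟩ := Classical.nonempty_pi.2 hD
  by_cases hcase : ∀ i ∈ A, finrank E (D i).W ≤ (D i).k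
  · -- all the multiplicities are large
    let e : ∀ i, V ≃ (Fin (D i).k → (D i).W) := fun i =>
      (Equiv.subRight (o i)).trans (D i).Φ.toEquiv
    have he : ∀ i v, e i v = (D i).Φ (v - o i) := fun i v => rfl
    obtain ⟨v, hv⟩ := exists_good A (Nat.card E - 1) hcard
      (fun i v => ¬ (Submodule.span E (Set.range (e i v)) = ⊤)) (by
        intro i hi
        exact card_bad (E := E) (e i) (by rw [Nat.card_eq_fintype_card, Fintype.card_fin]; exact hcase i hi))
    refine ⟨v, fun i h hh hfix => ?_⟩
    by_cases hi : i ∈ A
    · have h1 := hv i hi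
      rw [not_not] at h1
      apply (D i).Φ.injective
      funext l
      rw [(D i).hP h hh]
      apply fix_of_span _ (e i v)
      · intro l
        rw [he, ← (D i).hP h hh, hfix]
      · rw [h1]; exact Submodule.mem_top
    · exact hA i hi h hh _
  · push Not at hcase
    obtain ⟨i0, hi0, hlt⟩ := hcase
    have hfinW : Module.Finite E (D i0).W := Module.Finite.of_finite
    -- the subspace
    obtain ⟨X, hX1, hX2⟩ : ∃ X : Submodule E (D i0).W,
        Submodule.span E (Set.range ((D i0).Φ (n i0))) ≤ X ∧ finrank E X = (D i0).k := by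
      have h1 : finrank E (Submodule.span E (Set.range ((D i0).Φ (n i0)))) ≤ (D i0).k := by
        have := finrank_range_le_card (R := E) ((D i0).Φ (n i0))
        rw [Fintype.card_fin] at this
        exact this
      exact exists_between _ _ h1 hlt.le
    obtain ⟨Y, hY⟩ := Submodule.exists_isCompl X
    let π : (D i0).W →ₗ[E] X := Submodule.projectionOnto X Y hY
    have hπ : ∀ x : X, π (x : (D i0).W) = x := fun x => Submodule.projectionOnto_apply_left hY x
    let vv : (Fin (D i0).k → X) → V := fun x => o i0 + (D i0).Φ.symm (fun l => (x l : (D i0).W))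
    have hvv : ∀ x l, (D i0).Φ (vv x - o i0) l = (x l : (D i0).W) := by
      intro x l
      have : vv x - o i0 = (D i0).Φ.symm (fun l => (x l : (D i0).W)) := by
        simp only [vv]; abel
      rw [this, LinearEquiv.apply_symm_apply]
    have hfinX : Finite X := inferInstance
    have hkpos := (D i0).hk
    -- the conditions
    have hcond : ∀ j, ∃ bad : (Fin (D i0).k → X) → Prop,
        (j ∈ A → (Nat.card E - 1) * Nat.card {x // bad x} < Nat.card (Fin (D i0).k → X)) ∧
        ∀ x, ¬ bad x → ∀ h ∈ H j, h (vv x - o j) = vv x - o j → h (n j) = n j := by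
      intro j
      by_cases hj : j = i0
      · subst hj
        refine ⟨fun x => ¬ (Submodule.span E (Set.range x) = ⊤), ?_, ?_⟩
        · intro _
          exact card_bad (E := E) (Equiv.refl _)
            (by rw [Nat.card_eq_fintype_card, Fintype.card_fin, hX2])
        · intro x hx h hh hfix
          rw [not_not] at hx
          apply (D j).Φ.injective
          funext l
          rw [(D j).hP h hh]
          apply fix_of_span _ (fun l => ((x l : X) : (D j).W))
          · intro l
            rw [← hvv x l, ← (D j).hP h hh, hfix]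
          · have h1 : Submodule.span E (Set.range (fun l => ((x l : X) : (D j).W))) = X := by
              have h2 : Set.range (fun l => ((x l : X) : (D j).W)) =
                  X.subtype '' (Set.range x) := by
                rw [← Set.range_comp]; rfl
              rw [h2, Submodule.span_image, hx, Submodule.map_top, Submodule.range_subtype]
            rw [h1]
            exact hX1 (Submodule.subset_span ⟨l, rfl⟩)
      · -- another index
        have hjm : ∀ h ∈ H j, h ∈ ⋃ j ∈ {j | j ≠ i0}, H j := by
          intro h hh
          rw [Set.mem_iUnion₂]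
          exact ⟨j, hj, hh⟩
        let SS : Set (Module.End E (Fin (D i0).k → E)) := {T | ∃ q ∈ H j, T = Matrix.toLin' ((D i0).c q)}
        let QQ : Set (Module.End E (Fin (D i0).k → E)) :=
          {T | ∃ l, l ≠ i0 ∧ l ≠ j ∧ ∃ q ∈ H l, T = Matrix.toLin' ((D i0).c q)}
        have hirr1 : Irr E (H i0 ∪ ⋃ j ∈ {j | j ≠ i0}, H j) := by
          rw [hunion i0]; exact hirr
        have hSQ : SS ∪ QQ = {T : Module.End E (Fin (D i0).k → E) |
            ∃ q ∈ (⋃ j ∈ {j | j ≠ i0}, H j), T = Matrix.toLin' ((D i0).c q)} := by
          ext T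
          simp only [Set.mem_union, Set.mem_ofPred_eq, SS, QQ, Set.mem_iUnion₂]
          constructor
          · rintro (⟨q, hq, h⟩ | ⟨l, hl, _, q, hq, h⟩)
            · exact ⟨q, ⟨j, hj, hq⟩, h⟩
            · exact ⟨q, ⟨l, hl, hq⟩, h⟩
          · rintro ⟨q, ⟨l, hl, hq⟩, h⟩
            by_cases hlj : l = j
            · left; subst hlj; exact ⟨q, hq, h⟩
            · right; exact ⟨l, hl, hlj, q, hq, h⟩
        have hirr2 : Irr E (SS ∪ QQ) := by
          rw [hSQ]
          exact (D i0).irr_right hirr1
        have hnt : Nontrivial (Fin (D i0).k → E) := by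
          have : Nonempty (Fin (D i0).k) := ⟨⟨0, (D i0).hk⟩⟩
          infer_instance
        obtain ⟨D1⟩ := exists_splitData SS QQ (by
          rintro a ⟨q, hq, rfl⟩ b ⟨l, hl, hlj, q', hq', rfl⟩ u
          refine (D i0).comm_right q (hjm q hq) q' ?_ ?_ u
          · rw [Set.mem_iUnion₂]; exact ⟨l, hl, hq'⟩
          · exact hcomm j l (Ne.symm hlj) q hq q' hq') hirr2
        let β : X ≃ₗ[E] (Fin (D i0).k → E) := LinearEquiv.ofFinrankEq X (Fin (D i0).k → E) (by
          rw [hX2, Module.finrank_fin_fun])
        let z : Fin (D i0).k → X := fun i => π ((D i0).Φ (o i0 - o j) i)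
        let e : (Fin (D i0).k → X) ≃ (Fin (D i0).k × Fin D1.k → D1.W) :=
          ((((Equiv.addRight z).trans (Equiv.piCongrRight (fun _ => β.toEquiv))).trans
            (Equiv.piComm (fun _ _ => E))).trans
            (Equiv.piCongrRight (fun _ => D1.Φ.toEquiv))).trans
            (Equiv.curry (Fin (D i0).k) (Fin D1.k) D1.W).symm
        have he : ∀ x s t, e x (s, t) = D1.Φ (fun i => β (x i + z i) s) t := by
          intro x s t
          rfl
        have hfr : finrank E D1.W ≤ Nat.card (Fin (D i0).k × Fin D1.k) := by
          have h1 : finrank E (Fin (D i0).k → E) = finrank E (Fin D1.k → D1.W) :=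
            LinearEquiv.finrank_eq D1.Φ
          have h2 : Module.Finite E D1.W := Module.Finite.of_finite
          rw [Module.finrank_fin_fun, Module.finrank_pi_fintype, Finset.sum_const,
            Finset.card_univ, Fintype.card_fin, smul_eq_mul] at h1
          rw [Nat.card_prod, Nat.card_eq_fintype_card, Nat.card_eq_fintype_card,
            Fintype.card_fin, Fintype.card_fin]
          have h3 : 1 ≤ D1.k := D1.hk
          calc finrank E D1.W ≤ D1.k * finrank E D1.W := Nat.le_mul_of_pos_left _ h3
            _ = (D i0).k := h1.symm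
            _ ≤ (D i0).k * D1.k := Nat.le_mul_of_pos_right _ h3
        refine ⟨fun x => ¬ (Submodule.span E (Set.range (e x)) = ⊤), ?_, ?_⟩
        · intro _
          exact card_bad (E := E) e hfr
        · intro x hx h hh hfix
          rw [not_not] at hx
          -- the matrix is trivial
          have hy : ∀ i, π ((D i0).Φ (vv x - o j) i) = x i + z i := by
            intro i
            have h1 : vv x - o j = (vv x - o i0) + (o i0 - o j) := by abel
            rw [h1, map_add, Pi.add_apply, map_add, hvv, hπ]
          have hfix2 : ∀ i, x i + z i = ∑ l, (D i0).c h i l • (x l + z l) := by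
            intro i
            have h1 := (D i0).hQ h (hjm h hh) (vv x - o j) i
            rw [hfix] at h1
            have h2 := congrArg π h1
            rw [map_sum] at h2
            simp only [map_smul, hy] at h2
            exact h2
          have hfix3 : ∀ s, Matrix.toLin' ((D i0).c h) (fun i => β (x i + z i) s) =
              (fun i => β (x i + z i) s) := by
            intro s
            funext i
            rw [SplitData.toLin_apply]
            conv_rhs => rw [hfix2 i]
            rw [map_sum, Finset.sum_apply]
            refine Finset.sum_congr rfl (fun l _ => ?_)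
            rw [map_smul, Pi.smul_apply, smul_eq_mul]
          have hmem : Matrix.toLin' ((D i0).c h) ∈ SS := ⟨h, hh, rfl⟩
          have hid : ∀ u, Matrix.toLin' ((D i0).c h) u = u := by
            intro u
            apply D1.Φ.injective
            funext t
            rw [D1.hP _ hmem]
            apply fix_of_span _ (e x)
            · rintro ⟨s, t⟩
              rw [he, ← D1.hP _ hmem, hfix3]
            · rw [hx]; exact Submodule.mem_top
          apply (D i0).Φ.injective
          funext i
          rw [(D i0).hQ h (hjm h hh)]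
          have hc : ∀ l, (D i0).c h i l = if i = l then 1 else 0 := by
            intro l
            have h1 := congrFun (hid (Pi.single l 1)) i
            rw [SplitData.toLin_apply] at h1
            simp only [Pi.single_apply, mul_ite, mul_one, mul_zero, Finset.sum_ite_eq',
              Finset.mem_univ, if_true] at h1
            exact h1
          simp only [hc, ite_smul, one_smul, zero_smul, Finset.sum_ite_eq, Finset.mem_univ,
            if_true]
    choose bad hbad1 hbad2 using hcond
    obtain ⟨x, hx⟩ := exists_good A (Nat.card E - 1) hcard bad (fun i hi => hbad1 i hi)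
    refine ⟨vv x, fun i h hh hfix => ?_⟩
    by_cases hi : i ∈ A
    · exact hbad2 i x (hx i hi) h hh hfix
    · exact hA i hi h hh _

end Pool.Agent.Lib.MP_3587c3_al
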