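import Mathlib

set_option autoImplicit false

/-!
# MP_3587c3_al: definitions used in the statements
-/

namespace Pool.Agent.Lib.MP_3587c3_al

/-- `P ∩ P^x`, where `P^x = x⁻¹ P x`: the elements `a` of `P` with `x a x⁻¹ ∈ P`. -/
def conjInter {G : Type*} [Group G] (P : Subgroup G) (x : G) : Subgroup G :=
  P ⊓ P.comap (MulAut.conj x).toMonoidHom

/-- `P ∩ P^x` is a minimal member of the family of all `P ∩ P^y`, `y ∈ G`. -/
def IsMinimalInter {G : Type*} [Group G] (P : Subgroup G) (x : G) : Prop :=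
  ∀ y : G, conjInter P y ≤ conjInter P x → conjInter P y = conjInter P x

/-- `O_p(G)`, the intersection of all Sylow `p`-subgroups of `G`. -/
def pCore (p : ℕ) (G : Type*) [Group G] : Subgroup G := ⨅ Q : Sylow p G, (Q : Subgroup G)

theorem mem_conjInter {G : Type*} [Group G] (P : Subgroup G) (x a : G) :
    a ∈ conjInter P x ↔ a ∈ P ∧ x * a * x⁻¹ ∈ P := Iff.rfl

end Pool.Agent.Lib.MP_3587c3_al
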