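import Mathlib
import Pool.Agent.Lib.MP_3587c3_al.Affine

set_option autoImplicit false

/-!
# MP_3587c3_al: the simultaneous fixed point lemma for commuting `p`-groups on a module
-/

namespace Pool.Agent.Lib.MP_3587c3_al

universe u

open Module

theorem exists_field (D : Type u) [DivisionRing D] [Finite D] :
    ∃ (E : Type u) (_ : Field E), Nonempty (E ≃+* D) :=
  ⟨D, littleWedderburn D, ⟨RingEquiv.refl D⟩⟩

/-- the commutant of a finite simple module -/
theorem exists_field_module {R : Type*} {V : Type u} [Ring R] [AddCommGroup V] [Module R V]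
    [IsSimpleModule R V] [Finite V] :
    ∃ (E : Type u) (_ : Field E) (_ : Finite E) (_ : Module E V),
      (∀ (e : E) (r : R) (v : V), e • (r • v) = r • (e • v)) ∧
      (∀ T : V →+ V, (∀ (r : R) (v : V), T (r • v) = r • T v) → ∃ e : E, ∀ v, T v = e • v) := by
  classical
  have hfinD : Finite (Module.End R V) :=
    Finite.of_injective (fun f : Module.End R V => (f : V → V)) DFunLike.coe_injective
  obtain ⟨E, hE, ⟨φ⟩⟩ := exists_field (Module.End R V)
  have hfinE : Finite E := Finite.of_equiv _ φ.symm.toEquiv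
  let hmod : Module E V := Module.compHom V (φ : E →+* Module.End R V)
  have hsmul : ∀ (e : E) (v : V), e • v = φ e v := fun e v => rfl
  refine ⟨E, hE, hfinE, hmod, ?_, ?_⟩
  · intro e r v
    rw [hsmul, hsmul, map_smul]
  · intro T hT
    let T' : Module.End R V := { T with map_smul' := hT }
    refine ⟨φ.symm T', fun v => ?_⟩
    rw [hsmul, RingEquiv.apply_symm_apply]
    rfl

/-- the group form of the affine lemma -/
theorem group_form {V : Type u} [AddCommGroup V] [Finite V] [Nontrivial V]
    {G : Type*} [Group G] [Finite G] (τ : G →* AddMonoid.End V) {ι : Type*} [Finite ι]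
    (p : ι → ℕ) (hp : ∀ i, (p i).Prime) (hinj : Function.Injective p)
    (P : ι → Subgroup G) (hP : ∀ i, IsPGroup (p i) (P i))
    (hcomm : ∀ i j, i ≠ j → ∀ a ∈ P i, ∀ b ∈ P j, ∀ v, τ a (τ b v) = τ b (τ a v))
    (hirr : ∀ X : AddSubgroup V, (∀ i, ∀ a ∈ P i, ∀ x ∈ X, τ a x ∈ X) → X = ⊥ ∨ X = ⊤)
    (o n : ι → V) :
    ∃ v, ∀ i, ∀ a ∈ P i, τ a (v - o i) = v - o i → τ a (n i) = n i := by
  classical
  have hft : Fintype ι := Fintype.ofFinite ι
  let R : Subring (AddMonoid.End V) := Subring.closure {T | ∃ i, ∃ a ∈ P i, T = τ a}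
  have hRsmul : ∀ (r : R) (v : V), r • v = (r : AddMonoid.End V) v := fun r v => rfl
  have hτR : ∀ i, ∀ a ∈ P i, τ a ∈ R := fun i a ha => Subring.subset_closure ⟨i, a, ha, rfl⟩
  have hsimple : IsSimpleModule R V := by
    rw [isSimpleModule_iff]
    refine { exists_pair_ne := ⟨⊥, ⊤, ?_⟩, eq_bot_or_eq_top := ?_ }
    · exact bot_ne_top
    · intro X
      have h1 := hirr X.toAddSubgroup (by
        intro i a ha x hx
        exact X.smul_mem (⟨τ a, hτR i a ha⟩ : R) hx)
      rcases h1 with h1 | h1
      · left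
        rw [Submodule.eq_bot_iff]
        intro x hx
        have : x ∈ X.toAddSubgroup := hx
        rw [h1] at this
        exact this
      · right
        rw [Submodule.eq_top_iff']
        intro x
        have : x ∈ X.toAddSubgroup := by rw [h1]; exact AddSubgroup.mem_top _
        exact this
  obtain ⟨E, hE, hfE, hmod, hcom, hsc⟩ := exists_field_module (R := R) (V := V)
  -- things commuting with the generators commute with `R`
  have hcen : ∀ T : AddMonoid.End V, (∀ i, ∀ a ∈ P i, ∀ v, T (τ a v) = τ a (T v)) →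
      ∀ (r : R) (v : V), T (r • v) = r • T v := by
    intro T hT r v
    have h1 : R ≤ Subring.centralizer {T} := by
      rw [Subring.closure_le]
      rintro S ⟨i, a, ha, rfl⟩
      rw [SetLike.mem_coe, Subring.mem_centralizer_iff]
      intro g hg
      rw [Set.mem_singleton_iff] at hg
      subst hg
      exact AddMonoidHom.ext (fun v => hT i a ha v)
    have h2 := h1 r.2
    rw [Subring.mem_centralizer_iff] at h2
    exact DFunLike.congr_fun (h2 T rfl) v
  have hlinτ : ∀ i, ∀ a ∈ P i, ∀ (e : E) (v : V), τ a (e • v) = e • τ a v := by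
    intro i a ha e v
    exact (hcom e (⟨τ a, hτR i a ha⟩ : R) v).symm
  let H : ι → Set (Module.End E V) := fun i => {T | ∃ a ∈ P i, ∀ v, T v = τ a v}
  let L : ∀ i, ∀ a ∈ P i, Module.End E V := fun i a ha =>
    { toFun := τ a
      map_add' := fun x y => map_add (τ a) x y
      map_smul' := fun e v => hlinτ i a ha e v }
  have hL : ∀ i a (ha : a ∈ P i), L i a ha ∈ H i := fun i a ha => ⟨a, ha, fun v => rfl⟩
  have hIrr : Irr E (⋃ i, H i) := by
    constructor
    · intro X hX
      have h1 := hirr X.toAddSubgroup (by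
        intro i a ha x hx
        exact hX (L i a ha) (Set.mem_iUnion.2 ⟨i, hL i a ha⟩) x hx)
      rcases h1 with h1 | h1
      · left
        rw [Submodule.eq_bot_iff]
        intro x hx
        have : x ∈ X.toAddSubgroup := hx
        rw [h1] at this
        exact this
      · right
        rw [Submodule.eq_top_iff']
        intro x
        have : x ∈ X.toAddSubgroup := by rw [h1]; exact AddSubgroup.mem_top _
        exact this
    · intro T hT
      obtain ⟨e, he⟩ := hsc T.toAddMonoidHom (hcen _ (by
        intro i a ha v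
        exact (hT (L i a ha) (Set.mem_iUnion.2 ⟨i, hL i a ha⟩) v).symm))
      exact ⟨e, he⟩
  let A : Finset ι := Finset.univ.filter (fun i => ∃ a ∈ P i, ∃ v, τ a v ≠ v)
  have hA : ∀ i ∉ A, ∀ h ∈ H i, ∀ v, h v = v := by
    intro i hi h hh v
    obtain ⟨a, ha, hav⟩ := hh
    rw [hav]
    by_contra hne
    exact hi (Finset.mem_filter.2 ⟨Finset.mem_univ _, a, ha, v, hne⟩)
  have hactive : ∀ i ∈ A, p i ∣ Nat.card E - 1 := by
    intro i hi
    obtain ⟨_, a, ha, v, hv⟩ := Finset.mem_filter.1 hi
    let K : Subgroup (AddMonoid.End V)ˣ := (P i).map τ.toHomUnits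
    have hKp : IsPGroup (p i) K := (hP i).map τ.toHomUnits
    have hKfin : Finite K := by
      have : Finite (P i) := inferInstance
      exact Finite.Set.finite_image (P i : Set G) τ.toHomUnits
    have hKnt : Nontrivial K := by
      refine ⟨⟨⟨τ.toHomUnits a, Subgroup.mem_map_of_mem _ ha⟩, 1, ?_⟩⟩
      intro h
      apply hv
      have h1 : τ.toHomUnits a = 1 := congrArg Subtype.val h
      have h2 : τ a = 1 := by
        have := congrArg (fun u : (AddMonoid.End V)ˣ => (u : AddMonoid.End V)) h1
        simpa using this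
      rw [h2]
      rfl
    have hfact : Fact (p i).Prime := ⟨hp i⟩
    have hcnt := hKp.center_nontrivial
    obtain ⟨z, hz⟩ := exists_ne (1 : Subgroup.center K)
    obtain ⟨c, hc, hcz⟩ := Subgroup.mem_map.1 z.1.2
    have hτc : τ c ≠ 1 := by
      intro h
      apply hz
      apply Subtype.ext
      apply Subtype.ext
      rw [← hcz]
      apply Units.ext
      simpa using h
    have hcomm2 : ∀ j, ∀ b ∈ P j, ∀ v, τ c (τ b v) = τ b (τ c v) := by
      intro j b hb v
      by_cases hji : j = i
      · subst hji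
        have h1 := (Subgroup.mem_center_iff.1 z.2) ⟨τ.toHomUnits b, Subgroup.mem_map_of_mem _ hb⟩
        have h2 := congrArg (fun u : K => ((u : (AddMonoid.End V)ˣ) : AddMonoid.End V)) h1
        have h3 : τ b * τ c = τ c * τ b := by
          have h4 : ((z.1 : K) : (AddMonoid.End V)ˣ) = τ.toHomUnits c := hcz.symm
          simpa [h4] using h2
        exact (DFunLike.congr_fun h3 v).symm
      · exact hcomm i j (Ne.symm hji) c hc b hb v
    obtain ⟨e, he⟩ := hsc (τ c) (hcen (τ c) (fun j b hb v => hcomm2 j b hb v))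
    obtain ⟨m, hm⟩ := hP i ⟨c, hc⟩
    have hm' : c ^ (p i ^ m) = 1 := congrArg Subtype.val hm
    obtain ⟨w, hw⟩ := exists_ne (0 : V)
    have hpow : ∀ r : ℕ, ∀ v : V, (τ (c ^ r)) v = e ^ r • v := by
      intro r
      induction r with
      | zero =>
        intro v
        rw [pow_zero, map_one, pow_zero, one_smul]
        rfl
      | succ r ih =>
        intro v
        rw [pow_succ, map_mul, pow_succ, mul_smul, ← he v, ← ih]
        rfl
    have he1 : e ^ (p i ^ m) = 1 := by
      have h1 := hpow (p i ^ m) w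
      rw [hm', map_one] at h1
      have h2 : (e ^ (p i ^ m) - 1) • w = 0 := by
        rw [sub_smul, one_smul, ← h1]
        exact sub_self _
      exact sub_eq_zero.1 ((smul_eq_zero.1 h2).resolve_right hw)
    have hene : e ≠ 1 := by
      intro h
      apply hτc
      apply AddMonoidHom.ext
      intro v
      rw [he v, h, one_smul]
      rfl
    have hppos : 0 < p i ^ m := pow_pos (hp i).pos m
    have he0 : e ≠ 0 := by
      rintro rfl
      rw [zero_pow hppos.ne'] at he1
      exact zero_ne_one he1
    have hft2 : Fintype E := Fintype.ofFinite E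
    have h1 : e ^ (Nat.card E - 1) = 1 := by
      rw [Nat.card_eq_fintype_card]
      exact FiniteField.pow_card_sub_one_eq_one e he0
    have h2 : orderOf e ∣ p i ^ m := orderOf_dvd_of_pow_eq_one he1
    have h3 : orderOf e ∣ Nat.card E - 1 := orderOf_dvd_of_pow_eq_one h1
    obtain ⟨t, _, ht⟩ := (Nat.dvd_prime_pow (hp i)).1 h2
    have ht0 : t ≠ 0 := by
      rintro rfl
      rw [pow_zero, orderOf_eq_one_iff] at ht
      exact hene ht
    exact dvd_trans (dvd_trans (dvd_pow_self _ ht0) (ht ▸ dvd_rfl)) h3
  have hcardA : A.card ≤ Nat.card E - 1 := by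
    have hE2 : 2 ≤ Nat.card E := by
      have : Fintype E := Fintype.ofFinite E
      rw [Nat.card_eq_fintype_card]
      exact Fintype.one_lt_card
    have h1 : A.image p ⊆ Finset.Icc 1 (Nat.card E - 1) := by
      intro q hq
      rw [Finset.mem_image] at hq
      obtain ⟨i, hi, rfl⟩ := hq
      rw [Finset.mem_Icc]
      exact ⟨(hp i).one_lt.le, Nat.le_of_dvd (by omega) (hactive i hi)⟩
    have h2 := Finset.card_le_card h1
    rw [Finset.card_image_of_injective _ hinj, Nat.card_Icc] at h2
    omega
  obtain ⟨v, hv⟩ := affine_main H (by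
    intro i j hij S hS T hT v
    obtain ⟨a, ha, hSa⟩ := hS
    obtain ⟨b, hb, hTb⟩ := hT
    rw [hSa, hTb, hSa, hTb]
    exact hcomm i j hij a ha b hb v) hIrr A hA hcardA o n
  exact ⟨v, fun i a ha hfix => hv i (L i a ha) (hL i a ha) hfix⟩

end Pool.Agent.Lib.MP_3587c3_al
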