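import Mathlib
import Pool.Agent.Lib.MP_3587c3_al.GroupForm

set_option autoImplicit false

/-!
# MP_3587c3_al: the induction
-/

namespace Pool.Agent.Lib.MP_3587c3_al

universe u v

open scoped Pointwise commutatorElement

/-- a minimal normal subgroup of `G` inside the centre of a nilpotent normal subgroup -/
theorem exists_minN {G : Type u} [Group G] [Finite G] (F : Subgroup G) [F.Normal]
    (hF : Group.IsNilpotent F) (hne : F ≠ ⊥) :
    ∃ M : Subgroup G, M.Normal ∧ M ≠ ⊥ ∧ M ≤ F ∧ (∀ m ∈ M, ∀ f ∈ F, f * m = m * f) ∧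
      (∀ K : Subgroup G, K.Normal → K ≤ M → K = ⊥ ∨ K = M) ∧
      ∃ s : ℕ, s.Prime ∧ IsPGroup s M := by
  classical
  have hnt : Nontrivial F := (Subgroup.nontrivial_iff_ne_bot F).2 hne
  set Z : Subgroup G := (Subgroup.center F).map F.subtype with hZ
  have hZn : Z.Normal := ConjAct.normal_of_characteristic_of_normal
  have hZle : Z ≤ F := by
    intro z hz
    obtain ⟨y, _, rfl⟩ := Subgroup.mem_map.1 hz
    exact y.2
  have hZc : ∀ z ∈ Z, ∀ f ∈ F, f * z = z * f := by
    intro z hz f hf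
    obtain ⟨y, hy, rfl⟩ := Subgroup.mem_map.1 hz
    have := (Subgroup.mem_center_iff.1 hy) ⟨f, hf⟩
    exact congrArg Subtype.val this
  have hZne : Z ≠ ⊥ := by
    intro h
    have h1 : Subgroup.center F ≠ ⊥ := Group.IsNilpotent.center_ne_bot F
    apply h1
    rw [Subgroup.eq_bot_iff_forall]
    intro y hy
    have h2 : (y : G) ∈ Z := Subgroup.mem_map.2 ⟨y, hy, rfl⟩
    rw [h, Subgroup.mem_bot] at h2
    exact Subtype.ext h2
  have hcard : Nat.card Z ≠ 1 := by
    intro h
    exact hZne (Subgroup.eq_bot_of_card_eq Z h)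
  obtain ⟨s, hs, hsd⟩ := Nat.exists_prime_and_dvd hcard
  have hsf : Fact s.Prime := ⟨hs⟩
  obtain ⟨z0, hz0⟩ := exists_prime_orderOf_dvd_card' s hsd
  let Ω : Subgroup G :=
    { carrier := {z | z ∈ Z ∧ z ^ s = 1}
      one_mem' := ⟨Z.one_mem, one_pow s⟩
      mul_mem' := by
        rintro a b ⟨ha, ha1⟩ ⟨hb, hb1⟩
        refine ⟨Z.mul_mem ha hb, ?_⟩
        have hc : Commute a b := hZc b hb a (hZle ha)
        rw [hc.mul_pow, ha1, hb1, one_mul]
      inv_mem' := by
        rintro a ⟨ha, ha1⟩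
        exact ⟨Z.inv_mem ha, by rw [inv_pow, ha1, inv_one]⟩ }
  have hΩZ : Ω ≤ Z := fun z hz => hz.1
  have hΩn : Ω.Normal := by
    constructor
    rintro z ⟨hz, hz1⟩ g
    refine ⟨hZn.conj_mem z hz g, ?_⟩
    rw [conj_pow, hz1, mul_one, mul_inv_cancel]
  have hΩne : Ω ≠ ⊥ := by
    intro h
    have h1 : (z0 : G) ∈ Ω := by
      refine ⟨z0.2, ?_⟩
      have := pow_orderOf_eq_one z0
      rw [hz0] at this
      exact congrArg Subtype.val this
    rw [h, Subgroup.mem_bot] at h1
    have h2 : z0 = 1 := Subtype.ext h1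
    rw [h2, orderOf_one] at hz0
    exact hs.one_lt.ne hz0
  -- a minimal one
  have hfin : Finite (Subgroup G) := inferInstance
  obtain ⟨M, hM⟩ := Set.Finite.exists_minimal
    (Set.toFinite {K : Subgroup G | K.Normal ∧ K ≠ ⊥ ∧ K ≤ Ω}) ⟨Ω, hΩn, hΩne, le_rfl⟩
  obtain ⟨hMn, hMne, hMΩ⟩ := hM.1
  refine ⟨M, hMn, hMne, le_trans hMΩ (le_trans hΩZ hZle), ?_, ?_, s, hs, ?_⟩
  · intro m hm f hf
    exact hZc m (hΩZ (hMΩ hm)) f hf
  · intro K hK hKM
    by_cases hKb : K = ⊥
    · exact Or.inl hKb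
    · right
      exact le_antisymm hKM (hM.2 ⟨hK, hKb, le_trans hKM hMΩ⟩ hKM)
  · intro m
    refine ⟨1, ?_⟩
    rw [pow_one]
    exact Subtype.ext (hMΩ m.2).2

/-- the linear step -/
theorem linear_step {G : Type u} [Group G] [Finite G] (F M : Subgroup G)
    [hMnorm : M.Normal] (hMne : M ≠ ⊥) (hMF : M ≤ F) (hcen : ∀ m ∈ M, ∀ f ∈ F, f * m = m * f)
    (hmin : ∀ K : Subgroup G, K.Normal → K ≤ M → K = ⊥ ∨ K = M) {ι : Type v} [Finite ι]
    (p : ι → ℕ) (hp : ∀ i, (p i).Prime) (hinj : Function.Injective p)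
    (P : ι → Subgroup G) (hP : ∀ i, IsPGroup (p i) (P i))
    (hcomm : ∀ i j, i ≠ j → ∀ a ∈ P i, ∀ b ∈ P j, ⁅a, b⁆ ∈ F) (hgen : F ⊔ ⨆ i, P i = ⊤)
    (o n : ι → G) (ho : ∀ i, o i ∈ M) (hn : ∀ i, n i ∈ M) :
    ∃ v ∈ M, ∀ i, ∀ a ∈ P i, a * (v * (o i)⁻¹) * a⁻¹ = v * (o i)⁻¹ →
      a * n i * a⁻¹ = n i := by
  classical
  let hcg : CommGroup M :=
    { (inferInstance : Group M) with
      mul_comm := fun a b => Subtype.ext (hcen b b.2 a (hMF a.2)) }
  let σ : G → (Additive M →+ Additive M) := fun g =>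
    { toFun := fun m => Additive.ofMul ⟨g * (m.toMul : G) * g⁻¹, hMnorm.conj_mem _ m.toMul.2 g⟩
      map_zero' := by
        apply Additive.toMul.injective
        apply Subtype.ext
        show g * ((1 : M) : G) * g⁻¹ = 1
        rw [Subgroup.coe_one, mul_one, mul_inv_cancel]
      map_add' := by
        intro x y
        apply Additive.toMul.injective
        apply Subtype.ext
        show g * ((x.toMul * y.toMul : M) : G) * g⁻¹ =
          (g * (x.toMul : G) * g⁻¹) * (g * (y.toMul : G) * g⁻¹)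
        rw [Subgroup.coe_mul]
        group }
  have hσ : ∀ g m, ((σ g m).toMul : G) = g * (m.toMul : G) * g⁻¹ := fun g m => rfl
  let τ : G →* AddMonoid.End (Additive M) :=
    { toFun := σ
      map_one' := by
        apply AddMonoidHom.ext
        intro m
        apply Additive.toMul.injective
        apply Subtype.ext
        show 1 * (m.toMul : G) * 1⁻¹ = (m.toMul : G)
        group
      map_mul' := by
        intro g h
        apply AddMonoidHom.ext
        intro m
        apply Additive.toMul.injective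
        apply Subtype.ext
        show (g * h) * (m.toMul : G) * (g * h)⁻¹ = g * (h * (m.toMul : G) * h⁻¹) * g⁻¹
        group }
  have hτ : ∀ g m, ((τ g m).toMul : G) = g * (m.toMul : G) * g⁻¹ := fun g m => rfl
  have hnt : Nontrivial (Additive M) := by
    have : Nontrivial M := (Subgroup.nontrivial_iff_ne_bot M).2 hMne
    infer_instance
  have hconjF : ∀ m ∈ M, ∀ f ∈ F, f * m * f⁻¹ = m := by
    intro m hm f hf
    rw [hcen m hm f hf, mul_assoc, mul_inv_cancel, mul_one]
  obtain ⟨v, hv⟩ := group_form τ p hp hinj P hP (by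
    intro i j hij a ha b hb v
    apply Additive.toMul.injective
    apply Subtype.ext
    rw [hτ, hτ, hτ, hτ]
    have h1 := hconjF (b * (a * (v.toMul : G) * a⁻¹) * b⁻¹)
      (hMnorm.conj_mem _ (hMnorm.conj_mem _ v.toMul.2 a) b) _ (hcomm i j hij a ha b hb)
    rw [← h1, commutatorElement_def]
    group) (by
    intro X hX
    let K : Subgroup G :=
      { carrier := {g | ∃ h : g ∈ M, Additive.ofMul (⟨g, h⟩ : M) ∈ X}
        one_mem' := ⟨M.one_mem, X.zero_mem⟩
        mul_mem' := by
          rintro a b ⟨ha, ha1⟩ ⟨hb, hb1⟩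
          exact ⟨M.mul_mem ha hb, X.add_mem ha1 hb1⟩
        inv_mem' := by
          rintro a ⟨ha, ha1⟩
          exact ⟨M.inv_mem ha, X.neg_mem ha1⟩ }
    have hKM : K ≤ M := fun g hg => hg.1
    have hnorm : Subgroup.normalizer (K : Set G) = ⊤ := by
      rw [eq_top_iff, ← hgen]
      apply sup_le
      · intro f hf
        rw [Subgroup.mem_normalizer_iff]
        intro h
        constructor
        · intro hh
          rw [hconjF h (hKM hh) f hf]
          exact hh
        · intro hh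
          have h2 := hconjF _ (hKM hh) f⁻¹ (F.inv_mem hf)
          have h3 : h = f * h * f⁻¹ := by
            calc h = f⁻¹ * (f * h * f⁻¹) * f⁻¹⁻¹ := by group
              _ = f * h * f⁻¹ := h2
          rw [h3]
          exact hh
      · apply iSup_le
        intro i a ha
        have key : ∀ a ∈ P i, ∀ h ∈ K, a * h * a⁻¹ ∈ K := by
          rintro a ha h ⟨hh, hh1⟩
          exact ⟨hMnorm.conj_mem _ hh a, hX i a ha _ hh1⟩
        rw [Subgroup.mem_normalizer_iff]
        intro h
        constructor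
        · intro hh
          exact key a ha h hh
        · intro hh
          have h2 := key a⁻¹ ((P i).inv_mem ha) _ hh
          have h3 : h = a⁻¹ * (a * h * a⁻¹) * a⁻¹⁻¹ := by group
          rw [h3]
          exact h2
    have hKn : K.Normal := Subgroup.normalizer_eq_top_iff.1 hnorm
    rcases hmin K hKn hKM with h | h
    · left
      rw [AddSubgroup.eq_bot_iff_forall]
      intro x hx
      have h1 : (x.toMul : G) ∈ K := ⟨x.toMul.2, hx⟩
      rw [h, Subgroup.mem_bot] at h1
      apply Additive.toMul.injective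
      exact Subtype.ext h1
    · right
      rw [AddSubgroup.eq_top_iff']
      intro x
      have h1 : (x.toMul : G) ∈ K := by rw [h]; exact x.toMul.2
      exact h1.2)
    (fun i => Additive.ofMul ⟨o i, ho i⟩) (fun i => Additive.ofMul ⟨n i, hn i⟩)
  refine ⟨v.toMul, v.toMul.2, fun i a ha hfix => ?_⟩
  have h1 := hv i a ha (by
    apply Additive.toMul.injective
    apply Subtype.ext
    rw [hτ]
    show a * (((v.toMul / ⟨o i, ho i⟩ : M)) : G) * a⁻¹ = ((v.toMul / ⟨o i, ho i⟩ : M) : G)
    rw [Subgroup.coe_div, div_eq_mul_inv]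
    exact hfix)
  have h2 := congrArg (fun x : Additive M => (x.toMul : G)) h1
  exact h2

theorem mem_map_mk' {G : Type u} [Group G] (M : Subgroup G) [M.Normal] (P : Subgroup G) (a : G) :
    QuotientGroup.mk' M a ∈ P.map (QuotientGroup.mk' M) ↔ a ∈ P ⊔ M := by
  have h1 : (P.map (QuotientGroup.mk' M)).comap (QuotientGroup.mk' M) = P ⊔ M := by
    rw [Subgroup.comap_map_eq, QuotientGroup.ker_mk']
  rw [← h1, Subgroup.mem_comap]

end Pool.Agent.Lib.MP_3587c3_al
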