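import Mathlib
import Pool.Agent.Lib.MP_3587c3_al.Induct

set_option autoImplicit false

/-!
# MP_3587c3_al: the affine main induction
-/

namespace Pool.Agent.Lib.MP_3587c3_al

universe u v

open scoped Pointwise commutatorElement

/-- conjugating a `p`-subgroup of `P M` into `P` by an element of `M`, `M` a normal `s`-group -/
theorem conj_into' {G : Type u} [Group G] [Finite G] {p s : ℕ} [Fact p.Prime] [Fact s.Prime]
    (hps : s ≠ p) (P : Subgroup G) (hP : IsPGroup p P)
    (M : Subgroup G) [hMn : M.Normal] (hM : IsPGroup s M) (D : Subgroup G) (hD : IsPGroup p D)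
    (hDP : D ≤ P ⊔ M) :
    ∃ u ∈ M, ∀ d ∈ D, u * d * u⁻¹ ∈ P := by
  set K : Subgroup G := P ⊔ M with hK
  have hPK : P ≤ K := le_sup_left
  have hMK : M ≤ K := le_sup_right
  have hdisj : Disjoint M P := IsPGroup.disjoint_of_ne s p hps _ _ hM hP
  have hcompl : Subgroup.IsComplement' (M.subgroupOf K) (P.subgroupOf K) := by
    apply Subgroup.isComplement'_of_disjoint_and_mul_eq_univ
    · rw [disjoint_iff, Subgroup.eq_bot_iff_forall]
      rintro x ⟨hx1, hx2⟩
      rw [disjoint_iff] at hdisj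
      have h1 : (x : G) ∈ M ⊓ P := ⟨Subgroup.mem_subgroupOf.1 hx1, Subgroup.mem_subgroupOf.1 hx2⟩
      rw [hdisj, Subgroup.mem_bot] at h1
      exact Subtype.ext h1
    · rw [Set.eq_univ_iff_forall]
      intro x
      have hx : (x : G) ∈ M ⊔ P := by
        rw [sup_comm]; exact x.2
      obtain ⟨u, hu, c, hc, huc⟩ := Subgroup.mem_sup_of_normal_left.1 hx
      exact Set.mem_mul.2 ⟨⟨u, hMK hu⟩, Subgroup.mem_subgroupOf.2 hu, ⟨c, hPK hc⟩,
        Subgroup.mem_subgroupOf.2 hc, Subtype.ext huc⟩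
  have hindex : ¬ p ∣ (P.subgroupOf K).index := by
    rw [hcompl.index_eq_card]
    intro h
    have h1 : Nat.card (M.subgroupOf K) = Nat.card M :=
      Nat.card_congr (Subgroup.subgroupOfEquivOfLe hMK).toEquiv
    rw [h1] at h
    obtain ⟨k, hk⟩ := IsPGroup.iff_card.1 hM
    rw [hk] at h
    have h2 := (Fact.out : p.Prime).dvd_of_dvd_pow h
    exact hps ((Nat.prime_dvd_prime_iff_eq Fact.out Fact.out).1 h2).symm
  have hP1' : IsPGroup p (P.subgroupOf K) := hP.comap_of_injective K.subtype Subtype.val_injective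
  let P1 : Sylow p K := hP1'.toSylow hindex
  let D1 : Subgroup K := D.subgroupOf K
  have hD1 : IsPGroup p D1 := hD.comap_of_injective K.subtype Subtype.val_injective
  obtain ⟨Q, hQ⟩ := hD1.exists_le_sylow
  obtain ⟨k, hk⟩ := MulAction.exists_smul_eq K Q P1
  obtain ⟨c, hc, u, hu, hcu⟩ := Subgroup.mem_sup_of_normal_right.1 k.2
  refine ⟨u, hu, fun d hd => ?_⟩
  have h1 : (⟨d, hDP hd⟩ : K) ∈ Q := hQ (Subgroup.mem_subgroupOf.2 hd)
  have h2 : k * ⟨d, hDP hd⟩ * k⁻¹ ∈ (k • Q : Sylow p K) := by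
    rw [← SetLike.mem_coe, Sylow.coe_smul]
    exact ⟨⟨d, hDP hd⟩, h1, rfl⟩
  rw [hk] at h2
  have h3 : (k : G) * d * (k : G)⁻¹ ∈ P := h2
  rw [← hcu] at h3
  have h4 : u * d * u⁻¹ = c⁻¹ * (c * u * d * (c * u)⁻¹) * c := by group
  rw [h4]
  exact P.mul_mem (P.mul_mem (P.inv_mem hc) h3) hc

/-- The main induction. -/
theorem main_ind {ι : Type v} [Finite ι] (p : ι → ℕ) [hp : ∀ i, Fact (p i).Prime]
    (hinj : Function.Injective p) : ∀ (m : ℕ) (G : Type u) [Group G] [Finite G],
    Nat.card G ≤ m → ∀ (F : Subgroup G) [F.Normal], Group.IsNilpotent F →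
    ∀ (P : ι → Subgroup G), (∀ i, IsPGroup (p i) (P i)) →
    (∀ i, ∀ z ∈ F, (∃ k : ℕ, z ^ (p i ^ k) = 1) → z ∈ P i) →
    (∀ i j, i ≠ j → ∀ a ∈ P i, ∀ b ∈ P j, ⁅a, b⁆ ∈ F) →
    (F ⊔ ⨆ i, P i = ⊤) → ∀ (f g : ι → G), (∀ i, f i ∈ F) → (∀ i, g i ∈ F) →
    ∃ x ∈ F, ∀ i, ∀ a ∈ P i, (f i * x) * a * (f i * x)⁻¹ ∈ P i →
      g i * a * (g i)⁻¹ ∈ P i := by
  intro m
  induction m with
  | zero =>
    intro G _ _ hG
    exfalso
    have : 0 < Nat.card G := Nat.card_pos
    omega
  | succ m ih =>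
    intro G _ _ hG F _ hF P hP hPF hcomm hgen f g hf hg
    by_cases hFbot : F = ⊥
    · refine ⟨1, F.one_mem, fun i a ha _ => ?_⟩
      have h1 := hg i
      rw [hFbot, Subgroup.mem_bot] at h1
      rw [h1, one_mul, inv_one, mul_one]
      exact ha
    obtain ⟨M, hMn, hMne, hMF, hcen, hmin, s, hs, hsM⟩ := exists_minN F hF hFbot
    have hconjF : ∀ m ∈ M, ∀ f ∈ F, f * m * f⁻¹ = m := by
      intro m hm f hf
      rw [hcen m hm f hf, mul_assoc, mul_inv_cancel, mul_one]
    set q := QuotientGroup.mk' M with hq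
    have hqs : Function.Surjective q := QuotientGroup.mk'_surjective M
    -- the induction hypothesis for `G / M`
    have hcardq : Nat.card (G ⧸ M) ≤ m := by
      have h1 := Subgroup.card_eq_card_quotient_mul_card_subgroup M
      have h2 : 1 < Nat.card M := by
        rw [Nat.one_lt_iff_ne_zero_and_ne_one]
        refine ⟨Nat.card_pos.ne', fun h => hMne (Subgroup.eq_bot_of_card_eq M h)⟩
      have h3 : 0 < Nat.card (G ⧸ M) := Nat.card_pos
      have h4 : Nat.card (G ⧸ M) * 2 ≤ Nat.card (G ⧸ M) * Nat.card M :=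
        Nat.mul_le_mul_left _ h2
      omega
    have hFq : Group.IsNilpotent (F.map q) := by
      have := hF
      exact Group.nilpotent_of_surjective (q.subgroupMap F) (MonoidHom.subgroupMap_surjective q F)
    have hFqn : (F.map q).Normal := Subgroup.Normal.map inferInstance q hqs
    obtain ⟨x', hx', hx'2⟩ := ih (G ⧸ M) hcardq (F.map q) hFq
      (fun i => (P i).map q) (fun i => (hP i).map q) (by
        intro i z' hz' hk
        obtain ⟨z, hz, rfl⟩ := Subgroup.mem_map.1 hz'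
        obtain ⟨k, hk⟩ := hk
        have hzM : z ^ (p i ^ k) ∈ M := by
          rw [← map_pow] at hk
          exact (QuotientGroup.eq_one_iff _).1 hk
        obtain ⟨r, hr⟩ := hsM ⟨_, hzM⟩
        have hr' : (z ^ (p i ^ k)) ^ (s ^ r) = 1 := congrArg Subtype.val hr
        by_cases hsp : s = p i
        · refine Subgroup.mem_map_of_mem q (hPF i z hz ⟨k + r, ?_⟩)
          rw [pow_add, pow_mul, ← hsp] 
          rw [← hsp] at hr'
          exact hr'
        · -- coprime
          have hcop : Nat.Coprime (s ^ r) (p i ^ k) :=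
            Nat.Coprime.pow _ _ ((Nat.coprime_primes hs (hp i).out).2 hsp)
          obtain ⟨t, ht0, ht1⟩ := Nat.chineseRemainder hcop 0 1
          have hz1 : (z ^ t) ^ (p i ^ k) = 1 := by
            obtain ⟨c, hc⟩ := (Nat.modEq_zero_iff_dvd.1 ht0)
            rw [← pow_mul, mul_comm, pow_mul, hc, pow_mul, hr', one_pow]
          have hz2 : q z = q (z ^ t) := by
            have h1 : orderOf (q z) ∣ p i ^ k := orderOf_dvd_of_pow_eq_one hk
            have h2 : (q z) ^ t = (q z) ^ 1 := pow_eq_pow_iff_modEq.2 (ht1.of_dvd h1)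
            rw [map_pow, h2, pow_one]
          rw [hz2]
          exact Subgroup.mem_map_of_mem q (hPF i _ (F.pow_mem hz t) ⟨k, hz1⟩)) (by
        intro i j hij a' ha' b' hb'
        obtain ⟨a, ha, rfl⟩ := Subgroup.mem_map.1 ha'
        obtain ⟨b, hb, rfl⟩ := Subgroup.mem_map.1 hb'
        rw [← map_commutatorElement]
        exact Subgroup.mem_map_of_mem q (hcomm i j hij a ha b hb)) (by
        have h1 := congrArg (Subgroup.map q) hgen
        rw [Subgroup.map_sup, Subgroup.map_iSup, Subgroup.map_top_of_surjective q hqs] at h1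
        exact h1) (fun i => q (f i)) (fun i => q (g i)) (fun i => Subgroup.mem_map_of_mem q (hf i))
      (fun i => Subgroup.mem_map_of_mem q (hg i))
    obtain ⟨x, hx, rfl⟩ := Subgroup.mem_map.1 hx'
    have hIH : ∀ i, ∀ a ∈ P i, (f i * x) * a * (f i * x)⁻¹ ∈ (P i : Subgroup G) ⊔ M →
        g i * a * (g i)⁻¹ ∈ (P i : Subgroup G) ⊔ M := by
      intro i a ha hxa
      rw [← mem_map_mk'] at hxa ⊢
      have h1 := hx'2 i (q a) (Subgroup.mem_map_of_mem q ha) (by
        rw [← map_mul, ← map_inv, ← map_mul, ← map_mul]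
        exact hxa)
      rw [← map_inv, ← map_mul, ← map_mul] at h1
      exact h1
    -- the local corrections
    have hMPs : ∀ i, s = p i → M ≤ P i := by
      intro i hsp m hm
      obtain ⟨r, hr⟩ := hsM ⟨m, hm⟩
      refine hPF i m (hMF hm) ⟨r, ?_⟩
      rw [← hsp]
      exact congrArg Subtype.val hr
    have hloc : ∀ (i : ι) (y : G), ∃ u ∈ M, ∀ a ∈ P i, y * a * y⁻¹ ∈ (P i : Subgroup G) ⊔ M →
        u * (y * a * y⁻¹) * u⁻¹ ∈ P i := by
      intro i y
      by_cases hsp : s = p i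
      · refine ⟨1, M.one_mem, fun a ha hya => ?_⟩
        rw [sup_eq_left.2 (hMPs i hsp)] at hya
        rw [one_mul, inv_one, mul_one]
        exact hya
      have hsf : Fact s.Prime := ⟨hs⟩
      obtain ⟨u, hu, hu2⟩ := conj_into' hsp (P i) (hP i) M hsM
        (((P i : Subgroup G).map (MulAut.conj y).toMonoidHom) ⊓ ((P i : Subgroup G) ⊔ M))
        (((hP i).map _).to_le inf_le_left) inf_le_right
      refine ⟨u, hu, fun a ha hya => hu2 _ ⟨?_, hya⟩⟩
      exact Subgroup.mem_map.2 ⟨a, ha, rfl⟩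
    choose u hu hu2 using fun i => hloc i (f i * x)
    choose w hw hw2 using fun i => hloc i (g i)
    obtain ⟨v, hv, hv2⟩ := linear_step F M hMne hMF hcen hmin p (fun i => (hp i).out) hinj
      P hP hcomm hgen u w hu hw
    refine ⟨v * x, F.mul_mem (hMF hv) hx, fun i a ha hfin => ?_⟩
    have hfv : f i * (v * x) = v * (f i * x) := by
      rw [← mul_assoc, hcen v hv (f i) (hf i), mul_assoc]
    rw [hfv] at hfin
    have hfx : f i * x ∈ F := F.mul_mem (hf i) hx
    have hxa : (f i * x) * a * (f i * x)⁻¹ ∈ (P i : Subgroup G) ⊔ M := by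
      have h1 : (f i * x) * a * (f i * x)⁻¹ =
          v⁻¹ * (v * (f i * x) * a * (v * (f i * x))⁻¹) * v := by group
      rw [h1]
      exact Subgroup.mul_mem _ (Subgroup.mul_mem _ (Subgroup.mem_sup_right (M.inv_mem hv))
        (Subgroup.mem_sup_left hfin)) (Subgroup.mem_sup_right hv)
    have hga := hIH i a ha hxa
    have hb := hu2 i a ha hxa
    have hc := hw2 i a ha hga
    by_cases hsp : s = p i
    · -- `M ≤ P i`
      rw [sup_eq_left.2 (hMPs i hsp)] at hga
      exact hga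
    · have hMP : ∀ y, y ∈ M → y ∈ P i → y = 1 := by
        intro y hyM hyP
        have h1 : IsPGroup s (Subgroup.zpowers y) :=
          hsM.to_le (by rwa [Subgroup.zpowers_le])
        have h2 : IsPGroup (p i) (Subgroup.zpowers y) :=
          (hP i).to_le (by rw [Subgroup.zpowers_le]; exact hyP)
        have hsf : Fact s.Prime := ⟨hs⟩
        have h3 := IsPGroup.disjoint_of_ne s (p i) hsp _ _ h1 h2
        rw [disjoint_self] at h3
        rwa [Subgroup.zpowers_eq_bot] at h3
      have hact : ∀ f ∈ F, ∀ z ∈ M, (f * a * f⁻¹) * z * (f * a * f⁻¹)⁻¹ = a * z * a⁻¹ := by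
        intro f hf z hz
        have h1 : f⁻¹ * z * f⁻¹⁻¹ = z := hconjF z hz f⁻¹ (F.inv_mem hf)
        have h2 : f * (a * z * a⁻¹) * f⁻¹ = a * z * a⁻¹ :=
          hconjF _ (hMn.conj_mem z hz a) f hf
        calc (f * a * f⁻¹) * z * (f * a * f⁻¹)⁻¹
            = f * (a * (f⁻¹ * z * f⁻¹⁻¹) * a⁻¹) * f⁻¹ := by group
          _ = a * z * a⁻¹ := by rw [h1, h2]
      set b := u i * ((f i * x) * a * (f i * x)⁻¹) * (u i)⁻¹ with hbdef
      set c := w i * (g i * a * (g i)⁻¹) * (w i)⁻¹ with hcdef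
      have ht : v * (u i)⁻¹ ∈ M := M.mul_mem hv (M.inv_mem (hu i))
      have hb2 : b = (u i * (f i * x)) * a * (u i * (f i * x))⁻¹ := by rw [hbdef]; group
      have hc2 : c = (w i * g i) * a * (w i * g i)⁻¹ := by rw [hcdef]; group
      have hone : (v * (u i)⁻¹) * b * (v * (u i)⁻¹)⁻¹ * b⁻¹ = 1 := by
        apply hMP
        · have h1 : (v * (u i)⁻¹) * b * (v * (u i)⁻¹)⁻¹ * b⁻¹ =
              (v * (u i)⁻¹) * (b * (v * (u i)⁻¹)⁻¹ * b⁻¹) := by group
          rw [h1]
          exact M.mul_mem ht (hMn.conj_mem _ (M.inv_mem ht) b)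
        · refine (P i).mul_mem ?_ ((P i).inv_mem hb)
          have h1 : (v * (u i)⁻¹) * b * (v * (u i)⁻¹)⁻¹ =
              v * (f i * x) * a * (v * (f i * x))⁻¹ := by
            rw [hbdef]; group
          rw [h1]
          exact hfin
      have hfix : b * (v * (u i)⁻¹) * b⁻¹ = v * (u i)⁻¹ := by
        have h1 : (v * (u i)⁻¹) * b = b * (v * (u i)⁻¹) := by
          have h2 : (v * (u i)⁻¹) * b =
              ((v * (u i)⁻¹) * b * (v * (u i)⁻¹)⁻¹ * b⁻¹) * (b * (v * (u i)⁻¹)) := by group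
          rw [h2, hone, one_mul]
        rw [← h1]
        group
      rw [hb2, hact _ (F.mul_mem (hMF (hu i)) hfx) _ ht] at hfix
      have h5 := hv2 i a ha hfix
      have h6 : c * w i * c⁻¹ = w i := by
        rw [hc2, hact _ (F.mul_mem (hMF (hw i)) (hg i)) _ (hw i)]
        exact h5
      have h7 : g i * a * (g i)⁻¹ = c := by
        have h8 : g i * a * (g i)⁻¹ = (w i)⁻¹ * c * w i := by rw [hcdef]; group
        have h9 : c * w i = w i * c := by
          calc c * w i = (c * w i * c⁻¹) * c := by group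
            _ = w i * c := by rw [h6]
        rw [h8, mul_assoc, h9]
        group
      rw [h7]
      exact hc

end Pool.Agent.Lib.MP_3587c3_al
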