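import Mathlib
import Pool.Agent.Lib.MP_3587c3_al.Induct2

set_option autoImplicit false

/-!
# MP_3587c3_al: the lifting theorem
-/

namespace Pool.Agent.Lib.MP_3587c3_al

universe u

open scoped Pointwise commutatorElement

/-- conjugating a `p`-subgroup of `P M` into the Sylow subgroup `P` by an element of `M` -/
theorem conj_into {G : Type u} [Group G] [Finite G] {p : ℕ} [Fact p.Prime] (P : Sylow p G)
    (M : Subgroup G) [M.Normal] (D : Subgroup G) (hD : IsPGroup p D)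
    (hDP : D ≤ (P : Subgroup G) ⊔ M) :
    ∃ u ∈ M, ∀ d ∈ D, u * d * u⁻¹ ∈ P := by
  set K : Subgroup G := (P : Subgroup G) ⊔ M with hK
  let P1 : Sylow p K := P.subtype le_sup_left
  let D1 : Subgroup K := D.subgroupOf K
  have hD1 : IsPGroup p D1 := hD.comap_of_injective K.subtype Subtype.val_injective
  obtain ⟨Q, hQ⟩ := hD1.exists_le_sylow
  obtain ⟨k, hk⟩ := MulAction.exists_smul_eq K Q P1
  obtain ⟨c, hc, u, hu, hcu⟩ := Subgroup.mem_sup_of_normal_right.1 k.2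
  refine ⟨u, hu, fun d hd => ?_⟩
  have h1 : (⟨d, hDP hd⟩ : K) ∈ Q := hQ (Subgroup.mem_subgroupOf.2 hd)
  have h2 : k * ⟨d, hDP hd⟩ * k⁻¹ ∈ (k • Q : Sylow p K) := by
    rw [← SetLike.mem_coe, Sylow.coe_smul]
    exact ⟨⟨d, hDP hd⟩, h1, rfl⟩
  rw [hk] at h2
  have h3 : (k : G) * d * (k : G)⁻¹ ∈ P := h2
  rw [← hcu] at h3
  have h4 : u * d * u⁻¹ = c⁻¹ * (c * u * d * (c * u)⁻¹) * c := by group
  rw [h4]
  exact P.mul_mem (P.mul_mem (P.inv_mem hc) h3) hc

theorem conj_mem_iff {G : Type u} [Group G] [Finite G] (D : Subgroup G) (k : G)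
    (h : ∀ a ∈ D, k * a * k⁻¹ ∈ D) (a : G) : k * a * k⁻¹ ∈ D ↔ a ∈ D := by
  constructor
  · intro ha
    have hpow : ∀ n : ℕ, ∀ a ∈ D, k ^ n * a * (k ^ n)⁻¹ ∈ D := by
      intro n
      induction n with
      | zero => intro a ha; simpa using ha
      | succ n ih =>
        intro a ha
        have h1 : k ^ (n + 1) * a * (k ^ (n + 1))⁻¹ = k ^ n * (k * a * k⁻¹) * (k ^ n)⁻¹ := by
          rw [pow_succ]; group
        rw [h1]
        exact ih _ (h a ha)
    have hk : k⁻¹ = k ^ (orderOf k - 1) := by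
      rw [inv_eq_iff_mul_eq_one, ← pow_succ', Nat.sub_add_cancel (orderOf_pos k),
        pow_orderOf_eq_one]
    have h1 := hpow (orderOf k - 1) _ ha
    rw [← hk] at h1
    have h2 : k⁻¹ * (k * a * k⁻¹) * k⁻¹⁻¹ = a := by group
    rwa [h2] at h1
  · exact h a

/-- Frattini argument -/
theorem frattini' {G : Type u} [Group G] [Finite G] {p : ℕ} [Fact p.Prime] (P : Sylow p G)
    (N : Subgroup G) [N.Normal] (T : Subgroup G) (hT : T.Normal)
    (hTP : T ≤ (P : Subgroup G) ⊔ N) (y : G) :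
    ∃ f ∈ N, ∀ a, f * a * f⁻¹ ∈ (P : Subgroup G) ⊓ T ↔ y * a * y⁻¹ ∈ (P : Subgroup G) ⊓ T := by
  set D : Subgroup G := (P : Subgroup G) ⊓ T with hDdef
  have hD : IsPGroup p D := P.isPGroup'.to_le inf_le_left
  obtain ⟨u, hu, hu2⟩ := conj_into P N (D.map (MulAut.conj y⁻¹).toMonoidHom) (hD.map _) (by
    intro d hd
    obtain ⟨c, hc, rfl⟩ := Subgroup.mem_map.1 hd
    exact hTP (hT.conj_mem c hc.2 y⁻¹))
  have hkey : ∀ a ∈ D, (u * y⁻¹) * a * (u * y⁻¹)⁻¹ ∈ D := by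
    intro a ha
    have h1 : (u * y⁻¹) * a * (u * y⁻¹)⁻¹ = u * (y⁻¹ * a * y⁻¹⁻¹) * u⁻¹ := by group
    refine ⟨?_, ?_⟩
    · rw [h1]
      exact hu2 _ (Subgroup.mem_map.2 ⟨a, ha, rfl⟩)
    · exact hT.conj_mem a ha.2 _
  refine ⟨u, hu, fun a => ?_⟩
  have h1 := conj_mem_iff D (u * y⁻¹) hkey (y * a * y⁻¹)
  have h2 : (u * y⁻¹) * (y * a * y⁻¹) * (u * y⁻¹)⁻¹ = u * a * u⁻¹ := by group
  rw [h2] at h1
  exact h1

/-- the `p`-elements of a nilpotent normal subgroup lie in every Sylow `p`-subgroup -/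
theorem nil_pelem {G : Type u} [Group G] [Finite G] {p : ℕ} [Fact p.Prime] (P : Sylow p G)
    (N : Subgroup G) [N.Normal] (hN : Group.IsNilpotent N) (z : G) (hz : z ∈ N)
    (hzp : ∃ k : ℕ, z ^ (p ^ k) = 1) : z ∈ P := by
  obtain ⟨k, hk⟩ := hzp
  have hzg : IsPGroup p (Subgroup.zpowers (⟨z, hz⟩ : N)) := by
    rw [IsPGroup.iff_orderOf]
    rintro ⟨w, hw⟩
    obtain ⟨j, rfl⟩ := Subgroup.mem_zpowers_iff.1 hw
    have h1 : (⟨(⟨z, hz⟩ : N) ^ j, hw⟩ : Subgroup.zpowers (⟨z, hz⟩ : N)) ^ (p ^ k) = 1 := by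
      apply Subtype.ext
      apply Subtype.ext
      show (z ^ j) ^ (p ^ k) = 1
      rw [← zpow_natCast, ← zpow_mul, mul_comm, zpow_mul, zpow_natCast, hk, one_zpow]
    obtain ⟨m, _, hm⟩ := (Nat.dvd_prime_pow Fact.out).1 (orderOf_dvd_of_pow_eq_one h1)
    exact ⟨m, hm⟩
  obtain ⟨Q, hQ⟩ := hzg.exists_le_sylow
  have hQn : (Q : Subgroup N).Normal := inferInstance
  have hQc : (Q : Subgroup N).Characteristic := Q.characteristic_of_normal hQn
  have hQG : ((Q : Subgroup N).map N.subtype).Normal := ConjAct.normal_of_characteristic_of_normal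
  have hQp : IsPGroup p ((Q : Subgroup N).map N.subtype) := Q.isPGroup'.map _
  exact hQp.le_sylow_of_normal P
    (Subgroup.mem_map.2 ⟨⟨z, hz⟩, hQ (Subgroup.mem_zpowers _), rfl⟩)

/-- The lifting theorem. -/
theorem lift {G : Type u} [Group G] [Finite G] (N : Subgroup G) [N.Normal]
    (hN : Group.IsNilpotent N) {ι : Type*} [Finite ι] (p : ι → ℕ) [hp : ∀ i, Fact (p i).Prime]
    (hinj : Function.Injective p) (P : ∀ i, Sylow (p i) G)
    (T : ι → Subgroup G) (hT : ∀ i, (T i).Normal) (hNT : ∀ i, N ≤ T i)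
    (hTP : ∀ i, T i ≤ (P i : Subgroup G) ⊔ N) (y : G)
    (hy : ∀ i, ∀ a ∈ P i, y * a * y⁻¹ ∈ (P i : Subgroup G) ⊔ N → a ∈ T i) (g : ι → G) :
    ∃ m ∈ N, ∀ i, ∀ a ∈ P i, (y * m) * a * (y * m)⁻¹ ∈ P i →
      a ∈ T i ∧ g i * a * (g i)⁻¹ ∈ P i := by
  choose f hf hf2 using fun i => frattini' (P i) N (T i) (hT i) (hTP i) y
  choose γ hγ hγ2 using fun i => frattini' (P i) N (T i) (hT i) (hTP i) (g i)
  set D : ι → Subgroup G := fun i => (P i : Subgroup G) ⊓ T i with hD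
  set K : Subgroup G := N ⊔ ⨆ i, D i with hK
  have hNK : N ≤ K := le_sup_left
  have hDK : ∀ i, D i ≤ K := fun i => le_trans (le_iSup D i) le_sup_right
  have hcomm : ∀ i j, i ≠ j → ∀ a ∈ D i, ∀ b ∈ D j, ⁅a, b⁆ ∈ N := by
    intro i j hij a ha b hb
    have h1 : ⁅a, b⁆ ∈ (P i : Subgroup G) ⊔ N := by
      apply hTP i
      rw [commutatorElement_def]
      have h2 : a * b * a⁻¹ * b⁻¹ = a * (b * a⁻¹ * b⁻¹) := by group
      rw [h2]
      exact Subgroup.mul_mem _ ha.2 ((hT i).conj_mem _ ((T i).inv_mem ha.2) b)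
    have h2 : ⁅a, b⁆ ∈ (P j : Subgroup G) ⊔ N := by
      apply hTP j
      rw [commutatorElement_def]
      exact Subgroup.mul_mem _ ((hT j).conj_mem _ hb.2 a) ((T j).inv_mem hb.2)
    rw [← mem_map_mk'] at h1 h2
    set y := QuotientGroup.mk' N ⁅a, b⁆ with hy
    have h3 : IsPGroup (p i) (Subgroup.zpowers y) :=
      ((P i).isPGroup'.map (QuotientGroup.mk' N)).to_le (by rwa [Subgroup.zpowers_le])
    have h4 : IsPGroup (p j) (Subgroup.zpowers y) :=
      ((P j).isPGroup'.map (QuotientGroup.mk' N)).to_le (by rwa [Subgroup.zpowers_le])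
    have h5 := IsPGroup.disjoint_of_ne (p i) (p j) (fun h => hij (hinj h)) _ _ h3 h4
    rw [disjoint_self] at h5
    rw [Subgroup.zpowers_eq_bot] at h5
    exact (QuotientGroup.eq_one_iff _).1 h5
  have hFn : Group.IsNilpotent (N.subgroupOf K) := by
    have := hN
    exact Group.nilpotent_of_mulEquiv (Subgroup.subgroupOfEquivOfLe hNK).symm
  obtain ⟨x, hx, hx2⟩ := main_ind p hinj (Nat.card K) K le_rfl (N.subgroupOf K) hFn
    (fun i => (D i).subgroupOf K) (by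
      intro i
      exact ((P i).isPGroup'.to_le inf_le_left : IsPGroup (p i) (D i)).comap_of_injective
        K.subtype Subtype.val_injective) (by
      intro i z hz hzk
      obtain ⟨k, hk⟩ := hzk
      have hz' : (z : G) ∈ N := Subgroup.mem_subgroupOf.1 hz
      refine Subgroup.mem_subgroupOf.2 ⟨?_, hNT i hz'⟩
      exact nil_pelem (P i) N hN z hz' ⟨k, congrArg Subtype.val hk⟩) (by
      intro i j hij a ha b hb
      exact Subgroup.mem_subgroupOf.2 (hcomm i j hij a ha b hb)) (by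
      apply Subgroup.map_injective K.subtype_injective
      rw [Subgroup.map_sup, Subgroup.map_iSup]
      have h1 : ∀ i, ((D i).subgroupOf K).map K.subtype = D i := by
        intro i
        exact Subgroup.map_subgroupOf_eq_of_le (hDK i)
      have h2 : (N.subgroupOf K).map K.subtype = N := Subgroup.map_subgroupOf_eq_of_le hNK
      simp only [h1, h2]
      rw [← MonoidHom.range_eq_map, Subgroup.range_subtype])
    (fun i => ⟨f i, hNK (hf i)⟩) (fun i => ⟨γ i, hNK (hγ i)⟩)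
    (fun i => Subgroup.mem_subgroupOf.2 (hf i)) (fun i => Subgroup.mem_subgroupOf.2 (hγ i))
  have hxN : (x : G) ∈ N := Subgroup.mem_subgroupOf.1 hx
  refine ⟨x, hxN, fun i a ha hxa => ?_⟩
  have haT : a ∈ T i := by
    apply hy i a ha
    have hn : (a⁻¹ * (x : G)⁻¹ * a⁻¹⁻¹) * x ∈ N :=
      N.mul_mem (Subgroup.Normal.conj_mem inferInstance _ (N.inv_mem hxN) _) hxN
    have h1 : y * a * y⁻¹ = ((y * x) * a * (y * x)⁻¹) *
        ((y * x) * ((a⁻¹ * (x : G)⁻¹ * a⁻¹⁻¹) * x) * (y * x)⁻¹) := by group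
    rw [h1]
    exact Subgroup.mul_mem _ (Subgroup.mem_sup_left hxa)
      (Subgroup.mem_sup_right (Subgroup.Normal.conj_mem inferInstance _ hn _))
  have haD : a ∈ D i := ⟨ha, haT⟩
  refine ⟨haT, ?_⟩
  have h1 : y * ((x : G) * a * (x : G)⁻¹) * y⁻¹ ∈ D i := by
    have h2 : y * ((x : G) * a * (x : G)⁻¹) * y⁻¹ = (y * x) * a * (y * x)⁻¹ := by group
    rw [h2]
    exact ⟨hxa, (hT i).conj_mem a haT _⟩
  have h2 := (hf2 i _).2 h1
  have h3 : f i * ((x : G) * a * (x : G)⁻¹) * (f i)⁻¹ =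
      (f i * x) * a * (f i * x)⁻¹ := by group
  rw [h3] at h2
  have h4 := hx2 i ⟨a, hDK i haD⟩ (Subgroup.mem_subgroupOf.2 haD) (Subgroup.mem_subgroupOf.2 h2)
  have h5 := (hγ2 i a).1 (Subgroup.mem_subgroupOf.1 h4)
  exact h5.1

end Pool.Agent.Lib.MP_3587c3_al
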