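import Mathlib

set_option autoImplicit false

/-!
# MP_3587c3_al: a normal elementary abelian subgroup of order `p²` in a noncyclic `p`-group, `p` odd
-/

namespace Pool.Agent.Lib.MP_3587c3_al

universe u

theorem pow_mul_class2 {G : Type*} [Group G] (a b d : G) (h : b * a = a * b * d)
    (hdb : Commute d b) (n : ℕ) : b ^ n * a = a * b ^ n * d ^ n := by
  induction n with
  | zero => simp
  | succ n ih =>
    calc b ^ (n + 1) * a = b ^ n * (b * a) := by rw [pow_succ, mul_assoc]
      _ = b ^ n * a * b * d := by rw [h]; simp only [mul_assoc]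
      _ = a * b ^ n * (d ^ n * b) * d := by rw [ih]; simp only [mul_assoc]
      _ = a * b ^ n * (b * d ^ n) * d := by rw [(hdb.pow_left n).eq]
      _ = a * b ^ (n + 1) * d ^ (n + 1) := by
          rw [pow_succ, pow_succ]; simp only [mul_assoc]

theorem mul_pow_class2 {G : Type*} [Group G] (a b d : G) (h : b * a = a * b * d)
    (hda : Commute d a) (hdb : Commute d b) (n : ℕ) :
    ∃ k : ℕ, 2 * k = n * (n - 1) ∧ (a * b) ^ n = a ^ n * b ^ n * d ^ k := by
  induction n with
  | zero => exact ⟨0, by simp⟩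
  | succ n ih =>
    obtain ⟨k, hk, hk2⟩ := ih
    refine ⟨k + n, ?_, ?_⟩
    · rcases Nat.eq_zero_or_pos n with rfl | hn
      · omega
      · obtain ⟨m, rfl⟩ := Nat.exists_eq_succ_of_ne_zero hn.ne'
        simp only [Nat.succ_eq_add_one, Nat.add_sub_cancel] at hk ⊢
        linarith [hk, (by ring : (m + 1 + 1) * (m + 1) = (m + 1) * m + 2 * (m + 1))]
    · calc (a * b) ^ (n + 1) = a ^ n * b ^ n * (d ^ k * (a * b)) := by
            rw [pow_succ, hk2]; simp only [mul_assoc]
        _ = a ^ n * b ^ n * (a * b * d ^ k) := by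
            rw [((hda.mul_right hdb).pow_left k).eq]
        _ = a ^ n * (b ^ n * a) * b * d ^ k := by simp only [mul_assoc]
        _ = a ^ n * (a * b ^ n * d ^ n) * b * d ^ k := by
            rw [pow_mul_class2 a b d h hdb n]
        _ = a ^ n * a * b ^ n * (d ^ n * b) * d ^ k := by simp only [mul_assoc]
        _ = a ^ n * a * b ^ n * (b * d ^ n) * d ^ k := by rw [(hdb.pow_left n).eq]
        _ = a ^ (n + 1) * b ^ (n + 1) * d ^ (k + n) := by
            rw [pow_succ, pow_succ, add_comm k n, pow_add]; simp only [mul_assoc]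

theorem mul_pow_prime {G : Type*} [Group G] (p : ℕ) (hp : p.Prime) (hp2 : p ≠ 2) (a b d : G)
    (h : b * a = a * b * d) (hda : Commute d a) (hdb : Commute d b) (hd : d ^ p = 1) :
    (a * b) ^ p = a ^ p * b ^ p := by
  obtain ⟨k, hk, hk2⟩ := mul_pow_class2 a b d h hda hdb p
  have hodd := hp.odd_of_ne_two hp2
  obtain ⟨m, hm⟩ := hodd
  have h1 : k = p * m := by
    have : 2 * k = 2 * (p * m) := by
      rw [hk]
      have : p - 1 = 2 * m := by omega
      rw [this]; ring
    omega
  rw [hk2, h1, pow_mul, hd, one_pow, mul_one]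

theorem exists_normal_ab (p : ℕ) [hpf : Fact p.Prime] (hp2 : p ≠ 2) :
    ∀ (n : ℕ) (P : Type u) [Group P] [Finite P], Nat.card P ≤ n → IsPGroup p P → ¬ IsCyclic P →
    ∃ z b : P, z ∈ Subgroup.center P ∧ z ≠ 1 ∧ z ^ p = 1 ∧ b ^ p = 1 ∧
      b ∉ Subgroup.zpowers z ∧ ∀ h, h * b * h⁻¹ * b⁻¹ ∈ Subgroup.zpowers z := by
  intro n
  induction n with
  | zero =>
    intro P _ _ h
    exfalso
    have : 0 < Nat.card P := Nat.card_pos
    omega
  | succ n ih =>
    intro P _ _ hcard hP hncyc
    have hp := hpf.out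
    have hnt : Nontrivial P := by
      by_contra h
      rw [not_nontrivial_iff_subsingleton] at h
      exact hncyc inferInstance
    have hcnt := hP.center_nontrivial
    have hcp : IsPGroup p (Subgroup.center P) := hP.to_subgroup _
    obtain ⟨z1, hz1⟩ : ∃ z1 : Subgroup.center P, orderOf z1 = p := by
      apply exists_prime_orderOf_dvd_card'
      obtain ⟨k, hk, hk2⟩ := hcp.nontrivial_iff_card.1 hcnt
      rw [hk2]
      exact dvd_pow_self p hk.ne'
    set z : P := (z1 : P) with hz
    have hzc : z ∈ Subgroup.center P := z1.2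
    have hzo : orderOf z = p := by rw [hz, Subgroup.orderOf_coe, hz1]
    have hzne : z ≠ 1 := by
      intro h
      rw [h, orderOf_one] at hzo
      exact hp.one_lt.ne hzo
    have hzp : z ^ p = 1 := by rw [← hzo]; exact pow_orderOf_eq_one z
    set Z := Subgroup.zpowers z with hZ
    have hZc : Z ≤ Subgroup.center P := by
      rw [hZ, Subgroup.zpowers_le]; exact hzc
    have hZcomm : ∀ w ∈ Z, ∀ h : P, Commute w h := by
      intro w hw h
      exact ((Subgroup.mem_center_iff.1 (hZc hw)) h).symm
    have hZn : Z.Normal := by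
      constructor
      intro w hw h
      rw [← (hZcomm w hw h).eq, mul_assoc, mul_inv_cancel, mul_one]
      exact hw
    have hZp : ∀ w ∈ Z, w ^ p = 1 := by
      intro w hw
      obtain ⟨j, rfl⟩ := Subgroup.mem_zpowers_iff.1 hw
      rw [← zpow_natCast, ← zpow_mul, mul_comm, zpow_mul, zpow_natCast, hzp, one_zpow]
    have hZcard : Nat.card Z = p := by rw [hZ, Nat.card_zpowers, hzo]
    have hZgen : ∀ w ∈ Z, w ≠ 1 → ∀ w' ∈ Z, w' ∈ Subgroup.zpowers w := by
      intro w hw hw1 w' hw'
      have h1 : (⟨w', hw'⟩ : Z) ∈ Subgroup.zpowers (⟨w, hw⟩ : Z) := by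
        apply mem_zpowers_of_prime_card hZcard
        intro h
        exact hw1 (congrArg Subtype.val h)
      obtain ⟨j, hj⟩ := Subgroup.mem_zpowers_iff.1 h1
      exact Subgroup.mem_zpowers_iff.2 ⟨j, congrArg Subtype.val hj⟩
    set q := QuotientGroup.mk' Z with hq
    have hqs : Function.Surjective q := QuotientGroup.mk'_surjective Z
    have hq1 : ∀ w, q w = 1 ↔ w ∈ Z := fun w => QuotientGroup.eq_one_iff w
    by_cases hcyc : IsCyclic (P ⧸ Z)
    · -- `P` is abelian
      have hcomm : ∀ a b : P, a * b = b * a := by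
        have hker : q.ker ≤ Subgroup.center P := by
          rw [hq, QuotientGroup.ker_mk']
          exact hZc
        exact (q.isMulCommutative_of_isCyclic_of_ker_le_center hker).is_comm.comm
      obtain ⟨x', hx'⟩ := hcyc.exists_generator
      obtain ⟨x, rfl⟩ := hqs x'
      have hall : ∀ w : P, ∃ i : ℤ, (x ^ i)⁻¹ * w ∈ Z := by
        intro w
        obtain ⟨i, hi⟩ := Subgroup.mem_zpowers_iff.1 (hx' (q w))
        refine ⟨i, ?_⟩
        rw [← hq1, map_mul, map_inv, map_zpow, hi, inv_mul_cancel]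
      have hzx : z ∉ Subgroup.zpowers x := by
        intro h
        apply hncyc
        refine ⟨⟨x, fun w => ?_⟩⟩
        obtain ⟨i, hi⟩ := hall w
        have h1 : (x ^ i)⁻¹ * w ∈ Subgroup.zpowers x := by
          have : Z ≤ Subgroup.zpowers x := by rw [hZ, Subgroup.zpowers_le]; exact h
          exact this hi
        have h2 : w = x ^ i * ((x ^ i)⁻¹ * w) := by group
        rw [h2]
        exact Subgroup.mul_mem _ (Subgroup.zpow_mem _ (Subgroup.mem_zpowers x) i) h1
      have hx1 : x ≠ 1 := by
        rintro rfl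
        apply hncyc
        refine ⟨⟨z, fun w => ?_⟩⟩
        obtain ⟨i, hi⟩ := hall w
        rw [one_zpow, inv_one, one_mul] at hi
        exact hi
      obtain ⟨k, hk⟩ := (IsPGroup.iff_orderOf.1 hP) x
      have hk0 : k ≠ 0 := by
        rintro rfl
        rw [pow_zero, orderOf_eq_one_iff] at hk
        exact hx1 hk
      obtain ⟨k', rfl⟩ := Nat.exists_eq_succ_of_ne_zero hk0
      have hbp : (x ^ (p ^ k')) ^ p = 1 := by
        rw [← pow_mul, ← pow_succ, ← hk, pow_orderOf_eq_one]
      have hb1 : x ^ (p ^ k') ≠ 1 := by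
        intro h
        have h1 := orderOf_dvd_of_pow_eq_one h
        rw [hk] at h1
        have h2 := Nat.le_of_dvd (pow_pos hp.pos _) h1
        have h3 : p ^ k' < p ^ (k'.succ) := Nat.pow_lt_pow_right hp.one_lt (Nat.lt_succ_self k')
        omega
      refine ⟨z, x ^ (p ^ k'), hzc, hzne, hzp, hbp, ?_, ?_⟩
      · intro h
        have h1 := hZgen _ h hb1 z (Subgroup.mem_zpowers z)
        apply hzx
        have h2 : Subgroup.zpowers (x ^ (p ^ k')) ≤ Subgroup.zpowers x := by
          rw [Subgroup.zpowers_le]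
          exact Subgroup.npow_mem_zpowers x _
        exact h2 h1
      · intro h
        rw [hcomm h, mul_assoc, mul_assoc, mul_inv_cancel_left, mul_inv_cancel]
        exact Subgroup.one_mem _
    · -- induction
      have hcardq : Nat.card (P ⧸ Z) ≤ n := by
        have h1 := Subgroup.card_eq_card_quotient_mul_card_subgroup Z
        rw [hZcard] at h1
        have h2 := hp.two_le
        have h3 : 0 < Nat.card (P ⧸ Z) := Nat.card_pos
        have h4 : Nat.card (P ⧸ Z) * 2 ≤ Nat.card (P ⧸ Z) * p := Nat.mul_le_mul_left _ h2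
        omega
      obtain ⟨z', b', hz'c, hz'1, hz'p, hb'p, hb'z, hb'h⟩ :=
        ih (P ⧸ Z) hcardq (hP.to_quotient Z) hcyc
      obtain ⟨x, rfl⟩ := hqs z'
      obtain ⟨b1, rfl⟩ := hqs b'
      have hz'comm : ∀ h : P ⧸ Z, ∀ i : ℤ, h * (q x) ^ i = (q x) ^ i * h := by
        intro h i
        exact (Subgroup.mem_center_iff.1 (Subgroup.zpow_mem _ hz'c i)) h
      have hxp : x ^ p ∈ Z := by rw [← hq1, map_pow, hz'p]
      have hb1p : b1 ^ p ∈ Z := by rw [← hq1, map_pow, hb'p]
      have hxh : ∀ (h : P) (i : ℤ), h * x ^ i * h⁻¹ * (x ^ i)⁻¹ ∈ Z := by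
        intro h i
        rw [← hq1]
        simp only [map_mul, map_inv, map_zpow]
        rw [hz'comm]
        group
      have hxZ : x ∉ Z := by rw [← hq1]; exact hz'1
      by_cases hx1 : x ^ p = 1
      · refine ⟨z, x, hzc, hzne, hzp, hx1, hxZ, fun h => ?_⟩
        have := hxh h 1
        simpa using this
      · obtain ⟨j, hj⟩ := Subgroup.mem_zpowers_iff.1 (hZgen _ hxp hx1 _ hb1p)
        -- the corrected element
        have hcomm1 : ∀ (c : P) (i : ℤ), (x ^ i)⁻¹ * c⁻¹ * x ^ i * c ∈ Z := by
          intro c i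
          rw [← hq1]
          simp only [map_mul, map_inv, map_zpow]
          rw [mul_assoc ((q x ^ i)⁻¹) (q c)⁻¹ (q x ^ i), hz'comm]
          group
        have hcomm2 : ∀ (c : P) (i : ℤ), c⁻¹ * (x ^ i)⁻¹ * c * x ^ i ∈ Z := by
          intro c i
          have h1 := Z.inv_mem (hcomm1 c i)
          have h2 : ((x ^ i)⁻¹ * c⁻¹ * x ^ i * c)⁻¹ = c⁻¹ * (x ^ i)⁻¹ * c * x ^ i := by group
          rwa [h2] at h1
        set y := x ^ (-j) with hy
        have hyp : y ^ p = (x ^ p) ^ (-j) := by
          rw [hy, ← zpow_natCast, ← zpow_natCast, ← zpow_mul, ← zpow_mul, mul_comm]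
        have hb : (b1 * y) ^ p = 1 := by
          rw [mul_pow_prime p hp hp2 b1 y (y⁻¹ * b1⁻¹ * y * b1) (by group)
            (hZcomm _ (hcomm1 b1 (-j)) _) (hZcomm _ (hcomm1 b1 (-j)) _)
            (hZp _ (hcomm1 b1 (-j))), hyp, ← hj, ← zpow_add, add_neg_cancel, zpow_zero]
        have hbq : q (b1 * y) = q b1 * (q x) ^ (-j) := by
          rw [map_mul, hy, map_zpow]
        refine ⟨z, b1 * y, hzc, hzne, hzp, hb, ?_, ?_⟩
        · intro h
          have h1 : q (b1 * y) = 1 := (hq1 _).2 h
          rw [hbq] at h1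
          apply hb'z
          rw [Subgroup.mem_zpowers_iff]
          refine ⟨j, ?_⟩
          have h2 := eq_inv_of_mul_eq_one_left h1
          rw [h2, zpow_neg, inv_inv]
        · intro h
          set b := b1 * y with hbdef
          set c := h * b * h⁻¹ * b⁻¹ with hc
          have hZx : Z ≤ Subgroup.zpowers (x ^ p) := fun w hw => hZgen _ hxp hx1 w hw
          have hZx' : Z ≤ Subgroup.zpowers x := by
            refine le_trans hZx ?_
            rw [Subgroup.zpowers_le]
            exact Subgroup.npow_mem_zpowers x p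
          have hcx : c ∈ Subgroup.zpowers x := by
            obtain ⟨i, hi⟩ := Subgroup.mem_zpowers_iff.1 (hb'h (q h))
            have h1 : q c = (q x) ^ i := by
              rw [hi, hc]
              simp only [map_mul, map_inv, hbq]
              have h2 := hz'comm (q h)⁻¹ (-j)
              calc q h * (q b1 * q x ^ (-j)) * (q h)⁻¹ * (q b1 * q x ^ (-j))⁻¹
                  = q h * q b1 * (q x ^ (-j) * (q h)⁻¹) * (q b1 * q x ^ (-j))⁻¹ := by
                    simp only [mul_assoc]
                _ = q h * q b1 * ((q h)⁻¹ * q x ^ (-j)) * (q b1 * q x ^ (-j))⁻¹ := by rw [h2]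
                _ = q h * q b1 * (q h)⁻¹ * (q b1)⁻¹ := by group
            have h2 : (x ^ i)⁻¹ * c ∈ Z := by
              rw [← hq1, map_mul, map_inv, map_zpow, h1, inv_mul_cancel]
            have h3 : c = x ^ i * ((x ^ i)⁻¹ * c) := by group
            rw [h3]
            exact Subgroup.mul_mem _ (Subgroup.zpow_mem _ (Subgroup.mem_zpowers x) i) (hZx' h2)
          obtain ⟨i, hi⟩ := Subgroup.mem_zpowers_iff.1 hcx
          have hcb : (c * b) ^ p = 1 := by
            have h1 : c * b = h * b * h⁻¹ := by rw [hc]; group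
            rw [h1, conj_pow, hb, mul_one, mul_inv_cancel]
          have hcp : c ^ p = 1 := by
            have hd : b⁻¹ * c⁻¹ * b * c ∈ Z := by rw [← hi]; exact hcomm2 b i
            rw [mul_pow_prime p hp hp2 c b (b⁻¹ * c⁻¹ * b * c) (by group)
              (hZcomm _ hd _) (hZcomm _ hd _) (hZp _ hd), hb, mul_one] at hcb
            exact hcb
          have hox : orderOf (x ^ p) = p := orderOf_eq_prime (hZp _ hxp) hx1
          have h1 : (x ^ p) ^ i = 1 := by
            rw [← zpow_natCast, ← zpow_mul, mul_comm, zpow_mul, hi, zpow_natCast, hcp]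
          have h2 : (p : ℤ) ∣ i := by
            rw [← hox]
            exact orderOf_dvd_iff_zpow_eq_one.2 h1
          obtain ⟨i', rfl⟩ := h2
          rw [← hi, zpow_mul, zpow_natCast]
          exact Z.zpow_mem hxp i'

end Pool.Agent.Lib.MP_3587c3_al
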