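import Mathlib
import Pool.Agent.Lib.MP_3587c3_al.NormalAb

set_option autoImplicit false

/-!
# MP_3587c3_al: regular vectors of `p`-groups in coprime action
-/

namespace Pool.Agent.Lib.MP_3587c3_al

universe u v

/-- `v` is a regular vector: its stabilizer is the kernel -/
def Reg {P V : Type*} [Group P] [AddCommGroup V] (τ : P →* AddMonoid.End V) (v : V) : Prop :=
  ∀ a, τ a v = v → ∀ w, τ a w = w

theorem coprime_cancel {V : Type*} [AddCommGroup V] [Finite V] {n : ℕ}
    (hcop : (Nat.card V).Coprime n) (x : V) (hx : n • x = 0) : x = 0 := by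
  have h1 : addOrderOf x ∣ n := addOrderOf_dvd_of_nsmul_eq_zero hx
  have h2 : addOrderOf x ∣ Nat.card V := addOrderOf_dvd_natCard x
  have h3 := Nat.dvd_gcd h2 h1
  rw [hcop] at h3
  exact AddMonoid.addOrderOf_eq_one_iff.1 (Nat.dvd_one.1 h3)

theorem red_step {P : Type*} [Group P] [Finite P] {V : Type*} [AddCommGroup V] [Finite V]
    (p : ℕ) [hpf : Fact p.Prime] (hP : IsPGroup p P) (τ : P →* AddMonoid.End V)
    (hcop : (Nat.card V).Coprime p) (U : AddSubgroup V) (hU : ∀ a, ∀ u ∈ U, τ a u ∈ U)
    (u : V) (huU : u ∈ U) (hu : ∀ a, τ a u = u → ∀ w ∈ U, τ a w = w) (v2 : V)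
    (hv2 : ∀ a, τ a v2 - v2 ∈ U → ∀ w, τ a w - w ∈ U) :
    ∃ v, v - v2 ∈ U ∧ Reg τ v := by
  classical
  have hmul : ∀ a b w, τ (a * b) w = τ a (τ b w) := fun a b w => by rw [map_mul]; rfl
  have hone : ∀ w, τ 1 w = w := fun w => by rw [map_one]; rfl
  let P2 : Subgroup P :=
    { carrier := {a | ∀ w, τ a w - w ∈ U}
      one_mem' := by
        intro w
        rw [hone, sub_self]
        exact U.zero_mem
      mul_mem' := by
        intro a b ha hb w
        have h1 := U.add_mem (ha (τ b w)) (hb w)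
        rw [hmul]
        have h2 : τ a (τ b w) - w = τ a (τ b w) - τ b w + (τ b w - w) := by abel
        rw [h2]
        exact h1
      inv_mem' := by
        intro a ha w
        have h1 := ha (τ a⁻¹ w)
        rw [← hmul, mul_inv_cancel, hone] at h1
        have h2 := U.neg_mem h1
        rwa [neg_sub] at h2 }
  have hfin : Fintype P2 := Fintype.ofFinite P2
  have hcopk : (Nat.card V).Coprime (Nat.card P2) := by
    obtain ⟨k, hk⟩ := IsPGroup.iff_card.1 (hP.to_subgroup P2)
    rw [hk]
    exact Nat.Coprime.pow_right k hcop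
  obtain ⟨s, t, hst⟩ := (Nat.isCoprime_iff_coprime.2 hcopk.symm)
  have hcard0 : ∀ w : V, (Nat.card V : ℤ) • w = 0 := by
    intro w
    rw [natCast_zsmul]
    exact card_nsmul_eq_zero'
  set v3 : V := s • ∑ a : P2, τ a v2 with hv3
  have hv3U : v3 - v2 ∈ U := by
    have h1 : v3 - v2 = s • ∑ a : P2, (τ a v2 - v2) := by
      rw [Finset.sum_sub_distrib, Finset.sum_const, Finset.card_univ, smul_sub, hv3]
      congr 1
      have h2 : s • (Fintype.card P2 • v2) = v2 := by
        have h3 : (s * (Nat.card P2 : ℤ) + t * (Nat.card V : ℤ)) • v2 = v2 := by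
          rw [hst, one_smul]
        rw [add_smul, mul_smul, mul_smul, hcard0, smul_zero, add_zero, natCast_zsmul,
          Nat.card_eq_fintype_card] at h3
        exact h3
      rw [h2]
    rw [h1]
    exact U.zsmul_mem (U.sum_mem (fun a _ => a.2 v2)) s
  have hv3fix : ∀ a ∈ P2, τ a v3 = v3 := by
    intro a ha
    rw [hv3, map_zsmul, map_sum]
    congr 1
    have h1 : ∀ x : P2, τ a (τ x v2) = τ ((⟨a, ha⟩ * x : P2) : P) v2 := by
      intro x
      rw [← hmul]
      rfl
    simp only [h1]
    exact Equiv.sum_comp (Equiv.mulLeft (⟨a, ha⟩ : P2)) (fun x : P2 => τ (x : P) v2)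
  refine ⟨v3 + u, ?_, ?_⟩
  · have h1 : v3 + u - v2 = (v3 - v2) + u := by abel
    rw [h1]
    exact U.add_mem hv3U huU
  · intro a ha
    have haP2 : a ∈ P2 := by
      apply hv2
      have h1 : τ a v2 - v2 = ((v3 - v2) + u) - τ a ((v3 - v2) + u) := by
        rw [map_add, map_sub]
        rw [map_add] at ha
        have h2 : (v3 - v2) + u - (τ a v3 - τ a v2 + τ a u) =
            (v3 + u) - (τ a v3 + τ a u) + (τ a v2 - v2) := by abel
        rw [h2, ha, sub_self, zero_add]
      rw [h1]
      exact U.sub_mem (U.add_mem hv3U huU) (hU a _ (U.add_mem hv3U huU))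
    have hau : τ a u = u := by
      rw [map_add, hv3fix a haP2] at ha
      exact add_left_cancel ha
    have hUtriv := hu a hau
    intro w
    have he := haP2 w
    have he2 := hUtriv _ he
    have hpow : ∀ n : ℕ, τ (a ^ n) w = w + n • (τ a w - w) := by
      intro n
      induction n with
      | zero => rw [pow_zero, hone, zero_smul, add_zero]
      | succ n ih =>
        rw [pow_succ', hmul, ih, map_add, map_nsmul, he2, succ_nsmul]
        abel
    obtain ⟨k, hk⟩ := hP a
    have h1 := hpow (p ^ k)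
    rw [hk, hone] at h1
    have h2 : (p ^ k) • (τ a w - w) = 0 := by
      have := h1.symm
      rwa [add_eq_left] at this
    have h3 := coprime_cancel (hcop.pow_right k) _ h2
    exact sub_eq_zero.1 h3

/-- the action on an invariant subgroup -/
def subAct {P V : Type*} [Group P] [AddCommGroup V] (τ : P →* AddMonoid.End V)
    (U : AddSubgroup V) (hU : ∀ a, ∀ u ∈ U, τ a u ∈ U) : P →* AddMonoid.End U where
  toFun := fun a =>
    { toFun := fun u => ⟨τ a u, hU a u u.2⟩
      map_zero' := Subtype.ext (map_zero (τ a))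
      map_add' := fun x y => Subtype.ext (map_add (τ a) (x : V) (y : V)) }
  map_one' := by
    apply AddMonoidHom.ext
    intro u
    apply Subtype.ext
    show τ 1 (u : V) = u
    rw [map_one]
    rfl
  map_mul' := by
    intro a b
    apply AddMonoidHom.ext
    intro u
    apply Subtype.ext
    show τ (a * b) (u : V) = τ a (τ b u)
    rw [map_mul]
    rfl

theorem subAct_apply {P V : Type*} [Group P] [AddCommGroup V] (τ : P →* AddMonoid.End V)
    (U : AddSubgroup V) (hU : ∀ a, ∀ u ∈ U, τ a u ∈ U) (a : P) (u : U) :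
    ((subAct τ U hU a u : U) : V) = τ a (u : V) := rfl

/-- the action on the quotient by an invariant subgroup -/
def quotAct {P V : Type*} [Group P] [AddCommGroup V] (τ : P →* AddMonoid.End V)
    (U : AddSubgroup V) (hU : ∀ a, ∀ u ∈ U, τ a u ∈ U) : P →* AddMonoid.End (V ⧸ U) where
  toFun := fun a => QuotientAddGroup.map U U (τ a) (fun u hu => hU a u hu)
  map_one' := by
    apply AddMonoidHom.ext
    intro u
    obtain ⟨w, rfl⟩ := QuotientAddGroup.mk_surjective u
    show ((τ 1 w : V) : V ⧸ U) = w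
    rw [map_one]
    rfl
  map_mul' := by
    intro a b
    apply AddMonoidHom.ext
    intro u
    obtain ⟨w, rfl⟩ := QuotientAddGroup.mk_surjective u
    show ((τ (a * b) w : V) : V ⧸ U) = ((τ a (τ b w) : V) : V ⧸ U)
    rw [map_mul]
    rfl

theorem quotAct_mk {P V : Type*} [Group P] [AddCommGroup V] (τ : P →* AddMonoid.End V)
    (U : AddSubgroup V) (hU : ∀ a, ∀ u ∈ U, τ a u ∈ U) (a : P) (w : V) :
    quotAct τ U hU a (w : V ⧸ U) = ((τ a w : V) : V ⧸ U) := rfl

theorem quot_reg {P V : Type*} [Group P] [AddCommGroup V] (τ : P →* AddMonoid.End V)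
    (U : AddSubgroup V) (hU : ∀ a, ∀ u ∈ U, τ a u ∈ U) (v2 : V)
    (h : Reg (quotAct τ U hU) (v2 : V ⧸ U)) :
    ∀ a, τ a v2 - v2 ∈ U → ∀ w, τ a w - w ∈ U := by
  intro a ha w
  have h1 := h a (by
    rw [quotAct_mk, QuotientAddGroup.eq, ← neg_mem_iff]
    have : -(-(τ a v2) + v2) = τ a v2 - v2 := by abel
    rw [this]
    exact ha) (w : V ⧸ U)
  rw [quotAct_mk, QuotientAddGroup.eq, ← neg_mem_iff] at h1
  have : -(-(τ a w) + w) = τ a w - w := by abel
  rwa [this] at h1

theorem card_sub_quot {V : Type*} [AddCommGroup V] [Finite V] (U : AddSubgroup V)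
    (hbot : U ≠ ⊥) (htop : U ≠ ⊤) :
    Nat.card U < Nat.card V ∧ Nat.card (V ⧸ U) < Nat.card V ∧
      Nat.card U ∣ Nat.card V ∧ Nat.card (V ⧸ U) ∣ Nat.card V ∧ Nontrivial U ∧
      Nontrivial (V ⧸ U) := by
  have h1 := AddSubgroup.card_eq_card_quotient_mul_card_addSubgroup U
  have hU : Nontrivial U := (AddSubgroup.nontrivial_iff_ne_bot U).2 hbot
  have hQ : Nontrivial (V ⧸ U) := by
    by_contra h
    rw [not_nontrivial_iff_subsingleton] at h
    apply htop
    rw [AddSubgroup.eq_top_iff']
    intro w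
    exact (QuotientAddGroup.eq_zero_iff w).1 (Subsingleton.elim _ _)
  have h2 : 1 < Nat.card U := Finite.one_lt_card
  have h3 : 1 < Nat.card (V ⧸ U) := Finite.one_lt_card
  refine ⟨?_, ?_, ⟨_, by rw [h1, mul_comm]⟩, ⟨_, h1⟩, hU, hQ⟩
  · rw [h1]; nlinarith
  · rw [h1]; nlinarith

/-- commutative `p`-groups have regular vectors -/
theorem reg_ab (p : ℕ) [hpf : Fact p.Prime] : ∀ (n : ℕ) (P : Type u) [Group P] [Finite P]
    (V : Type v) [AddCommGroup V] [Finite V] (τ : P →* AddMonoid.End V),
    Nat.card V ≤ n → IsPGroup p P → (Nat.card V).Coprime p → (∀ a b : P, a * b = b * a) →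
    ∃ v, Reg τ v := by
  intro n
  induction n with
  | zero =>
    intro P _ _ V _ _ τ h
    exfalso
    have : 0 < Nat.card V := Nat.card_pos
    omega
  | succ n ih =>
    intro P _ _ V _ _ τ hcard hP hcop hab
    have hmul : ∀ a b w, τ (a * b) w = τ a (τ b w) := fun a b w => by rw [map_mul]; rfl
    by_cases hnt : Nontrivial V
    swap
    · rw [not_nontrivial_iff_subsingleton] at hnt
      exact ⟨0, fun a _ w => Subsingleton.elim _ _⟩
    by_cases hirr : ∀ U : AddSubgroup V, (∀ a, ∀ u ∈ U, τ a u ∈ U) → U = ⊥ ∨ U = ⊤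
    · obtain ⟨v, hv⟩ := exists_ne (0 : V)
      refine ⟨v, fun a ha w => ?_⟩
      let U : AddSubgroup V :=
        { carrier := {w | τ a w = w}
          zero_mem' := map_zero (τ a)
          add_mem' := by
            intro x y hx hy
            show τ a (x + y) = x + y
            rw [map_add, show τ a x = x from hx, show τ a y = y from hy]
          neg_mem' := by
            intro x hx
            show τ a (-x) = -x
            rw [map_neg, show τ a x = x from hx] }
      rcases hirr U (by
        intro b u hu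
        show τ a (τ b u) = τ b u
        rw [← hmul, hab a b, hmul, show τ a u = u from hu]) with h | h
      · exfalso
        have h1 : v ∈ U := ha
        rw [h, AddSubgroup.mem_bot] at h1
        exact hv h1
      · have h1 : w ∈ U := by rw [h]; exact AddSubgroup.mem_top w
        exact h1
    · push Not at hirr
      obtain ⟨U, hU, hbot, htop⟩ := hirr
      obtain ⟨h1, h2, h3, h4, hntU, hntQ⟩ := card_sub_quot U hbot htop
      obtain ⟨u, hu⟩ := ih P U (subAct τ U hU) (by omega) hP (hcop.coprime_dvd_left h3) hab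
      obtain ⟨v', hv'⟩ := ih P (V ⧸ U) (quotAct τ U hU) (by omega) hP
        (hcop.coprime_dvd_left h4) hab
      obtain ⟨v2, rfl⟩ := QuotientAddGroup.mk_surjective v'
      obtain ⟨v, _, hv⟩ := red_step p hP τ hcop U hU u u.2 (by
        intro a ha w hw
        have := hu a (Subtype.ext ha) ⟨w, hw⟩
        exact congrArg Subtype.val this) v2 (quot_reg τ U hU v2 hv')
      exact ⟨v, hv⟩

end Pool.Agent.Lib.MP_3587c3_al
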