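import Mathlib
import Pool.Agent.Lib.MP_3587c3_al.Block

set_option autoImplicit false

/-!
# MP_3587c3_al: `p`-groups, `p` odd, have two regular orbits
-/

namespace Pool.Agent.Lib.MP_3587c3_al

universe u v

/-- `p ^ m + 1` is a power of two only if `p + 1` is -/
theorem mersenne_aux (p m n : ℕ) (hp : Odd p) (hp1 : 1 < p) (hm : 0 < m)
    (h : p ^ m + 1 = 2 ^ n) : ∃ k, p + 1 = 2 ^ k := by
  rcases Nat.even_or_odd m with he | ho
  · exfalso
    obtain ⟨t, ht⟩ := he
    have h1 : p ^ m = (p ^ t) ^ 2 := by rw [ht, ← pow_mul]; ring_nf
    have hodd : Odd (p ^ t) := hp.pow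
    have hn : 2 ≤ n := by
      by_contra hn
      have hn' : n = 0 ∨ n = 1 := by omega
      have h2 : 1 < p ^ m := Nat.one_lt_pow hm.ne' hp1
      rcases hn' with rfl | rfl <;> omega
    obtain ⟨n', rfl⟩ := Nat.exists_eq_add_of_le hn
    obtain ⟨r, hr⟩ := hodd
    rw [h1, hr] at h
    have h3 : (2 * r + 1) ^ 2 + 1 = 4 * (r ^ 2 + r) + 2 := by ring
    rw [h3, pow_add] at h
    omega
  · have h1 : p + 1 ∣ p ^ m + 1 ^ m := Odd.nat_add_dvd_pow_add_pow p 1 ho
    rw [one_pow, h] at h1
    obtain ⟨k, _, hk⟩ := (Nat.dvd_prime_pow Nat.prime_two).1 h1
    exact ⟨k, hk⟩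

theorem reg_two (p : ℕ) [hpf : Fact p.Prime] (hp2 : p ≠ 2) : ∀ (n : ℕ) (P : Type u) [Group P]
    [Finite P] (V : Type v) [AddCommGroup V] [Finite V] [Nontrivial V]
    (τ : P →* AddMonoid.End V),
    Nat.card P + Nat.card V ≤ n → IsPGroup p P → (Nat.card V).Coprime p →
    (Odd (Nat.card V) ∨ ∀ k, p + 1 ≠ 2 ^ k) →
    ∃ v v', Reg τ v ∧ Reg τ v' ∧ ∀ a, τ a v ≠ v' := by
  intro n
  induction n with
  | zero =>
    intro P _ _ V _ _ _ τ h
    exfalso
    have : 0 < Nat.card V := Nat.card_pos
    omega
  | succ n ih =>
    intro P _ _ V _ _ _ τ hcard hP hcop hodd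
    have hp := hpf.out
    have hmul : ∀ a b w, τ (a * b) w = τ a (τ b w) := fun a b w => by rw [map_mul]; rfl
    have hone : ∀ w, τ 1 w = w := fun w => by rw [map_one]; rfl
    by_cases hirr : ∀ U : AddSubgroup V, (∀ a, ∀ u ∈ U, τ a u ∈ U) → U = ⊥ ∨ U = ⊤
    swap
    · -- reducible
      push Not at hirr
      obtain ⟨U, hU, hbot, htop⟩ := hirr
      obtain ⟨h1, h2, h3, h4, hntU, hntQ⟩ := card_sub_quot U hbot htop
      have hoddU : Odd (Nat.card U) ∨ ∀ k, p + 1 ≠ 2 ^ k := by
        rcases hodd with h | h
        · exact Or.inl (Odd.of_dvd_nat h h3)
        · exact Or.inr h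
      have hoddQ : Odd (Nat.card (V ⧸ U)) ∨ ∀ k, p + 1 ≠ 2 ^ k := by
        rcases hodd with h | h
        · exact Or.inl (Odd.of_dvd_nat h h4)
        · exact Or.inr h
      obtain ⟨u, _, hu, _⟩ := ih P U (subAct τ U hU) (by omega) hP
        (hcop.coprime_dvd_left h3) hoddU
      obtain ⟨v1, v1', hv1, hv1', horb⟩ := ih P (V ⧸ U) (quotAct τ U hU) (by omega) hP
        (hcop.coprime_dvd_left h4) hoddQ
      obtain ⟨v2, rfl⟩ := QuotientAddGroup.mk_surjective v1
      obtain ⟨v2', rfl⟩ := QuotientAddGroup.mk_surjective v1'
      have huU : ∀ a, τ a (u : V) = u → ∀ w ∈ U, τ a w = w := by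
        intro a ha w hw
        have := hu a (Subtype.ext ha) ⟨w, hw⟩
        exact congrArg Subtype.val this
      obtain ⟨v, hvU, hv⟩ := red_step p hP τ hcop U hU u u.2 huU v2 (quot_reg τ U hU v2 hv1)
      obtain ⟨v', hvU', hv'⟩ := red_step p hP τ hcop U hU u u.2 huU v2'
        (quot_reg τ U hU v2' hv1')
      refine ⟨v, v', hv, hv', fun a ha => horb a ?_⟩
      have e1 : (v2 : V ⧸ U) = (v : V ⧸ U) := by
        rw [QuotientAddGroup.eq, neg_add_eq_sub]; exact hvU
      have e2 : (v2' : V ⧸ U) = (v' : V ⧸ U) := by
        rw [QuotientAddGroup.eq, neg_add_eq_sub]; exact hvU'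
      show quotAct τ U hU a (v2 : V ⧸ U) = (v2' : V ⧸ U)
      rw [e1, e2, quotAct_mk, ha]
    · by_cases hinj : Function.Injective τ
      swap
      · -- not faithful
        have hker : τ.ker ≠ ⊥ := by
          intro h
          exact hinj ((MonoidHom.ker_eq_bot_iff τ).1 h)
        have hcardq : Nat.card (P ⧸ τ.ker) < Nat.card P := by
          have h1 := Subgroup.card_eq_card_quotient_mul_card_subgroup τ.ker
          have h2 : 1 < Nat.card τ.ker := by
            rw [Nat.one_lt_iff_ne_zero_and_ne_one]
            exact ⟨Nat.card_pos.ne', fun h => hker (Subgroup.eq_bot_of_card_eq _ h)⟩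
          have h3 : 0 < Nat.card (P ⧸ τ.ker) := Nat.card_pos
          rw [h1]
          nlinarith
        obtain ⟨v, v', hv, hv', horb⟩ := ih (P ⧸ τ.ker) V (QuotientGroup.lift τ.ker τ le_rfl)
          (by omega) (hP.to_quotient _) hcop hodd
        refine ⟨v, v', ?_, ?_, ?_⟩
        · intro a ha w
          exact hv (QuotientGroup.mk a) ha w
        · intro a ha w
          exact hv' (QuotientGroup.mk a) ha w
        · intro a ha
          exact horb (QuotientGroup.mk a) ha
      · by_cases hcyc : IsCyclic P
        swap
        · -- noncyclic
          obtain ⟨z, b, hzc, hz1, hzp, hbp, hbz, hbh⟩ :=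
            exists_normal_ab p hp2 (Nat.card P) P le_rfl hP hcyc
          obtain ⟨M, W, hM, hW, hMW, hmain⟩ := block p hp2 τ hinj hcop hirr z b hzc hz1 hzp hbp
            hbz hbh
          have hWnt : Nontrivial W := (AddSubgroup.nontrivial_iff_ne_bot W).2 hW
          have hWd : Nat.card W ∣ Nat.card V := AddSubgroup.card_addSubgroup_dvd_card W
          have hWle : Nat.card W ≤ Nat.card V := Nat.le_of_dvd Nat.card_pos hWd
          have hMlt : Nat.card M < Nat.card P := by
            have h1 := Subgroup.card_le_card_group M
            rcases h1.lt_or_eq with h | h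
            · exact h
            · exact absurd (Subgroup.eq_top_of_card_eq M h) hM
          have hMW' : ∀ a : M, ∀ w ∈ W, (τ.comp M.subtype) a w ∈ W :=
            fun a w hw => hMW a a.2 w hw
          obtain ⟨w, w', hw, hw', horb⟩ := ih M W (subAct (τ.comp M.subtype) W hMW')
            (by omega) (hP.to_subgroup M) (hcop.coprime_dvd_left hWd) (by
              rcases hodd with h | h
              · exact Or.inl (Odd.of_dvd_nat h hWd)
              · exact Or.inr h)
          refine hmain w w.2 w' w'.2 ?_ ?_ ?_
          · intro h hh hfix u hu
            exact congrArg Subtype.val (hw ⟨h, hh⟩ (Subtype.ext hfix) ⟨u, hu⟩)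
          · intro h hh hfix u hu
            exact congrArg Subtype.val (hw' ⟨h, hh⟩ (Subtype.ext hfix) ⟨u, hu⟩)
          · intro h hh hfix
            exact horb ⟨h, hh⟩ (Subtype.ext hfix)
        · -- cyclic
          have hab : ∀ a b : P, a * b = b * a := by
            obtain ⟨g, hg⟩ := hcyc.exists_generator
            intro a b
            obtain ⟨i, rfl⟩ := Subgroup.mem_zpowers_iff.1 (hg a)
            obtain ⟨j, rfl⟩ := Subgroup.mem_zpowers_iff.1 (hg b)
            rw [← zpow_add, ← zpow_add, add_comm]
          obtain ⟨v, hv⟩ := exists_ne (0 : V)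
          have hregne : ∀ v : V, v ≠ 0 → Reg τ v := by
            intro v hv a ha w
            let U : AddSubgroup V :=
              { carrier := {w | τ a w = w}
                zero_mem' := map_zero (τ a)
                add_mem' := by
                  intro x y hx hy
                  show τ a (x + y) = x + y
                  rw [map_add, show τ a x = x from hx, show τ a y = y from hy]
                neg_mem' := by
                  intro x hx
                  show τ a (-x) = -x
                  rw [map_neg, show τ a x = x from hx] }
            rcases hirr U (by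
              intro b u hu
              show τ a (τ b u) = τ b u
              rw [← hmul, hab a b, hmul, show τ a u = u from hu]) with h | h
            · exfalso
              have h1 : v ∈ U := ha
              rw [h, AddSubgroup.mem_bot] at h1
              exact hv h1
            · have h1 : w ∈ U := by rw [h]; exact AddSubgroup.mem_top w
              exact h1
          by_cases hPs : Subsingleton P
          · refine ⟨v, 0, hregne v hv, ?_, ?_⟩
            · intro a _ w
              rw [Subsingleton.elim a 1, hone]
            · intro a ha
              apply hv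
              rw [Subsingleton.elim a 1, hone] at ha
              exact ha
          rw [not_subsingleton_iff_nontrivial] at hPs
          by_cases hex : ∃ v', v' ≠ 0 ∧ ∀ a, τ a v ≠ v'
          · obtain ⟨v', hv', horb⟩ := hex
            exact ⟨v, v', hregne v hv, hregne v' hv', horb⟩
          exfalso
          push Not at hex
          -- `|P| = |V| - 1`
          have hτne : ∀ a, τ a v ≠ 0 := by
            intro a h
            apply hv
            have := congrArg (τ a⁻¹) h
            rwa [← hmul, inv_mul_cancel, hone, map_zero] at this
          have hcardPV : Nat.card P = Nat.card {w : V // w ≠ 0} := by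
            apply Nat.card_congr
            refine Equiv.ofBijective (fun a => ⟨τ a v, hτne a⟩) ⟨?_, ?_⟩
            · intro a b hab'
              have h1 : τ a v = τ b v := congrArg Subtype.val hab'
              have h2 : τ (b⁻¹ * a) v = v := by
                rw [hmul, h1, ← hmul, inv_mul_cancel, hone]
              have h3 := hregne v hv _ h2
              have h4 : b⁻¹ * a = 1 := by
                apply hinj
                rw [map_one]
                exact AddMonoidHom.ext h3
              exact (inv_mul_eq_one.1 h4).symm
            · rintro ⟨w, hw⟩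
              obtain ⟨a, ha⟩ := hex w hw
              exact ⟨a, Subtype.ext ha⟩
          have hfV : Fintype V := Fintype.ofFinite V
          have hcardV : Nat.card P + 1 = Nat.card V := by
            classical
            have h1 : Fintype.card {w : V // w ≠ 0} = Fintype.card V - 1 := by
              rw [Fintype.card_subtype_compl, Fintype.card_subtype_eq]
            rw [hcardPV, Nat.card_eq_fintype_card, Nat.card_eq_fintype_card, h1]
            have : 0 < Fintype.card V := Fintype.card_pos
            omega
          obtain ⟨m, hm⟩ := IsPGroup.iff_card.1 hP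
          have hpodd : Odd p := hp.odd_of_ne_two hp2
          have hm0 : 0 < m := by
            rcases Nat.eq_zero_or_pos m with rfl | h
            · exfalso
              rw [pow_zero] at hm
              have : 1 < Nat.card P := Finite.one_lt_card
              omega
            · exact h
          have heven : Even (Nat.card V) := by
            rw [← hcardV, hm]
            exact (hpodd.pow).add_one
          have hnm : ∀ k, p + 1 ≠ 2 ^ k := by
            rcases hodd with h | h
            · exfalso
              rw [← Nat.not_even_iff_odd] at h
              exact h heven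
            · exact h
          -- `V` is an elementary abelian `2`-group
          have hV2 : ∀ w : V, 2 • w = 0 := by
            have hf2 : Fact (Nat.Prime 2) := ⟨Nat.prime_two⟩
            obtain ⟨w0, hw0⟩ := exists_prime_addOrderOf_dvd_card' 2 heven.two_dvd
            let U : AddSubgroup V :=
              { carrier := {w | 2 • w = 0}
                zero_mem' := smul_zero 2
                add_mem' := by
                  intro x y hx hy
                  show 2 • (x + y) = 0
                  rw [smul_add, show 2 • x = 0 from hx, show 2 • y = 0 from hy, add_zero]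
                neg_mem' := by
                  intro x hx
                  show 2 • (-x) = 0
                  rw [smul_neg, show 2 • x = 0 from hx, neg_zero] }
            rcases hirr U (by
              intro b u hu
              show 2 • (τ b u) = 0
              rw [← map_nsmul, show 2 • u = 0 from hu, map_zero]) with h | h
            · exfalso
              have h1 : w0 ∈ U := by
                show 2 • w0 = 0
                rw [← hw0]; exact addOrderOf_nsmul_eq_zero w0
              rw [h, AddSubgroup.mem_bot] at h1
              rw [h1, addOrderOf_zero] at hw0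
              omega
            · intro w
              have h1 : w ∈ U := by rw [h]; exact AddSubgroup.mem_top w
              exact h1
          have hf2 : Fact (Nat.Prime 2) := ⟨Nat.prime_two⟩
          have hV2' : IsPGroup 2 (Multiplicative V) := by
            intro w
            refine ⟨1, ?_⟩
            rw [pow_one]
            exact hV2 w.toAdd
          obtain ⟨k, hk⟩ := IsPGroup.iff_card.1 hV2'
          have hk' : Nat.card V = 2 ^ k := hk
          rw [hk', hm] at hcardV
          obtain ⟨j, hj⟩ := mersenne_aux p m k hpodd hp.one_lt hm0 hcardV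
          exact hnm j hj

end Pool.Agent.Lib.MP_3587c3_al
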