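import Mathlib
import Pool.Agent.Lib.MP_3587c3_al.Lift
import Pool.Agent.Lib.MP_3587c3_al.RegTwo

set_option autoImplicit false

/-!
# MP_3587c3_al: simultaneous regular intersections in soluble extensions
-/

namespace Pool.Agent.Lib.MP_3587c3_al

universe u

open scoped Pointwise commutatorElement

/-- regular elements for a conjugation action on an abelian normal subgroup -/
theorem reg_conj {G : Type u} [Group G] [Finite G] (N : Subgroup G) [hNn : N.Normal]
    (hNab : ∀ a ∈ N, ∀ b ∈ N, a * b = b * a) (D : Subgroup G) {p : ℕ} [Fact p.Prime]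
    (hD : IsPGroup p D) (hcop : (Nat.card N).Coprime p) (hN1 : N ≠ ⊥)
    (hgood : (∀ a ∈ D, ∀ b ∈ D, a * b = b * a) ∨
      (p ≠ 2 ∧ (Odd (Nat.card N) ∨ ∀ k, p + 1 ≠ 2 ^ k))) :
    ∃ v ∈ N, ∀ a ∈ D, a * v * a⁻¹ = v → ∀ n ∈ N, a * n * a⁻¹ = n := by
  classical
  let hcg : CommGroup N :=
    { (inferInstance : Group N) with
      mul_comm := fun a b => Subtype.ext (hNab a a.2 b b.2) }
  let σ : D → (Additive N →+ Additive N) := fun g =>
    { toFun := fun m => Additive.ofMul
        ⟨(g : G) * (m.toMul : G) * (g : G)⁻¹, hNn.conj_mem _ m.toMul.2 g⟩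
      map_zero' := by
        apply Additive.toMul.injective
        apply Subtype.ext
        show (g : G) * ((1 : N) : G) * (g : G)⁻¹ = 1
        rw [Subgroup.coe_one, mul_one, mul_inv_cancel]
      map_add' := by
        intro x y
        apply Additive.toMul.injective
        apply Subtype.ext
        show (g : G) * ((x.toMul * y.toMul : N) : G) * (g : G)⁻¹ =
          ((g : G) * (x.toMul : G) * (g : G)⁻¹) * ((g : G) * (y.toMul : G) * (g : G)⁻¹)
        rw [Subgroup.coe_mul]
        group }
  let τ : D →* AddMonoid.End (Additive N) :=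
    { toFun := σ
      map_one' := by
        apply AddMonoidHom.ext
        intro m
        apply Additive.toMul.injective
        apply Subtype.ext
        show ((1 : D) : G) * (m.toMul : G) * ((1 : D) : G)⁻¹ = (m.toMul : G)
        rw [Subgroup.coe_one]
        group
      map_mul' := by
        intro g h
        apply AddMonoidHom.ext
        intro m
        apply Additive.toMul.injective
        apply Subtype.ext
        show ((g * h : D) : G) * (m.toMul : G) * ((g * h : D) : G)⁻¹ =
          (g : G) * ((h : G) * (m.toMul : G) * (h : G)⁻¹) * (g : G)⁻¹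
        rw [Subgroup.coe_mul]
        group }
  have hτ : ∀ (g : D) m, ((τ g m).toMul : G) = (g : G) * (m.toMul : G) * (g : G)⁻¹ :=
    fun g m => rfl
  have hnt : Nontrivial (Additive N) := by
    have : Nontrivial N := (Subgroup.nontrivial_iff_ne_bot N).2 hN1
    infer_instance
  have hcop' : (Nat.card (Additive N)).Coprime p := hcop
  have hreg : ∃ v, Reg τ v := by
    rcases hgood with hab | ⟨hp2, hodd⟩
    · exact reg_ab p (Nat.card (Additive N)) D (Additive N) τ le_rfl hD hcop'
        (fun a b => Subtype.ext (hab a a.2 b b.2))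
    · obtain ⟨v, _, hv, _⟩ := reg_two p hp2 (Nat.card D + Nat.card (Additive N)) D (Additive N) τ
        le_rfl hD hcop' hodd
      exact ⟨v, hv⟩
  obtain ⟨v, hv⟩ := hreg
  refine ⟨v.toMul, v.toMul.2, fun a ha hfix n hn => ?_⟩
  have h1 := hv ⟨a, ha⟩ (by
    apply Additive.toMul.injective
    apply Subtype.ext
    exact hfix) (Additive.ofMul ⟨n, hn⟩)
  exact congrArg (fun x : Additive N => (x.toMul : G)) h1

/-- a nontrivial soluble normal subgroup contains a nontrivial abelian normal subgroup -/
theorem exists_abelian {G : Type u} [Group G] (R : Subgroup G) [R.Normal] (hR : Group.IsSolvable R)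
    (hne : R ≠ ⊥) : ∃ F : Subgroup G, F.Normal ∧ F ≠ ⊥ ∧ F ≤ R ∧
      ∀ a ∈ F, ∀ b ∈ F, a * b = b * a := by
  classical
  have hex : ∃ n, derivedSeries R n = ⊥ := hR.solvable
  set n := Nat.find hex with hn
  have hn1 : derivedSeries R n = ⊥ := Nat.find_spec hex
  have hn0 : n ≠ 0 := by
    intro h0
    rw [h0, derivedSeries_zero] at hn1
    apply hne
    rw [Subgroup.eq_bot_iff_forall]
    intro x hx
    have h2 : (⟨x, hx⟩ : R) ∈ (⊤ : Subgroup R) := Subgroup.mem_top _
    rw [hn1, Subgroup.mem_bot] at h2
    exact congrArg Subtype.val h2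
  obtain ⟨k, hk⟩ := Nat.exists_eq_succ_of_ne_zero hn0
  have hk1 : derivedSeries R k ≠ ⊥ := by
    apply Nat.find_min hex
    rw [← hn]; omega
  refine ⟨(derivedSeries R k).map R.subtype, ?_, ?_, ?_, ?_⟩
  · exact ConjAct.normal_of_characteristic_of_normal
  · intro h
    apply hk1
    rw [Subgroup.eq_bot_iff_forall]
    intro y hy
    have h2 : (y : G) ∈ (derivedSeries R k).map R.subtype := Subgroup.mem_map.2 ⟨y, hy, rfl⟩
    rw [h, Subgroup.mem_bot] at h2
    exact Subtype.ext h2
  · intro z hz
    obtain ⟨y, _, rfl⟩ := Subgroup.mem_map.1 hz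
    exact y.2
  · intro a ha b hb
    obtain ⟨a', ha', rfl⟩ := Subgroup.mem_map.1 ha
    obtain ⟨b', hb', rfl⟩ := Subgroup.mem_map.1 hb
    rw [hk, derivedSeries_succ] at hn1
    have h1 : ⁅a', b'⁆ ∈ (⊥ : Subgroup R) := by
      rw [← hn1]
      exact Subgroup.commutator_mem_commutator ha' hb'
    rw [Subgroup.mem_bot, commutatorElement_eq_one_iff_mul_comm] at h1
    exact congrArg Subtype.val h1

theorem nil_of_comm {G : Type u} [Group G] (F : Subgroup G)
    (h : ∀ a ∈ F, ∀ b ∈ F, a * b = b * a) : Group.IsNilpotent F := by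
  let hcg : CommGroup F :=
    { (inferInstance : Group F) with
      mul_comm := fun a b => Subtype.ext (h a a.2 b b.2) }
  exact (CommGroup.isNilpotent : Group.IsNilpotent F)

/-- Simultaneous regularity passes up soluble extensions. -/
theorem regular_ext {ι : Type*} [Finite ι] (p : ι → ℕ) [hp : ∀ i, Fact (p i).Prime]
    (hinj : Function.Injective p) : ∀ (m : ℕ) (G : Type u) [Group G] [Finite G],
    Nat.card G ≤ m → ∀ (R : Subgroup G) [R.Normal], Group.IsSolvable R →
    ∀ (P : ∀ i, Sylow (p i) G),
    (∀ i, (P i : Subgroup G).Normal ∨ (∀ a ∈ P i, ∀ b ∈ P i, a * b = b * a) ∨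
      (p i ≠ 2 ∧ (Odd (Nat.card R) ∨ ∀ k, p i + 1 ≠ 2 ^ k)) ∨
      (∀ K : Subgroup G, K.Normal → K ≤ R → ∃ g : G, ∀ a ∈ P i,
        g * a * g⁻¹ ∈ (P i : Subgroup G) ⊔ K → ∀ h, h * a * h⁻¹ ∈ (P i : Subgroup G) ⊔ K)) →
    ∀ y : G, (∀ i, ∀ a ∈ P i, y * a * y⁻¹ ∈ (P i : Subgroup G) ⊔ R →
      ∀ h, h * a * h⁻¹ ∈ (P i : Subgroup G) ⊔ R) →
    ∃ x, ∀ i, ∀ a ∈ P i, x * a * x⁻¹ ∈ P i → ∀ h, h * a * h⁻¹ ∈ P i := by
  intro m
  induction m with
  | zero =>
    intro G _ _ hG
    exfalso
    have : 0 < Nat.card G := Nat.card_pos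
    omega
  | succ m ih =>
    intro G _ _ hG R _ hR P hgood y hy
    by_cases hRbot : R = ⊥
    · subst hRbot
      simp only [sup_bot_eq] at hy
      exact ⟨y, hy⟩
    obtain ⟨F, hFn, hFne, hFR, hFab⟩ := exists_abelian R hR hRbot
    obtain ⟨N, hNn, hNne, hNF, hcen, _, s, hs, hsN⟩ := exists_minN F (nil_of_comm F hFab) hFne
    have hNab : ∀ a ∈ N, ∀ b ∈ N, a * b = b * a := fun a ha b hb => hFab a (hNF ha) b (hNF hb)
    have hNR : N ≤ R := le_trans hNF hFR
    have hNnil : Group.IsNilpotent N := nil_of_comm N hNab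
    set q := QuotientGroup.mk' N with hq
    have hqs : Function.Surjective q := QuotientGroup.mk'_surjective N
    have hcardq : Nat.card (G ⧸ N) ≤ m := by
      have h1 := Subgroup.card_eq_card_quotient_mul_card_subgroup N
      have h2 : 1 < Nat.card N := by
        rw [Nat.one_lt_iff_ne_zero_and_ne_one]
        refine ⟨Nat.card_pos.ne', fun h => hNne (Subgroup.eq_bot_of_card_eq N h)⟩
      have h3 : 0 < Nat.card (G ⧸ N) := Nat.card_pos
      have h4 : Nat.card (G ⧸ N) * 2 ≤ Nat.card (G ⧸ N) * Nat.card N :=
        Nat.mul_le_mul_left _ h2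
      omega
    have hRq : Group.IsSolvable (R.map q) := by
      have := hR
      exact Group.isSolvable_of_surjective (MonoidHom.subgroupMap_surjective q R)
    have hRqn : (R.map q).Normal := Subgroup.Normal.map inferInstance q hqs
    have hsup : ∀ i, ((P i : Subgroup G).map q) ⊔ R.map q = ((P i : Subgroup G) ⊔ R).map q := by
      intro i
      rw [Subgroup.map_sup]
    have hmemR : ∀ (i : ι) (w : G), q w ∈ ((P i : Subgroup G).map q) ⊔ R.map q ↔
        w ∈ (P i : Subgroup G) ⊔ R := by
      intro i w
      rw [hsup, mem_map_mk', sup_assoc, sup_eq_left.2 hNR]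
    obtain ⟨x', hx'⟩ := ih (G ⧸ N) hcardq (R.map q) hRq (fun i => (P i).mapSurjective hqs) (by
      intro i
      rcases hgood i with h | h | ⟨h1, h2⟩ | h
      · left
        exact Subgroup.Normal.map h q hqs
      · right; left
        intro a ha b hb
        obtain ⟨a', ha', rfl⟩ := Subgroup.mem_map.1 ha
        obtain ⟨b', hb', rfl⟩ := Subgroup.mem_map.1 hb
        rw [← map_mul, ← map_mul, h a' ha' b' hb']
      · right; right; left
        refine ⟨h1, ?_⟩
        rcases h2 with h2 | h2
        · left
          exact Odd.of_dvd_nat h2 (Subgroup.card_dvd_of_surjective (q.subgroupMap R)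
            (MonoidHom.subgroupMap_surjective q R))
        · exact Or.inr h2
      · right; right; right
        intro K' hK'n hK'R
        have hKR : K'.comap q ≤ R := by
          intro w hw
          have h1 : q w ∈ R.map q := hK'R hw
          rw [mem_map_mk', sup_eq_left.2 hNR] at h1
          exact h1
        obtain ⟨g, hg⟩ := h (K'.comap q) (hK'n.comap q) hKR
        have hmemK : ∀ w : G, q w ∈ ((P i : Subgroup G).map q) ⊔ K' ↔
            w ∈ (P i : Subgroup G) ⊔ K'.comap q := by
          intro w
          have h1 : K' = (K'.comap q).map q := (Subgroup.map_comap_eq_self_of_surjective hqs K').symm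
          have h2 : N ≤ K'.comap q := by
            intro n hn
            have : q n = 1 := (QuotientGroup.eq_one_iff n).2 hn
            rw [Subgroup.mem_comap, this]
            exact K'.one_mem
          conv_lhs => rw [h1]
          rw [← Subgroup.map_sup, mem_map_mk', sup_assoc, sup_eq_left.2 h2]
        refine ⟨q g, ?_⟩
        intro a' ha' hya h'
        obtain ⟨a, ha, rfl⟩ := Subgroup.mem_map.1 ha'
        obtain ⟨h0, rfl⟩ := hqs h'
        have h1 : q (g * a * g⁻¹) ∈ ((P i : Subgroup G).map q) ⊔ K' := by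
          rw [map_mul, map_mul, map_inv]; exact hya
        have h2 := hg a ha ((hmemK _).1 h1) h0
        have h3 := (hmemK _).2 h2
        rw [map_mul, map_mul, map_inv] at h3
        exact h3) (q y) (by
      intro i a' ha' hya h'
      obtain ⟨a, ha, rfl⟩ := Subgroup.mem_map.1 ha'
      obtain ⟨h, rfl⟩ := hqs h'
      have h1 : q (y * a * y⁻¹) ∈ ((P i : Subgroup G).map q) ⊔ R.map q := by
        rw [map_mul, map_mul, map_inv]; exact hya
      have h2 := hy i a ha ((hmemR i _).1 h1) h
      have h3 := (hmemR i _).2 h2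
      rw [map_mul, map_mul, map_inv] at h3
      exact h3)
    obtain ⟨x0, rfl⟩ := hqs x'
    have hx0 : ∀ i, ∀ a ∈ P i, x0 * a * x0⁻¹ ∈ (P i : Subgroup G) ⊔ N →
        ∀ h, h * a * h⁻¹ ∈ (P i : Subgroup G) ⊔ N := by
      intro i a ha hxa h
      rw [← mem_map_mk'] at hxa ⊢
      have h1 := hx' i (q a) (Subgroup.mem_map_of_mem q ha) (by
        rw [← map_inv, ← map_mul, ← map_mul]
        exact hxa) (q h)
      rw [← map_inv, ← map_mul, ← map_mul] at h1
      exact h1
    set T : ι → Subgroup G := fun i => ((P i : Subgroup G) ⊔ N).normalCore with hT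
    have hTn : ∀ i, (T i).Normal := fun i => Subgroup.normalCore_normal _
    have hNT : ∀ i, N ≤ T i := fun i => Subgroup.normal_le_normalCore.2 le_sup_right
    have hTP : ∀ i, T i ≤ (P i : Subgroup G) ⊔ N := fun i => Subgroup.normalCore_le _
    have htarget : ∀ i, ∃ g : G, ∀ a ∈ P i, a ∈ T i → g * a * g⁻¹ ∈ P i →
        ∀ h, h * a * h⁻¹ ∈ P i := by
      intro i
      by_cases hsp : s = p i
      · have hNP : N ≤ (P i : Subgroup G) := by
          have h1 : IsPGroup (p i) N := hsp ▸ hsN
          exact h1.le_sylow_of_normal (P i)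
        refine ⟨1, fun a ha haT _ h => ?_⟩
        have h1 := hTP i ((hTn i).conj_mem a haT h)
        rw [sup_eq_left.2 hNP] at h1
        exact h1
      · have hsf : Fact s.Prime := ⟨hs⟩
        have hcopN : (Nat.card N).Coprime (p i) := by
          obtain ⟨k, hk⟩ := IsPGroup.iff_card.1 hsN
          rw [hk]
          exact Nat.Coprime.pow_left k ((Nat.coprime_primes hs (hp i).out).2 hsp)
        have hNelt : ∀ n ∈ N, (∃ k : ℕ, n ^ (p i ^ k) = 1) → n = 1 := by
          intro n hn hnk
          obtain ⟨k, hk⟩ := hnk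
          have h1 : orderOf n ∣ p i ^ k := orderOf_dvd_of_pow_eq_one hk
          have h2 : orderOf n ∣ Nat.card N := by
            have := orderOf_dvd_natCard (⟨n, hn⟩ : N)
            rwa [← Subgroup.orderOf_coe] at this
          have h3 := Nat.dvd_gcd h2 h1
          rw [(hcopN.pow_right k : Nat.gcd _ _ = 1), Nat.dvd_one, orderOf_eq_one_iff] at h3
          exact h3
        have hpelt : ∀ a ∈ P i, ∃ k : ℕ, a ^ (p i ^ k) = 1 := by
          intro a ha
          obtain ⟨k, hk⟩ := (P i).isPGroup' ⟨a, ha⟩
          exact ⟨k, congrArg Subtype.val hk⟩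
        rcases hgood i with hnorm | hrest
        · exact ⟨1, fun a ha _ _ h => hnorm.conj_mem a ha h⟩
        rcases or_assoc.2 hrest with hrest | hsingle
        swap
        · obtain ⟨g, hg⟩ := hsingle ⊥ inferInstance bot_le
          simp only [sup_bot_eq] at hg
          exact ⟨g, fun a ha _ hga => hg a ha hga⟩
        · set D : Subgroup G := (P i : Subgroup G) ⊓ T i with hD
          have hDp : IsPGroup (p i) D := (P i).isPGroup'.to_le inf_le_left
          obtain ⟨v, hv, hv2⟩ := reg_conj N hNab D hDp hcopN hNne (by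
            rcases hrest with h | ⟨h1, h2⟩
            · left
              intro a ha b hb
              exact h a ha.1 b hb.1
            · right
              refine ⟨h1, ?_⟩
              rcases h2 with h2 | h2
              · left
                exact Odd.of_dvd_nat h2 (Subgroup.card_dvd_of_le hNR)
              · exact Or.inr h2)
          refine ⟨v, fun a ha haT hva h => ?_⟩
          have hone : v * a * v⁻¹ * a⁻¹ = 1 := by
            apply hNelt
            · have h1 : v * a * v⁻¹ * a⁻¹ = v * (a * v⁻¹ * a⁻¹) := by group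
              rw [h1]
              exact N.mul_mem hv (hNn.conj_mem _ (N.inv_mem hv) a)
            · exact hpelt _ ((P i).mul_mem hva ((P i).inv_mem ha))
          have hfix : a * v * a⁻¹ = v := by
            have h1 : v * a * v⁻¹ = a := mul_inv_eq_one.1 hone
            have h2 : v * a = a * v := mul_inv_eq_iff_eq_mul.1 h1
            rw [← h2, mul_assoc, mul_inv_cancel, mul_one]
          have hcent := hv2 a ⟨ha, haT⟩ hfix
          -- the conjugate
          have hw := hTP i ((hTn i).conj_mem a haT h)
          obtain ⟨c, hc, n, hn, hcn⟩ := Subgroup.mem_sup_of_normal_right.1 hw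
          have hwcent : ∀ n' ∈ N, (h * a * h⁻¹) * n' = n' * (h * a * h⁻¹) := by
            intro n' hn'
            have h1 := hcent (h⁻¹ * n' * h⁻¹⁻¹) (hNn.conj_mem n' hn' h⁻¹)
            have h2 : (h * a * h⁻¹) * n' =
                h * (a * (h⁻¹ * n' * h⁻¹⁻¹) * a⁻¹) * h⁻¹ * (h * a * h⁻¹) := by group
            rw [h2, h1]
            group
          have hcomm : c * n = n * c := by
            have h1 := hwcent n hn
            rw [← hcn] at h1
            have h2 : c * n * n = n * c * n := by rw [h1, mul_assoc]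
            exact mul_right_cancel h2
          obtain ⟨k, hk⟩ := hpelt a ha
          obtain ⟨l, hl⟩ := hpelt c hc
          have hn1 : n = 1 := by
            apply hNelt n hn
            refine ⟨k + l, ?_⟩
            have h1 : (c * n) ^ (p i ^ (k + l)) = 1 := by
              rw [hcn, conj_pow, pow_add, pow_mul, hk, one_pow, mul_one, mul_inv_cancel]
            have h2 : c ^ (p i ^ (k + l)) = 1 := by
              rw [pow_add, mul_comm, pow_mul, hl, one_pow]
            rw [(show Commute c n from hcomm).mul_pow, h2, one_mul] at h1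
            exact h1
          rw [hn1, mul_one] at hcn
          rw [← hcn]
          exact hc
    choose g hg using htarget
    obtain ⟨m', _, hm'⟩ := lift N hNnil p hinj P T hTn hNT hTP x0
      (fun i a ha hxa h => hx0 i a ha hxa h) g
    refine ⟨x0 * m', fun i a ha hxa => ?_⟩
    obtain ⟨h1, h2⟩ := hm' i a ha hxa
    exact hg i a ha h1 h2

end Pool.Agent.Lib.MP_3587c3_al
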