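import Mathlib
import Pool.Agent.Lib.MP_3587c3_al.Defs
import Pool.Agent.Lib.MP_3587c3_al.Soluble

set_option autoImplicit false

/-!
# MP_3587c3_al: final forms
-/

namespace Pool.Agent.Lib.MP_3587c3_al

universe u

open scoped Pointwise commutatorElement

/-- a nilpotent layer below a soluble extension -/
theorem two_layer {G : Type u} [Group G] [Finite G] (N R : Subgroup G) [N.Normal] [R.Normal]
    (hNR : N ≤ R) (hN : Group.IsNilpotent N) (hR : Group.IsSolvable R) {ι : Type*} [Finite ι]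
    (p : ι → ℕ) [hp : ∀ i, Fact (p i).Prime] (hinj : Function.Injective p)
    (P : ∀ i, Sylow (p i) G)
    (hgood : ∀ i, ((P i : Subgroup G) ⊔ N).Normal ∨ (∀ a ∈ P i, ∀ b ∈ P i, ⁅a, b⁆ ∈ N) ∨
      (p i ≠ 2 ∧ (Odd (N.relIndex R) ∨ ∀ k, p i + 1 ≠ 2 ^ k)) ∨
      (∀ K : Subgroup G, K.Normal → N ≤ K → K ≤ R → ∃ g : G, ∀ a ∈ P i,
        g * a * g⁻¹ ∈ (P i : Subgroup G) ⊔ K → ∀ h, h * a * h⁻¹ ∈ (P i : Subgroup G) ⊔ K))
    (y : G) (hy : ∀ i, ∀ a ∈ P i, y * a * y⁻¹ ∈ (P i : Subgroup G) ⊔ R →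
      ∀ h, h * a * h⁻¹ ∈ (P i : Subgroup G) ⊔ R) (g : ι → G) :
    ∃ x, ∀ i, ∀ a ∈ P i, x * a * x⁻¹ ∈ P i → g i * a * (g i)⁻¹ ∈ P i := by
  set q := QuotientGroup.mk' N with hq
  have hqs : Function.Surjective q := QuotientGroup.mk'_surjective N
  have hRq : Group.IsSolvable (R.map q) := by
    have := hR
    exact Group.isSolvable_of_surjective (MonoidHom.subgroupMap_surjective q R)
  have hRqn : (R.map q).Normal := Subgroup.Normal.map inferInstance q hqs
  have hcardR : Nat.card (R.map q) = N.relIndex R := by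
    have h1 := Subgroup.relIndex_ker R q
    rw [hq, QuotientGroup.ker_mk'] at h1
    rw [h1]
  have hmem : ∀ (i : ι) (K : Subgroup G), N ≤ K → ∀ w : G,
      q w ∈ ((P i : Subgroup G).map q) ⊔ K.map q ↔ w ∈ (P i : Subgroup G) ⊔ K := by
    intro i K hNK w
    rw [← Subgroup.map_sup, mem_map_mk', sup_assoc, sup_eq_left.2 hNK]
  obtain ⟨x', hx'⟩ := regular_ext p hinj (Nat.card (G ⧸ N)) (G ⧸ N) le_rfl (R.map q) hRq
    (fun i => (P i).mapSurjective hqs) (by
      intro i
      rcases hgood i with h | h | ⟨h1, h2⟩ | h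
      · left
        have h1 : (((P i : Subgroup G) ⊔ N).map q).Normal := Subgroup.Normal.map h q hqs
        have h2 : ((P i : Subgroup G) ⊔ N).map q = (P i : Subgroup G).map q := by
          rw [Subgroup.map_sup, sup_eq_left]
          intro w hw
          obtain ⟨n, hn, rfl⟩ := Subgroup.mem_map.1 hw
          rw [show q n = 1 from (QuotientGroup.eq_one_iff n).2 hn]
          exact Subgroup.one_mem _
        rw [h2] at h1
        exact h1
      · right; left
        intro a ha b hb
        obtain ⟨a', ha', rfl⟩ := Subgroup.mem_map.1 ha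
        obtain ⟨b', hb', rfl⟩ := Subgroup.mem_map.1 hb
        have h1 : q ⁅a', b'⁆ = 1 := (QuotientGroup.eq_one_iff _).2 (h a' ha' b' hb')
        rw [map_commutatorElement, commutatorElement_eq_one_iff_mul_comm] at h1
        exact h1
      · right; right; left
        rw [hcardR]
        exact ⟨h1, h2⟩
      · right; right; right
        intro K' hK'n hK'R
        have hNK : N ≤ K'.comap q := by
          intro n hn
          rw [Subgroup.mem_comap, show q n = 1 from (QuotientGroup.eq_one_iff n).2 hn]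
          exact K'.one_mem
        have hKR : K'.comap q ≤ R := by
          intro w hw
          have h1 : q w ∈ R.map q := hK'R hw
          rw [mem_map_mk', sup_eq_left.2 hNR] at h1
          exact h1
        obtain ⟨g, hg⟩ := h (K'.comap q) (hK'n.comap q) hNK hKR
        have hmemK : ∀ w : G, q w ∈ ((P i : Subgroup G).map q) ⊔ K' ↔
            w ∈ (P i : Subgroup G) ⊔ K'.comap q := by
          intro w
          have h1 := hmem i (K'.comap q) hNK w
          rw [Subgroup.map_comap_eq_self_of_surjective hqs] at h1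
          exact h1
        refine ⟨q g, ?_⟩
        intro a' ha' hya h'
        obtain ⟨a, ha, rfl⟩ := Subgroup.mem_map.1 ha'
        obtain ⟨h0, rfl⟩ := hqs h'
        have h1 : q (g * a * g⁻¹) ∈ ((P i : Subgroup G).map q) ⊔ K' := by
          rw [map_mul, map_mul, map_inv]; exact hya
        have h2 := hg a ha ((hmemK _).1 h1) h0
        have h3 := (hmemK _).2 h2
        rw [map_mul, map_mul, map_inv] at h3
        exact h3) (q y) (by
      intro i a' ha' hya h'
      obtain ⟨a, ha, rfl⟩ := Subgroup.mem_map.1 ha'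
      obtain ⟨h, rfl⟩ := hqs h'
      have h1 : q (y * a * y⁻¹) ∈ ((P i : Subgroup G).map q) ⊔ R.map q := by
        rw [map_mul, map_mul, map_inv]; exact hya
      have h2 := hy i a ha ((hmem i R hNR _).1 h1) h
      have h3 := (hmem i R hNR _).2 h2
      rw [map_mul, map_mul, map_inv] at h3
      exact h3)
  obtain ⟨x0, rfl⟩ := hqs x'
  set T : ι → Subgroup G := fun i => ((P i : Subgroup G) ⊔ N).normalCore with hT
  obtain ⟨m', _, hm'⟩ := lift N hN p hinj P T (fun i => Subgroup.normalCore_normal _)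
    (fun i => Subgroup.normal_le_normalCore.2 le_sup_right)
    (fun i => Subgroup.normalCore_le _) x0
    (by
      intro i a ha hxa h
      rw [← mem_map_mk'] at hxa ⊢
      have h1 := hx' i (q a) (Subgroup.mem_map_of_mem q ha) (by
        rw [← map_inv, ← map_mul, ← map_mul]
        exact hxa) (q h)
      rw [← map_inv, ← map_mul, ← map_mul] at h1
      exact h1) g
  exact ⟨x0 * m', fun i a ha hxa => (hm' i a ha hxa).2⟩

theorem mem_pCore {G : Type u} [Group G] [Finite G] {p : ℕ} [Fact p.Prime] (P : Sylow p G)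
    (a : G) : a ∈ pCore p G ↔ ∀ h : G, h * a * h⁻¹ ∈ P := by
  rw [pCore, Subgroup.mem_iInf]
  constructor
  · intro ha h
    have h1 := ha (h⁻¹ • P)
    rw [← SetLike.mem_coe, Sylow.coe_subgroup_smul] at h1
    obtain ⟨c, hc, hca⟩ := h1
    have h2 : h⁻¹ * c * h⁻¹⁻¹ = a := hca
    rw [← h2]
    have h3 : h * (h⁻¹ * c * h⁻¹⁻¹) * h⁻¹ = c := by group
    rw [h3]
    exact hc
  · intro ha Q
    obtain ⟨k, rfl⟩ := MulAction.exists_smul_eq G P Q
    rw [← SetLike.mem_coe, Sylow.coe_subgroup_smul]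
    refine ⟨k⁻¹ * a * k⁻¹⁻¹, ha k⁻¹, ?_⟩
    show k * (k⁻¹ * a * k⁻¹⁻¹) * k⁻¹ = a
    group

/-- from elementwise regularity to the intersection -/
theorem conjInter_eq_pCore {G : Type u} [Group G] [Finite G] {p : ℕ} [Fact p.Prime]
    (P : Sylow p G) (x : G) (h : ∀ a ∈ P, x * a * x⁻¹ ∈ P → ∀ h, h * a * h⁻¹ ∈ P) :
    conjInter (P : Subgroup G) x = pCore p G := by
  apply le_antisymm
  · intro a ha
    rw [mem_pCore P]
    exact h a ha.1 ha.2
  · intro a ha
    rw [mem_pCore P] at ha
    refine ⟨?_, ha x⟩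
    have := ha 1
    simpa using this

/-- a normal intersection -/
theorem elem_of_normal {G : Type u} [Group G] (Q : Subgroup G) (y : G)
    (h : (conjInter Q y).Normal) (a : G) (ha : a ∈ Q) (hya : y * a * y⁻¹ ∈ Q) (b : G) :
    b * a * b⁻¹ ∈ Q := (h.conj_mem a ⟨ha, hya⟩ b).1

/-- there is a minimal member below -/
theorem exists_minimalInter {G : Type u} [Group G] [Finite G] (P : Subgroup G) (g : G) :
    ∃ g', conjInter P g' ≤ conjInter P g ∧ IsMinimalInter P g' := by
  classical
  obtain ⟨S, hS⟩ := Set.Finite.exists_minimal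
    (Set.toFinite {S : Subgroup G | (∃ y, S = conjInter P y) ∧ S ≤ conjInter P g})
    ⟨conjInter P g, ⟨g, rfl⟩, le_rfl⟩
  obtain ⟨⟨g', rfl⟩, hle⟩ := hS.1
  refine ⟨g', hle, fun y hy => ?_⟩
  exact le_antisymm hy (hS.2 ⟨⟨y, rfl⟩, le_trans hy hle⟩ hy)

end Pool.Agent.Lib.MP_3587c3_al
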