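import Mathlib
import Pool.Agent.Lib.MP_3587c3_al.Final

set_option autoImplicit false

/-!
# MP_3587c3_al: elements centralising all normal `s`-sections, `s` outside a set of primes
-/

namespace Pool.Agent.Lib.MP_3587c3_al

universe u

open scoped Pointwise commutatorElement

/-- `a` centralises every normal `s`-section of `G`, for all primes `s` outside `X` -/
def Clean {G : Type*} [Group G] (X : Set ℕ) (a : G) : Prop :=
  ∀ s : ℕ, s.Prime → s ∉ X → ∀ A B : Subgroup G, A.Normal → B.Normal → A ≤ B →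
    (∀ b ∈ B, ∃ k : ℕ, b ^ (s ^ k) ∈ A) → ∀ b ∈ B, ⁅a, b⁆ ∈ A

theorem mem_of_pow_coprime {G : Type*} [Group G] (A : Subgroup G) (n : G) (u v : ℕ)
    (h : Nat.Coprime u v) (hu : n ^ u ∈ A) (hv : n ^ v ∈ A) : n ∈ A := by
  obtain ⟨x, y, hxy⟩ := Nat.isCoprime_iff_coprime.2 h
  have h1 : n = (n ^ u) ^ x * (n ^ v) ^ y := by
    rw [← zpow_natCast, ← zpow_natCast, ← zpow_mul, ← zpow_mul, ← zpow_add,
      mul_comm (u : ℤ) x, mul_comm (v : ℤ) y, hxy, zpow_one]
  rw [h1]
  exact A.mul_mem (A.zpow_mem hu x) (A.zpow_mem hv y)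

/-- commuting with all powers of prime power order -/
theorem commute_of_prime_powers {G : Type*} [Group G] [Finite G] (c l : G)
    (h : ∀ s : ℕ, s.Prime → ∀ j : ℕ, (∃ k : ℕ, (l ^ j) ^ (s ^ k) = 1) → Commute c (l ^ j)) :
    Commute c l := by
  classical
  have hex : ∃ d : ℕ, 0 < d ∧ Commute c (l ^ d) :=
    ⟨orderOf l, orderOf_pos l, by rw [pow_orderOf_eq_one]; exact Commute.one_right c⟩
  obtain ⟨hd0, hd1⟩ := Nat.find_spec hex
  set d := Nat.find hex with hd
  have hmin : ∀ m : ℕ, Commute c (l ^ m) → d ∣ m := by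
    intro m hm
    by_contra hdm
    have h0 : 0 < m % d := Nat.pos_of_ne_zero fun h0 => hdm (Nat.dvd_of_mod_eq_zero h0)
    have h2 : l ^ (m % d) = ((l ^ d) ^ (m / d))⁻¹ * l ^ m := by
      have h3 : l ^ m = (l ^ d) ^ (m / d) * l ^ (m % d) := by
        rw [← pow_mul, ← pow_add, Nat.div_add_mod]
      rw [h3, inv_mul_cancel_left]
    have h1 : Commute c (l ^ (m % d)) := by
      rw [h2]
      exact ((hd1.pow_right (m / d)).inv_right).mul_right hm
    have h4 := Nat.find_min' hex ⟨h0, h1⟩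
    rw [← hd] at h4
    exact absurd (Nat.mod_lt m hd0) (not_lt.2 h4)
  by_cases h1 : d = 1
  · rw [h1, pow_one] at hd1
    exact hd1
  · exfalso
    obtain ⟨s, hs, hsd⟩ := Nat.exists_prime_and_dvd h1
    obtain ⟨k, m, hsm, hkm⟩ := Nat.exists_eq_pow_mul_and_not_dvd (orderOf_pos l).ne' s hs.ne_one
    have h2 : Commute c (l ^ m) := by
      apply h s hs m
      refine ⟨k, ?_⟩
      rw [← pow_mul, mul_comm, ← hkm, pow_orderOf_eq_one]
    exact hsm (hsd.trans (hmin m h2))

theorem pCore_normal {G : Type u} [Group G] [Finite G] (p : ℕ) [Fact p.Prime] :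
    (pCore p G).Normal := by
  obtain ⟨P⟩ : Nonempty (Sylow p G) := inferInstance
  constructor
  intro a ha g
  rw [mem_pCore P] at ha ⊢
  intro h
  have h1 : h * (g * a * g⁻¹) * h⁻¹ = (h * g) * a * (h * g)⁻¹ := by group
  rw [h1]
  exact ha _

theorem pCore_pow {G : Type u} [Group G] [Finite G] (p : ℕ) [Fact p.Prime] (a : G)
    (ha : a ∈ pCore p G) : ∃ k : ℕ, a ^ (p ^ k) = 1 := by
  obtain ⟨P⟩ : Nonempty (Sylow p G) := inferInstance
  rw [mem_pCore P] at ha
  have h1 := ha 1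
  rw [one_mul, inv_one, mul_one] at h1
  obtain ⟨k, hk⟩ := P.isPGroup' ⟨a, h1⟩
  exact ⟨k, congrArg Subtype.val hk⟩

/-- the centraliser in a soluble normal subgroup `R` of all normal `s`-subgroups in `R` -/
def coreCent {G : Type u} [Group G] [Finite G] (R : Subgroup G) [R.Normal] : Subgroup G where
  carrier := {c | c ∈ R ∧ ∀ s : ℕ, s.Prime → ∀ z ∈ R, z ∈ pCore s G → c * z = z * c}
  one_mem' := ⟨R.one_mem, fun s _ z _ _ => by rw [one_mul, mul_one]⟩
  mul_mem' := by
    rintro a b ⟨ha, ha1⟩ ⟨hb, hb1⟩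
    refine ⟨R.mul_mem ha hb, fun s hs z hz hz1 => ?_⟩
    rw [mul_assoc, hb1 s hs z hz hz1, ← mul_assoc, ha1 s hs z hz hz1, mul_assoc]
  inv_mem' := by
    rintro a ⟨ha, ha1⟩
    refine ⟨R.inv_mem ha, fun s hs z hz hz1 => ?_⟩
    have h1 : Commute a z := ha1 s hs z hz hz1
    exact h1.inv_left

theorem coreCent_normal {G : Type u} [Group G] [Finite G] (R : Subgroup G) [R.Normal] :
    (coreCent R).Normal := by
  constructor
  rintro c ⟨hc, hc1⟩ g
  refine ⟨Subgroup.Normal.conj_mem inferInstance c hc g, fun s hs z hz hz1 => ?_⟩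
  have hf : Fact s.Prime := ⟨hs⟩
  have hz' : g⁻¹ * z * g⁻¹⁻¹ ∈ R := Subgroup.Normal.conj_mem inferInstance z hz g⁻¹
  have hz1' : g⁻¹ * z * g⁻¹⁻¹ ∈ pCore s G := (pCore_normal s).conj_mem z hz1 g⁻¹
  have h1 := hc1 s hs _ hz' hz1'
  calc g * c * g⁻¹ * z = g * (c * (g⁻¹ * z * g⁻¹⁻¹)) * g⁻¹ := by group
    _ = g * ((g⁻¹ * z * g⁻¹⁻¹) * c) * g⁻¹ := by rw [h1]
    _ = z * (g * c * g⁻¹) := by group

/-- it is abelian -/
theorem coreCent_comm {G : Type u} [Group G] [Finite G] (R : Subgroup G) [R.Normal]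
    (hR : Group.IsSolvable R) :
    ∀ a ∈ coreCent R, ∀ b ∈ coreCent R, a * b = b * a := by
  classical
  set C := coreCent R with hC
  have hCn : C.Normal := coreCent_normal R
  have hCR : C ≤ R := fun c hc => hc.1
  set Z : Subgroup G := (Subgroup.center C).map C.subtype with hZ
  have hZn : Z.Normal := ConjAct.normal_of_characteristic_of_normal
  have hZC : Z ≤ C := by
    intro z hz
    obtain ⟨y, _, rfl⟩ := Subgroup.mem_map.1 hz
    exact y.2
  have hZc : ∀ z ∈ Z, ∀ c ∈ C, c * z = z * c := by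
    intro z hz c hc
    obtain ⟨y, hy, rfl⟩ := Subgroup.mem_map.1 hz
    exact congrArg Subtype.val ((Subgroup.mem_center_iff.1 hy) ⟨c, hc⟩)
  have hZmem : ∀ z ∈ C, (∀ c ∈ C, c * z = z * c) → z ∈ Z := by
    intro z hz h
    refine Subgroup.mem_map.2 ⟨⟨z, hz⟩, Subgroup.mem_center_iff.2 fun c => ?_, rfl⟩
    exact Subtype.ext (h c c.2)
  suffices hCZ : C ≤ Z by
    intro a ha b hb
    exact hZc b (hCZ hb) a ha
  by_contra hCZ
  set q := QuotientGroup.mk' Z with hq
  have hqs : Function.Surjective q := QuotientGroup.mk'_surjective Z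
  have hq1 : ∀ x, q x = 1 ↔ x ∈ Z := fun x => QuotientGroup.eq_one_iff x
  have hCqn : (C.map q).Normal := Subgroup.Normal.map inferInstance q hqs
  have hCsol : Group.IsSolvable C := by
    have := hR
    exact Group.isSolvable_of_isSolvable_injective (Subgroup.inclusion_injective hCR)
  have hCqsol : Group.IsSolvable (C.map q) := by
    have := hCsol
    exact Group.isSolvable_of_surjective (MonoidHom.subgroupMap_surjective q C)
  have hCq : C.map q ≠ ⊥ := by
    intro h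
    apply hCZ
    intro c hc
    have h1 : q c ∈ C.map q := Subgroup.mem_map_of_mem q hc
    rw [h, Subgroup.mem_bot] at h1
    exact (hq1 c).1 h1
  obtain ⟨F, hFn, hFne, hFC, hFab⟩ := exists_abelian (C.map q) hCqsol hCq
  set L : Subgroup G := F.comap q with hL
  have hLn : L.Normal := hFn.comap q
  have hLC : L ≤ C := by
    intro l hl
    have h1 : q l ∈ C.map q := hFC hl
    rw [mem_map_mk', sup_eq_left.2 hZC] at h1
    exact h1
  -- `L` is nilpotent
  have hLnil : Group.IsNilpotent L := by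
    have hFnil : Group.IsNilpotent F := nil_of_comm F hFab
    let f : L →* F :=
      { toFun := fun l => ⟨q (l : G), l.2⟩
        map_one' := Subtype.ext (map_one q)
        map_mul' := fun x y => Subtype.ext (map_mul q (x : G) (y : G)) }
    refine Subgroup.isNilpotent_of_ker_le_center f ?_
    intro l hl
    rw [MonoidHom.mem_ker] at hl
    have h1 : q (l : G) = 1 := congrArg Subtype.val hl
    rw [Subgroup.mem_center_iff]
    intro y
    exact Subtype.ext (hZc _ ((hq1 _).1 h1) y (hLC y.2))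
  -- `C` centralises `L`
  have hLcent : ∀ l ∈ L, ∀ c ∈ C, Commute c l := by
    intro l hl c hc
    apply commute_of_prime_powers
    intro s hs j hj
    have hf : Fact s.Prime := ⟨hs⟩
    have hlj : l ^ j ∈ L := L.pow_mem hl j
    obtain ⟨P⟩ : Nonempty (Sylow s G) := inferInstance
    refine hc.2 s hs (l ^ j) (hCR (hLC hlj)) ?_
    rw [mem_pCore P]
    intro h
    refine nil_pelem P L hLnil _ (hLn.conj_mem _ hlj h) ?_
    obtain ⟨k, hk⟩ := hj
    exact ⟨k, by rw [conj_pow, hk, mul_one, mul_inv_cancel]⟩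
  apply hFne
  rw [Subgroup.eq_bot_iff_forall]
  intro x hx
  obtain ⟨l, rfl⟩ := hqs x
  have hl : l ∈ L := hx
  exact (hq1 l).2 (hZmem l (hLC hl) fun c hc => (hLcent l hl c hc).eq)

/-- commuting modulo a subgroup from a commutator relation -/
theorem pow_mem_of_commutator {G : Type u} [Group G] (K : Subgroup G) [K.Normal] (a b c : G)
    (N : ℕ) (hN : a ^ N = 1) (hc : b * a * b⁻¹ = c * a) (hac : ⁅a, c⁆ ∈ K) : c ^ N ∈ K := by
  set q := QuotientGroup.mk' K with hq
  have hq1 : ∀ x, q x = 1 ↔ x ∈ K := fun x => QuotientGroup.eq_one_iff x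
  have h1 : Commute (q a) (q c) := by
    have h2 := (hq1 _).2 hac
    rw [map_commutatorElement, commutatorElement_eq_one_iff_mul_comm] at h2
    exact h2
  rw [← hq1, map_pow]
  have h3 : (q (c * a)) ^ N = 1 := by
    rw [← map_pow, ← hc, conj_pow, hN, mul_one, mul_inv_cancel, map_one]
  rw [map_mul, h1.symm.mul_pow, ← map_pow q a, hN, map_one, mul_one] at h3
  exact h3

/-- clean elements for disjoint sets of primes commute -/
theorem comm_of_clean {G : Type u} [Group G] [Finite G] (R : Subgroup G) [R.Normal]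
    (hR : Group.IsSolvable R) (X Y : Set ℕ)
    (hXY : ∀ s : ℕ, s.Prime → s ∣ Nat.card R → s ∈ X → s ∈ Y → False)
    (a b : G) (p q : ℕ) (hp : p.Prime) (hq : q.Prime) (hpX : p ∈ X) (hqY : q ∈ Y)
    (ha : ∃ k : ℕ, a ^ (p ^ k) = 1) (hb : ∃ k : ℕ, b ^ (q ^ k) = 1)
    (hca : Clean X a) (hcb : Clean Y b) (hR' : ⁅a, b⁆ ∈ R) : ⁅a, b⁆ = 1 := by
  classical
  set C := coreCent R with hC
  have hCn : C.Normal := coreCent_normal R
  have hCR : C ≤ R := fun c hc => hc.1
  have hCab := coreCent_comm R hR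
  set c := ⁅a, b⁆ with hc
  have hcdef : c = a * b * a⁻¹ * b⁻¹ := by rw [hc, commutatorElement_def]
  -- `c` lies in `C`
  have hcC : c ∈ C := by
    refine ⟨hR', fun s hs z hz hz1 => ?_⟩
    have hf : Fact s.Prime := ⟨hs⟩
    have hOn : (R ⊓ pCore s G).Normal := by
      have := pCore_normal (G := G) s
      infer_instance
    have hsec : ∀ b ∈ R ⊓ pCore s G, ∃ k : ℕ, b ^ (s ^ k) ∈ (⊥ : Subgroup G) := by
      intro b hb
      obtain ⟨k, hk⟩ := pCore_pow s b hb.2
      exact ⟨k, Subgroup.mem_bot.2 hk⟩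
    by_cases hsR : s ∣ Nat.card R
    swap
    · obtain ⟨k, hk⟩ := pCore_pow s z hz1
      have h1 : z ^ Nat.card R = 1 := by
        have := pow_card_eq_one' (x := (⟨z, hz⟩ : R))
        exact congrArg Subtype.val this
      have h2 : z = 1 := Subgroup.mem_bot.1 (mem_of_pow_coprime (⊥ : Subgroup G) z (s ^ k)
        (Nat.card R) (Nat.Coprime.pow_left k ((Nat.Prime.coprime_iff_not_dvd hs).2 hsR))
        (Subgroup.mem_bot.2 hk) (Subgroup.mem_bot.2 h1))
      rw [h2, mul_one, one_mul]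
    have hkey : (∀ w ∈ R ⊓ pCore s G, a * w * a⁻¹ = w) ∨
        (∀ w ∈ R ⊓ pCore s G, b * w * b⁻¹ = w) := by
      by_cases hsX : s ∈ X
      · right
        have hsY : s ∉ Y := fun h => hXY s hs hsR hsX h
        intro w hw
        have h1 := hcb s hs hsY ⊥ (R ⊓ pCore s G) inferInstance hOn bot_le hsec w hw
        rw [Subgroup.mem_bot, commutatorElement_def, mul_inv_eq_one] at h1
        exact h1
      · left
        intro w hw
        have h1 := hca s hs hsX ⊥ (R ⊓ pCore s G) inferInstance hOn bot_le hsec w hw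
        rw [Subgroup.mem_bot, commutatorElement_def, mul_inv_eq_one] at h1
        exact h1
    have hzO : z ∈ R ⊓ pCore s G := ⟨hz, hz1⟩
    have hfin : c * z * c⁻¹ = z := by
      rcases hkey with h | h
      · have h1 : b⁻¹ * z * b⁻¹⁻¹ ∈ R ⊓ pCore s G := hOn.conj_mem z hzO b⁻¹
        have h2 : a⁻¹ * (b⁻¹ * z * b⁻¹⁻¹) * a⁻¹⁻¹ = b⁻¹ * z * b⁻¹⁻¹ := by
          have h3 := h _ h1
          calc a⁻¹ * (b⁻¹ * z * b⁻¹⁻¹) * a⁻¹⁻¹
              = a⁻¹ * (a * (b⁻¹ * z * b⁻¹⁻¹) * a⁻¹) * a⁻¹⁻¹ := by rw [h3]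
            _ = b⁻¹ * z * b⁻¹⁻¹ := by group
        calc c * z * c⁻¹ = a * (b * (a⁻¹ * (b⁻¹ * z * b⁻¹⁻¹) * a⁻¹⁻¹) * b⁻¹) * a⁻¹ := by
              rw [hcdef]; group
          _ = a * z * a⁻¹ := by rw [h2]; group
          _ = z := h z hzO
      · have h1 : b⁻¹ * z * b⁻¹⁻¹ = z := by
          have h3 := h _ hzO
          calc b⁻¹ * z * b⁻¹⁻¹ = b⁻¹ * (b * z * b⁻¹) * b⁻¹⁻¹ := by rw [h3]
            _ = z := by group
        have h2 : a⁻¹ * z * a⁻¹⁻¹ ∈ R ⊓ pCore s G := hOn.conj_mem z hzO a⁻¹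
        have h3 := h _ h2
        calc c * z * c⁻¹ = a * (b * (a⁻¹ * (b⁻¹ * z * b⁻¹⁻¹) * a⁻¹⁻¹) * b⁻¹) * a⁻¹ := by
              rw [hcdef]; group
          _ = z := by rw [h1, h3]; group
    exact mul_inv_eq_iff_eq_mul.1 hfin
  -- every prime is harmless
  have hprime : ∀ s : ℕ, s.Prime → ¬ s ∣ orderOf c := by
    intro s hs hsc
    have hsR : s ∣ Nat.card R := by
      refine hsc.trans ?_
      have h1 := orderOf_dvd_natCard (⟨c, hR'⟩ : R)
      rwa [← Subgroup.orderOf_coe] at h1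
    obtain ⟨k, m, hsm, hkm⟩ :=
      Nat.exists_eq_pow_mul_and_not_dvd (Nat.card_pos (α := C)).ne' s hs.ne_one
    have hpown : ∀ z ∈ C, z ^ (s ^ k * m) = 1 := by
      intro z hz
      rw [← hkm]
      have := pow_card_eq_one' (x := (⟨z, hz⟩ : C))
      exact congrArg Subtype.val this
    let K : Subgroup G :=
      { carrier := {z | z ∈ C ∧ z ^ m = 1}
        one_mem' := ⟨C.one_mem, one_pow m⟩
        mul_mem' := by
          rintro x y ⟨hx, hx1⟩ ⟨hy, hy1⟩
          refine ⟨C.mul_mem hx hy, ?_⟩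
          have hxy : Commute x y := hCab x hx y hy
          rw [hxy.mul_pow, hx1, hy1, one_mul]
        inv_mem' := by
          rintro x ⟨hx, hx1⟩
          exact ⟨C.inv_mem hx, by rw [inv_pow, hx1, inv_one]⟩ }
    have hKn : K.Normal := by
      constructor
      rintro z ⟨hz, hz1⟩ g
      refine ⟨hCn.conj_mem z hz g, ?_⟩
      rw [conj_pow, hz1, mul_one, mul_inv_cancel]
    have hKC : K ≤ C := fun z hz => hz.1
    have hsec : ∀ z ∈ C, ∃ k : ℕ, z ^ (s ^ k) ∈ K := by
      intro z hz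
      refine ⟨k, C.pow_mem hz _, ?_⟩
      rw [← pow_mul]
      exact hpown z hz
    have hcK : c ∈ K := by
      have hsk : c ^ (s ^ k) ∈ K := ⟨C.pow_mem hcC _, by rw [← pow_mul]; exact hpown c hcC⟩
      by_cases hsX : s ∈ X
      · have hsY : s ∉ Y := fun h => hXY s hs hsR hsX h
        have hsq : s ≠ q := fun h => hsY (h ▸ hqY)
        have h1 := hcb s hs hsY K C hKn hCn hKC hsec c hcC
        obtain ⟨l, hl⟩ := hb
        have h2 : a * b * a⁻¹ = c * b := by rw [hcdef]; group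
        have h3 := pow_mem_of_commutator K b a c (q ^ l) hl h2 h1
        exact mem_of_pow_coprime K c (q ^ l) (s ^ k)
          (Nat.Coprime.pow _ _ ((Nat.coprime_primes hq hs).2 (Ne.symm hsq))) h3 hsk
      · have hsp : s ≠ p := fun h => hsX (h ▸ hpX)
        have h1 := hca s hs hsX K C hKn hCn hKC hsec c⁻¹ (C.inv_mem hcC)
        obtain ⟨l, hl⟩ := ha
        have h2 : b * a * b⁻¹ = c⁻¹ * a := by rw [hcdef]; group
        have h3 := pow_mem_of_commutator K a b c⁻¹ (p ^ l) hl h2 h1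
        rw [inv_pow, K.inv_mem_iff] at h3
        exact mem_of_pow_coprime K c (p ^ l) (s ^ k)
          (Nat.Coprime.pow _ _ ((Nat.coprime_primes hp hs).2 (Ne.symm hsp))) h3 hsk
    exact hsm (hsc.trans (orderOf_dvd_of_pow_eq_one hcK.2))
  by_contra hne
  have h1 : orderOf c ≠ 1 := fun h => hne (orderOf_eq_one_iff.1 h)
  obtain ⟨s, hs, hsc⟩ := Nat.exists_prime_and_dvd h1
  exact hprime s hs hsc

/-- clean elements of a quotient by a normal `s`-group -/
theorem clean_lift {G : Type u} [Group G] [Finite G] (N : Subgroup G) [N.Normal] (X : Set ℕ)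
    (a : G) (p s : ℕ) (hp : p.Prime) (hpX : p ∈ X) (ha : ∃ k : ℕ, a ^ (p ^ k) = 1)
    (hs : s.Prime) (hN : ∀ n ∈ N, ∃ k : ℕ, n ^ (s ^ k) = 1)
    (hcent : s ∉ X → ∀ n ∈ N, a * n * a⁻¹ = n) (hq : Clean X (QuotientGroup.mk' N a)) :
    Clean X a := by
  intro s' hs' hs'X A B hA hB hAB hsec b hb
  set q := QuotientGroup.mk' N with hqdef
  have hqs : Function.Surjective q := QuotientGroup.mk'_surjective N
  have h1 := hq s' hs' hs'X (A.map q) (B.map q) (Subgroup.Normal.map hA q hqs)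
    (Subgroup.Normal.map hB q hqs) (Subgroup.map_mono hAB) (by
      intro y hy
      obtain ⟨z, hz, rfl⟩ := Subgroup.mem_map.1 hy
      obtain ⟨k, hk⟩ := hsec z hz
      exact ⟨k, by rw [← map_pow]; exact Subgroup.mem_map_of_mem q hk⟩)
    (q b) (Subgroup.mem_map_of_mem q hb)
  rw [← map_commutatorElement, hqdef, mem_map_mk'] at h1
  obtain ⟨α, hα, n, hn, hαn⟩ := Subgroup.mem_sup_of_normal_right.1 h1
  have hcB : ⁅a, b⁆ ∈ B := by
    rw [commutatorElement_def]
    exact B.mul_mem (hB.conj_mem b hb a) (B.inv_mem hb)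
  have hnB : n ∈ B := by
    have h2 : n = α⁻¹ * ⁅a, b⁆ := by rw [← hαn]; group
    rw [h2]
    exact B.mul_mem (B.inv_mem (hAB hα)) hcB
  suffices hnA : n ∈ A by
    rw [← hαn]
    exact A.mul_mem hα hnA
  obtain ⟨l, hl⟩ := hN n hn
  by_cases hss : s' = s
  · subst hss
    have han := hcent hs'X n hn
    have hsp : s' ≠ p := fun h => hs'X (h ▸ hpX)
    obtain ⟨k, hk⟩ := ha
    set r := QuotientGroup.mk' A with hr
    have hr1 : ∀ x, r x = 1 ↔ x ∈ A := fun x => QuotientGroup.eq_one_iff x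
    have hc : Commute (r a) (r n) := by
      have h2 : a * n = n * a := mul_inv_eq_iff_eq_mul.1 han
      show r a * r n = r n * r a
      rw [← map_mul, h2, map_mul]
    have hrel : r a * r b * (r a)⁻¹ = r n * r b := by
      have h2 : a * b * a⁻¹ = ⁅a, b⁆ * b := by rw [commutatorElement_def]; group
      rw [← map_mul, ← map_inv, ← map_mul, h2, ← hαn, map_mul, map_mul, (hr1 α).2 hα, one_mul]
    have hpow : ∀ j : ℕ, (r a) ^ j * r b * ((r a) ^ j)⁻¹ = (r n) ^ j * r b := by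
      intro j
      induction j with
      | zero => simp
      | succ j ih =>
        have h2 : (r a) ^ (j + 1) * r b * ((r a) ^ (j + 1))⁻¹ =
            (r a) * ((r a) ^ j * r b * ((r a) ^ j)⁻¹) * (r a)⁻¹ := by
          rw [pow_succ']; group
        rw [h2, ih]
        have h3 : r a * (r n ^ j * r b) * (r a)⁻¹ =
            (r a * r n ^ j * (r a)⁻¹) * (r a * r b * (r a)⁻¹) := by group
        rw [h3, hrel, (hc.pow_right j).eq, mul_assoc (r n ^ j), mul_inv_cancel, mul_one,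
          ← mul_assoc, ← pow_succ]
    have h2 := hpow (p ^ k)
    rw [← map_pow, hk, map_one, one_mul, inv_one, mul_one] at h2
    have h3 : (r n) ^ (p ^ k) = 1 := (mul_eq_right.1 h2.symm)
    rw [← map_pow, hr1] at h3
    exact mem_of_pow_coprime A n (p ^ k) (s' ^ l)
      (Nat.Coprime.pow _ _ ((Nat.coprime_primes hp hs).2 (Ne.symm hsp))) h3
      (by rw [hl]; exact A.one_mem)
  · obtain ⟨k, hk⟩ := hsec n hnB
    exact mem_of_pow_coprime A n (s' ^ k) (s ^ l)
      (Nat.Coprime.pow _ _ ((Nat.coprime_primes hs' hs).2 hss)) hk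
      (by rw [hl]; exact A.one_mem)

/-- elements of a normal `p`-subgroup are clean -/
theorem clean_base {G : Type u} [Group G] (P : Subgroup G) (X : Set ℕ) (a : G) (p : ℕ)
    (hp : p.Prime) (hpX : p ∈ X) (hP : ∀ a ∈ P, ∃ k : ℕ, a ^ (p ^ k) = 1)
    (ha : ∀ h, h * a * h⁻¹ ∈ P) : Clean X a := by
  intro s hs hsX A B hA hB hAB hsec b hb
  have hsp : s ≠ p := fun h => hsX (h ▸ hpX)
  have ha1 : a ∈ P := by simpa using ha 1
  have hcP : ⁅a, b⁆ ∈ P := by
    have h1 : ⁅a, b⁆ = a * (b * a * b⁻¹)⁻¹ := by rw [commutatorElement_def]; group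
    rw [h1]
    exact P.mul_mem ha1 (P.inv_mem (ha b))
  have hcB : ⁅a, b⁆ ∈ B := by
    rw [commutatorElement_def]
    exact B.mul_mem (hB.conj_mem b hb a) (B.inv_mem hb)
  obtain ⟨k, hk⟩ := hP _ hcP
  obtain ⟨l, hl⟩ := hsec _ hcB
  exact mem_of_pow_coprime A _ (p ^ k) (s ^ l)
    (Nat.Coprime.pow _ _ ((Nat.coprime_primes hp hs).2 (Ne.symm hsp)))
    (by rw [hk]; exact A.one_mem) hl

end Pool.Agent.Lib.MP_3587c3_al
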