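import Mathlib
import Pool.Agent.Lib.MP_3587c3_al.Final

set_option autoImplicit false

/-!
# MP_3587c3_al: the lifting theorem for commuting intersections
-/

namespace Pool.Agent.Lib.MP_3587c3_al

universe u

open scoped Pointwise commutatorElement

/-- The lifting theorem: `D i = {a ∈ P i : y a y⁻¹ ∈ P i N}` commute modulo the nilpotent normal
subgroup `N`, and the targets `g i` are dominated modulo `N`. -/
theorem lift2 {G : Type u} [Group G] [Finite G] (N : Subgroup G) [N.Normal]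
    (hN : Group.IsNilpotent N) {ι : Type*} [Finite ι] (p : ι → ℕ) [hp : ∀ i, Fact (p i).Prime]
    (hinj : Function.Injective p) (P : ∀ i, Sylow (p i) G) (y : G)
    (hcomm : ∀ i j, i ≠ j → ∀ a ∈ P i, y * a * y⁻¹ ∈ (P i : Subgroup G) ⊔ N →
      ∀ b ∈ P j, y * b * y⁻¹ ∈ (P j : Subgroup G) ⊔ N → ⁅a, b⁆ ∈ N)
    (g : ι → G) (hg : ∀ i, ∀ a ∈ P i, y * a * y⁻¹ ∈ (P i : Subgroup G) ⊔ N →
      g i * a * (g i)⁻¹ ∈ (P i : Subgroup G) ⊔ N) :
    ∃ m ∈ N, ∀ i, ∀ a ∈ P i, (y * m) * a * (y * m)⁻¹ ∈ P i →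
      y * a * y⁻¹ ∈ (P i : Subgroup G) ⊔ N ∧ g i * a * (g i)⁻¹ ∈ P i := by
  -- the groups `D i`
  let D : ι → Subgroup G := fun i =>
    (P i : Subgroup G) ⊓ ((P i : Subgroup G) ⊔ N).comap (MulAut.conj y).toMonoidHom
  have hD : ∀ i a, a ∈ D i ↔ a ∈ P i ∧ y * a * y⁻¹ ∈ (P i : Subgroup G) ⊔ N :=
    fun i a => Iff.rfl
  have hDp : ∀ i, IsPGroup (p i) (D i) := fun i => (P i).isPGroup'.to_le inf_le_left
  have hconjN : ∀ m ∈ N, ∀ a : G, m * a * m⁻¹ = a * (a⁻¹ * m * a * m⁻¹) := by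
    intro m _ a; group
  -- the conjugators
  have hf : ∀ i, ∃ f ∈ N, ∀ a, (∃ d ∈ D i, ∃ n ∈ N, a = d * n) → y * a * y⁻¹ ∈ P i →
      f * a * f⁻¹ ∈ D i := by
    intro i
    let Q : Subgroup G := ((D i) ⊔ N) ⊓ (P i : Subgroup G).comap (MulAut.conj y).toMonoidHom
    have hQp : IsPGroup (p i) Q := by
      have h1 : Q ≤ (P i : Subgroup G).comap (MulAut.conj y).toMonoidHom := inf_le_right
      exact ((P i).isPGroup'.comap_of_injective _ (MulAut.conj y).injective).to_le h1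
    have hQP : Q ≤ (P i : Subgroup G) ⊔ N := by
      refine inf_le_left.trans (sup_le_sup_right ?_ N)
      exact inf_le_left
    obtain ⟨f, hf, hf2⟩ := conj_into (P i) N Q hQp hQP
    refine ⟨f, hf, ?_⟩
    rintro a ⟨d, hd, n, hn, rfl⟩ hya
    have hmemQ : d * n ∈ Q :=
      ⟨Subgroup.mul_mem _ (Subgroup.mem_sup_left hd) (Subgroup.mem_sup_right hn), hya⟩
    refine (hD i _).2 ⟨hf2 _ hmemQ, ?_⟩
    have h1 : y * (f * (d * n) * f⁻¹) * y⁻¹ =
        (y * f * y⁻¹) * (y * d * y⁻¹) * (y * n * y⁻¹) * (y * f * y⁻¹)⁻¹ := by group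
    rw [h1]
    have hnc : ∀ n ∈ N, y * n * y⁻¹ ∈ (P i : Subgroup G) ⊔ N := fun n hn =>
      Subgroup.mem_sup_right (Subgroup.Normal.conj_mem inferInstance n hn y)
    exact Subgroup.mul_mem _ (Subgroup.mul_mem _ (Subgroup.mul_mem _ (hnc f hf)
      ((hD i d).1 hd).2) (hnc n hn)) (Subgroup.inv_mem _ (hnc f hf))
  have hγ : ∀ i, ∃ γ ∈ N, ∀ a, γ * a * γ⁻¹ ∈ D i → g i * a * (g i)⁻¹ ∈ P i := by
    intro i
    obtain ⟨u, hu, hu2⟩ := conj_into (P i) N ((D i).map (MulAut.conj (g i)).toMonoidHom)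
      ((hDp i).map _) (by
        intro x hx
        obtain ⟨d, hd, rfl⟩ := Subgroup.mem_map.1 hx
        exact hg i d ((hD i d).1 hd).1 ((hD i d).1 hd).2)
    refine ⟨(g i)⁻¹ * u⁻¹ * (g i), ?_, ?_⟩
    · have := Subgroup.Normal.conj_mem (inferInstance : N.Normal) u⁻¹ (N.inv_mem hu) (g i)⁻¹
      rwa [inv_inv] at this
    · intro a ha
      have h1 := hu2 _ (Subgroup.mem_map.2 ⟨_, ha, rfl⟩)
      have h2 : u * ((MulAut.conj (g i)).toMonoidHom
          ((g i)⁻¹ * u⁻¹ * (g i) * a * ((g i)⁻¹ * u⁻¹ * (g i))⁻¹)) * u⁻¹ =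
          g i * a * (g i)⁻¹ := by
        show u * ((g i) * ((g i)⁻¹ * u⁻¹ * (g i) * a * ((g i)⁻¹ * u⁻¹ * (g i))⁻¹) * (g i)⁻¹) *
          u⁻¹ = g i * a * (g i)⁻¹
        group
      rw [h2] at h1
      exact h1
  choose f hf hf2 using hf
  choose γ hγ hγ2 using hγ
  set K : Subgroup G := N ⊔ ⨆ i, D i with hK
  have hNK : N ≤ K := le_sup_left
  have hDK : ∀ i, D i ≤ K := fun i => le_trans (le_iSup D i) le_sup_right
  have hFn : Group.IsNilpotent (N.subgroupOf K) := by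
    have := hN
    exact Group.nilpotent_of_mulEquiv (Subgroup.subgroupOfEquivOfLe hNK).symm
  obtain ⟨x, hx, hx2⟩ := main_ind p hinj (Nat.card K) K le_rfl (N.subgroupOf K) hFn
    (fun i => (D i).subgroupOf K) (by
      intro i
      exact (hDp i).comap_of_injective K.subtype Subtype.val_injective) (by
      intro i z hz hzk
      obtain ⟨k, hk⟩ := hzk
      have hz' : (z : G) ∈ N := Subgroup.mem_subgroupOf.1 hz
      refine Subgroup.mem_subgroupOf.2 ((hD i _).2 ⟨?_, ?_⟩)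
      · exact nil_pelem (P i) N hN z hz' ⟨k, congrArg Subtype.val hk⟩
      · exact Subgroup.mem_sup_right (Subgroup.Normal.conj_mem inferInstance _ hz' y)) (by
      intro i j hij a ha b hb
      have ha' := (hD i _).1 (Subgroup.mem_subgroupOf.1 ha)
      have hb' := (hD j _).1 (Subgroup.mem_subgroupOf.1 hb)
      exact Subgroup.mem_subgroupOf.2 (hcomm i j hij a ha'.1 ha'.2 b hb'.1 hb'.2)) (by
      apply Subgroup.map_injective K.subtype_injective
      rw [Subgroup.map_sup, Subgroup.map_iSup]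
      have h1 : ∀ i, ((D i).subgroupOf K).map K.subtype = D i := by
        intro i
        exact Subgroup.map_subgroupOf_eq_of_le (hDK i)
      have h2 : (N.subgroupOf K).map K.subtype = N := Subgroup.map_subgroupOf_eq_of_le hNK
      simp only [h1, h2]
      rw [← MonoidHom.range_eq_map, Subgroup.range_subtype])
    (fun i => ⟨f i, hNK (hf i)⟩) (fun i => ⟨γ i, hNK (hγ i)⟩)
    (fun i => Subgroup.mem_subgroupOf.2 (hf i)) (fun i => Subgroup.mem_subgroupOf.2 (hγ i))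
  have hxN : (x : G) ∈ N := Subgroup.mem_subgroupOf.1 hx
  refine ⟨x, hxN, fun i a ha hxa => ?_⟩
  have hya : y * a * y⁻¹ ∈ (P i : Subgroup G) ⊔ N := by
    have hn : (a⁻¹ * (x : G)⁻¹ * a⁻¹⁻¹) * x ∈ N :=
      N.mul_mem (Subgroup.Normal.conj_mem inferInstance _ (N.inv_mem hxN) _) hxN
    have h1 : y * a * y⁻¹ = ((y * x) * a * (y * x)⁻¹) *
        ((y * x) * ((a⁻¹ * (x : G)⁻¹ * a⁻¹⁻¹) * x) * (y * x)⁻¹) := by group
    rw [h1]
    exact Subgroup.mul_mem _ (Subgroup.mem_sup_left hxa)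
      (Subgroup.mem_sup_right (Subgroup.Normal.conj_mem inferInstance _ hn _))
  refine ⟨hya, ?_⟩
  have haD : a ∈ D i := (hD i a).2 ⟨ha, hya⟩
  have h1 : f i * ((x : G) * a * (x : G)⁻¹) * (f i)⁻¹ ∈ D i := by
    apply hf2 i
    · refine ⟨a, haD, a⁻¹ * (x : G) * a * (x : G)⁻¹, ?_, by group⟩
      have h2 : a⁻¹ * (x : G) * a⁻¹⁻¹ ∈ N := Subgroup.Normal.conj_mem inferInstance _ hxN _
      rw [inv_inv] at h2
      exact N.mul_mem h2 (N.inv_mem hxN)
    · have h2 : y * ((x : G) * a * (x : G)⁻¹) * y⁻¹ = (y * x) * a * (y * x)⁻¹ := by group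
      rw [h2]
      exact hxa
  have h3 : f i * ((x : G) * a * (x : G)⁻¹) * (f i)⁻¹ =
      (f i * x) * a * (f i * x)⁻¹ := by group
  rw [h3] at h1
  have h4 := hx2 i ⟨a, hDK i haD⟩ (Subgroup.mem_subgroupOf.2 haD) (Subgroup.mem_subgroupOf.2 h1)
  exact hγ2 i a (Subgroup.mem_subgroupOf.1 h4)

end Pool.Agent.Lib.MP_3587c3_al
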