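import Mathlib
import Pool.Agent.Lib.MP_3587c3_al.RegTwo

set_option autoImplicit false

/-!
# MP_3587c3_al: `2`-groups have three regular orbits on modules of odd order without Fermat and
Mersenne prime factors
-/

namespace Pool.Agent.Lib.MP_3587c3_al

universe u v

/-! ### Arithmetic -/

/-- `r ^ m - 1` is a power of two only if `r - 1` or `r + 1` is -/
theorem fermat_aux (r m n : ℕ) (hr : 1 < r) (hm : 0 < m) (h : r ^ m = 2 ^ n + 1) :
    (∃ k, r + 1 = 2 ^ k) ∨ ∃ k, r = 2 ^ k + 1 := by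
  rcases Nat.even_or_odd m with he | ho
  · left
    obtain ⟨t, ht⟩ := he
    have ht0 : t ≠ 0 := by omega
    have h1 : (r ^ t) ^ 2 = 2 ^ n + 1 := by rw [← h, ht, ← pow_mul]; ring_nf
    have h0 : 1 < r ^ t := Nat.one_lt_pow ht0 hr
    obtain ⟨x, hx⟩ : ∃ x, r ^ t = x + 1 := ⟨r ^ t - 1, by omega⟩
    have h2 : x * (x + 2) = 2 ^ n := by rw [hx] at h1; nlinarith
    obtain ⟨i, _, hi⟩ := (Nat.dvd_prime_pow Nat.prime_two).1 (Dvd.intro _ h2)
    obtain ⟨j, _, hj⟩ := (Nat.dvd_prime_pow Nat.prime_two).1 (Dvd.intro_left _ h2)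
    have hx2 : x = 2 := by
      rw [hi] at hj
      rcases i with _ | _ | i
      · exfalso
        rcases j with _ | _ | j
        · simp at hj
        · simp at hj
        · rw [pow_succ, pow_succ] at hj; omega
      · exact hi
      · exfalso
        rcases j with _ | _ | j
        · rw [pow_succ, pow_succ] at hj; omega
        · rw [pow_succ, pow_succ] at hj
          have : 0 < 2 ^ i := by positivity
          omega
        · rw [pow_succ, pow_succ, pow_succ, pow_succ] at hj; omega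
    have h3 : r ∣ 3 := by
      have h4 : r ∣ r ^ t := dvd_pow_self r ht0
      rw [hx, hx2] at h4
      exact h4
    have h5 : r = 3 := by
      rcases (Nat.dvd_prime Nat.prime_three).1 h3 with h6 | h6
      · omega
      · exact h6
    exact ⟨2, by rw [h5]; norm_num⟩
  · right
    have h1 : r - 1 ∣ r ^ m - 1 := by
      have := Nat.sub_dvd_pow_sub_pow r 1 m
      rwa [one_pow] at this
    rw [h, Nat.add_sub_cancel] at h1
    obtain ⟨k, _, hk⟩ := (Nat.dvd_prime_pow Nat.prime_two).1 h1
    exact ⟨k, by omega⟩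

/-- the `2`-part of `q ^ 2 - 1` -/
theorem two_part_aux (q t : ℕ) (hq : Odd q) (hq1 : 1 < q) (h1 : ∀ k, q ≠ 2 ^ k + 1)
    (h2 : ∀ k, q + 1 ≠ 2 ^ k) (h : 2 ^ t ∣ q ^ 2 - 1) : 3 * 2 ^ t ≤ 2 * (q + 1) := by
  obtain ⟨s, hs⟩ := hq
  have hs0 : 0 < s := by omega
  have e1 : q ^ 2 - 1 = 4 * (s * (s + 1)) := by
    rw [hs]
    have : (2 * s + 1) ^ 2 = 4 * (s * (s + 1)) + 1 := by ring
    omega
  rcases t with _ | _ | t
  · simp; omega
  · simp; omega
  rw [e1] at h
  have e2 : 2 ^ t ∣ s * (s + 1) := by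
    have : (4 : ℕ) * 2 ^ t ∣ 4 * (s * (s + 1)) := by
      have e : (4 : ℕ) * 2 ^ t = 2 ^ (t + 1 + 1) := by rw [pow_succ, pow_succ]; ring
      rw [e]; exact h
    exact Nat.dvd_of_mul_dvd_mul_left (by norm_num) this
  rcases Nat.even_or_odd s with he | ho
  · -- `2 ^ t ∣ s`
    have e3 : 2 ^ t ∣ s := by
      have : Nat.Coprime (2 ^ t) (s + 1) := by
        apply Nat.Coprime.pow_left
        rw [Nat.coprime_two_left]
        exact he.add_one
      exact this.dvd_of_dvd_mul_right e2
    obtain ⟨c, hc⟩ := e3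
    have hc3 : 3 ≤ c := by
      by_contra hcon
      have : c = 0 ∨ c = 1 ∨ c = 2 := by omega
      rcases this with rfl | rfl | rfl
      · omega
      · apply h1 (t + 1)
        rw [hs, hc, pow_succ]; ring
      · apply h1 (t + 2)
        rw [hs, hc, pow_succ, pow_succ]; ring
    have e4 : 2 ^ t * 3 ≤ s := by rw [hc]; exact Nat.mul_le_mul_left _ hc3
    rw [pow_succ, pow_succ]; omega
  · have e3 : 2 ^ t ∣ s + 1 := by
      have : Nat.Coprime (2 ^ t) s := by
        apply Nat.Coprime.pow_left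
        rw [Nat.coprime_two_left]
        exact ho
      exact this.dvd_of_dvd_mul_left e2
    obtain ⟨c, hc⟩ := e3
    have hc3 : 3 ≤ c := by
      by_contra hcon
      have : c = 0 ∨ c = 1 ∨ c = 2 := by omega
      rcases this with rfl | rfl | rfl
      · omega
      · apply h2 (t + 1)
        rw [hs, pow_succ]; omega
      · apply h2 (t + 2)
        rw [hs, pow_succ, pow_succ]; omega
    have e4 : 2 ^ t * 3 ≤ s + 1 := by rw [hc]; exact Nat.mul_le_mul_left _ hc3
    rw [pow_succ, pow_succ]; omega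

/-! ### Counting -/

theorem three_of_card {P V : Type*} [Group P] [Finite P] [AddCommGroup V] [Finite V]
    (τ : P →* AddMonoid.End V) (h : 2 * Nat.card P < Nat.card {v : V // Reg τ v}) :
    ∃ v1 v2 v3, Reg τ v1 ∧ Reg τ v2 ∧ Reg τ v3 ∧
      ∀ a, τ a v1 ≠ v2 ∧ τ a v1 ≠ v3 ∧ τ a v2 ≠ v3 := by
  classical
  have := Fintype.ofFinite P
  have := Fintype.ofFinite V
  obtain ⟨Rs, hRs⟩ : ∃ Rs : Finset V, Rs = Finset.univ.filter (Reg τ) := ⟨_, rfl⟩
  have hcard : Nat.card {v : V // Reg τ v} = Rs.card := by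
    rw [Nat.card_eq_fintype_card, Fintype.card_subtype, hRs]
  have hmem : ∀ v, v ∈ Rs ↔ Reg τ v := by intro v; rw [hRs]; simp
  have horb : ∀ v, (Finset.univ.image fun a => τ a v).card ≤ Nat.card P := by
    intro v
    rw [Nat.card_eq_fintype_card, ← Finset.card_univ]
    exact Finset.card_image_le
  have hP : 0 < Nat.card P := Nat.card_pos
  have h1 : ∀ S : Finset V, S.card < Rs.card → ∃ v ∈ Rs, v ∉ S := by
    intro S hS
    by_contra hcon
    push Not at hcon
    have := Finset.card_le_card (show Rs ⊆ S from hcon)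
    omega
  obtain ⟨v1, hv1, -⟩ := h1 ∅ (by rw [Finset.card_empty]; omega)
  obtain ⟨v2, hv2, hv2'⟩ := h1 (Finset.univ.image fun a => τ a v1) (by have := horb v1; omega)
  obtain ⟨v3, hv3, hv3'⟩ := h1 ((Finset.univ.image fun a => τ a v1) ∪
    (Finset.univ.image fun a => τ a v2)) (by
      have h2 := horb v1
      have h3 := horb v2
      have h4 := Finset.card_union_le (Finset.univ.image fun a => τ a v1)
        (Finset.univ.image fun a => τ a v2)
      omega)
  refine ⟨v1, v2, v3, (hmem _).1 hv1, (hmem _).1 hv2, (hmem _).1 hv3, fun a => ⟨?_, ?_, ?_⟩⟩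
  · rintro rfl
    exact hv2' (Finset.mem_image_of_mem _ (Finset.mem_univ a))
  · rintro rfl
    exact hv3' (Finset.mem_union_left _ (Finset.mem_image_of_mem _ (Finset.mem_univ a)))
  · rintro rfl
    exact hv3' (Finset.mem_union_right _ (Finset.mem_image_of_mem _ (Finset.mem_univ a)))

theorem card_ne_zero_add_one (V : Type*) [AddCommGroup V] [Finite V] :
    Nat.card {v : V // v ≠ 0} + 1 = Nat.card V := by
  classical
  have := Fintype.ofFinite V
  have h1 : Fintype.card {w : V // w ≠ 0} = Fintype.card V - 1 := by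
    rw [Fintype.card_subtype_compl, Fintype.card_subtype_eq]
  rw [Nat.card_eq_fintype_card, Nat.card_eq_fintype_card, h1]
  have : 0 < Fintype.card V := Fintype.card_pos
  omega

/-- a group acting without fixed vectors -/
theorem free_dvd {P V : Type*} [Group P] [Finite P] [AddCommGroup V] [Finite V]
    (τ : P →* AddMonoid.End V) (A : Subgroup P)
    (hfree : ∀ c ∈ A, c ≠ 1 → ∀ v, τ c v = v → v = 0) : Nat.card A ∣ Nat.card {v : V // v ≠ 0} := by
  classical
  have hmul : ∀ a b w, τ (a * b) w = τ a (τ b w) := fun a b w => by rw [map_mul]; rfl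
  have hone : ∀ w, τ 1 w = w := fun w => by rw [map_one]; rfl
  have hne : ∀ (a : P) (v : V), v ≠ 0 → τ a v ≠ 0 := by
    intro a v hv h
    apply hv
    have := congrArg (τ a⁻¹) h
    rwa [← hmul, inv_mul_cancel, hone, map_zero] at this
  let act : MulAction A {v : V // v ≠ 0} :=
    { smul := fun a v => ⟨τ (a : P) (v : V), hne a v v.2⟩
      one_smul := fun v => Subtype.ext (hone v)
      mul_smul := fun a b v => Subtype.ext (hmul a b v) }
  have hst : ∀ v : {v : V // v ≠ 0}, MulAction.stabilizer A v = ⊥ := by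
    intro v
    rw [Subgroup.eq_bot_iff_forall]
    intro a ha
    have h1 : τ (a : P) (v : V) = v := congrArg Subtype.val (MulAction.mem_stabilizer_iff.1 ha)
    by_contra h2
    exact v.2 (hfree a a.2 (fun h3 => h2 (Subtype.ext h3)) v h1)
  have h1 := Nat.card_congr (MulAction.selfEquivOrbitsQuotientProd hst)
  rw [Nat.card_prod] at h1
  exact ⟨_, by rw [h1, mul_comm]⟩

/-! ### Group theory -/

/-- a nontrivial normal subgroup of a `2`-group contains a central involution -/
theorem normal_center {Q : Type*} [Group Q] [Finite Q] (hQ : IsPGroup 2 Q) (N : Subgroup Q)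
    (hN : N.Normal) (hN1 : N ≠ ⊥) : ∃ c ∈ N, c ∈ Subgroup.center Q ∧ c ≠ 1 ∧ c ^ 2 = 1 := by
  classical
  have hf2 : Fact (Nat.Prime 2) := ⟨Nat.prime_two⟩
  let act : MulAction Q N :=
    { smul := fun g c => ⟨g * c * g⁻¹, hN.conj_mem c c.2 g⟩
      one_smul := fun c => Subtype.ext (by show 1 * (c : Q) * 1⁻¹ = c; group)
      mul_smul := fun g h c => Subtype.ext (by
        show (g * h) * (c : Q) * (g * h)⁻¹ = g * (h * c * h⁻¹) * g⁻¹
        group) }
  have hdvd : 2 ∣ Nat.card N := by
    have hNnt : Nontrivial N := (Subgroup.nontrivial_iff_ne_bot N).2 hN1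
    obtain ⟨k, hk, hk2⟩ := (hQ.to_subgroup N).nontrivial_iff_card.1 hNnt
    rw [hk2]; exact dvd_pow_self 2 hk.ne'
  obtain ⟨c, hc, hc1⟩ := hQ.exists_fixed_point_of_prime_dvd_card_of_fixed_point N hdvd
    (a := (1 : N)) (by
      intro g
      exact Subtype.ext (by show g * 1 * g⁻¹ = 1; group))
  have hcc : ((c : Q)) ∈ Subgroup.center Q := by
    rw [Subgroup.mem_center_iff]
    intro g
    have h1 : g * (c : Q) * g⁻¹ = c := congrArg Subtype.val (hc g)
    exact mul_inv_eq_iff_eq_mul.1 h1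
  have hc1' : (c : Q) ≠ 1 := fun h => hc1 (Subtype.ext h.symm)
  obtain ⟨k, hk⟩ := (IsPGroup.iff_orderOf.1 hQ) (c : Q)
  have hk0 : k ≠ 0 := by
    rintro rfl
    rw [pow_zero, orderOf_eq_one_iff] at hk
    exact hc1' hk
  obtain ⟨k', rfl⟩ := Nat.exists_eq_succ_of_ne_zero hk0
  refine ⟨(c : Q) ^ (2 ^ k'), N.pow_mem c.2 _, Subgroup.pow_mem _ hcc _, ?_, ?_⟩
  · intro h
    have h1 := orderOf_dvd_of_pow_eq_one h
    rw [hk] at h1
    have h2 := Nat.le_of_dvd (by positivity) h1
    have h3 : 2 ^ k' < 2 ^ (k'.succ) := Nat.pow_lt_pow_right (by norm_num) (Nat.lt_succ_self k')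
    omega
  · rw [← pow_mul, ← pow_succ, ← hk, pow_orderOf_eq_one]

/-- a `2`-group with a central involution `z` either has a normal four-group containing `z`, or a
subgroup of index at most `2` whose only involution is `z` -/
theorem dich {P : Type*} [Group P] [Finite P] (hP : IsPGroup 2 P) (z : P)
    (hzc : z ∈ Subgroup.center P) (hz1 : z ≠ 1) (hz2 : z ^ 2 = 1) :
    (∃ b : P, b ^ 2 = 1 ∧ b ∉ Subgroup.zpowers z ∧
      ∀ h, h * b * h⁻¹ * b⁻¹ ∈ Subgroup.zpowers z) ∨
    ∃ A : Subgroup P, (∀ c ∈ A, c ^ 2 = 1 → c = 1 ∨ c = z) ∧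
      (A = ⊤ ∨ (A.index = 2 ∧ ∀ g, g ∉ A → ∃ x, x * g * x⁻¹ = g * z)) := by
  classical
  have := Fintype.ofFinite P
  have hf2 : Fact (Nat.Prime 2) := ⟨Nat.prime_two⟩
  have hzcomm : ∀ g, g * z = z * g := fun g => (Subgroup.mem_center_iff.1 hzc) g
  have hzinv : z⁻¹ = z := by
    rw [inv_eq_iff_mul_eq_one, ← pow_two]; exact hz2
  -- a normal cyclic subgroup of maximal order
  obtain ⟨a, ⟨hAn, hzA⟩, hmax⟩ : ∃ a : P, ((Subgroup.zpowers a).Normal ∧ z ∈ Subgroup.zpowers a) ∧
      ∀ a' : P, (Subgroup.zpowers a').Normal → z ∈ Subgroup.zpowers a' →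
        orderOf a' ≤ orderOf a := by
    obtain ⟨a, ha, hmax⟩ := Finset.exists_max_image
      (Finset.univ.filter fun a : P => (Subgroup.zpowers a).Normal ∧ z ∈ Subgroup.zpowers a)
      orderOf ⟨z, by
        rw [Finset.mem_filter]
        refine ⟨Finset.mem_univ z, ⟨?_⟩, Subgroup.mem_zpowers z⟩
        intro n hn g
        obtain ⟨i, rfl⟩ := Subgroup.mem_zpowers_iff.1 hn
        have h1 : z ^ i ∈ Subgroup.center P := Subgroup.zpow_mem _ hzc i
        rw [(Subgroup.mem_center_iff.1 h1) g, mul_inv_cancel_right]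
        exact hn⟩
    refine ⟨a, (Finset.mem_filter.1 ha).2, fun a' h1 h2 => hmax a' ?_⟩
    rw [Finset.mem_filter]
    exact ⟨Finset.mem_univ _, h1, h2⟩
  obtain ⟨A, hA⟩ : ∃ A : Subgroup P, A = Subgroup.zpowers a := ⟨_, rfl⟩
  rw [← hA] at hAn hzA
  have haA : a ∈ A := by rw [hA]; exact Subgroup.mem_zpowers a
  have hAcomm : ∀ c ∈ A, ∀ d ∈ A, c * d = d * c := by
    intro c hc d hd
    rw [hA] at hc hd
    obtain ⟨i, rfl⟩ := Subgroup.mem_zpowers_iff.1 hc
    obtain ⟨j, rfl⟩ := Subgroup.mem_zpowers_iff.1 hd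
    rw [← zpow_add, ← zpow_add, add_comm]
  obtain ⟨k, hk⟩ := (IsPGroup.iff_orderOf.1 hP) a
  have hk0 : k ≠ 0 := by
    rintro rfl
    rw [pow_zero, orderOf_eq_one_iff] at hk
    rw [hA, hk, Subgroup.zpowers_one_eq_bot, Subgroup.mem_bot] at hzA
    exact hz1 hzA
  obtain ⟨k', rfl⟩ := Nat.exists_eq_succ_of_ne_zero hk0
  have hinv0 : ∀ c ∈ A, c ^ 2 = 1 → c = 1 ∨ c = a ^ (2 ^ k') := by
    intro c hc hc2
    rw [hA] at hc
    obtain ⟨i, rfl⟩ := (Submonoid.mem_powers_iff _ _).1 (mem_powers_iff_mem_zpowers.2 hc)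
    rw [← pow_mul] at hc2
    have h1 := orderOf_dvd_of_pow_eq_one hc2
    rw [hk, Nat.succ_eq_add_one, pow_succ] at h1
    obtain ⟨j, hj⟩ := Nat.dvd_of_mul_dvd_mul_right (by norm_num) h1
    have h2 : (a ^ (2 ^ k')) ^ 2 = 1 := by
      rw [← pow_mul, ← pow_succ, ← Nat.succ_eq_add_one, ← hk, pow_orderOf_eq_one]
    rw [hj, pow_mul]
    rcases Nat.even_or_odd' j with ⟨l, hl | hl⟩
    · left
      rw [hl, pow_mul, h2, one_pow]
    · right
      rw [hl, pow_succ, pow_mul, h2, one_pow, one_mul]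
  have hze : z = a ^ (2 ^ k') := by
    rcases hinv0 z hzA hz2 with h | h
    · exact absurd h hz1
    · exact h
  have hinv : ∀ c ∈ A, c ^ 2 = 1 → c = 1 ∨ c = z := by
    rw [hze]; exact hinv0
  have hZA : Subgroup.zpowers z ≤ A := by rw [Subgroup.zpowers_le]; exact hzA
  by_cases hAtop : A = ⊤
  · exact Or.inr ⟨A, hinv, Or.inl hAtop⟩
  -- the quotient
  obtain ⟨q, hq⟩ : ∃ q : P →* P ⧸ A, q = QuotientGroup.mk' A := ⟨_, rfl⟩
  have hqs : Function.Surjective q := by rw [hq]; exact QuotientGroup.mk'_surjective A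
  have hq1 : ∀ w, q w = 1 ↔ w ∈ A := by
    intro w; rw [hq]; exact QuotientGroup.eq_one_iff w
  have hchoose : ∀ C : Subgroup P, C.Normal → A ≤ C → C ≠ A → ∃ h ∈ C, h ∉ A ∧ h ^ 2 ∈ A ∧
      ∀ g, g * h * g⁻¹ * h⁻¹ ∈ A := by
    intro C hC hAC hCA
    obtain ⟨c, hc, hcc, hc1, hc2⟩ := normal_center (hP.to_quotient A) (C.map q)
      (hC.map q hqs) (by
        intro hbot
        apply hCA
        apply le_antisymm _ hAC
        intro w hw
        rw [← hq1]
        have : q w ∈ C.map q := Subgroup.mem_map_of_mem q hw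
        rw [hbot, Subgroup.mem_bot] at this
        exact this)
    obtain ⟨h, hh, rfl⟩ := hc
    refine ⟨h, hh, fun h' => hc1 ((hq1 _).2 h'), ?_, ?_⟩
    · rw [← hq1, map_pow]; exact hc2
    · intro g
      rw [← hq1]
      simp only [map_mul, map_inv]
      rw [(Subgroup.mem_center_iff.1 hcc) (q g)]
      group
  -- cyclic extensions contradict the maximality
  have hcyc : ∀ h, h ∉ A → (∀ g, g * h * g⁻¹ * h⁻¹ ∈ A) → A ≤ Subgroup.zpowers h → False := by
    intro h hhA hhc hAh
    have h1 := hmax h (by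
      constructor
      intro n hn g
      obtain ⟨i, rfl⟩ := Subgroup.mem_zpowers_iff.1 hn
      have h2 : g * h * g⁻¹ ∈ Subgroup.zpowers h := by
        have h3 := Subgroup.mul_mem _ (hAh (hhc g)) (Subgroup.mem_zpowers h)
        rwa [inv_mul_cancel_right] at h3
      rw [← conj_zpow]
      exact Subgroup.zpow_mem _ h2 i) (hAh hzA)
    have h2 : A < Subgroup.zpowers h := lt_of_le_of_ne hAh (by
      intro h3
      apply hhA
      rw [h3]
      exact Subgroup.mem_zpowers h)
    have h3 : Nat.card A < Nat.card (Subgroup.zpowers h) := by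
      have h4 := Set.ncard_lt_ncard (show (A : Set P) ⊂ (Subgroup.zpowers h : Set P) from h2)
        (Set.toFinite _)
      exact h4
    rw [hA, Nat.card_zpowers, Nat.card_zpowers] at h3
    omega
  rcases Nat.eq_zero_or_pos k' with rfl | hkpos
  · -- `|A| = 2`
    have hAz : ∀ c ∈ A, c = 1 ∨ c = z := by
      intro c hc
      apply hinv c hc
      rw [hA] at hc
      obtain ⟨i, rfl⟩ := Subgroup.mem_zpowers_iff.1 hc
      have h1 : a ^ 2 = 1 := by
        have := pow_orderOf_eq_one a
        rwa [hk] at this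
      rw [← zpow_natCast, ← zpow_mul, mul_comm, zpow_mul, zpow_natCast, h1, one_zpow]
    obtain ⟨h, -, hhA, hh2, hhc⟩ := hchoose ⊤ inferInstance le_top (fun h => hAtop h.symm)
    rcases hAz _ hh2 with h1 | h1
    · left
      refine ⟨h, h1, fun h' => hhA (hZA h'), fun g => ?_⟩
      rcases hAz _ (hhc g) with h2 | h2
      · rw [h2]; exact Subgroup.one_mem _
      · rw [h2]; exact Subgroup.mem_zpowers z
    · exfalso
      apply hcyc h hhA hhc
      intro c hc
      rcases hAz c hc with rfl | rfl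
      · exact Subgroup.one_mem _
      · rw [← h1]
        exact Subgroup.npow_mem_zpowers h 2
  · -- an element of order `4`
    obtain ⟨l, rfl⟩ := Nat.exists_eq_succ_of_ne_zero hkpos.ne'
    obtain ⟨x, hx⟩ : ∃ x, x = a ^ (2 ^ l) := ⟨_, rfl⟩
    have hxA : x ∈ A := by rw [hx]; exact A.pow_mem haA _
    have hx2 : x ^ 2 = z := by
      rw [hx, hze, ← pow_mul, ← pow_succ]
    have hxz : ∀ g, g * x * g⁻¹ = x ∨ g * x * g⁻¹ = x * z := by
      intro g
      obtain ⟨y, hy⟩ : ∃ y, y = g * x * g⁻¹ := ⟨_, rfl⟩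
      have hyA : y ∈ A := by rw [hy]; exact hAn.conj_mem x hxA g
      have hy2 : y ^ 2 = z := by
        rw [hy, conj_pow, hx2, hzcomm, mul_inv_cancel_right]
      have h1 : (y * x⁻¹) ^ 2 = 1 := by
        have h2 : Commute y x⁻¹ := hAcomm y hyA _ (A.inv_mem hxA)
        rw [h2.mul_pow, hy2, inv_pow, hx2, mul_inv_cancel]
      rw [← hy]
      rcases hinv _ (A.mul_mem hyA (A.inv_mem hxA)) h1 with h3 | h3
      · left; exact mul_inv_eq_one.1 h3
      · right
        rw [mul_inv_eq_iff_eq_mul] at h3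
        rw [h3, hzcomm]
    obtain ⟨C, hC⟩ : ∃ C : Subgroup P, ∀ g, g ∈ C ↔ g * x = x * g := by
      refine ⟨Subgroup.centralizer {x}, fun g => ?_⟩
      rw [Subgroup.mem_centralizer_singleton_iff]
    have hCn : C.Normal := by
      constructor
      intro n hn g
      rw [hC] at hn ⊢
      have h1 := hxz g⁻¹
      rw [inv_inv] at h1
      have h2 : n * (g⁻¹ * x * g) = (g⁻¹ * x * g) * n := by
        rcases h1 with h1 | h1
        · rw [h1, hn]
        · rw [h1, ← mul_assoc, hn, mul_assoc, hzcomm, mul_assoc]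
      calc g * n * g⁻¹ * x = g * (n * (g⁻¹ * x * g)) * g⁻¹ := by group
        _ = g * ((g⁻¹ * x * g) * n) * g⁻¹ := by rw [h2]
        _ = x * (g * n * g⁻¹) := by group
    have hAC : A ≤ C := by
      intro c hc
      rw [hC]
      exact hAcomm c hc x hxA
    have hnC : ∀ g, g ∉ C → g * x * g⁻¹ = x * z := by
      intro g hg
      rcases hxz g with h | h
      · exact absurd ((hC g).2 (mul_inv_eq_iff_eq_mul.1 h)) hg
      · exact h
    by_cases hCA : C = A
    · right
      refine ⟨A, hinv, Or.inr ⟨?_, ?_⟩⟩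
      · obtain ⟨g0, hg0⟩ : ∃ g0, g0 ∉ A := by
          by_contra hcon
          push Not at hcon
          exact hAtop ((Subgroup.eq_top_iff' A).2 hcon)
        rw [Subgroup.index_eq_two_iff]
        refine ⟨g0, fun b => ?_⟩
        rw [← hCA] at hg0 ⊢
        by_cases hb : b ∈ C
        · refine Or.inr ⟨hb, fun h => hg0 ?_⟩
          exact (C.mul_mem_cancel_left hb).1 h
        · refine Or.inl ⟨?_, hb⟩
          rw [hC]
          have h1 := hnC g0 hg0
          have h2 := hnC b hb
          have h3 : b * g0 * x * (b * g0)⁻¹ = x := by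
            calc b * g0 * x * (b * g0)⁻¹ = b * (g0 * x * g0⁻¹) * b⁻¹ := by group
              _ = b * x * (z * b⁻¹) := by rw [h1]; simp only [mul_assoc]
              _ = b * x * b⁻¹ * z := by rw [← hzcomm b⁻¹]; simp only [mul_assoc]
              _ = x * (z * z) := by rw [h2, mul_assoc]
              _ = x := by rw [← pow_two, hz2, mul_one]
          exact mul_inv_eq_iff_eq_mul.1 h3
      · intro g hg
        rw [← hCA] at hg
        refine ⟨x⁻¹, ?_⟩
        have h1 := mul_inv_eq_iff_eq_mul.1 (hnC g hg)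
        rw [inv_inv, mul_assoc, h1, mul_assoc, inv_mul_cancel_left, hzcomm g]
    · left
      obtain ⟨h, hhC, hhA, hh2, hhc⟩ := hchoose C hCn hAC hCA
      have hhx : h * x = x * h := (hC h).1 hhC
      -- `h a h⁻¹ = a` or `a z`
      have hd : h * a * h⁻¹ = a ∨ h * a * h⁻¹ = a * z := by
        obtain ⟨u, hu⟩ : ∃ u : ℤ, a ^ u = h * a * h⁻¹ := by
          have h1 := hAn.conj_mem a haA h
          rw [hA] at h1
          exact Subgroup.mem_zpowers_iff.1 h1
        have hpow : ∀ i : ℤ, h * a ^ i * h⁻¹ = a ^ (u * i) := by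
          intro i
          rw [← conj_zpow, ← hu, ← zpow_mul]
        have h4 : (4 : ℤ) ∣ u - 1 := by
          have h1 : h * x * h⁻¹ = x := by rw [hhx, mul_inv_cancel_right]
          rw [hx, ← zpow_natCast, hpow] at h1
          have h2 : a ^ ((u - 1) * ((2 ^ l : ℕ) : ℤ)) = 1 := by
            rw [sub_mul, one_mul, zpow_sub, h1, mul_inv_cancel]
          have h3 := orderOf_dvd_iff_zpow_eq_one.2 h2
          rw [hk] at h3
          have h5 : ((2 ^ (l.succ).succ : ℕ) : ℤ) = 4 * ((2 ^ l : ℕ) : ℤ) := by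
            rw [pow_succ, pow_succ]
            push_cast
            ring
          rw [h5] at h3
          exact Int.dvd_of_mul_dvd_mul_right (by positivity) h3
        have h6 : a ^ (u * u) = a := by
          have h1 := hpow u
          rw [hu] at h1
          rw [← h1]
          have h2 : h * (h * a * h⁻¹) * h⁻¹ = h ^ 2 * a * (h ^ 2)⁻¹ := by
            rw [pow_two]; group
          rw [h2, hAcomm _ hh2 a haA, mul_inv_cancel_right]
        have h7 : (a ^ (u - 1)) ^ 2 = 1 := by
          have h1 : a ^ (u * u - 1) = 1 := by rw [zpow_sub_one, h6, mul_inv_cancel]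
          have h2 := orderOf_dvd_iff_zpow_eq_one.2 h1
          rw [hk] at h2
          obtain ⟨w, hw⟩ := h4
          have h3 : u * u - 1 = (2 * (u - 1)) * (2 * w + 1) := by
            have : u = 4 * w + 1 := by omega
            rw [this]; ring
          rw [h3] at h2
          have h5 : IsCoprime ((2 ^ (l.succ).succ : ℕ) : ℤ) (2 * w + 1) := by
            push_cast
            apply IsCoprime.pow_left
            exact ⟨-w, 1, by ring⟩
          have h8 := h5.dvd_of_dvd_mul_right h2
          rw [← zpow_natCast, ← zpow_mul, ← orderOf_dvd_iff_zpow_eq_one, hk]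
          rw [mul_comm] at h8
          exact h8
        have h8 : a ^ (u - 1) ∈ A := A.zpow_mem haA _
        rcases hinv _ h8 h7 with h9 | h9
        · left
          rw [← hu]
          have : a ^ u = a ^ (u - 1) * a := by rw [zpow_sub_one, inv_mul_cancel_right]
          rw [this, h9, one_mul]
        · right
          rw [← hu]
          have : a ^ u = a ^ (u - 1) * a := by rw [zpow_sub_one, inv_mul_cancel_right]
          rw [this, h9, hzcomm]
      have hzz : ∀ i : ℤ, z ^ i = 1 ∨ z ^ i = z := by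
        intro i
        rcases Int.even_or_odd' i with ⟨n, rfl | rfl⟩
        · left; rw [zpow_mul, zpow_ofNat, hz2, one_zpow]
        · right; rw [zpow_add_one, zpow_mul, zpow_ofNat, hz2, one_zpow, one_mul]
      have hconj : ∀ c ∈ A, h * c * h⁻¹ = c ∨ h * c * h⁻¹ = c * z := by
        intro c hc
        rw [hA] at hc
        obtain ⟨i, rfl⟩ := Subgroup.mem_zpowers_iff.1 hc
        rw [← conj_zpow]
        rcases hd with h1 | h1
        · left; rw [h1]
        · rw [h1, (show Commute a z from hzcomm a).mul_zpow]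
          rcases hzz i with h2 | h2
          · left; rw [h2, mul_one]
          · right; rw [h2]
      -- `h ^ 2` is a square in `A`
      obtain ⟨y, hyA, hy⟩ : ∃ y ∈ A, h ^ 2 = y ^ 2 := by
        have hh2' := hh2
        rw [hA] at hh2'
        obtain ⟨j, hj⟩ := Subgroup.mem_zpowers_iff.1 hh2'
        rcases Int.even_or_odd' j with ⟨n, rfl | rfl⟩
        · refine ⟨a ^ n, A.zpow_mem haA n, ?_⟩
          rw [← hj, ← zpow_natCast, ← zpow_mul, mul_comm]
          rfl
        · exfalso
          rcases hd with h1 | h1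
          · -- cyclic
            apply hcyc h hhA hhc
            rw [hA, Subgroup.zpowers_le]
            have h2 : IsCoprime ((orderOf a : ℕ) : ℤ) (2 * n + 1) := by
              rw [hk]
              push_cast
              apply IsCoprime.pow_left
              exact ⟨-n, 1, by ring⟩
            obtain ⟨s, t, hst⟩ := h2
            have h3 : a = (h ^ 2) ^ t := by
              rw [← hj, ← zpow_mul]
              have h4 : (2 * n + 1) * t = 1 - s * (orderOf a : ℤ) := by linarith
              rw [h4, zpow_sub, zpow_one, mul_comm s, zpow_mul, zpow_natCast, pow_orderOf_eq_one,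
                one_zpow, inv_one, mul_one]
            rw [h3]
            exact Subgroup.zpow_mem _ (Subgroup.npow_mem_zpowers h 2) t
          · have h2 : h * (h ^ 2) * h⁻¹ = h ^ 2 := by rw [pow_two]; group
            rw [← hj, ← conj_zpow, h1, (show Commute a z from hzcomm a).mul_zpow] at h2
            have h3 : z ^ (2 * n + 1) = 1 := mul_eq_left.1 h2
            rw [zpow_add_one, zpow_mul, zpow_ofNat, hz2, one_zpow, one_mul] at h3
            exact hz1 h3
      -- an involution in `h A`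
      have hb0 : (h * y⁻¹) ^ 2 = 1 ∨ (h * y⁻¹) ^ 2 = z := by
        have h1 : (h * y⁻¹) ^ 2 = (h * y⁻¹ * h⁻¹) * h ^ 2 * y⁻¹ := by
          rw [pow_two, pow_two]; group
        rw [h1, hy]
        rcases hconj _ (A.inv_mem hyA) with h2 | h2
        · left; rw [h2, pow_two]; group
        · right
          rw [h2, mul_assoc y⁻¹ z, ← hzcomm, pow_two]
          calc y⁻¹ * (y * y * z) * y⁻¹ = y * (z * y⁻¹) := by group
            _ = y * (y⁻¹ * z) := by rw [hzcomm]
            _ = z := by group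
      obtain ⟨c0, hc0A, hb2⟩ : ∃ c0 ∈ A, (h * c0) ^ 2 = 1 := by
        rcases hb0 with h1 | h1
        · exact ⟨y⁻¹, A.inv_mem hyA, h1⟩
        · refine ⟨y⁻¹ * x, A.mul_mem (A.inv_mem hyA) hxA, ?_⟩
          have h2 : Commute (h * y⁻¹) x := by
            have h3 : Commute h x := hhx
            have h4 : Commute y⁻¹ x := hAcomm _ (A.inv_mem hyA) x hxA
            exact h3.mul_left h4
          rw [← mul_assoc, h2.mul_pow, h1, hx2, ← pow_two, hz2]
      obtain ⟨b, hb⟩ : ∃ b, b = h * c0 := ⟨_, rfl⟩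
      rw [← hb] at hb2
      have hbA : b ∉ A := by
        rw [hb]
        intro h1
        exact hhA ((A.mul_mem_cancel_right hc0A).1 h1)
      have hbconj : ∀ c ∈ A, b * c * b⁻¹ = c ∨ b * c * b⁻¹ = c * z := by
        intro c hc
        have h1 : b * c * b⁻¹ = h * c * h⁻¹ := by
          have h2 : c0 * c * c0⁻¹ = c := by rw [hAcomm c0 hc0A c hc, mul_inv_cancel_right]
          calc b * c * b⁻¹ = h * (c0 * c * c0⁻¹) * h⁻¹ := by rw [hb]; group
            _ = h * c * h⁻¹ := by rw [h2]
        rw [h1]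
        exact hconj c hc
      have hbx : b * x * b⁻¹ = x := by
        have h2 : c0 * x * c0⁻¹ = x := by rw [hAcomm c0 hc0A x hxA, mul_inv_cancel_right]
        calc b * x * b⁻¹ = h * (c0 * x * c0⁻¹) * h⁻¹ := by rw [hb]; group
          _ = x := by rw [h2, hhx, mul_inv_cancel_right]
      refine ⟨b, hb2, fun h1 => hbA (hZA h1), fun g => ?_⟩
      obtain ⟨c, hc⟩ : ∃ c, c = g * b * g⁻¹ * b⁻¹ := ⟨_, rfl⟩
      rw [← hc]
      have hcA : c ∈ A := by
        have h1 : c = (g * h * g⁻¹ * h⁻¹) * (h * ((g * c0 * g⁻¹) * c0⁻¹) * h⁻¹) := by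
          rw [hc, hb]; group
        rw [h1]
        exact A.mul_mem (hhc g) (hAn.conj_mem _ (A.mul_mem (hAn.conj_mem _ hc0A g)
          (A.inv_mem hc0A)) h)
      have hbinv : b⁻¹ = b := by
        rw [inv_eq_iff_mul_eq_one, ← pow_two]; exact hb2
      have h1 : c * (b * c * b⁻¹) = 1 := by
        have h2 : (c * b) ^ 2 = 1 := by
          have h3 : c * b = g * b * g⁻¹ := by rw [hc, inv_mul_cancel_right]
          rw [h3, conj_pow, hb2, mul_one, mul_inv_cancel]
        rw [hbinv]
        rw [pow_two] at h2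
        calc c * (b * c * b) = c * b * (c * b) := by group
          _ = 1 := h2
      have h2 : c ^ 2 = 1 := by
        rcases hbconj c hcA with h3 | h3
        · rw [h3, ← pow_two] at h1; exact h1
        · rw [h3, ← mul_assoc, ← pow_two] at h1
          have h4 : c ^ 2 = z := by
            rw [← hzinv]; exact eq_inv_of_mul_eq_one_left h1
          exfalso
          -- `c = x` or `c = x z`, so `b` commutes with `c`
          have h5 : (c * x⁻¹) ^ 2 = 1 := by
            have h6 : Commute c x⁻¹ := hAcomm c hcA _ (A.inv_mem hxA)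
            rw [h6.mul_pow, h4, inv_pow, hx2, mul_inv_cancel]
          have h7 : b * c * b⁻¹ = c := by
            rcases hinv _ (A.mul_mem hcA (A.inv_mem hxA)) h5 with h8 | h8
            · rw [mul_inv_eq_one.1 h8]; exact hbx
            · rw [mul_inv_eq_iff_eq_mul] at h8
              calc b * c * b⁻¹ = b * (z * x) * b⁻¹ := by rw [h8]
                _ = z * (b * x * b⁻¹) := by rw [← mul_assoc, hzcomm b]; group
                _ = c := by rw [hbx, h8]
          rw [h7] at h3
          have h8 : z = 1 := mul_eq_left.1 h3.symm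
          exact hz1 h8
      rcases hinv c hcA h2 with h3 | h3
      · rw [h3]; exact Subgroup.one_mem _
      · rw [h3]; exact Subgroup.mem_zpowers z

/-! ### The imprimitive step -/

/-- a central element of an irreducible faithful group fixes only `0` -/
theorem central_fix {P : Type u} [Group P] {V : Type v} [AddCommGroup V]
    (τ : P →* AddMonoid.End V) (hinj : Function.Injective τ)
    (hirr : ∀ U : AddSubgroup V, (∀ a, ∀ u ∈ U, τ a u ∈ U) → U = ⊥ ∨ U = ⊤)
    (w : P) (hw : w ∈ Subgroup.center P) (hw1 : w ≠ 1) (u : V) (hu : τ w u = u) : u = 0 := by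
  have hmul : ∀ a b w, τ (a * b) w = τ a (τ b w) := fun a b w => by rw [map_mul]; rfl
  let U : AddSubgroup V :=
    { carrier := {x | τ w x = x}
      zero_mem' := map_zero (τ w)
      add_mem' := by
        intro x y hx hy
        show τ w (x + y) = x + y
        rw [map_add, show τ w x = x from hx, show τ w y = y from hy]
      neg_mem' := by
        intro x hx
        show τ w (-x) = -x
        rw [map_neg, show τ w x = x from hx] }
  rcases hirr U (by
    intro b u hu
    show τ w (τ b u) = τ b u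
    rw [← hmul, ← Subgroup.mem_center_iff.1 hw b, hmul, show τ w u = u from hu]) with h | h
  · have h1 : u ∈ U := hu
    rw [h, AddSubgroup.mem_bot] at h1
    exact h1
  · exfalso
    apply hw1
    apply hinj
    rw [map_one]
    apply AddMonoidHom.ext
    intro x
    have h1 : x ∈ U := by rw [h]; exact AddSubgroup.mem_top x
    exact h1

/-- a central involution of an irreducible faithful group is `-1` -/
theorem central_neg {P : Type u} [Group P] {V : Type v} [AddCommGroup V]
    (τ : P →* AddMonoid.End V) (hinj : Function.Injective τ)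
    (hirr : ∀ U : AddSubgroup V, (∀ a, ∀ u ∈ U, τ a u ∈ U) → U = ⊥ ∨ U = ⊤)
    (z : P) (hz : z ∈ Subgroup.center P) (hz1 : z ≠ 1) (hz2 : z ^ 2 = 1) (u : V) :
    τ z u = -u := by
  have hmul : ∀ a b w, τ (a * b) w = τ a (τ b w) := fun a b w => by rw [map_mul]; rfl
  have h1 := central_fix τ hinj hirr z hz hz1 (u + τ z u) (by
    rw [map_add, ← hmul, ← pow_two, hz2, map_one, add_comm]
    rfl)
  exact eq_neg_of_add_eq_zero_right h1

theorem block_two {P : Type u} [Group P] [Finite P] {V : Type v} [AddCommGroup V] [Finite V]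
    [Nontrivial V] (τ : P →* AddMonoid.End V)
    (hinj : Function.Injective τ) (hcop : (Nat.card V).Coprime 2)
    (hirr : ∀ U : AddSubgroup V, (∀ a, ∀ u ∈ U, τ a u ∈ U) → U = ⊥ ∨ U = ⊤)
    (z b : P) (hzc : z ∈ Subgroup.center P) (hz1 : z ≠ 1) (hz2 : z ^ 2 = 1) (hb2 : b ^ 2 = 1)
    (hbz : b ∉ Subgroup.zpowers z) (hbh : ∀ h, h * b * h⁻¹ * b⁻¹ ∈ Subgroup.zpowers z) :
    ∃ (M : Subgroup P) (W : AddSubgroup V), M ≠ ⊤ ∧ W ≠ ⊥ ∧ (∀ h ∈ M, ∀ w ∈ W, τ h w ∈ W) ∧
      ∀ w1 ∈ W, ∀ w2 ∈ W, ∀ w3 ∈ W, (∀ h ∈ M, τ h w1 = w1 → ∀ u ∈ W, τ h u = u) →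
        (∀ h ∈ M, τ h w2 = w2 → ∀ u ∈ W, τ h u = u) →
        (∀ h ∈ M, τ h w3 = w3 → ∀ u ∈ W, τ h u = u) →
        (∀ h ∈ M, τ h w1 ≠ w2 ∧ τ h w1 ≠ w3 ∧ τ h w2 ≠ w3) →
        ∃ v1 v2 v3, Reg τ v1 ∧ Reg τ v2 ∧ Reg τ v3 ∧
          ∀ a, τ a v1 ≠ v2 ∧ τ a v1 ≠ v3 ∧ τ a v2 ≠ v3 := by
  classical
  have hmul : ∀ a b w, τ (a * b) w = τ a (τ b w) := fun a b w => by rw [map_mul]; rfl
  have hone : ∀ w, τ 1 w = w := fun w => by rw [map_one]; rfl
  have hcancel : ∀ x : V, 2 • x = 0 → x = 0 := fun x hx => coprime_cancel hcop x hx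
  have hinj2 : ∀ a, (∀ w, τ a w = w) → a = 1 := by
    intro a ha
    apply hinj
    rw [map_one]
    exact AddMonoidHom.ext ha
  have hneg : ∀ u, τ z u = -u := central_neg τ hinj hirr z hzc hz1 hz2
  have hzcomm : ∀ g, g * z = z * g := fun g => (Subgroup.mem_center_iff.1 hzc) g
  have hzz : ∀ c ∈ Subgroup.zpowers z, c = 1 ∨ c = z := by
    intro c hc
    obtain ⟨i, rfl⟩ := Subgroup.mem_zpowers_iff.1 hc
    rcases Int.even_or_odd' i with ⟨n, rfl | rfl⟩
    · left; rw [zpow_mul, zpow_ofNat, hz2, one_zpow]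
    · right; rw [zpow_add_one, zpow_mul, zpow_ofNat, hz2, one_zpow, one_mul]
  have hbh' : ∀ h, h * b * h⁻¹ = b ∨ h * b * h⁻¹ = z * b := by
    intro h
    rcases hzz _ (hbh h) with h1 | h1
    · left; exact mul_inv_eq_one.1 h1
    · right; exact mul_inv_eq_iff_eq_mul.1 h1
  -- `b` is not `-1` (in particular not central)
  have hbneg : ¬ ∀ u, τ b u = -u := by
    intro h
    apply hbz
    have h1 : b * z = 1 := by
      apply hinj2
      intro w
      rw [hmul, hneg, h, neg_neg]
    rw [eq_inv_of_mul_eq_one_left h1]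
    exact Subgroup.inv_mem _ (Subgroup.mem_zpowers z)
  have hb1 : b ≠ 1 := by
    intro h
    apply hbz
    rw [h]
    exact Subgroup.one_mem _
  obtain ⟨g, hg⟩ : ∃ g, g * b * g⁻¹ = z * b := by
    by_contra hcon
    push Not at hcon
    apply hbneg
    apply central_neg τ hinj hirr b _ hb1 hb2
    rw [Subgroup.mem_center_iff]
    intro g
    rcases hbh' g with h | h
    · exact mul_inv_eq_iff_eq_mul.1 h
    · exact absurd h (hcon g)
  obtain ⟨M, hM⟩ : ∃ M : Subgroup P, ∀ h, h ∈ M ↔ h * b = b * h := by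
    refine ⟨Subgroup.centralizer {b}, fun h => ?_⟩
    rw [Subgroup.mem_centralizer_singleton_iff]
  have hMn : ∀ h, h ∉ M → h * b = z * b * h := by
    intro h hh
    rcases hbh' h with h1 | h1
    · exact absurd ((hM h).2 (mul_inv_eq_iff_eq_mul.1 h1)) hh
    · exact mul_inv_eq_iff_eq_mul.1 h1
  have hgM : g ∉ M := by
    rw [hM]
    intro h
    have h1 := mul_inv_eq_iff_eq_mul.1 hg
    rw [h, mul_assoc] at h1
    exact hz1 (mul_eq_right.1 h1.symm)
  have hMout : ∀ h h', h ∉ M → h' ∉ M → h * h' ∈ M := by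
    intro h h' hh hh'
    rw [hM]
    have h1 := hMn h hh
    have h2 := hMn h' hh'
    calc h * h' * b = h * (h' * b) := by rw [mul_assoc]
      _ = h * (z * b * h') := by rw [h2]
      _ = (h * z) * b * h' := by simp only [mul_assoc]
      _ = z * (h * b) * h' := by rw [hzcomm]; simp only [mul_assoc]
      _ = z * (z * b * h) * h' := by rw [h1]
      _ = z ^ 2 * (b * (h * h')) := by rw [pow_two]; simp only [mul_assoc]
      _ = b * (h * h') := by rw [hz2, one_mul]
  let W : AddSubgroup V :=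
    { carrier := {x | τ b x = x}
      zero_mem' := map_zero (τ b)
      add_mem' := by
        intro x y hx hy
        show τ b (x + y) = x + y
        rw [map_add, show τ b x = x from hx, show τ b y = y from hy]
      neg_mem' := by
        intro x hx
        show τ b (-x) = -x
        rw [map_neg, show τ b x = x from hx] }
  have hWmem : ∀ x, x ∈ W ↔ τ b x = x := fun x => Iff.rfl
  -- how group elements move the two eigenspaces
  have hMW : ∀ h ∈ M, ∀ w, τ b w = w → τ b (τ h w) = τ h w := by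
    intro h hh w hw
    rw [← hmul, ← (hM h).1 hh, hmul, hw]
  have hMW' : ∀ h ∈ M, ∀ w, τ b w = -w → τ b (τ h w) = -τ h w := by
    intro h hh w hw
    rw [← hmul, ← (hM h).1 hh, hmul, hw, map_neg]
  have hNb : ∀ h, h ∉ M → ∀ w, τ b (τ h w) = -τ h (τ b w) := by
    intro h hh w
    rw [← hmul, ← hmul, hMn h hh, mul_assoc, hmul z, hneg, neg_neg]
  have hNW : ∀ h, h ∉ M → ∀ w, τ b w = w → τ b (τ h w) = -τ h w := by
    intro h hh w hw
    rw [hNb h hh, hw]
  have hNW' : ∀ h, h ∉ M → ∀ w, τ b w = -w → τ b (τ h w) = τ h w := by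
    intro h hh w hw
    rw [hNb h hh, hw, map_neg, neg_neg]
  have huniq : ∀ s s' t t' : V, τ b s = s → τ b s' = s' → τ b t = -t → τ b t' = -t' →
      s + t = s' + t' → s = s' ∧ t = t' := by
    intro s s' t t' hs hs' ht ht' h
    have h1 : s - s' = t' - t := by
      rw [sub_eq_sub_iff_add_eq_add, h, add_comm]
    have h2 : 2 • (s - s') = 0 := by
      have h3 : τ b (s - s') = s - s' := by rw [map_sub, hs, hs']
      have h4 : τ b (s - s') = -(s - s') := by rw [h1, map_sub, ht, ht']; abel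
      rw [two_nsmul]
      nth_rw 1 [← h3]
      rw [h4, neg_add_cancel]
    have h3 := hcancel _ h2
    have h4 : s = s' := sub_eq_zero.1 h3
    refine ⟨h4, ?_⟩
    rw [h4] at h
    exact add_left_cancel h
  have hginv : g⁻¹ ∉ M := fun h => hgM (by simpa using M.inv_mem h)
  have hWbot : W ≠ ⊥ := by
    intro hW
    apply hbneg
    intro u
    have h1 : u + τ b u ∈ W := by
      rw [hWmem, map_add, ← hmul, ← pow_two, hb2, hone, add_comm]
    rw [hW, AddSubgroup.mem_bot] at h1
    exact eq_neg_of_add_eq_zero_right h1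
  refine ⟨M, W, fun h => hgM (by rw [h]; exact Subgroup.mem_top g), hWbot, ?_, ?_⟩
  · intro h hh w hw
    exact hMW h hh w hw
  · intro w1 hw1 w2 hw2 w3 hw3 hr1 hr2 hr3 horb
    -- the two cases for `h` and vectors `w + g w'`
    have hcase : ∀ w ∈ W, ∀ w' ∈ W, ∀ u ∈ W, ∀ u' ∈ W, ∀ h, τ h (w + τ g w') = u + τ g u' →
        (h ∈ M ∧ τ h w = u ∧ g⁻¹ * h * g ∈ M ∧ τ (g⁻¹ * h * g) w' = u') ∨
        (h ∉ M ∧ ∃ m ∈ M, τ m w = u') := by
      intro w hw w' hw' u hu u' hu' h heq
      rw [map_add] at heq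
      by_cases hh : h ∈ M
      · left
        obtain ⟨e1, e2⟩ := huniq _ _ _ _ (hMW h hh w hw) hu
          (hMW' h hh _ (hNW g hgM w' hw')) (hNW g hgM u' hu') heq
        refine ⟨hh, e1, ?_, ?_⟩
        · apply hMout _ _ _ hgM
          intro h1
          apply hginv
          exact (M.mul_mem_cancel_right hh).1 h1
        · rw [hmul, hmul, e2, ← hmul, inv_mul_cancel, hone]
      · right
        rw [add_comm] at heq
        obtain ⟨e1, e2⟩ := huniq _ _ _ _ (hNW' h hh _ (hNW g hgM w' hw')) hu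
          (hNW h hh w hw) (hNW g hgM u' hu') heq
        refine ⟨hh, g⁻¹ * h, hMout _ _ hginv hh, ?_⟩
        rw [hmul, e2, ← hmul, inv_mul_cancel, hone]
    have hreg : ∀ w ∈ W, ∀ w' ∈ W, (∀ h ∈ M, τ h w = w → ∀ u ∈ W, τ h u = u) →
        (∀ h ∈ M, τ h w' = w' → ∀ u ∈ W, τ h u = u) → (∀ m ∈ M, τ m w ≠ w') →
        Reg τ (w + τ g w') := by
      intro w hw w' hw' hr hr' hne h hh
      rcases hcase w hw w' hw' w hw w' hw' h hh with ⟨h1, h2, h3, h4⟩ | ⟨-, m, hm, hm2⟩
      swap
      · exact absurd hm2 (hne m hm)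
      intro u
      have e1 := hr h h1 h2
      have e2 := hr' _ h3 h4
      have e3 : τ h (u + τ b u) = u + τ b u := by
        apply e1
        rw [hWmem, map_add, ← hmul, ← pow_two, hb2, hone, add_comm]
      have e4 : τ h (u - τ b u) = u - τ b u := by
        have e5 : τ b (u - τ b u) = -(u - τ b u) := by
          rw [map_sub, ← hmul, ← pow_two, hb2, hone, neg_sub]
        have e6 := e2 (τ g⁻¹ (u - τ b u)) (hNW' _ hginv _ e5)
        have e7 := congrArg (τ g) e6
        rw [← hmul, ← hmul, ← hmul] at e7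
        have e8 : g * (g⁻¹ * h * g) * g⁻¹ = h := by group
        rw [e8, mul_inv_cancel, hone] at e7
        exact e7
      have e5 : τ h (2 • u) = 2 • u := by
        have e6 : 2 • u = (u + τ b u) + (u - τ b u) := by rw [two_nsmul]; abel
        rw [e6, map_add, e3, e4]
      rw [map_nsmul] at e5
      have e6 : 2 • (τ h u - u) = 0 := by rw [smul_sub, e5, sub_self]
      exact sub_eq_zero.1 (hcancel _ e6)
    refine ⟨w1 + τ g w2, w1 + τ g w3, w2 + τ g w3, hreg _ hw1 _ hw2 hr1 hr2 fun m hm => (horb m hm).1,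
      hreg _ hw1 _ hw3 hr1 hr3 fun m hm => (horb m hm).2.1,
      hreg _ hw2 _ hw3 hr2 hr3 fun m hm => (horb m hm).2.2, fun h => ⟨?_, ?_, ?_⟩⟩
    · intro hh
      rcases hcase _ hw1 _ hw2 _ hw1 _ hw3 h hh with ⟨-, -, h3, h4⟩ | ⟨-, m, hm, hm2⟩
      · exact (horb _ h3).2.2 h4
      · exact (horb m hm).2.1 hm2
    · intro hh
      rcases hcase _ hw1 _ hw2 _ hw2 _ hw3 h hh with ⟨h1, h2, -, -⟩ | ⟨-, m, hm, hm2⟩
      · exact (horb h h1).1 h2
      · exact (horb m hm).2.1 hm2
    · intro hh
      rcases hcase _ hw1 _ hw3 _ hw2 _ hw3 h hh with ⟨h1, h2, -, -⟩ | ⟨-, m, hm, hm2⟩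
      · exact (horb h h1).1 h2
      · exact (horb m hm).2.1 hm2

/-! ### The primitive case -/

/-- the fixed vectors of a noncentral involution `g` conjugate to `-g` -/
theorem card_fix_sq {P : Type u} [Group P] {V : Type v} [AddCommGroup V] [Finite V]
    (τ : P →* AddMonoid.End V) (hodd : Odd (Nat.card V)) (z : P) (hneg : ∀ u, τ z u = -u)
    (g x : P) (hg : g ^ 2 = 1) (hx : x * g * x⁻¹ = g * z) :
    Nat.card {v : V // τ g v = v} ^ 2 = Nat.card V := by
  have hmul : ∀ a b w, τ (a * b) w = τ a (τ b w) := fun a b w => by rw [map_mul]; rfl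
  have hone : ∀ w, τ 1 w = w := fun w => by rw [map_one]; rfl
  have hcop : (Nat.card V).Coprime 2 := (Nat.coprime_two_right).2 hodd
  have hcancel : ∀ x : V, 2 • x = 0 → x = 0 := fun x hx => coprime_cancel hcop x hx
  obtain ⟨k, hk⟩ := hodd
  have hhalf : ∀ v : V, (2 * (k + 1)) • v = v := by
    intro v
    have h1 : 2 * (k + 1) = Nat.card V + 1 := by omega
    rw [h1, add_smul, one_smul, card_nsmul_eq_zero', zero_add]
  have hgg : ∀ v, τ g (τ g v) = v := by
    intro v; rw [← hmul, ← pow_two, hg, hone]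
  -- the minus space has the same size
  have e1 : Nat.card {v : V // τ g v = v} = Nat.card {v : V // τ g v = -v} := by
    apply Nat.card_congr
    refine ⟨fun v => ⟨τ x v, ?_⟩, fun v => ⟨τ x⁻¹ v, ?_⟩, ?_, ?_⟩
    · have h1 : τ (g * z) (τ x v) = τ x v := by
        rw [← hmul, ← hx, inv_mul_cancel_right, hmul, v.2]
      rw [hmul, hneg, map_neg] at h1
      rw [← h1, neg_neg]
      rw [h1]
    · have h1 : g * x⁻¹ = x⁻¹ * (g * z) := by rw [← hx]; group
      rw [← hmul, h1, hmul, hmul, hneg, map_neg, v.2, neg_neg]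
    · intro v
      apply Subtype.ext
      show τ x⁻¹ (τ x v) = v
      rw [← hmul, inv_mul_cancel, hone]
    · intro v
      apply Subtype.ext
      show τ x (τ x⁻¹ v) = v
      rw [← hmul, mul_inv_cancel, hone]
  have e2 : Nat.card ({v : V // τ g v = v} × {v : V // τ g v = -v}) = Nat.card V := by
    apply Nat.card_congr
    refine Equiv.ofBijective (fun st => (st.1 : V) + (st.2 : V)) ⟨?_, ?_⟩
    · rintro ⟨⟨s, hs⟩, ⟨t, ht⟩⟩ ⟨⟨s', hs'⟩, ⟨t', ht'⟩⟩ h
      replace h : s + t = s' + t' := h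
      have h1 : s - s' = t' - t := by rw [sub_eq_sub_iff_add_eq_add, h, add_comm]
      have h2 : 2 • (s - s') = 0 := by
        have h3 : τ g (s - s') = s - s' := by rw [map_sub, hs, hs']
        have h4 : τ g (s - s') = -(s - s') := by rw [h1, map_sub, ht, ht']; abel
        rw [two_nsmul]
        nth_rw 1 [← h3]
        rw [h4, neg_add_cancel]
      have h4 : s = s' := sub_eq_zero.1 (hcancel _ h2)
      subst h4
      have h5 : t = t' := add_left_cancel h
      subst h5
      rfl
    · intro v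
      refine ⟨(⟨(k + 1) • (v + τ g v), ?_⟩, ⟨(k + 1) • (v - τ g v), ?_⟩), ?_⟩
      · rw [map_nsmul, map_add, hgg, add_comm (τ g v) v]
      · rw [map_nsmul, map_sub, hgg, ← smul_neg, neg_sub]
      · show (k + 1) • (v + τ g v) + (k + 1) • (v - τ g v) = v
        rw [← smul_add]
        have h1 : v + τ g v + (v - τ g v) = 2 • v := by rw [two_nsmul]; abel
        rw [h1, smul_smul, mul_comm, hhalf]
  rw [Nat.card_prod, ← e1] at e2
  rw [pow_two, e2]

/-- the count in the primitive case -/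
theorem prim_count {P : Type u} [Group P] [Finite P] [Nontrivial P] {V : Type v} [AddCommGroup V]
    [Finite V] [Nontrivial V] (τ : P →* AddMonoid.End V) (hP : IsPGroup 2 P)
    (hinj : Function.Injective τ) (hodd : Odd (Nat.card V))
    (hirr : ∀ U : AddSubgroup V, (∀ a, ∀ u ∈ U, τ a u ∈ U) → U = ⊥ ∨ U = ⊤)
    (hr : ∀ r, r.Prime → r ∣ Nat.card V → ∀ k, r + 1 ≠ 2 ^ k ∧ r ≠ 2 ^ k + 1)
    (z : P) (hzc : z ∈ Subgroup.center P) (hz1 : z ≠ 1) (hz2 : z ^ 2 = 1) (A : Subgroup P)
    (hA : ∀ c ∈ A, c ^ 2 = 1 → c = 1 ∨ c = z)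
    (hA' : A = ⊤ ∨ (A.index = 2 ∧ ∀ g, g ∉ A → ∃ x, x * g * x⁻¹ = g * z)) :
    2 * Nat.card P < Nat.card {v : V // Reg τ v} := by
  classical
  have hfP := Fintype.ofFinite P
  have hfV := Fintype.ofFinite V
  have hmul : ∀ a b w, τ (a * b) w = τ a (τ b w) := fun a b w => by rw [map_mul]; rfl
  have hone : ∀ w, τ 1 w = w := fun w => by rw [map_one]; rfl
  have hcop : (Nat.card V).Coprime 2 := (Nat.coprime_two_right).2 hodd
  have hcancel : ∀ x : V, 2 • x = 0 → x = 0 := fun x hx => coprime_cancel hcop x hx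
  have hneg : ∀ u, τ z u = -u := central_neg τ hinj hirr z hzc hz1 hz2
  have hzfix : ∀ v, τ z v = v → v = 0 := by
    intro v hv
    rw [hneg] at hv
    apply hcancel
    rw [two_nsmul]
    nth_rw 1 [← hv]
    rw [neg_add_cancel]
  have hinj2 : ∀ a, (∀ w, τ a w = w) → a = 1 := by
    intro a ha
    apply hinj
    rw [map_one]
    exact AddMonoidHom.ext ha
  -- `V` is an `r`-group
  have hV1 : 1 < Nat.card V := Finite.one_lt_card
  obtain ⟨r, hrp, hrV⟩ := Nat.exists_prime_and_dvd hV1.ne'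
  have hrF : Fact r.Prime := ⟨hrp⟩
  have hr' := hr r hrp hrV
  have hVr : IsPGroup r (Multiplicative V) := by
    obtain ⟨w0, hw0⟩ := exists_prime_addOrderOf_dvd_card' r hrV
    let U : AddSubgroup V :=
      { carrier := {w | r • w = 0}
        zero_mem' := smul_zero r
        add_mem' := by
          intro x y hx hy
          show r • (x + y) = 0
          rw [smul_add, show r • x = 0 from hx, show r • y = 0 from hy, add_zero]
        neg_mem' := by
          intro x hx
          show r • (-x) = 0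
          rw [smul_neg, show r • x = 0 from hx, neg_zero] }
    have hUtop : U = ⊤ := by
      rcases hirr U (by
        intro b u hu
        show r • (τ b u) = 0
        rw [← map_nsmul, show r • u = 0 from hu, map_zero]) with h | h
      · exfalso
        have h1 : w0 ∈ U := by
          show r • w0 = 0
          rw [← hw0]; exact addOrderOf_nsmul_eq_zero w0
        rw [h, AddSubgroup.mem_bot] at h1
        rw [h1, addOrderOf_zero] at hw0
        exact hrp.one_lt.ne hw0
      · exact h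
    intro w
    refine ⟨1, ?_⟩
    rw [pow_one]
    have h1 : w.toAdd ∈ U := by rw [hUtop]; exact AddSubgroup.mem_top _
    exact h1
  obtain ⟨m, hm⟩ := IsPGroup.iff_card.1 hVr
  have hm' : Nat.card V = r ^ m := hm
  have hrodd : Odd r := Odd.of_dvd_nat hodd hrV
  have hpowF : ∀ t, 0 < t → ∀ k, r ^ t ≠ 2 ^ k + 1 := by
    intro t ht k h
    rcases fermat_aux r t k hrp.one_lt ht h with ⟨j, hj⟩ | ⟨j, hj⟩
    · exact (hr' j).1 hj
    · exact (hr' j).2 hj
  have hpowM : ∀ t, 0 < t → ∀ k, r ^ t + 1 ≠ 2 ^ k := by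
    intro t ht k h
    obtain ⟨j, hj⟩ := mersenne_aux r t k hrodd hrp.one_lt ht h
    exact (hr' j).1 hj
  have hm0 : 0 < m := by
    rcases Nat.eq_zero_or_pos m with rfl | h
    · rw [pow_zero] at hm'; omega
    · exact h
  obtain ⟨n, hn⟩ := IsPGroup.iff_card.1 hP
  have hcardne := card_ne_zero_add_one V
  -- powers of order `2`
  have hpow2 : ∀ a : P, a ≠ 1 → ∃ a', a' ∈ Subgroup.zpowers a ∧ a' ≠ 1 ∧ a' ^ 2 = 1 ∧
      ∀ v, τ a v = v → τ a' v = v := by
    intro a ha
    obtain ⟨k, hk⟩ := (IsPGroup.iff_orderOf.1 hP) a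
    have hk0 : k ≠ 0 := by
      rintro rfl
      rw [pow_zero, orderOf_eq_one_iff] at hk
      exact ha hk
    obtain ⟨k', rfl⟩ := Nat.exists_eq_succ_of_ne_zero hk0
    refine ⟨a ^ (2 ^ k'), Subgroup.npow_mem_zpowers a _, ?_, ?_, ?_⟩
    · intro h
      have h1 := orderOf_dvd_of_pow_eq_one h
      rw [hk] at h1
      have h2 := Nat.le_of_dvd (by positivity) h1
      have h3 : 2 ^ k' < 2 ^ (k'.succ) :=
        Nat.pow_lt_pow_right (by norm_num) (Nat.lt_succ_self k')
      omega
    · rw [← pow_mul, ← pow_succ, ← Nat.succ_eq_add_one, ← hk, pow_orderOf_eq_one]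
    · intro v hv
      have h1 : ∀ i : ℕ, τ (a ^ i) v = v := by
        intro i
        induction i with
        | zero => rw [pow_zero, hone]
        | succ i ih => rw [pow_succ, hmul, hv, ih]
      exact h1 _
  have hAfree : ∀ c ∈ A, c ≠ 1 → ∀ v, τ c v = v → v = 0 := by
    intro c hc hc1 v hv
    obtain ⟨c', hc', hc'1, hc'2, hc'3⟩ := hpow2 c hc1
    have hc'A : c' ∈ A := (Subgroup.zpowers_le.2 hc) hc'
    rcases hA c' hc'A hc'2 with h | h
    · exact absurd h hc'1
    · rw [h] at hc'3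
      exact hzfix v (hc'3 v hv)
  by_cases hex : ∃ g, g ∉ A ∧ g ^ 2 = 1
  swap
  · -- the action is free
    push Not at hex
    have hfree : ∀ a, a ≠ 1 → ∀ v, τ a v = v → v = 0 := by
      intro a ha v hv
      obtain ⟨a', -, ha'1, ha'2, ha'3⟩ := hpow2 a ha
      by_cases h : a' ∈ A
      · exact hAfree a' h ha'1 v (ha'3 v hv)
      · exact absurd ha'2 (hex a' h)
    have h1 := free_dvd τ (⊤ : Subgroup P) (fun c _ => hfree c)
    rw [Subgroup.card_top] at h1
    obtain ⟨c, hc⟩ := h1
    have h2 : Nat.card {v : V // v ≠ 0} ≤ Nat.card {v : V // Reg τ v} := by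
      have hreg : ∀ v : {v : V // v ≠ 0}, Reg τ v.1 := by
        intro v a ha w
        have h3 : a = 1 := by
          by_contra h4
          exact v.2 (hfree a h4 v ha)
        rw [h3, hone]
      exact Nat.card_le_card_of_injective
        (fun v : {v : V // v ≠ 0} => (⟨v.1, hreg v⟩ : {v : V // Reg τ v}))
        (fun v w h => Subtype.ext (congrArg (fun x : {v : V // Reg τ v} => (x : V)) h))
    have hc3 : 3 ≤ c := by
      by_contra hcon
      have : c = 0 ∨ c = 1 ∨ c = 2 := by omega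
      rcases this with rfl | rfl | rfl
      · omega
      · apply hpowF m hm0 n
        rw [← hm', ← hn]; omega
      · apply hpowF m hm0 (n + 1)
        rw [← hm', pow_succ, ← hn]; omega
    have h4 : Nat.card P * 3 ≤ Nat.card P * c := Nat.mul_le_mul_left _ hc3
    have h5 : 0 < Nat.card P := Nat.card_pos
    omega
  obtain ⟨g0, hg0A, hg02⟩ := hex
  rcases hA' with hAt | ⟨hidx, hconj⟩
  · exact absurd (by rw [hAt]; exact Subgroup.mem_top g0) hg0A
  have hfix : ∀ g, g ∉ A → g ^ 2 = 1 → Nat.card {v : V // τ g v = v} ^ 2 = Nat.card V := by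
    intro g hg hg2
    obtain ⟨x, hx⟩ := hconj g hg
    exact card_fix_sq τ hodd z hneg g x hg2 hx
  obtain ⟨q, hq⟩ : ∃ q, q = Nat.card {v : V // τ g0 v = v} := ⟨_, rfl⟩
  have hq2 : q ^ 2 = Nat.card V := by rw [hq]; exact hfix g0 hg0A hg02
  have hfix' : ∀ g, g ∉ A → g ^ 2 = 1 → Nat.card {v : V // τ g v = v} = q := by
    intro g hg hg2
    have h1 := hfix g hg hg2
    rw [← hq2] at h1
    exact Nat.pow_left_injective (by norm_num : 2 ≠ 0) h1
  have hqr : ∃ s, 0 < s ∧ q = r ^ s := by
    have h1 : q ∣ r ^ m := by rw [← hm', ← hq2]; exact dvd_pow_self q (by norm_num)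
    obtain ⟨s, _, hs⟩ := (Nat.dvd_prime_pow hrp).1 h1
    refine ⟨s, ?_, hs⟩
    rcases Nat.eq_zero_or_pos s with rfl | h
    · rw [pow_zero] at hs
      rw [hs] at hq2
      omega
    · exact h
  obtain ⟨s, hs0, hs⟩ := hqr
  have hqF : ∀ k, q ≠ 2 ^ k + 1 := by rw [hs]; exact hpowF s hs0
  have hqM : ∀ k, q + 1 ≠ 2 ^ k := by rw [hs]; exact hpowM s hs0
  have hqodd : Odd q := by rw [hs]; exact hrodd.pow
  have hq1 : 1 < q := by rw [hs]; exact Nat.one_lt_pow hs0.ne' hrp.one_lt
  have hq11 : 11 ≤ q := by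
    by_contra hcon
    obtain ⟨j, hj⟩ := hqodd
    have : q = 3 ∨ q = 5 ∨ q = 7 ∨ q = 9 := by omega
    rcases this with h | h | h | h
    · exact hqF 1 (by rw [h]; norm_num)
    · exact hqF 2 (by rw [h]; norm_num)
    · exact hqM 3 (by rw [h]; norm_num)
    · exact hqF 3 (by rw [h]; norm_num)
  obtain ⟨t, ht⟩ := IsPGroup.iff_card.1 (hP.to_subgroup A)
  have hAle : 3 * Nat.card A ≤ 2 * (q + 1) := by
    have h1 := free_dvd τ A hAfree
    have h2 : Nat.card {v : V // v ≠ 0} = q ^ 2 - 1 := by omega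
    rw [h2, ht] at h1
    rw [ht]
    exact two_part_aux q t hqodd hq1 hqF hqM h1
  have hPA : Nat.card P = 2 * Nat.card A := by
    have h1 := A.card_mul_index
    rw [hidx] at h1
    omega
  -- the nonregular vectors
  obtain ⟨G0, hG0⟩ : ∃ G0 : Finset P, G0 = Finset.univ.filter fun g => g ∉ A := ⟨_, rfl⟩
  have hG0card : G0.card = Nat.card A := by
    have h1 : (Finset.univ.filter fun g : P => g ∈ A).card = Nat.card A := by
      rw [← Fintype.card_subtype, ← Nat.card_eq_fintype_card]
    have h2 := Finset.card_filter_add_card_filter_not (s := (Finset.univ : Finset P))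
      (fun g : P => g ∈ A)
    rw [h1, ← hG0, Finset.card_univ, ← Nat.card_eq_fintype_card] at h2
    omega
  have hNR : (Finset.univ.filter fun v : V => ¬ Reg τ v) ⊆
      insert 0 ((G0.filter fun g => g ^ 2 = 1).biUnion fun g =>
        (Finset.univ.filter fun v : V => τ g v = v).erase 0) := by
    intro v hv
    have hv' : ¬ Reg τ v := (Finset.mem_filter.1 hv).2
    by_cases hv0 : v = 0
    · rw [hv0]; exact Finset.mem_insert_self _ _
    apply Finset.mem_insert_of_mem
    unfold Reg at hv'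
    push Not at hv'
    obtain ⟨a, ha, w, hw⟩ := hv'
    have ha1 : a ≠ 1 := by
      rintro rfl
      exact hw (hone w)
    obtain ⟨a', -, ha'1, ha'2, ha'3⟩ := hpow2 a ha1
    have ha'A : a' ∉ A := fun h => hv0 (hAfree a' h ha'1 v (ha'3 v ha))
    rw [Finset.mem_biUnion]
    refine ⟨a', ?_, ?_⟩
    · rw [Finset.mem_filter, hG0, Finset.mem_filter]
      exact ⟨⟨Finset.mem_univ _, ha'A⟩, ha'2⟩
    · rw [Finset.mem_erase, Finset.mem_filter]
      exact ⟨hv0, Finset.mem_univ _, ha'3 v ha⟩
  have hNRcard : (Finset.univ.filter fun v : V => ¬ Reg τ v).card ≤ 1 + Nat.card A * (q - 1) := by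
    refine (Finset.card_le_card hNR).trans ?_
    refine (Finset.card_insert_le _ _).trans ?_
    rw [add_comm]
    apply Nat.add_le_add_left
    refine (Finset.card_biUnion_le_card_mul _ _ (q - 1) ?_).trans ?_
    · intro g hg
      rw [Finset.mem_filter, hG0, Finset.mem_filter] at hg
      rw [Finset.card_erase_of_mem]
      · rw [← hfix' g hg.1.2 hg.2, Nat.card_eq_fintype_card, Fintype.card_subtype]
      · rw [Finset.mem_filter]
        exact ⟨Finset.mem_univ _, map_zero (τ g)⟩
    · apply Nat.mul_le_mul_right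
      rw [← hG0card]
      exact Finset.card_filter_le _ _
  have hsum := Finset.card_filter_add_card_filter_not (s := (Finset.univ : Finset V))
      (fun v : V => Reg τ v)
  rw [Finset.card_univ, ← Nat.card_eq_fintype_card, ← hq2] at hsum
  have hRegc : Nat.card {v : V // Reg τ v} = (Finset.univ.filter fun v : V => Reg τ v).card := by
    rw [Nat.card_eq_fintype_card, Fintype.card_subtype]
  rw [hRegc, hPA]
  obtain ⟨N, hN⟩ : ∃ N, N = Nat.card A := ⟨_, rfl⟩
  rw [← hN] at hNRcard hAle ⊢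
  obtain ⟨p, hp⟩ : ∃ p, q = p + 11 := ⟨q - 11, by omega⟩
  subst hp
  have h5 : p + 11 - 1 = p + 10 := by omega
  rw [h5] at hNRcard
  nlinarith

theorem reg_three2 : ∀ (n : ℕ) (P : Type u) [Group P] [Finite P] (V : Type v) [AddCommGroup V]
    [Finite V] [Nontrivial V] (τ : P →* AddMonoid.End V),
    Nat.card P + Nat.card V ≤ n → IsPGroup 2 P → Odd (Nat.card V) →
    (∀ r, r.Prime → r ∣ Nat.card V → ∀ k, r + 1 ≠ 2 ^ k ∧ r ≠ 2 ^ k + 1) →
    ∃ v1 v2 v3, Reg τ v1 ∧ Reg τ v2 ∧ Reg τ v3 ∧
      (∀ a, τ a v1 ≠ v2 ∧ τ a v1 ≠ v3 ∧ τ a v2 ≠ v3) := by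
  intro n
  induction n with
  | zero =>
    intro P _ _ V _ _ _ τ h
    exfalso
    have : 0 < Nat.card V := Nat.card_pos
    omega
  | succ n ih =>
    intro P _ _ V _ _ _ τ hcard hP hodd hr
    have hf2 : Fact (Nat.Prime 2) := ⟨Nat.prime_two⟩
    have hcop : (Nat.card V).Coprime 2 := (Nat.coprime_two_right).2 hodd
    have hmul : ∀ a b w, τ (a * b) w = τ a (τ b w) := fun a b w => by rw [map_mul]; rfl
    have hone : ∀ w, τ 1 w = w := fun w => by rw [map_one]; rfl
    by_cases hirr : ∀ U : AddSubgroup V, (∀ a, ∀ u ∈ U, τ a u ∈ U) → U = ⊥ ∨ U = ⊤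
    swap
    · -- reducible
      push Not at hirr
      obtain ⟨U, hU, hbot, htop⟩ := hirr
      obtain ⟨h1, h2, h3, h4, hntU, hntQ⟩ := card_sub_quot U hbot htop
      obtain ⟨u, _, _, hu, _⟩ := ih P U (subAct τ U hU) (by omega) hP
        (Odd.of_dvd_nat hodd h3) (fun r hrp hrd => hr r hrp (hrd.trans h3))
      obtain ⟨x1, x2, x3, hx1, hx2, hx3, horb⟩ := ih P (V ⧸ U) (quotAct τ U hU) (by omega) hP
        (Odd.of_dvd_nat hodd h4) (fun r hrp hrd => hr r hrp (hrd.trans h4))
      obtain ⟨y1, rfl⟩ := QuotientAddGroup.mk_surjective x1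
      obtain ⟨y2, rfl⟩ := QuotientAddGroup.mk_surjective x2
      obtain ⟨y3, rfl⟩ := QuotientAddGroup.mk_surjective x3
      have huU : ∀ a, τ a (u : V) = u → ∀ w ∈ U, τ a w = w := by
        intro a ha w hw
        have := hu a (Subtype.ext ha) ⟨w, hw⟩
        exact congrArg Subtype.val this
      obtain ⟨v1, hv1U, hv1⟩ := red_step 2 hP τ hcop U hU u u.2 huU y1 (quot_reg τ U hU y1 hx1)
      obtain ⟨v2, hv2U, hv2⟩ := red_step 2 hP τ hcop U hU u u.2 huU y2 (quot_reg τ U hU y2 hx2)
      obtain ⟨v3, hv3U, hv3⟩ := red_step 2 hP τ hcop U hU u u.2 huU y3 (quot_reg τ U hU y3 hx3)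
      have e1 : (y1 : V ⧸ U) = (v1 : V ⧸ U) := by
        rw [QuotientAddGroup.eq, neg_add_eq_sub]; exact hv1U
      have e2 : (y2 : V ⧸ U) = (v2 : V ⧸ U) := by
        rw [QuotientAddGroup.eq, neg_add_eq_sub]; exact hv2U
      have e3 : (y3 : V ⧸ U) = (v3 : V ⧸ U) := by
        rw [QuotientAddGroup.eq, neg_add_eq_sub]; exact hv3U
      refine ⟨v1, v2, v3, hv1, hv2, hv3, fun a => ⟨fun ha => (horb a).1 ?_,
        fun ha => (horb a).2.1 ?_, fun ha => (horb a).2.2 ?_⟩⟩
      · show quotAct τ U hU a (y1 : V ⧸ U) = (y2 : V ⧸ U)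
        rw [e1, e2, quotAct_mk, ha]
      · show quotAct τ U hU a (y1 : V ⧸ U) = (y3 : V ⧸ U)
        rw [e1, e3, quotAct_mk, ha]
      · show quotAct τ U hU a (y2 : V ⧸ U) = (y3 : V ⧸ U)
        rw [e2, e3, quotAct_mk, ha]
    · by_cases hinj : Function.Injective τ
      swap
      · -- not faithful
        have hker : τ.ker ≠ ⊥ := by
          intro h
          exact hinj ((MonoidHom.ker_eq_bot_iff τ).1 h)
        have hcardq : Nat.card (P ⧸ τ.ker) < Nat.card P := by
          have h1 := Subgroup.card_eq_card_quotient_mul_card_subgroup τ.ker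
          have h2 : 1 < Nat.card τ.ker := by
            rw [Nat.one_lt_iff_ne_zero_and_ne_one]
            exact ⟨Nat.card_pos.ne', fun h => hker (Subgroup.eq_bot_of_card_eq _ h)⟩
          have h3 : 0 < Nat.card (P ⧸ τ.ker) := Nat.card_pos
          rw [h1]
          nlinarith
        obtain ⟨v1, v2, v3, hv1, hv2, hv3, horb⟩ := ih (P ⧸ τ.ker) V
          (QuotientGroup.lift τ.ker τ le_rfl) (by omega) (hP.to_quotient _) hodd hr
        refine ⟨v1, v2, v3, ?_, ?_, ?_, ?_⟩
        · intro a ha w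
          exact hv1 (QuotientGroup.mk a) ha w
        · intro a ha w
          exact hv2 (QuotientGroup.mk a) ha w
        · intro a ha w
          exact hv3 (QuotientGroup.mk a) ha w
        · intro a
          exact horb (QuotientGroup.mk a)
      · rcases subsingleton_or_nontrivial P with hPs | hPn
        · -- trivial group
          apply three_of_card
          have h1 : Nat.card P = 1 := Nat.card_eq_one_iff_unique.2 ⟨hPs, ⟨1⟩⟩
          have h2 : Nat.card V ≤ Nat.card {v : V // Reg τ v} := by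
            have hreg : ∀ v : V, Reg τ v := by
              intro v a _ w
              rw [Subsingleton.elim a 1, hone]
            exact Nat.card_le_card_of_injective
              (fun v : V => (⟨v, hreg v⟩ : {v : V // Reg τ v}))
              (fun v w h => congrArg (fun x : {v : V // Reg τ v} => (x : V)) h)
          have h3 : 1 < Nat.card V := Finite.one_lt_card
          obtain ⟨j, hj⟩ := hodd
          omega
        · obtain ⟨z, -, hzc, hz1, hz2⟩ := normal_center hP (⊤ : Subgroup P) inferInstance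
            (Ne.symm bot_ne_top)
          rcases dich hP z hzc hz1 hz2 with ⟨b, hb2, hbz, hbh⟩ | ⟨A, hA, hA'⟩
          · obtain ⟨M, W, hM, hW, hMW, hmain⟩ := block_two τ hinj hcop hirr z b hzc hz1 hz2 hb2
              hbz hbh
            have hWnt : Nontrivial W := (AddSubgroup.nontrivial_iff_ne_bot W).2 hW
            have hWd : Nat.card W ∣ Nat.card V := AddSubgroup.card_addSubgroup_dvd_card W
            have hWle : Nat.card W ≤ Nat.card V := Nat.le_of_dvd Nat.card_pos hWd
            have hMlt : Nat.card M < Nat.card P := by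
              have h1 := Subgroup.card_le_card_group M
              rcases h1.lt_or_eq with h | h
              · exact h
              · exact absurd (Subgroup.eq_top_of_card_eq M h) hM
            have hMW' : ∀ a : M, ∀ w ∈ W, (τ.comp M.subtype) a w ∈ W :=
              fun a w hw => hMW a a.2 w hw
            obtain ⟨w1, w2, w3, hw1, hw2, hw3, horb⟩ := ih M W
              (subAct (τ.comp M.subtype) W hMW') (by omega) (hP.to_subgroup M)
              (Odd.of_dvd_nat hodd hWd) (fun r hrp hrd => hr r hrp (hrd.trans hWd))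
            refine hmain w1 w1.2 w2 w2.2 w3 w3.2 ?_ ?_ ?_ ?_
            · intro h hh hfix u hu
              exact congrArg Subtype.val (hw1 ⟨h, hh⟩ (Subtype.ext hfix) ⟨u, hu⟩)
            · intro h hh hfix u hu
              exact congrArg Subtype.val (hw2 ⟨h, hh⟩ (Subtype.ext hfix) ⟨u, hu⟩)
            · intro h hh hfix u hu
              exact congrArg Subtype.val (hw3 ⟨h, hh⟩ (Subtype.ext hfix) ⟨u, hu⟩)
            · intro h hh
              refine ⟨fun hfix => (horb ⟨h, hh⟩).1 (Subtype.ext hfix),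
                fun hfix => (horb ⟨h, hh⟩).2.1 (Subtype.ext hfix),
                fun hfix => (horb ⟨h, hh⟩).2.2 (Subtype.ext hfix)⟩
          · exact three_of_card τ (prim_count τ hP hinj hodd hirr hr z hzc hz1 hz2 A hA hA')

end Pool.Agent.Lib.MP_3587c3_al
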