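import Mathlib
import Pool.Agent.Lib.MP_3587c3_al.Clean
import Pool.Agent.Lib.MP_3587c3_al.Lift2
import Pool.Agent.Lib.MP_3587c3_al.RegThree

set_option autoImplicit false

/-!
# MP_3587c3_al: simultaneous domination in soluble extensions, exceptional primes allowed
-/

namespace Pool.Agent.Lib.MP_3587c3_al

universe u

open scoped Pointwise commutatorElement

/-- regular elements for a conjugation action on an abelian normal subgroup, all primes -/
theorem reg_conj2 {G : Type u} [Group G] [Finite G] (N : Subgroup G) [hNn : N.Normal]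
    (hNab : ∀ a ∈ N, ∀ b ∈ N, a * b = b * a) (D : Subgroup G) {p : ℕ} [Fact p.Prime]
    (hD : IsPGroup p D) (hcop : (Nat.card N).Coprime p) (hN1 : N ≠ ⊥)
    (hgood : (∀ a ∈ D, ∀ b ∈ D, a * b = b * a) ∨
      (p ≠ 2 ∧ (Odd (Nat.card N) ∨ ∀ k, p + 1 ≠ 2 ^ k)) ∨
      (p = 2 ∧ ∀ r : ℕ, r.Prime → r ∣ Nat.card N → ∀ k : ℕ, r + 1 ≠ 2 ^ k ∧ r ≠ 2 ^ k + 1)) :
    ∃ v ∈ N, ∀ a ∈ D, a * v * a⁻¹ = v → ∀ n ∈ N, a * n * a⁻¹ = n := by
  classical
  rcases or_assoc.2 hgood with hgood | ⟨hp2, hr⟩
  · exact reg_conj N hNab D hD hcop hN1 hgood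
  let hcg : CommGroup N :=
    { (inferInstance : Group N) with
      mul_comm := fun a b => Subtype.ext (hNab a a.2 b b.2) }
  let σ : D → (Additive N →+ Additive N) := fun g =>
    { toFun := fun m => Additive.ofMul
        ⟨(g : G) * (m.toMul : G) * (g : G)⁻¹, hNn.conj_mem _ m.toMul.2 g⟩
      map_zero' := by
        apply Additive.toMul.injective
        apply Subtype.ext
        show (g : G) * ((1 : N) : G) * (g : G)⁻¹ = 1
        rw [Subgroup.coe_one, mul_one, mul_inv_cancel]
      map_add' := by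
        intro x y
        apply Additive.toMul.injective
        apply Subtype.ext
        show (g : G) * ((x.toMul * y.toMul : N) : G) * (g : G)⁻¹ =
          ((g : G) * (x.toMul : G) * (g : G)⁻¹) * ((g : G) * (y.toMul : G) * (g : G)⁻¹)
        rw [Subgroup.coe_mul]
        group }
  let τ : D →* AddMonoid.End (Additive N) :=
    { toFun := σ
      map_one' := by
        apply AddMonoidHom.ext
        intro m
        apply Additive.toMul.injective
        apply Subtype.ext
        show ((1 : D) : G) * (m.toMul : G) * ((1 : D) : G)⁻¹ = (m.toMul : G)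
        rw [Subgroup.coe_one]
        group
      map_mul' := by
        intro g h
        apply AddMonoidHom.ext
        intro m
        apply Additive.toMul.injective
        apply Subtype.ext
        show ((g * h : D) : G) * (m.toMul : G) * ((g * h : D) : G)⁻¹ =
          (g : G) * ((h : G) * (m.toMul : G) * (h : G)⁻¹) * (g : G)⁻¹
        rw [Subgroup.coe_mul]
        group }
  have hnt : Nontrivial (Additive N) := by
    have : Nontrivial N := (Subgroup.nontrivial_iff_ne_bot N).2 hN1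
    infer_instance
  have hodd : Odd (Nat.card (Additive N)) := by
    have h1 : Nat.card (Additive N) = Nat.card N := rfl
    rw [h1, ← Nat.not_even_iff_odd]
    intro h
    subst hp2
    have h2 := Nat.dvd_gcd (even_iff_two_dvd.1 h) (dvd_refl 2)
    rw [hcop] at h2
    exact absurd h2 (by norm_num)
  obtain ⟨v, _, _, hv, _⟩ := reg_three2 (Nat.card D + Nat.card (Additive N)) D (Additive N) τ
    le_rfl (by subst hp2; exact hD) hodd hr
  refine ⟨v.toMul, v.toMul.2, fun a ha hfix n hn => ?_⟩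
  have h1 := hv ⟨a, ha⟩ (by
    apply Additive.toMul.injective
    apply Subtype.ext
    exact hfix) (Additive.ofMul ⟨n, hn⟩)
  exact congrArg (fun x : Additive N => (x.toMul : G)) h1

/-- good behaviour of the prime `p` on the layers of `R`; `X` contains `p` and the exceptional
primes -/
def GoodFor {G : Type*} [Group G] (p : ℕ) (P R : Subgroup G) (X : Set ℕ) : Prop :=
  (∀ a ∈ P, ∀ b ∈ P, a * b = b * a) ∨
  (p ≠ 2 ∧ (2 ∈ X ∨ Odd (Nat.card R) ∨ ∀ k, p + 1 ≠ 2 ^ k)) ∨
  (p = 2 ∧ ∀ r : ℕ, r.Prime → r ∣ Nat.card R → r ∉ X → ∀ k : ℕ, r + 1 ≠ 2 ^ k ∧ r ≠ 2 ^ k + 1) ∨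
  (∀ K : Subgroup G, K.Normal → K ≤ R → ∃ g : G, ∀ a ∈ P,
    g * a * g⁻¹ ∈ P ⊔ K → ∀ h, h * a * h⁻¹ ∈ P ⊔ K)

/-- two conjugation-closed elements for distinct primes commute modulo `R` -/
theorem comm_mem_of_ne {G : Type u} [Group G] [Finite G] {p q : ℕ} [Fact p.Prime] [Fact q.Prime]
    (hpq : p ≠ q) (P Q R : Subgroup G) [R.Normal] (hP : IsPGroup p P) (hQ : IsPGroup q Q)
    (a b : G) (ha : ∀ h, h * a * h⁻¹ ∈ P ⊔ R) (hb : ∀ h, h * b * h⁻¹ ∈ Q ⊔ R) : ⁅a, b⁆ ∈ R := by
  have ha1 : a ∈ P ⊔ R := by simpa using ha 1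
  have hb1 : b ∈ Q ⊔ R := by simpa using hb 1
  have h1 : ⁅a, b⁆ ∈ P ⊔ R := by
    have : ⁅a, b⁆ = a * (b * a * b⁻¹)⁻¹ := by rw [commutatorElement_def]; group
    rw [this]
    exact Subgroup.mul_mem _ ha1 (Subgroup.inv_mem _ (ha b))
  have h2 : ⁅a, b⁆ ∈ Q ⊔ R := by
    have : ⁅a, b⁆ = (a * b * a⁻¹) * b⁻¹ := by rw [commutatorElement_def]
    rw [this]
    exact Subgroup.mul_mem _ (hb a) (Subgroup.inv_mem _ hb1)
  rw [← mem_map_mk'] at h1 h2
  set y := QuotientGroup.mk' R ⁅a, b⁆ with hy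
  have h3 : IsPGroup p (Subgroup.zpowers y) :=
    (hP.map (QuotientGroup.mk' R)).to_le (by rwa [Subgroup.zpowers_le])
  have h4 : IsPGroup q (Subgroup.zpowers y) :=
    (hQ.map (QuotientGroup.mk' R)).to_le (by rwa [Subgroup.zpowers_le])
  have h5 := IsPGroup.disjoint_of_ne p q hpq _ _ h3 h4
  rw [disjoint_self] at h5
  rw [Subgroup.zpowers_eq_bot] at h5
  exact (QuotientGroup.eq_one_iff _).1 h5

theorem ext2 {ι : Type*} [Finite ι] (p : ι → ℕ) [hp : ∀ i, Fact (p i).Prime]
    (hinj : Function.Injective p) (X : ι → Set ℕ) (hpX : ∀ i, p i ∈ X i) :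
    ∀ (m : ℕ) (G : Type u) [Group G] [Finite G],
    Nat.card G ≤ m → ∀ (R : Subgroup G) [R.Normal], Group.IsSolvable R →
    (∀ i j, i ≠ j → ∀ s : ℕ, s.Prime → s ∣ Nat.card R → s ∈ X i → s ∈ X j → False) →
    ∀ (P : ∀ i, Sylow (p i) G), (∀ i, GoodFor (p i) (P i : Subgroup G) R (X i)) →
    ∀ y : G, (∀ i, ∀ a ∈ P i, y * a * y⁻¹ ∈ (P i : Subgroup G) ⊔ R →
      ∀ h, h * a * h⁻¹ ∈ (P i : Subgroup G) ⊔ R) → ∀ g : ι → G,
    ∃ x, ∀ i, ∀ a ∈ P i, x * a * x⁻¹ ∈ P i →
      g i * a * (g i)⁻¹ ∈ P i ∧ Clean (X i) a ∧ ∀ h, h * a * h⁻¹ ∈ (P i : Subgroup G) ⊔ R := by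
  intro m
  induction m with
  | zero =>
    intro G _ _ hG
    exfalso
    have : 0 < Nat.card G := Nat.card_pos
    omega
  | succ m ih =>
    intro G _ _ hG R _ hR hX P hgood y hy g
    classical
    have hpelt : ∀ i, ∀ a ∈ P i, ∃ k : ℕ, a ^ (p i ^ k) = 1 := by
      intro i a ha
      obtain ⟨k, hk⟩ := (P i).isPGroup' ⟨a, ha⟩
      exact ⟨k, congrArg Subtype.val hk⟩
    by_cases hRbot : R = ⊥
    · subst hRbot
      simp only [sup_bot_eq] at hy ⊢
      refine ⟨y, fun i a ha hya => ?_⟩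
      have h1 := hy i a ha hya
      exact ⟨h1 _, clean_base (P i : Subgroup G) (X i) a (p i) (hp i).out (hpX i) (hpelt i) h1, h1⟩
    obtain ⟨F, hFn, hFne, hFR, hFab⟩ := exists_abelian R hR hRbot
    obtain ⟨N, hNn, hNne, hNF, hcen, _, s, hs, hsN⟩ := exists_minN F (nil_of_comm F hFab) hFne
    have hNab : ∀ a ∈ N, ∀ b ∈ N, a * b = b * a := fun a ha b hb => hFab a (hNF ha) b (hNF hb)
    have hNR : N ≤ R := le_trans hNF hFR
    have hNnil : Group.IsNilpotent N := nil_of_comm N hNab
    have hsf : Fact s.Prime := ⟨hs⟩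
    have hNselt : ∀ n ∈ N, ∃ k : ℕ, n ^ (s ^ k) = 1 := by
      intro n hn
      obtain ⟨k, hk⟩ := hsN ⟨n, hn⟩
      exact ⟨k, congrArg Subtype.val hk⟩
    set q := QuotientGroup.mk' N with hq
    have hqs : Function.Surjective q := QuotientGroup.mk'_surjective N
    have hcardq : Nat.card (G ⧸ N) ≤ m := by
      have h1 := Subgroup.card_eq_card_quotient_mul_card_subgroup N
      have h2 : 1 < Nat.card N := by
        rw [Nat.one_lt_iff_ne_zero_and_ne_one]
        refine ⟨Nat.card_pos.ne', fun h => hNne (Subgroup.eq_bot_of_card_eq N h)⟩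
      have h3 : 0 < Nat.card (G ⧸ N) := Nat.card_pos
      have h4 : Nat.card (G ⧸ N) * 2 ≤ Nat.card (G ⧸ N) * Nat.card N :=
        Nat.mul_le_mul_left _ h2
      omega
    have hRq : Group.IsSolvable (R.map q) := by
      have := hR
      exact Group.isSolvable_of_surjective (MonoidHom.subgroupMap_surjective q R)
    have hRqn : (R.map q).Normal := Subgroup.Normal.map inferInstance q hqs
    have hcardRq : Nat.card (R.map q) ∣ Nat.card R :=
      Subgroup.card_dvd_of_surjective (q.subgroupMap R) (MonoidHom.subgroupMap_surjective q R)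
    have hsup : ∀ i, ((P i : Subgroup G).map q) ⊔ R.map q = ((P i : Subgroup G) ⊔ R).map q := by
      intro i
      rw [Subgroup.map_sup]
    have hmemR : ∀ (i : ι) (w : G), q w ∈ ((P i : Subgroup G).map q) ⊔ R.map q ↔
        w ∈ (P i : Subgroup G) ⊔ R := by
      intro i w
      rw [hsup, mem_map_mk', sup_assoc, sup_eq_left.2 hNR]
    -- the one-prime condition
    let SPR : ι → Prop := fun i => ∀ K : Subgroup G, K.Normal → K ≤ R → ∃ g : G, ∀ a ∈ P i,
      g * a * g⁻¹ ∈ (P i : Subgroup G) ⊔ K → ∀ h, h * a * h⁻¹ ∈ (P i : Subgroup G) ⊔ K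
    have hg0 : ∀ i, ∃ g0 : G, ∀ a ∈ P i, g0 * a * g0⁻¹ ∈ (P i : Subgroup G) ⊔ N →
        g i * a * (g i)⁻¹ ∈ (P i : Subgroup G) ⊔ N ∧
          (SPR i → ∀ h, h * a * h⁻¹ ∈ (P i : Subgroup G) ⊔ N) := by
      intro i
      by_cases hi : SPR i
      · obtain ⟨g0, hg0⟩ := hi N hNn hNR
        exact ⟨g0, fun a ha h0 => ⟨hg0 a ha h0 _, fun _ => hg0 a ha h0⟩⟩
      · exact ⟨g i, fun a ha h0 => ⟨h0, fun h => absurd h hi⟩⟩
    choose g0 hg0 using hg0
    obtain ⟨x', hx'⟩ := ih (G ⧸ N) hcardq (R.map q) hRq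
      (fun i j hij s hs hsd => hX i j hij s hs (hsd.trans hcardRq))
      (fun i => (P i).mapSurjective hqs) (by
      intro i
      rcases hgood i with h | ⟨h1, h2⟩ | ⟨h1, h2⟩ | h
      · left
        intro a ha b hb
        obtain ⟨a', ha', rfl⟩ := Subgroup.mem_map.1 ha
        obtain ⟨b', hb', rfl⟩ := Subgroup.mem_map.1 hb
        rw [← map_mul, ← map_mul, h a' ha' b' hb']
      · right; left
        refine ⟨h1, ?_⟩
        rcases h2 with h2 | h2 | h2
        · exact Or.inl h2
        · exact Or.inr (Or.inl (Odd.of_dvd_nat h2 hcardRq))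
        · exact Or.inr (Or.inr h2)
      · right; right; left
        exact ⟨h1, fun r hr hrd => h2 r hr (hrd.trans hcardRq)⟩
      · right; right; right
        intro K' hK'n hK'R
        have hKR : K'.comap q ≤ R := by
          intro w hw
          have h1 : q w ∈ R.map q := hK'R hw
          rw [mem_map_mk', sup_eq_left.2 hNR] at h1
          exact h1
        obtain ⟨g, hg⟩ := h (K'.comap q) (hK'n.comap q) hKR
        have hmemK : ∀ w : G, q w ∈ ((P i : Subgroup G).map q) ⊔ K' ↔
            w ∈ (P i : Subgroup G) ⊔ K'.comap q := by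
          intro w
          have h1 : K' = (K'.comap q).map q := (Subgroup.map_comap_eq_self_of_surjective hqs K').symm
          have h2 : N ≤ K'.comap q := by
            intro n hn
            have : q n = 1 := (QuotientGroup.eq_one_iff n).2 hn
            rw [Subgroup.mem_comap, this]
            exact K'.one_mem
          conv_lhs => rw [h1]
          rw [← Subgroup.map_sup, mem_map_mk', sup_assoc, sup_eq_left.2 h2]
        refine ⟨q g, ?_⟩
        intro a' ha' hya h'
        obtain ⟨a, ha, rfl⟩ := Subgroup.mem_map.1 ha'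
        obtain ⟨h0, rfl⟩ := hqs h'
        have h1 : q (g * a * g⁻¹) ∈ ((P i : Subgroup G).map q) ⊔ K' := by
          rw [map_mul, map_mul, map_inv]; exact hya
        have h2 := hg a ha ((hmemK _).1 h1) h0
        have h3 := (hmemK _).2 h2
        rw [map_mul, map_mul, map_inv] at h3
        exact h3) (q y) (by
      intro i a' ha' hya h'
      obtain ⟨a, ha, rfl⟩ := Subgroup.mem_map.1 ha'
      obtain ⟨h, rfl⟩ := hqs h'
      have h1 : q (y * a * y⁻¹) ∈ ((P i : Subgroup G).map q) ⊔ R.map q := by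
        rw [map_mul, map_mul, map_inv]; exact hya
      have h2 := hy i a ha ((hmemR i _).1 h1) h
      have h3 := (hmemR i _).2 h2
      rw [map_mul, map_mul, map_inv] at h3
      exact h3) (fun i => q (g0 i))
    obtain ⟨x0, rfl⟩ := hqs x'
    -- unfolding the induction hypothesis
    have hx0 : ∀ i, ∀ a ∈ P i, x0 * a * x0⁻¹ ∈ (P i : Subgroup G) ⊔ N →
        g0 i * a * (g0 i)⁻¹ ∈ (P i : Subgroup G) ⊔ N ∧ Clean (X i) (q a) ∧
          (∀ h, h * q a * h⁻¹ ∈ ((P i : Subgroup G).map q) ⊔ R.map q) := by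
      intro i a ha hxa
      rw [← mem_map_mk'] at hxa ⊢
      obtain ⟨h1, h2, h3⟩ := hx' i (q a) (Subgroup.mem_map_of_mem q ha) (by
        rw [← map_inv, ← map_mul, ← map_mul]
        exact hxa)
      rw [← map_inv, ← map_mul, ← map_mul] at h1
      exact ⟨h1, h2, h3⟩
    have hcomm : ∀ i j, i ≠ j → ∀ a ∈ P i, x0 * a * x0⁻¹ ∈ (P i : Subgroup G) ⊔ N →
        ∀ b ∈ P j, x0 * b * x0⁻¹ ∈ (P j : Subgroup G) ⊔ N → ⁅a, b⁆ ∈ N := by
      intro i j hij a ha hxa b hb hxb
      obtain ⟨_, ha2, ha3⟩ := hx0 i a ha hxa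
      obtain ⟨_, hb2, hb3⟩ := hx0 j b hb hxb
      obtain ⟨ka, hka⟩ := hpelt i a ha
      obtain ⟨kb, hkb⟩ := hpelt j b hb
      have h1 : ⁅q a, q b⁆ ∈ R.map q :=
        comm_mem_of_ne (fun h => hij (hinj h)) ((P i : Subgroup G).map q)
          ((P j : Subgroup G).map q) (R.map q) ((P i).isPGroup'.map q) ((P j).isPGroup'.map q)
          (q a) (q b) ha3 hb3
      have h2 := comm_of_clean (R.map q) hRq (X i) (X j)
        (fun s hs hsd => hX i j hij s hs (hsd.trans hcardRq)) (q a) (q b) (p i) (p j)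
        (hp i).out (hp j).out (hpX i) (hpX j) ⟨ka, by rw [← map_pow, hka, map_one]⟩
        ⟨kb, by rw [← map_pow, hkb, map_one]⟩ ha2 hb2 h1
      rw [← map_commutatorElement] at h2
      exact (QuotientGroup.eq_one_iff _).1 h2
    -- the targets
    have htarget : ∀ i, ∃ g1 : G, (∀ a ∈ P i, x0 * a * x0⁻¹ ∈ (P i : Subgroup G) ⊔ N →
        g1 * a * g1⁻¹ ∈ (P i : Subgroup G) ⊔ N) ∧
        (∀ a ∈ P i, x0 * a * x0⁻¹ ∈ (P i : Subgroup G) ⊔ N → g1 * a * g1⁻¹ ∈ P i →
          g i * a * (g i)⁻¹ ∈ P i ∧ (s ∉ X i → ∀ n ∈ N, a * n * a⁻¹ = n)) := by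
      intro i
      by_cases hsX : s ∈ X i
      · exact ⟨g i, fun a ha hxa => (hg0 i a ha (hx0 i a ha hxa).1).1,
          fun a ha hxa h1 => ⟨h1, fun h => absurd hsX h⟩⟩
      have hsp : s ≠ p i := fun h => hsX (h ▸ hpX i)
      have hcopN : (Nat.card N).Coprime (p i) := by
        obtain ⟨k, hk⟩ := IsPGroup.iff_card.1 hsN
        rw [hk]
        exact Nat.Coprime.pow_left k ((Nat.coprime_primes hs (hp i).out).2 hsp)
      have hNelt : ∀ n ∈ N, (∃ k : ℕ, n ^ (p i ^ k) = 1) → n = 1 := by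
        rintro n hn ⟨k, hk⟩
        obtain ⟨l, hl⟩ := hNselt n hn
        have h1 := mem_of_pow_coprime (⊥ : Subgroup G) n (p i ^ k) (s ^ l)
          (Nat.Coprime.pow _ _ ((Nat.coprime_primes (hp i).out hs).2 (Ne.symm hsp)))
          (by rw [hk]; exact Subgroup.one_mem _) (by rw [hl]; exact Subgroup.one_mem _)
        exact Subgroup.mem_bot.1 h1
      by_cases hspr : SPR i
      · obtain ⟨g1, hg1⟩ := hspr ⊥ inferInstance bot_le
        simp only [sup_bot_eq] at hg1
        refine ⟨g1, fun a ha hxa => (hg0 i a ha (hx0 i a ha hxa).1).2 hspr _,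
          fun a ha hxa h1 => ?_⟩
        have h2 := hg1 a ha h1
        refine ⟨h2 _, fun _ n hn => ?_⟩
        have h3 : ⁅a, n⁆ = 1 := by
          apply hNelt
          · rw [commutatorElement_def]
            exact N.mul_mem (hNn.conj_mem n hn a) (N.inv_mem hn)
          · apply hpelt i
            have h4 : ⁅a, n⁆ = a * (n * a * n⁻¹)⁻¹ := by rw [commutatorElement_def]; group
            rw [h4]
            exact (P i).mul_mem ha ((P i).inv_mem (h2 n))
        rw [commutatorElement_def, mul_inv_eq_one] at h3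
        exact h3
      · let D : Subgroup G :=
          (P i : Subgroup G) ⊓ ((P i : Subgroup G) ⊔ N).comap (MulAut.conj x0).toMonoidHom
        have hDp : IsPGroup (p i) D := (P i).isPGroup'.to_le inf_le_left
        obtain ⟨v, hv, hv2⟩ := reg_conj2 N hNab D hDp hcopN hNne (by
          rcases hgood i with h | ⟨h1, h2⟩ | ⟨h1, h2⟩ | h
          · left
            intro a ha b hb
            exact h a ha.1 b hb.1
          · right; left
            refine ⟨h1, ?_⟩
            rcases h2 with h2 | h2 | h2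
            · left
              obtain ⟨k, hk⟩ := IsPGroup.iff_card.1 hsN
              rw [hk]
              exact (hs.odd_of_ne_two fun h => hsX (h ▸ h2)).pow
            · exact Or.inl (Odd.of_dvd_nat h2 (Subgroup.card_dvd_of_le hNR))
            · exact Or.inr h2
          · right; right
            refine ⟨h1, fun r hr hrd => ?_⟩
            have hrs : r = s := by
              obtain ⟨k, hk⟩ := IsPGroup.iff_card.1 hsN
              rw [hk] at hrd
              exact (Nat.prime_dvd_prime_iff_eq hr hs).1 (hr.dvd_of_dvd_pow hrd)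
            exact h2 r hr (hrd.trans (Subgroup.card_dvd_of_le hNR)) (by rw [hrs]; exact hsX)
          · exact absurd h hspr)
        refine ⟨v, fun a ha _ => ?_, fun a ha hxa hva => ?_⟩
        · exact Subgroup.mul_mem _ (Subgroup.mul_mem _ (Subgroup.mem_sup_right hv)
            (Subgroup.mem_sup_left ha)) (Subgroup.mem_sup_right (N.inv_mem hv))
        have hone : v * a * v⁻¹ * a⁻¹ = 1 := by
          apply hNelt
          · have h1 : v * a * v⁻¹ * a⁻¹ = v * (a * v⁻¹ * a⁻¹) := by group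
            rw [h1]
            exact N.mul_mem hv (hNn.conj_mem _ (N.inv_mem hv) a)
          · exact hpelt i _ ((P i).mul_mem hva ((P i).inv_mem ha))
        have hfix : a * v * a⁻¹ = v := by
          have h1 : v * a * v⁻¹ = a := mul_inv_eq_one.1 hone
          have h2 : v * a = a * v := mul_inv_eq_iff_eq_mul.1 h1
          rw [← h2, mul_assoc, mul_inv_cancel, mul_one]
        have hcent := hv2 a ⟨ha, hxa⟩ hfix
        refine ⟨?_, fun _ => hcent⟩
        -- the conjugate
        have hw := (hg0 i a ha (hx0 i a ha hxa).1).1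
        obtain ⟨c, hc, n, hn, hcn⟩ := Subgroup.mem_sup_of_normal_right.1 hw
        have hwcent : ∀ n' ∈ N, (g i * a * (g i)⁻¹) * n' = n' * (g i * a * (g i)⁻¹) := by
          intro n' hn'
          have h1 := hcent ((g i)⁻¹ * n' * (g i)⁻¹⁻¹) (hNn.conj_mem n' hn' (g i)⁻¹)
          have h2 : (g i * a * (g i)⁻¹) * n' =
              g i * (a * ((g i)⁻¹ * n' * (g i)⁻¹⁻¹) * a⁻¹) * (g i)⁻¹ * (g i * a * (g i)⁻¹) := by
            group
          rw [h2, h1]
          group
        have hcomm' : c * n = n * c := by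
          have h1 := hwcent n hn
          rw [← hcn] at h1
          have h2 : c * n * n = n * c * n := by rw [h1, mul_assoc]
          exact mul_right_cancel h2
        obtain ⟨k, hk⟩ := hpelt i a ha
        obtain ⟨l, hl⟩ := hpelt i c hc
        have hn1 : n = 1 := by
          apply hNelt n hn
          refine ⟨k + l, ?_⟩
          have h1 : (c * n) ^ (p i ^ (k + l)) = 1 := by
            rw [hcn, conj_pow, pow_add, pow_mul, hk, one_pow, mul_one, mul_inv_cancel]
          have h2 : c ^ (p i ^ (k + l)) = 1 := by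
            rw [pow_add, mul_comm, pow_mul, hl, one_pow]
          rw [(show Commute c n from hcomm').mul_pow, h2, one_mul] at h1
          exact h1
        rw [hn1, mul_one] at hcn
        rw [← hcn]
        exact hc
    choose g1 hg1 hg1' using htarget
    obtain ⟨m', _, hm'⟩ := lift2 N hNnil p hinj P x0 hcomm g1 hg1
    refine ⟨x0 * m', fun i a ha hxa => ?_⟩
    obtain ⟨h1, h2⟩ := hm' i a ha hxa
    obtain ⟨h3, h4⟩ := hg1' i a ha h1 h2
    obtain ⟨_, h5, h6⟩ := hx0 i a ha h1
    refine ⟨h3, clean_lift N (X i) a (p i) s (hp i).out (hpX i) (hpelt i a ha) hs hNselt h4 h5,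
      fun h => ?_⟩
    have h7 := h6 (q h)
    rw [← map_inv, ← map_mul, ← map_mul, hmemR] at h7
    exact h7

end Pool.Agent.Lib.MP_3587c3_al
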