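import Mathlib
import Pool.Agent.Lib.MP_3587c3_al.Regular

set_option autoImplicit false

/-!
# MP_3587c3_al: the imprimitive step with a commuting group
-/

namespace Pool.Agent.Lib.MP_3587c3_al

universe u v

theorem block3 {P : Type u} [Group P] [Finite P] {V : Type v} [AddCommGroup V] [Finite V]
    [Nontrivial V] (p : ℕ) [hpf : Fact p.Prime] (hp2 : p ≠ 2) (τ : P →* AddMonoid.End V)
    (hinj : Function.Injective τ) (hcop : (Nat.card V).Coprime p)
    (L0 : ∀ w ∈ Subgroup.center P, w ≠ 1 → ∀ u, τ w u = u → u = 0)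
    (z b : P) (hzc : z ∈ Subgroup.center P) (hz1 : z ≠ 1) (hzp : z ^ p = 1) (hbp : b ^ p = 1)
    (hbz : b ∉ Subgroup.zpowers z) (hbh : ∀ h, h * b * h⁻¹ * b⁻¹ ∈ Subgroup.zpowers z) :
    ∃ (M : Subgroup P) (W : AddSubgroup V), M ≠ ⊤ ∧ W ≠ ⊥ ∧ (∀ h ∈ M, ∀ w ∈ W, τ h w ∈ W) ∧
      (∀ σ : AddMonoid.End V, (∀ a x, σ (τ a x) = τ a (σ x)) → ∀ w ∈ W, σ w ∈ W) ∧
      ∀ w ∈ W, ∀ w' ∈ W, (∀ h ∈ M, τ h w = w → ∀ u ∈ W, τ h u = u) →
        (∀ h ∈ M, τ h w' = w' → ∀ u ∈ W, τ h u = u) → (∀ h ∈ M, τ h w ≠ w') →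
        ∃ v v', Reg τ v ∧ Reg τ v' ∧ ∀ a, τ a v ≠ v' := by
  classical
  have hp := hpf.out
  have hmul : ∀ a b w, τ (a * b) w = τ a (τ b w) := fun a b w => by rw [map_mul]; rfl
  have hone : ∀ w, τ 1 w = w := fun w => by rw [map_one]; rfl
  have hcancel : ∀ x : V, p • x = 0 → x = 0 := fun x hx => coprime_cancel hcop x hx
  have hcancel2 : ∀ x y : V, p • x = p • y → x = y := by
    intro x y hxy
    have h1 : p • (x - y) = 0 := by rw [smul_sub, hxy, sub_self]
    exact sub_eq_zero.1 (hcancel _ h1)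
  have hinj2 : ∀ a, (∀ w, τ a w = w) → a = 1 := by
    intro a ha
    apply hinj
    rw [map_one]
    exact AddMonoidHom.ext ha
  set C := Subgroup.zpowers z with hC
  have hfC : Fintype C := Fintype.ofFinite C
  have hCc : C ≤ Subgroup.center P := by rw [hC, Subgroup.zpowers_le]; exact hzc
  have hCcomm : ∀ c ∈ C, ∀ h : P, c * h = h * c := fun c hc h =>
    ((Subgroup.mem_center_iff.1 (hCc hc)) h).symm
  have hCp : ∀ w ∈ C, w ^ p = 1 := by
    intro w hw
    obtain ⟨j, rfl⟩ := Subgroup.mem_zpowers_iff.1 hw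
    rw [← zpow_natCast, ← zpow_mul, mul_comm, zpow_mul, zpow_natCast, hzp, one_zpow]
  have hzo : orderOf z = p := orderOf_eq_prime hzp hz1
  have hCcard : Nat.card C = p := by rw [hC, Nat.card_zpowers, hzo]
  -- norm of an element of order dividing `p`
  have L00 : ∀ a : P, a ^ p = 1 → ∀ x, τ a (∑ j ∈ Finset.range p, τ (a ^ j) x) =
      ∑ j ∈ Finset.range p, τ (a ^ j) x := by
    intro a ha x
    rw [map_sum]
    have h1 : ∀ j, τ a (τ (a ^ j) x) = τ (a ^ (j + 1)) x := by
      intro j
      rw [← hmul, pow_succ']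
    simp only [h1]
    have h2 := Finset.sum_range_succ (fun j => τ (a ^ j) x) p
    have h3 := Finset.sum_range_succ' (fun j => τ (a ^ j) x) p
    rw [h2, ha, pow_zero] at h3
    exact (add_right_cancel h3).symm
  have L1 : ∀ w ∈ Subgroup.center P, w ≠ 1 → w ^ p = 1 → ∀ x,
      ∑ j ∈ Finset.range p, τ (w ^ j) x = 0 := by
    intro w hw hw1 hwp x
    exact L0 w hw hw1 _ (L00 w hwp x)
  let Nn : P → V → V := fun c x => ∑ j ∈ Finset.range p, τ ((c * b) ^ j) x
  have hcb : ∀ c ∈ C, (c * b) ^ p = 1 := by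
    intro c hc
    have h1 : Commute c b := hCcomm c hc b
    rw [h1.mul_pow, hCp c hc, hbp, one_mul]
  have L3 : ∀ c ∈ C, ∀ x, τ (c * b) (Nn c x) = Nn c x := fun c hc x => L00 _ (hcb c hc) x
  have hfixpow : ∀ (a : P) (u : V), τ a u = u → ∀ j : ℕ, τ (a ^ j) u = u := by
    intro a u hu j
    induction j with
    | zero => rw [pow_zero, hone]
    | succ j ih => rw [pow_succ', hmul, ih, hu]
  have L2 : ∀ c ∈ C, ∀ c' ∈ C, ∀ u, τ (c * b) u = u →
      Nn c' u = if c' = c then p • u else 0 := by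
    intro c hc c' hc' u hu
    have h1 : ∀ j : ℕ, τ ((c' * b) ^ j) u = τ ((c' * c⁻¹) ^ j) u := by
      intro j
      have h2 : c' * b = (c' * c⁻¹) * (c * b) := by group
      have h3 : Commute (c' * c⁻¹) (c * b) := hCcomm _ (C.mul_mem hc' (C.inv_mem hc)) _
      rw [h2, h3.mul_pow, hmul, hfixpow _ u hu j]
    show ∑ j ∈ Finset.range p, τ ((c' * b) ^ j) u = _
    simp only [h1]
    split_ifs with h
    · subst h
      simp only [mul_inv_cancel, one_pow, hone, Finset.sum_const, Finset.card_range]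
    · apply L1 _ (hCc (C.mul_mem hc' (C.inv_mem hc)))
      · intro h'
        exact h (mul_inv_eq_one.1 h')
      · exact hCp _ (C.mul_mem hc' (C.inv_mem hc))
  have L4 : ∀ x, ∑ c : C, Nn c x = p • x := by
    intro x
    show ∑ c : C, ∑ j ∈ Finset.range p, τ (((c : P) * b) ^ j) x = _
    rw [Finset.sum_comm]
    have h1 : ∀ j ∈ Finset.range p, ∑ c : C, τ (((c : P) * b) ^ j) x =
        if j = 0 then p • x else 0 := by
      intro j hj
      split_ifs with h
      · subst h
        simp only [pow_zero, hone, Finset.sum_const, Finset.card_univ]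
        rw [← Nat.card_eq_fintype_card, hCcard]
      · have h2 : ∀ c : C, τ (((c : P) * b) ^ j) x = τ ((c : P) ^ j) (τ (b ^ j) x) := by
          intro c
          have h3 : Commute (c : P) b := hCcomm c c.2 b
          rw [h3.mul_pow, hmul]
        simp only [h2]
        apply L0 (z ^ j) (Subgroup.pow_mem _ hzc j)
        · intro h4
          have h5 := orderOf_dvd_of_pow_eq_one h4
          rw [hzo] at h5
          have h6 := Nat.le_of_dvd (Nat.pos_of_ne_zero h) h5
          have h7 := Finset.mem_range.1 hj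
          omega
        · rw [map_sum]
          have h4 : ∀ c : C, τ (z ^ j) (τ ((c : P) ^ j) (τ (b ^ j) x)) =
              τ ((((⟨z, Subgroup.mem_zpowers z⟩ : C) * c : C) : P) ^ j) (τ (b ^ j) x) := by
            intro c
            rw [← hmul]
            have h5 : Commute z (c : P) := hCcomm z (Subgroup.mem_zpowers z) _
            have h6 : ((((⟨z, Subgroup.mem_zpowers z⟩ : C) * c : C) : P)) = z * c := rfl
            rw [h6, h5.mul_pow]
          simp only [h4]
          exact Equiv.sum_comp (Equiv.mulLeft (⟨z, Subgroup.mem_zpowers z⟩ : C))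
            (fun c : C => τ ((c : P) ^ j) (τ (b ^ j) x))
    rw [Finset.sum_congr rfl h1, Finset.sum_ite_eq' (Finset.range p) 0 (fun _ => p • x),
      if_pos (Finset.mem_range.2 hp.pos)]
  -- the homomorphism `κ`
  let κ : P → P := fun h => h * b * h⁻¹ * b⁻¹
  have hκC : ∀ h, κ h ∈ C := hbh
  have hκb : ∀ h, h * b * h⁻¹ = κ h * b := by
    intro h
    show h * b * h⁻¹ = h * b * h⁻¹ * b⁻¹ * b
    group
  have hκmul : ∀ g h, κ (g * h) = κ g * κ h := by
    intro g h
    have h1 : κ (g * h) = g * (h * b * h⁻¹) * g⁻¹ * b⁻¹ := by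
      show (g * h) * b * (g * h)⁻¹ * b⁻¹ = _
      group
    rw [h1, hκb]
    have h2 : g * (κ h * b) * g⁻¹ * b⁻¹ = κ h * (g * b * g⁻¹ * b⁻¹) := by
      rw [← mul_assoc g, ← hCcomm _ (hκC h) g]
      simp only [mul_assoc]
    rw [h2, hCcomm _ (hκC h)]
  have hκone : κ 1 = 1 := by
    show 1 * b * 1⁻¹ * b⁻¹ = 1
    group
  have hκinv : ∀ g, κ g⁻¹ = (κ g)⁻¹ := by
    intro g
    have h1 := hκmul g g⁻¹
    rw [mul_inv_cancel, hκone] at h1
    exact eq_inv_of_mul_eq_one_right h1.symm
  have L5 : ∀ h, ∀ c ∈ C, ∀ x, τ h (Nn c x) = Nn (c * κ h) (τ h x) := by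
    intro h c hc x
    show τ h (∑ j ∈ Finset.range p, τ ((c * b) ^ j) x) =
      ∑ j ∈ Finset.range p, τ ((c * κ h * b) ^ j) (τ h x)
    rw [map_sum]
    refine Finset.sum_congr rfl (fun j _ => ?_)
    rw [← hmul, ← hmul]
    congr 1
    have h1 : c * κ h * b = h * (c * b) * h⁻¹ := by
      rw [mul_assoc, ← hκb, ← mul_assoc, ← mul_assoc, hCcomm c hc h]
      simp only [mul_assoc]
    rw [h1, conj_pow, inv_mul_cancel_right]
  let M : Subgroup P :=
    { carrier := {h | κ h = 1}
      one_mem' := hκone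
      mul_mem' := by
        intro g h hg hh
        show κ (g * h) = 1
        rw [hκmul, show κ g = 1 from hg, show κ h = 1 from hh, one_mul]
      inv_mem' := by
        intro g hg
        show κ g⁻¹ = 1
        rw [hκinv, show κ g = 1 from hg, inv_one] }
  have hMmem : ∀ h, h ∈ M ↔ κ h = 1 := fun h => Iff.rfl
  -- a nonzero vector with a nonzero norm
  have hexN : ∃ c ∈ C, ∃ x, Nn c x ≠ 0 := by
    by_contra hcon
    push Not at hcon
    obtain ⟨x, hx⟩ := exists_ne (0 : V)
    apply hx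
    apply hcancel
    rw [← L4 x]
    exact Finset.sum_eq_zero (fun c _ => hcon c c.2 x)
  have hMtop : M ≠ ⊤ := by
    intro hM
    obtain ⟨c, hc, x, hx⟩ := hexN
    apply hx
    apply L1 (c * b)
    · rw [Subgroup.mem_center_iff]
      intro g
      have hg : κ g = 1 := by
        rw [← hMmem, hM]; exact Subgroup.mem_top g
      have h1 := hκb g
      rw [hg, one_mul] at h1
      have h2 : g * b = b * g := mul_inv_eq_iff_eq_mul.1 h1
      rw [← mul_assoc, ← hCcomm c hc g, mul_assoc, h2, mul_assoc]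
    · intro h
      apply hbz
      have : b = c⁻¹ := by
        rw [eq_inv_iff_mul_eq_one, ← hCcomm c hc, h]
      rw [this]
      exact C.inv_mem hc
    · exact hcb c hc
  have hsurj : ∀ c : C, ∃ g, κ g = c := by
    obtain ⟨g, hg⟩ : ∃ g, g ∉ M := by
      by_contra hcon
      push Not at hcon
      exact hMtop ((Subgroup.eq_top_iff' M).2 hcon)
    have hκpow : ∀ n : ℕ, κ (g ^ n) = (κ g) ^ n := by
      intro n
      induction n with
      | zero => rw [pow_zero, pow_zero, hκone]
      | succ n ih => rw [pow_succ, hκmul, ih, pow_succ]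
    intro c
    have h1 : c ∈ Subgroup.zpowers (⟨κ g, hκC g⟩ : C) := by
      apply mem_zpowers_of_prime_card hCcard
      intro h
      exact hg (congrArg Subtype.val h)
    have h2 := mem_powers_iff_mem_zpowers.2 h1
    obtain ⟨n, hn⟩ := h2
    refine ⟨g ^ n, ?_⟩
    rw [hκpow]
    exact congrArg Subtype.val hn
  choose γ hγ using hsurj
  let W : AddSubgroup V :=
    { carrier := {x | τ b x = x}
      zero_mem' := map_zero (τ b)
      add_mem' := by
        intro x y hx hy
        show τ b (x + y) = x + y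
        rw [map_add, show τ b x = x from hx, show τ b y = y from hy]
      neg_mem' := by
        intro x hx
        show τ b (-x) = -x
        rw [map_neg, show τ b x = x from hx] }
  have hWmem : ∀ x, x ∈ W ↔ τ b x = x := fun x => Iff.rfl
  -- transport of fixed spaces
  have hfixW : ∀ (c : C) (u : V), τ ((c : P) * b) u = u → τ (γ c)⁻¹ u ∈ W := by
    intro c u hu
    rw [hWmem, ← hmul]
    have h1 : b * (γ c)⁻¹ = (γ c)⁻¹ * ((c : P) * b) := by
      rw [← hγ c, ← hκb]; group
    rw [h1, hmul, hu]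
  have hWfix : ∀ (c : C) (w : V), w ∈ W → τ ((c : P) * b) (τ (γ c) w) = τ (γ c) w := by
    intro c w hw
    rw [← hmul]
    have h1 : (c : P) * b * γ c = γ c * b := by
      rw [← hγ c, ← hκb]; group
    rw [h1, hmul, (hWmem w).1 hw]
  have hWbot : W ≠ ⊥ := by
    intro hW
    obtain ⟨c, hc, x, hx⟩ := hexN
    have h1 := hfixW ⟨c, hc⟩ _ (L3 c hc x)
    rw [hW, AddSubgroup.mem_bot] at h1
    apply hx
    have h2 : τ (γ ⟨c, hc⟩) (τ (γ ⟨c, hc⟩)⁻¹ (Nn c x)) = 0 := by rw [h1, map_zero]
    rwa [← hmul, mul_inv_cancel, hone] at h2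
  refine ⟨M, W, hMtop, hWbot, ?_, ?_, ?_⟩
  · intro h hh w hw
    rw [hWmem, ← hmul]
    have h1 := hκb h
    rw [(hMmem h).1 hh, one_mul] at h1
    have h2 : b * h = h * b := (mul_inv_eq_iff_eq_mul.1 h1).symm
    rw [h2, hmul, (hWmem w).1 hw]
  · intro σ hσ w hw
    rw [hWmem, ← hσ, (hWmem w).1 hw]
  · intro w hw w' hw' hreg hreg' horb
    -- vectors with prescribed components
    let vec : (C → V) → V := fun y => ∑ c : C, τ (γ c) (y c)
    have hNvec : ∀ y : C → V, (∀ c, y c ∈ W) → ∀ c : C, Nn c (vec y) = p • τ (γ c) (y c) := by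
      intro y hy c
      have h1 : Nn c (vec y) = ∑ c' : C, Nn c (τ (γ c') (y c')) := by
        show ∑ j ∈ Finset.range p, τ (((c : P) * b) ^ j) (∑ c' : C, τ (γ c') (y c')) =
          ∑ c' : C, ∑ j ∈ Finset.range p, τ (((c : P) * b) ^ j) (τ (γ c') (y c'))
        rw [Finset.sum_comm]
        refine Finset.sum_congr rfl (fun j _ => ?_)
        rw [map_sum]
      rw [h1]
      have h2 : ∀ c' : C, Nn c (τ (γ c') (y c')) =
          if c = c' then p • τ (γ c') (y c') else 0 := by
        intro c'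
        rw [L2 c' c'.2 c c.2 _ (hWfix c' _ (hy c'))]
        simp only [Subtype.ext_iff]
      simp only [h2, Finset.sum_ite_eq, Finset.mem_univ, if_true]
    have claimA : ∀ (y y' : C → V), (∀ c, y c ∈ W) → (∀ c, y' c ∈ W) → ∀ h,
        τ h (vec y) = vec y' → ∀ c : C, ∃ m ∈ M, τ m (y c) = y' (c * ⟨κ h, hκC h⟩) ∧
          m = (γ (c * ⟨κ h, hκC h⟩))⁻¹ * h * γ c := by
      intro y y' hy hy' h hh c
      refine ⟨(γ (c * ⟨κ h, hκC h⟩))⁻¹ * h * γ c, ?_, ?_, rfl⟩
      · rw [hMmem, hκmul, hκmul, hκinv, hγ, hγ]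
        show ((c : P) * κ h)⁻¹ * κ h * (c : P) = 1
        rw [hCcomm _ (C.inv_mem (C.mul_mem c.2 (hκC h))), ← hCcomm _ c.2]
        group
      · have h1 := L5 h c c.2 (vec y)
        rw [hh, hNvec y hy c, map_nsmul] at h1
        have h2 := hNvec y' hy' (c * ⟨κ h, hκC h⟩)
        have h3 : ((c * ⟨κ h, hκC h⟩ : C) : P) = (c : P) * κ h := rfl
        rw [h3] at h2
        rw [h2] at h1
        have h4 := hcancel2 _ _ h1
        rw [hmul, hmul, h4, ← hmul, inv_mul_cancel, hone]
    have hregvec : ∀ y : C → V, (∀ c, y c ∈ W) →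
        (∀ c, ∀ m ∈ M, τ m (y c) = y c → ∀ u ∈ W, τ m u = u) →
        (∀ d : C, d ≠ 1 → ∃ c, ∀ m ∈ M, τ m (y c) ≠ y (c * d)) → Reg τ (vec y) := by
      intro y hy hyreg hyd h hh
      by_cases hκ1 : κ h = 1
      · -- every component is fixed
        have hfix : ∀ (c : C) (u : V), τ ((c : P) * b) u = u → τ h u = u := by
          intro c u hu
          obtain ⟨m, hm, hm1, hm2⟩ := claimA y y hy hy h hh c
          have h1 : c * ⟨κ h, hκC h⟩ = c := by
            apply Subtype.ext
            show (c : P) * κ h = c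
            rw [hκ1, mul_one]
          rw [h1] at hm1 hm2
          have h2 := hyreg c m hm hm1 _ (hfixW c u hu)
          rw [hm2, ← hmul] at h2
          have h3 := congrArg (τ (γ c)) h2
          rw [← hmul, ← hmul, mul_inv_cancel, hone] at h3
          have h4 : γ c * ((γ c)⁻¹ * h * γ c * (γ c)⁻¹) = h := by group
          rwa [h4] at h3
        intro u
        apply hcancel2
        rw [← map_nsmul, ← L4 u, map_sum]
        exact Finset.sum_congr rfl (fun c _ => hfix c _ (L3 c c.2 u))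
      · exfalso
        obtain ⟨c, hc⟩ := hyd ⟨κ h, hκC h⟩ (by
          intro h'
          exact hκ1 (congrArg Subtype.val h'))
        obtain ⟨m, hm, hm1, _⟩ := claimA y y hy hy h hh c
        exact hc m hm hm1
    have horb' : ∀ h ∈ M, τ h w' ≠ w := by
      intro h hh h'
      apply horb h⁻¹ (M.inv_mem hh)
      rw [← h', ← hmul, inv_mul_cancel, hone]
    let y1 : C → V := fun c => if c = 1 then w' else w
    let y2 : C → V := fun c => if c = 1 then w else w'
    have hy1W : ∀ c, y1 c ∈ W := by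
      intro c; simp only [y1]; split_ifs <;> assumption
    have hy2W : ∀ c, y2 c ∈ W := by
      intro c; simp only [y2]; split_ifs <;> assumption
    refine ⟨vec y1, vec y2, ?_, ?_, ?_⟩
    · apply hregvec y1 hy1W
      · intro c m hm
        simp only [y1]; split_ifs
        · exact hreg' m hm
        · exact hreg m hm
      · intro d hd
        refine ⟨1, fun m hm => ?_⟩
        simp only [y1, if_true, one_mul, if_neg hd]
        exact horb' m hm
    · apply hregvec y2 hy2W
      · intro c m hm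
        simp only [y2]; split_ifs
        · exact hreg m hm
        · exact hreg' m hm
      · intro d hd
        refine ⟨1, fun m hm => ?_⟩
        simp only [y2, if_true, one_mul, if_neg hd]
        exact horb m hm
    · intro h hh
      by_cases hκ1 : κ h = 1
      · obtain ⟨m, hm, hm1, _⟩ := claimA y1 y2 hy1W hy2W h hh 1
        have h1 : (1 : C) * ⟨κ h, hκC h⟩ = 1 := by
          apply Subtype.ext
          show (1 : P) * κ h = 1
          rw [hκ1, mul_one]
        rw [h1] at hm1
        simp only [y1, y2, if_true] at hm1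
        exact horb' m hm hm1
      · set d : C := ⟨κ h, hκC h⟩ with hd
        have hd1 : d ≠ 1 := by
          intro h'
          exact hκ1 (congrArg Subtype.val h')
        have hdd : d * d ≠ 1 := by
          intro h'
          have h1 : orderOf d ∣ 2 := orderOf_dvd_of_pow_eq_one (by rw [pow_two, h'])
          have h2 : orderOf d ∣ p := by rw [← hCcard]; exact orderOf_dvd_natCard d
          have h3 : orderOf d ∣ Nat.gcd 2 p := Nat.dvd_gcd h1 h2
          have h4 : Nat.gcd 2 p = 1 := (Nat.coprime_primes Nat.prime_two hp).2 (Ne.symm hp2)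
          rw [h4, Nat.dvd_one, orderOf_eq_one_iff] at h3
          exact hd1 h3
        obtain ⟨m, hm, hm1, _⟩ := claimA y1 y2 hy1W hy2W h hh d
        have hdd' : ¬ (d * ⟨κ h, hκC h⟩ = 1) := hdd
        simp only [y1, y2, if_neg hd1, if_neg hdd'] at hm1
        exact horb m hm hm1

end Pool.Agent.Lib.MP_3587c3_al
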