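import Mathlib
import Pool.Agent.Lib.MP_3587c3_al.NormalAb
import Pool.Agent.Lib.MP_3587c3_al.Block3

set_option autoImplicit false

/-!
# MP_3587c3_al: `p`-groups, `p` odd, acting together with a commuting group
-/

namespace Pool.Agent.Lib.MP_3587c3_al

universe u v w

/-- one regular vector and a commuting `p'`-group without fixed points give two regular orbits -/
theorem two_of_one {B P V : Type*} [Group B] [Finite B] [Group P] [AddCommGroup V] [Nontrivial V]
    (p : ℕ) [hpf : Fact p.Prime] (hB : (Nat.card B).Coprime p) (hP : IsPGroup p P)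
    (τ : P →* AddMonoid.End V) (σ : B →* AddMonoid.End V)
    (hcomm : ∀ b a x, σ b (τ a x) = τ a (σ b x)) (hfix : ∀ x, (∀ b, σ b x = x) → x = 0) (v : V)
    (hv : Reg τ v) : ∃ v v', Reg τ v ∧ Reg τ v' ∧ ∀ a, τ a v ≠ v' := by
  have hmulτ : ∀ a b w, τ (a * b) w = τ a (τ b w) := fun a b w => by rw [map_mul]; rfl
  have hmulσ : ∀ a b w, σ (a * b) w = σ a (σ b w) := fun a b w => by rw [map_mul]; rfl
  have honeτ : ∀ w, τ 1 w = w := fun w => by rw [map_one]; rfl
  have honeσ : ∀ w, σ 1 w = w := fun w => by rw [map_one]; rfl
  by_contra hcon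
  push Not at hcon
  have hv0 : v = 0 := by
    apply hfix
    intro b
    have hregb : Reg τ (σ b v) := by
      intro a ha
      apply hv a
      rw [← hcomm] at ha
      have h1 := congrArg (σ b⁻¹) ha
      rwa [← hmulσ, ← hmulσ, inv_mul_cancel, honeσ, honeσ] at h1
    obtain ⟨a, ha⟩ := hcon v (σ b v) hv hregb
    have hpow : ∀ k : ℕ, σ (b ^ k) v = τ (a ^ k) v := by
      intro k
      induction k with
      | zero => rw [pow_zero, pow_zero, honeσ, honeτ]
      | succ k ih => rw [pow_succ', hmulσ, ih, hcomm, ← ha, ← hmulτ, ← pow_succ]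
    obtain ⟨N, hN⟩ := hP a
    have h1 : σ (b ^ (p ^ N)) v = v := by rw [hpow, hN, honeτ]
    have h2 : ∀ m : ℕ, σ ((b ^ (p ^ N)) ^ m) v = v := by
      intro m
      induction m with
      | zero => rw [pow_zero, honeσ]
      | succ m ih => rw [pow_succ', hmulσ, ih, h1]
    obtain ⟨m, hm⟩ := exists_pow_eq_self_of_coprime (x := b) (n := p ^ N)
      ((Nat.Coprime.pow_left N hB.symm).coprime_dvd_right (orderOf_dvd_natCard b))
    have h3 := h2 m
    rwa [hm] at h3
  subst hv0
  have htriv : ∀ a w, τ a w = w := fun a => hv a (map_zero (τ a))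
  obtain ⟨w, hw⟩ := exists_ne (0 : V)
  obtain ⟨a, ha⟩ := hcon 0 w hv (fun a _ => htriv a)
  rw [map_zero] at ha
  exact hw ha.symm

/-- fixed points of a group of coprime order in a quotient -/
theorem fix_quot {B V : Type*} [Group B] [Finite B] [AddCommGroup V] [Finite V]
    (σ : B →* AddMonoid.End V) (hcop : (Nat.card V).Coprime (Nat.card B))
    (hfix : ∀ x, (∀ b, σ b x = x) → x = 0) (U : AddSubgroup V) (x : V)
    (hx : ∀ b, σ b x - x ∈ U) : x ∈ U := by
  classical
  have hfB : Fintype B := Fintype.ofFinite B
  have hmulσ : ∀ a b w, σ (a * b) w = σ a (σ b w) := fun a b w => by rw [map_mul]; rfl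
  have h1 : ∑ b : B, σ b x = 0 := by
    apply hfix
    intro c
    rw [map_sum]
    simp only [← hmulσ]
    exact Equiv.sum_comp (Equiv.mulLeft c) (fun b => σ b x)
  have h2 : Nat.card B • x ∈ U := by
    have h3 : ∑ b : B, (σ b x - x) ∈ U := AddSubgroup.sum_mem _ (fun b _ => hx b)
    rw [Finset.sum_sub_distrib, h1, Finset.sum_const, Finset.card_univ,
      ← Nat.card_eq_fintype_card, zero_sub, neg_mem_iff] at h3
    exact h3
  have h3 : (Nat.card (V ⧸ U)).Coprime (Nat.card B) := by
    refine hcop.coprime_dvd_left ?_
    rw [AddSubgroup.card_eq_card_quotient_mul_card_addSubgroup U]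
    exact dvd_mul_right _ _
  have h4 : Nat.card B • (x : V ⧸ U) = 0 := by
    have h5 : ((Nat.card B • x : V) : V ⧸ U) = 0 := (QuotientAddGroup.eq_zero_iff _).2 h2
    exact h5
  exact (QuotientAddGroup.eq_zero_iff _).1 (coprime_cancel h3 _ h4)

theorem reg_B (p : ℕ) [hpf : Fact p.Prime] (hp2 : p ≠ 2) (B : Type w) [Group B] [Finite B]
    (hBp : (Nat.card B).Coprime p) : ∀ (n : ℕ) (P : Type u) [Group P]
    [Finite P] (V : Type v) [AddCommGroup V] [Finite V] [Nontrivial V]
    (τ : P →* AddMonoid.End V) (σ : B →* AddMonoid.End V),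
    Nat.card P + Nat.card V ≤ n → IsPGroup p P → (Nat.card V).Coprime p →
    (Nat.card V).Coprime (Nat.card B) →
    (∀ b a x, σ b (τ a x) = τ a (σ b x)) → (∀ x, (∀ b, σ b x = x) → x = 0) →
    ∃ v v', Reg τ v ∧ Reg τ v' ∧ ∀ a, τ a v ≠ v' := by
  intro n
  induction n with
  | zero =>
    intro P _ _ V _ _ _ τ σ h
    exfalso
    have : 0 < Nat.card V := Nat.card_pos
    omega
  | succ n ih =>
    intro P _ _ V _ _ _ τ σ hcard hP hcop hcopB hcomm hfix
    have hp := hpf.out
    have hmul : ∀ a b w, τ (a * b) w = τ a (τ b w) := fun a b w => by rw [map_mul]; rfl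
    have hone : ∀ w, τ 1 w = w := fun w => by rw [map_one]; rfl
    by_cases hirr : ∀ U : AddSubgroup V, (∀ a, ∀ u ∈ U, τ a u ∈ U) → (∀ b, ∀ u ∈ U, σ b u ∈ U) →
        U = ⊥ ∨ U = ⊤
    swap
    · -- reducible
      push Not at hirr
      obtain ⟨U, hU, hUB, hbot, htop⟩ := hirr
      obtain ⟨h1, h2, h3, h4, hntU, hntQ⟩ := card_sub_quot U hbot htop
      obtain ⟨u, _, hu, _⟩ := ih P U (subAct τ U hU) (subAct σ U hUB) (by omega) hP
        (hcop.coprime_dvd_left h3) (hcopB.coprime_dvd_left h3)
        (fun b a x => Subtype.ext (hcomm b a x))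
        (fun x hx => Subtype.ext (hfix x fun b => congrArg Subtype.val (hx b)))
      obtain ⟨v1, v1', hv1, hv1', horb⟩ := ih P (V ⧸ U) (quotAct τ U hU) (quotAct σ U hUB)
        (by omega) hP (hcop.coprime_dvd_left h4) (hcopB.coprime_dvd_left h4)
        (by
          intro b a x
          obtain ⟨x, rfl⟩ := QuotientAddGroup.mk_surjective x
          rw [quotAct_mk, quotAct_mk, quotAct_mk, quotAct_mk, hcomm])
        (by
          intro x hx
          obtain ⟨x, rfl⟩ := QuotientAddGroup.mk_surjective x
          rw [QuotientAddGroup.eq_zero_iff]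
          apply fix_quot σ hcopB hfix U x
          intro b
          have h5 := hx b
          rw [quotAct_mk, QuotientAddGroup.eq, ← neg_mem_iff] at h5
          have h6 : -(-(σ b x) + x) = σ b x - x := by abel
          rwa [h6] at h5)
      obtain ⟨v2, rfl⟩ := QuotientAddGroup.mk_surjective v1
      obtain ⟨v2', rfl⟩ := QuotientAddGroup.mk_surjective v1'
      have huU : ∀ a, τ a (u : V) = u → ∀ w ∈ U, τ a w = w := by
        intro a ha w hw
        have := hu a (Subtype.ext ha) ⟨w, hw⟩
        exact congrArg Subtype.val this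
      obtain ⟨v, hvU, hv⟩ := red_step p hP τ hcop U hU u u.2 huU v2 (quot_reg τ U hU v2 hv1)
      obtain ⟨v', hvU', hv'⟩ := red_step p hP τ hcop U hU u u.2 huU v2'
        (quot_reg τ U hU v2' hv1')
      refine ⟨v, v', hv, hv', fun a ha => horb a ?_⟩
      have e1 : (v2 : V ⧸ U) = (v : V ⧸ U) := by
        rw [QuotientAddGroup.eq, neg_add_eq_sub]; exact hvU
      have e2 : (v2' : V ⧸ U) = (v' : V ⧸ U) := by
        rw [QuotientAddGroup.eq, neg_add_eq_sub]; exact hvU'
      show quotAct τ U hU a (v2 : V ⧸ U) = (v2' : V ⧸ U)
      rw [e1, e2, quotAct_mk, ha]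
    · by_cases hinj : Function.Injective τ
      swap
      · -- not faithful
        have hker : τ.ker ≠ ⊥ := by
          intro h
          exact hinj ((MonoidHom.ker_eq_bot_iff τ).1 h)
        have hcardq : Nat.card (P ⧸ τ.ker) < Nat.card P := by
          have h1 := Subgroup.card_eq_card_quotient_mul_card_subgroup τ.ker
          have h2 : 1 < Nat.card τ.ker := by
            rw [Nat.one_lt_iff_ne_zero_and_ne_one]
            exact ⟨Nat.card_pos.ne', fun h => hker (Subgroup.eq_bot_of_card_eq _ h)⟩
          have h3 : 0 < Nat.card (P ⧸ τ.ker) := Nat.card_pos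
          rw [h1]
          nlinarith
        obtain ⟨v, v', hv, hv', horb⟩ := ih (P ⧸ τ.ker) V (QuotientGroup.lift τ.ker τ le_rfl) σ
          (by omega) (hP.to_quotient _) hcop hcopB (by
            intro b a x
            obtain ⟨a, rfl⟩ := QuotientGroup.mk_surjective a
            exact hcomm b a x) hfix
        refine ⟨v, v', ?_, ?_, ?_⟩
        · intro a ha w
          exact hv (QuotientGroup.mk a) ha w
        · intro a ha w
          exact hv' (QuotientGroup.mk a) ha w
        · intro a ha
          exact horb (QuotientGroup.mk a) ha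
      · have hfixU : ∀ w ∈ Subgroup.center P, (∀ x, τ w x = x) ∨ ∀ u, τ w u = u → u = 0 := by
          intro w hw
          let U : AddSubgroup V :=
            { carrier := {x | τ w x = x}
              zero_mem' := map_zero (τ w)
              add_mem' := by
                intro x y hx hy
                show τ w (x + y) = x + y
                rw [map_add, show τ w x = x from hx, show τ w y = y from hy]
              neg_mem' := by
                intro x hx
                show τ w (-x) = -x
                rw [map_neg, show τ w x = x from hx] }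
          rcases hirr U (by
            intro b u hu
            show τ w (τ b u) = τ b u
            rw [← hmul, ← Subgroup.mem_center_iff.1 hw b, hmul, show τ w u = u from hu]) (by
            intro b u hu
            show τ w (σ b u) = σ b u
            rw [← hcomm, show τ w u = u from hu]) with h | h
          · right
            intro u hu
            have h1 : u ∈ U := hu
            rw [h, AddSubgroup.mem_bot] at h1
            exact h1
          · left
            intro x
            have h1 : x ∈ U := by rw [h]; exact AddSubgroup.mem_top x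
            exact h1
        by_cases hcyc : IsCyclic P
        swap
        · -- noncyclic
          obtain ⟨z, b, hzc, hz1, hzp, hbp, hbz, hbh⟩ :=
            exists_normal_ab p hp2 (Nat.card P) P le_rfl hP hcyc
          have L0 : ∀ w ∈ Subgroup.center P, w ≠ 1 → ∀ u, τ w u = u → u = 0 := by
            intro w hw hw1
            rcases hfixU w hw with h | h
            · exfalso
              apply hw1
              apply hinj
              rw [map_one]
              exact AddMonoidHom.ext h
            · exact h
          obtain ⟨M, W, hM, hW, hMW, hWσ, hmain⟩ := block3 p hp2 τ hinj hcop L0 z b hzc hz1 hzp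
            hbp hbz hbh
          have hWnt : Nontrivial W := (AddSubgroup.nontrivial_iff_ne_bot W).2 hW
          have hWd : Nat.card W ∣ Nat.card V := AddSubgroup.card_addSubgroup_dvd_card W
          have hWle : Nat.card W ≤ Nat.card V := Nat.le_of_dvd Nat.card_pos hWd
          have hMlt : Nat.card M < Nat.card P := by
            have h1 := Subgroup.card_le_card_group M
            rcases h1.lt_or_eq with h | h
            · exact h
            · exact absurd (Subgroup.eq_top_of_card_eq M h) hM
          have hMW' : ∀ a : M, ∀ w ∈ W, (τ.comp M.subtype) a w ∈ W :=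
            fun a w hw => hMW a a.2 w hw
          have hWB : ∀ b, ∀ w ∈ W, σ b w ∈ W := fun b => hWσ (σ b) (fun a x => hcomm b a x)
          obtain ⟨w, w', hw, hw', horb⟩ := ih M W (subAct (τ.comp M.subtype) W hMW')
            (subAct σ W hWB) (by omega) (hP.to_subgroup M) (hcop.coprime_dvd_left hWd)
            (hcopB.coprime_dvd_left hWd) (fun b a x => Subtype.ext (hcomm b a x))
            (fun x hx => Subtype.ext (hfix x fun b => congrArg Subtype.val (hx b)))
          refine hmain w w.2 w' w'.2 ?_ ?_ ?_
          · intro h hh hfix u hu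
            exact congrArg Subtype.val (hw ⟨h, hh⟩ (Subtype.ext hfix) ⟨u, hu⟩)
          · intro h hh hfix u hu
            exact congrArg Subtype.val (hw' ⟨h, hh⟩ (Subtype.ext hfix) ⟨u, hu⟩)
          · intro h hh hfix
            exact horb ⟨h, hh⟩ (Subtype.ext hfix)
        · -- cyclic
          have hab : ∀ a b : P, a * b = b * a := by
            obtain ⟨g, hg⟩ := hcyc.exists_generator
            intro a b
            obtain ⟨i, rfl⟩ := Subgroup.mem_zpowers_iff.1 (hg a)
            obtain ⟨j, rfl⟩ := Subgroup.mem_zpowers_iff.1 (hg b)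
            rw [← zpow_add, ← zpow_add, add_comm]
          obtain ⟨v, hv⟩ := exists_ne (0 : V)
          refine two_of_one p hBp hP τ σ hcomm hfix v ?_
          intro a ha
          rcases hfixU a (Subgroup.mem_center_iff.2 (fun g => hab g a)) with h | h
          · exact h
          · exact absurd (h v ha) hv

end Pool.Agent.Lib.MP_3587c3_al
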