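import Mathlib
import Pool.Agent.Lib.MP_3587c3_al.RegB

set_option autoImplicit false

/-!
# MP_3587c3_al: targets which force commutation
-/

namespace Pool.Agent.Lib.MP_3587c3_al

universe u v w

theorem target_mod (p : ℕ) [hpf : Fact p.Prime] (hp2 : p ≠ 2) {P : Type u} [Group P] [Finite P]
    (hP : IsPGroup p P) {V : Type v} [AddCommGroup V] [Finite V] (hcop : (Nat.card V).Coprime p)
    {B : Type w} [Group B] [Finite B] (hBp : (Nat.card B).Coprime p)
    (hBV : (Nat.card V).Coprime (Nat.card B)) (τ : P →* AddMonoid.End V)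
    (σ : B →* AddMonoid.End V) (hcomm : ∀ b a x, σ b (τ a x) = τ a (σ b x)) (g : V) :
    ∃ g' : V, ∀ a, τ a g' = g' → τ a g = g ∧ ∀ b v, τ a (σ b v - v) = σ b v - v := by
  classical
  have hfB : Fintype B := Fintype.ofFinite B
  have hmulσ : ∀ a b w, σ (a * b) w = σ a (σ b w) := fun a b w => by rw [map_mul]; rfl
  have hsumr : ∀ c x, ∑ b : B, σ b (σ c x) = ∑ b : B, σ b x := by
    intro c x
    simp only [← hmulσ]
    exact Equiv.sum_comp (Equiv.mulRight c) (fun b => σ b x)
  have hsuml : ∀ c x, σ c (∑ b : B, σ b x) = ∑ b : B, σ b x := by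
    intro c x
    rw [map_sum]
    simp only [← hmulσ]
    exact Equiv.sum_comp (Equiv.mulLeft c) (fun b => σ b x)
  have hcard : ∀ x : V, (∀ b, σ b x = x) → ∑ b : B, σ b x = Nat.card B • x := by
    intro x hx
    simp only [hx]
    rw [Finset.sum_const, Finset.card_univ, Nat.card_eq_fintype_card]
  let U : AddSubgroup V :=
    { carrier := {x | ∑ b : B, σ b x = 0}
      zero_mem' := by
        show ∑ b : B, σ b (0 : V) = 0
        simp only [map_zero, Finset.sum_const_zero]
      add_mem' := by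
        intro x y hx hy
        show ∑ b : B, σ b (x + y) = 0
        simp only [map_add]
        rw [Finset.sum_add_distrib, show ∑ b : B, σ b x = 0 from hx,
          show ∑ b : B, σ b y = 0 from hy, add_zero]
      neg_mem' := by
        intro x hx
        show ∑ b : B, σ b (-x) = 0
        simp only [map_neg]
        rw [Finset.sum_neg_distrib, show ∑ b : B, σ b x = 0 from hx, neg_zero] }
  have hUmem : ∀ x, x ∈ U ↔ ∑ b : B, σ b x = 0 := fun x => Iff.rfl
  have hUfix : ∀ x ∈ U, (∀ b, σ b x = x) → x = 0 := by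
    intro x hx h
    rw [hUmem, hcard x h] at hx
    exact coprime_cancel hBV x hx
  have hUdiff : ∀ b x, σ b x - x ∈ U := by
    intro c x
    rw [hUmem]
    simp only [map_sub]
    rw [Finset.sum_sub_distrib, hsumr, sub_self]
  have hUP : ∀ a, ∀ u ∈ U, τ a u ∈ U := by
    intro a u hu
    rw [hUmem]
    simp only [hcomm]
    rw [← map_sum, (hUmem u).1 hu, map_zero]
  have hUB : ∀ b, ∀ u ∈ U, σ b u ∈ U := by
    intro b u hu
    rw [hUmem, hsumr, (hUmem u).1 hu]
  by_cases hUbot : U = ⊥
  · have hzero : ∀ b x, σ b x - x = 0 := by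
      intro b x
      have h := hUdiff b x
      rwa [hUbot, AddSubgroup.mem_bot] at h
    refine ⟨g, fun a ha => ⟨ha, fun b v => ?_⟩⟩
    rw [hzero, map_zero]
  · have hUnt : Nontrivial U := (AddSubgroup.nontrivial_iff_ne_bot U).2 hUbot
    have hUd : Nat.card U ∣ Nat.card V := AddSubgroup.card_addSubgroup_dvd_card U
    obtain ⟨r, _, hr, _⟩ := reg_B p hp2 B hBp (Nat.card P + Nat.card U) P U (subAct τ U hUP)
      (subAct σ U hUB) le_rfl hP (hcop.coprime_dvd_left hUd) (hBV.coprime_dvd_left hUd)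
      (fun b a x => Subtype.ext (hcomm b a x))
      (fun x hx => Subtype.ext (hUfix x x.2 fun b => congrArg Subtype.val (hx b)))
    have hr2 : ∀ a, τ a (r : V) = r → ∀ w ∈ U, τ a w = w := by
      intro a ha w hw
      exact congrArg Subtype.val (hr a (Subtype.ext ha) ⟨w, hw⟩)
    -- the component of `g` fixed by `B`
    have hinj : Function.Injective (fun x : V => Nat.card B • x) := by
      intro x y hxy
      have h1 : Nat.card B • (x - y) = 0 := by
        rw [smul_sub, sub_eq_zero]; exact hxy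
      exact sub_eq_zero.1 (coprime_cancel hBV _ h1)
    obtain ⟨g0, hg0⟩ := (Finite.injective_iff_surjective.1 hinj) g
    have hg0' : Nat.card B • g0 = g := hg0
    set gF : V := ∑ b : B, σ b g0 with hgF
    have hgFfix : ∀ b, σ b gF = gF := fun b => hsuml b g0
    have hgU : g - gF ∈ U := by
      rw [hUmem]
      simp only [map_sub]
      rw [Finset.sum_sub_distrib, hcard gF hgFfix, ← hg0']
      simp only [map_nsmul]
      rw [← Finset.smul_sum, ← hgF, sub_self]
    refine ⟨gF + r, fun a ha => ?_⟩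
    have h1 : τ a gF - gF = -(τ a (r : V) - r) := by
      rw [map_add] at ha
      have h2 : τ a gF - gF + (τ a (r : V) - r) = 0 := by
        have h3 : τ a gF - gF + (τ a (r : V) - r) = (τ a gF + τ a (r : V)) - (gF + r) := by abel
        rw [h3, ha, sub_self]
      exact eq_neg_of_add_eq_zero_left h2
    have h2 : τ a gF - gF = 0 := by
      apply hUfix
      · rw [h1]
        exact U.neg_mem (U.sub_mem (hUP a r r.2) r.2)
      · intro b
        rw [map_sub, hcomm, hgFfix]
    have h3 : τ a (r : V) = r := by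
      rw [h2] at h1
      have h4 : τ a (r : V) - r = 0 := neg_eq_zero.1 h1.symm
      exact sub_eq_zero.1 h4
    have h4 := hr2 a h3
    refine ⟨?_, fun b v => h4 _ (hUdiff b v)⟩
    have h5 : g = gF + (g - gF) := by abel
    rw [h5, map_add, h4 _ hgU, sub_eq_zero.1 h2]

/-- the same for conjugation on an abelian normal subgroup -/
theorem target_conj {G : Type u} [Group G] [Finite G] (N : Subgroup G) [hNn : N.Normal]
    (hNab : ∀ a ∈ N, ∀ b ∈ N, a * b = b * a) {ι : Type*} [Finite ι] (p : ι → ℕ)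
    [hp : ∀ i, Fact (p i).Prime] (hinj : Function.Injective p) (D : ι → Subgroup G)
    (hD : ∀ i, IsPGroup (p i) (D i))
    (hcomm : ∀ i j, i ≠ j → ∀ a ∈ D i, ∀ b ∈ D j, a * b * a⁻¹ * b⁻¹ ∈ N) (i : ι)
    (hp2 : p i ≠ 2) (hcop : (Nat.card N).Coprime (p i)) (S : Set ι)
    (hS : ∀ k ∈ S, k ≠ i ∧ (Nat.card N).Coprime (p k)) (g : G) (hg : g ∈ N) :
    ∃ g' ∈ N, ∀ a ∈ D i, a * g' * a⁻¹ = g' → a * g * a⁻¹ = g ∧
      ∀ k ∈ S, ∀ b ∈ D k, ∀ n ∈ N,
        a * (b * n * b⁻¹ * n⁻¹) * a⁻¹ = b * n * b⁻¹ * n⁻¹ := by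
  classical
  have hft : Fintype ι := Fintype.ofFinite ι
  let hcg : CommGroup N :=
    { (inferInstance : Group N) with
      mul_comm := fun a b => Subtype.ext (hNab a a.2 b b.2) }
  let σ : G → (Additive N →+ Additive N) := fun g =>
    { toFun := fun m => Additive.ofMul
        ⟨(g : G) * (m.toMul : G) * (g : G)⁻¹, hNn.conj_mem _ m.toMul.2 g⟩
      map_zero' := by
        apply Additive.toMul.injective
        apply Subtype.ext
        show (g : G) * ((1 : N) : G) * (g : G)⁻¹ = 1
        rw [Subgroup.coe_one, mul_one, mul_inv_cancel]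
      map_add' := by
        intro x y
        apply Additive.toMul.injective
        apply Subtype.ext
        show (g : G) * ((x.toMul * y.toMul : N) : G) * (g : G)⁻¹ =
          ((g : G) * (x.toMul : G) * (g : G)⁻¹) * ((g : G) * (y.toMul : G) * (g : G)⁻¹)
        rw [Subgroup.coe_mul]
        group }
  let τ : G →* AddMonoid.End (Additive N) :=
    { toFun := σ
      map_one' := by
        apply AddMonoidHom.ext
        intro m
        apply Additive.toMul.injective
        apply Subtype.ext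
        show (1 : G) * (m.toMul : G) * (1 : G)⁻¹ = (m.toMul : G)
        group
      map_mul' := by
        intro g h
        apply AddMonoidHom.ext
        intro m
        apply Additive.toMul.injective
        apply Subtype.ext
        show (g * h : G) * (m.toMul : G) * (g * h : G)⁻¹ =
          (g : G) * ((h : G) * (m.toMul : G) * (h : G)⁻¹) * (g : G)⁻¹
        group }
  have hτ : ∀ (g : G) (m : Additive N), ((τ g m).toMul : G) = g * (m.toMul : G) * g⁻¹ :=
    fun g m => rfl
  have hτcomm : ∀ k l, k ≠ l → ∀ a ∈ D k, ∀ b ∈ D l, Commute (τ a) (τ b) := by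
    intro k l hkl a ha b hb
    have h1 := hcomm k l hkl a ha b hb
    show τ a * τ b = τ b * τ a
    apply AddMonoidHom.ext
    intro m
    apply Additive.toMul.injective
    apply Subtype.ext
    show a * (b * (m.toMul : G) * b⁻¹) * a⁻¹ = b * (a * (m.toMul : G) * a⁻¹) * b⁻¹
    have h2 : a * (b * (m.toMul : G) * b⁻¹) * a⁻¹ = (a * b * a⁻¹ * b⁻¹) *
        (b * (a * (m.toMul : G) * a⁻¹) * b⁻¹) * (a * b * a⁻¹ * b⁻¹)⁻¹ := by group
    rw [h2, hNab _ h1 _ (hNn.conj_mem _ (hNn.conj_mem _ m.toMul.2 a) b)]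
    group
  let B : Type _ := ∀ k : S, D (k : ι)
  have hpw : Pairwise fun k l : S => ∀ (x : D k) (y : D l),
      Commute ((τ.comp (D k).subtype) x) ((τ.comp (D l).subtype) y) := by
    intro k l hkl x y
    exact hτcomm k l (fun h => hkl (Subtype.ext h)) x x.2 y y.2
  let β : B →* AddMonoid.End (Additive N) :=
    MonoidHom.noncommPiCoprod (fun k : S => τ.comp (D k).subtype) hpw
  have hβsingle : ∀ (k : S) (b : D k), β (Pi.mulSingle k b) = τ b := by
    intro k b
    exact MonoidHom.noncommPiCoprod_mulSingle (ϕ := fun k : S => τ.comp (D k).subtype)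
      (hcomm := hpw) k b
  have hβcomm : ∀ (b : B) (a : D i), Commute (τ a) (β b) := by
    intro b a
    apply MonoidHom.commute_noncommPiCoprod
    intro k x
    exact hτcomm i k (Ne.symm (hS k k.2).1) a a.2 x x.2
  have hcardB : Nat.card B = ∏ k : S, Nat.card (D (k : ι)) := Nat.card_pi
  have hBp : (Nat.card B).Coprime (p i) := by
    rw [hcardB]
    apply Nat.Coprime.prod_left
    intro k _
    obtain ⟨r, hr⟩ := IsPGroup.iff_card.1 (hD k)
    rw [hr]
    exact Nat.Coprime.pow_left _ ((Nat.coprime_primes (hp k).out (hp i).out).2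
      (fun h => (hS k k.2).1 (hinj h)))
  have hBV : (Nat.card (Additive N)).Coprime (Nat.card B) := by
    rw [hcardB]
    apply Nat.Coprime.prod_right
    intro k _
    obtain ⟨r, hr⟩ := IsPGroup.iff_card.1 (hD k)
    rw [hr]
    exact Nat.Coprime.pow_right _ (hS k k.2).2
  obtain ⟨g', hg'⟩ := target_mod (p i) hp2 (hD i) (V := Additive N) hcop hBp hBV
    (τ.comp (D i).subtype) β (fun b a x => by
      have h1 := hβcomm b a
      exact (DFunLike.congr_fun h1.eq x).symm) (Additive.ofMul ⟨g, hg⟩)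
  refine ⟨g'.toMul, g'.toMul.2, fun a ha hfix => ?_⟩
  obtain ⟨h1, h2⟩ := hg' ⟨a, ha⟩ (by
    apply Additive.toMul.injective
    apply Subtype.ext
    exact hfix)
  refine ⟨congrArg (fun x : Additive N => (x.toMul : G)) h1, fun k hk b hb n hn => ?_⟩
  have h3 := h2 (Pi.mulSingle ⟨k, hk⟩ ⟨b, hb⟩) (Additive.ofMul ⟨n, hn⟩)
  rw [hβsingle] at h3
  have hsub : ∀ x y : Additive N, ((x - y).toMul : G) = (x.toMul : G) * (y.toMul : G)⁻¹ := by
    intro x y
    rw [sub_eq_add_neg]
    rfl
  have h4 : a * (((τ b (Additive.ofMul ⟨n, hn⟩) - Additive.ofMul ⟨n, hn⟩ : Additive N).toMul :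
      N) : G) * a⁻¹ = ((τ b (Additive.ofMul ⟨n, hn⟩) - Additive.ofMul ⟨n, hn⟩ :
        Additive N).toMul : G) := congrArg (fun x : Additive N => (x.toMul : G)) h3
  rw [hsub] at h4
  exact h4

end Pool.Agent.Lib.MP_3587c3_al
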