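import Mathlib
import Pool.Agent.Lib.MP_3587c3_al.Ext2
import Pool.Agent.Lib.MP_3587c3_al.TargetB

set_option autoImplicit false

/-!
# MP_3587c3_al: simultaneous domination in soluble extensions, all odd primes
-/

namespace Pool.Agent.Lib.MP_3587c3_al

universe u

open scoped Pointwise commutatorElement

/-- a commutator of coprime order fixed by one of its entries is trivial -/
theorem comm_one_of_fix {G : Type*} [Group G] (a b : G) (m M : ℕ) (hb : b ^ m = 1)
    (hc : (a * b * a⁻¹ * b⁻¹) ^ M = 1) (hcop : Nat.Coprime m M)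
    (hfix : b * (a * b * a⁻¹ * b⁻¹) * b⁻¹ = a * b * a⁻¹ * b⁻¹) : a * b * a⁻¹ * b⁻¹ = 1 := by
  set c := a * b * a⁻¹ * b⁻¹ with hcdef
  have h1 : c * b = a * b * a⁻¹ := by rw [hcdef]; group
  have hcomm : Commute c b := (mul_inv_eq_iff_eq_mul.1 hfix).symm
  have h2 : (c * b) ^ m = 1 := by rw [h1, conj_pow, hb, mul_one, mul_inv_cancel]
  rw [hcomm.mul_pow, hb, mul_one] at h2
  have h3 := mem_of_pow_coprime (⊥ : Subgroup G) c m M hcop
    (by rw [h2]; exact Subgroup.one_mem _) (by rw [hc]; exact Subgroup.one_mem _)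
  exact Subgroup.mem_bot.1 h3

/-- a commutator in an abelian normal subgroup is fixed by `a` if `a` acts trivially on the
commutators with powers of `b` -/
theorem fix_comm {G : Type*} [Group G] (N : Subgroup G) [hNn : N.Normal]
    (hNab : ∀ a ∈ N, ∀ b ∈ N, a * b = b * a) (a b : G) (hc : b * a * b⁻¹ * a⁻¹ ∈ N)
    (h : ∀ t : ℕ, ∀ n ∈ N, a * (b ^ t * n * (b ^ t)⁻¹ * n⁻¹) * a⁻¹ = b ^ t * n * (b ^ t)⁻¹ * n⁻¹)
    (m M : ℕ) (hb : b ^ m = 1) (hM : (b * a * b⁻¹ * a⁻¹) ^ M = 1) (hcop : Nat.Coprime m M) :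
    a * (b * a * b⁻¹ * a⁻¹) * a⁻¹ = b * a * b⁻¹ * a⁻¹ := by
  set c := b * a * b⁻¹ * a⁻¹ with hcdef
  let Z : Subgroup G :=
    { carrier := {z | z ∈ N ∧ a * z * a⁻¹ = z}
      one_mem' := ⟨N.one_mem, by rw [mul_one, mul_inv_cancel]⟩
      mul_mem' := by
        rintro x y ⟨hx, hx2⟩ ⟨hy, hy2⟩
        refine ⟨N.mul_mem hx hy, ?_⟩
        have h1 : a * (x * y) * a⁻¹ = (a * x * a⁻¹) * (a * y * a⁻¹) := by group
        rw [h1, hx2, hy2]
      inv_mem' := by
        rintro x ⟨hx, hx2⟩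
        refine ⟨N.inv_mem hx, ?_⟩
        have h1 : a * x⁻¹ * a⁻¹ = (a * x * a⁻¹)⁻¹ := by group
        rw [h1, hx2] }
  have h1 : c⁻¹ * b = a * b * a⁻¹ := by rw [hcdef]; group
  have h2 : ∀ t : ℕ, ∃ z ∈ Z, (c⁻¹ * b) ^ t = z * (c⁻¹) ^ t * b ^ t := by
    intro t
    induction t with
    | zero => exact ⟨1, Z.one_mem, by simp⟩
    | succ t ih =>
      obtain ⟨z, hz, hzt⟩ := ih
      have hcN : c⁻¹ ∈ N := N.inv_mem hc
      have hw : b ^ t * c⁻¹ * (b ^ t)⁻¹ * (c⁻¹)⁻¹ ∈ Z :=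
        ⟨N.mul_mem (hNn.conj_mem _ hcN _) (N.inv_mem hcN), h t _ hcN⟩
      refine ⟨z * (b ^ t * c⁻¹ * (b ^ t)⁻¹ * (c⁻¹)⁻¹), Z.mul_mem hz hw, ?_⟩
      have h3 := hNab _ hw.1 _ (N.pow_mem hcN t)
      rw [pow_succ (c⁻¹ * b), hzt]
      have h4 : z * c⁻¹ ^ t * b ^ t * (c⁻¹ * b) =
          z * (c⁻¹ ^ t * (b ^ t * c⁻¹ * (b ^ t)⁻¹ * (c⁻¹)⁻¹)) * c⁻¹ * b ^ (t + 1) := by
        rw [pow_succ b]; group
      rw [h4, ← h3, pow_succ (c⁻¹)]
      simp only [mul_assoc]
  obtain ⟨z, hz, hzm⟩ := h2 m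
  rw [h1, conj_pow, hb, mul_one, mul_inv_cancel, mul_one] at hzm
  have h3 : c ^ m ∈ Z := by
    have h4 : c ^ m = z := by
      rw [inv_pow] at hzm
      exact (mul_inv_eq_one.1 hzm.symm).symm
    rw [h4]; exact hz
  exact (mem_of_pow_coprime Z c m M hcop h3 (by rw [hM]; exact Z.one_mem)).2

theorem ext3 {ι : Type*} [Finite ι] (p : ι → ℕ) [hp : ∀ i, Fact (p i).Prime]
    (hinj : Function.Injective p) (X : ι → Set ℕ) (hpX : ∀ i, p i ∈ X i) :
    ∀ (m : ℕ) (G : Type u) [Group G] [Finite G],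
    Nat.card G ≤ m → ∀ (R : Subgroup G) [R.Normal], Group.IsSolvable R →
    (∀ i j, i ≠ j → ∀ s : ℕ, s.Prime → s ∣ Nat.card R → s ∈ X i → s ∈ X j →
      s ≠ p i ∧ s ≠ p j ∧ p i ≠ 2 ∧ p j ≠ 2) →
    ∀ (P : ∀ i, Sylow (p i) G), (∀ i, GoodFor (p i) (P i : Subgroup G) R (X i)) →
    ∀ y : G, (∀ i, ∀ a ∈ P i, y * a * y⁻¹ ∈ (P i : Subgroup G) ⊔ R →
      ∀ h, h * a * h⁻¹ ∈ (P i : Subgroup G) ⊔ R) → ∀ g : ι → G,
    ∃ x, (∀ i, ∀ a ∈ P i, x * a * x⁻¹ ∈ P i → g i * a * (g i)⁻¹ ∈ P i) ∧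
      ∀ i j, i ≠ j → ∀ a ∈ P i, x * a * x⁻¹ ∈ P i → ∀ b ∈ P j, x * b * x⁻¹ ∈ P j →
        a * b = b * a := by
  intro m
  induction m with
  | zero =>
    intro G _ _ hG
    exfalso
    have : 0 < Nat.card G := Nat.card_pos
    omega
  | succ m ih =>
    intro G _ _ hG R _ hR hX P hgood y hy g
    classical
    have hpelt : ∀ i, ∀ a ∈ P i, ∃ k : ℕ, a ^ (p i ^ k) = 1 := by
      intro i a ha
      obtain ⟨k, hk⟩ := (P i).isPGroup' ⟨a, ha⟩
      exact ⟨k, congrArg Subtype.val hk⟩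
    by_cases hRbot : R = ⊥
    · subst hRbot
      simp only [sup_bot_eq] at hy ⊢
      refine ⟨y, fun i a ha hya => hy i a ha hya _, fun i j hij a ha hya b hb hyb => ?_⟩
      have h1 := comm_mem_of_ne (fun h => hij (hinj h)) (P i : Subgroup G) (P j : Subgroup G) ⊥
        (P i).isPGroup' (P j).isPGroup' a b (fun h => Subgroup.mem_sup_left (hy i a ha hya h))
        (fun h => Subgroup.mem_sup_left (hy j b hb hyb h))
      rw [Subgroup.mem_bot, commutatorElement_eq_one_iff_mul_comm] at h1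
      exact h1
    obtain ⟨F, hFn, hFne, hFR, hFab⟩ := exists_abelian R hR hRbot
    obtain ⟨N, hNn, hNne, hNF, hcen, _, s, hs, hsN⟩ := exists_minN F (nil_of_comm F hFab) hFne
    have hNab : ∀ a ∈ N, ∀ b ∈ N, a * b = b * a := fun a ha b hb => hFab a (hNF ha) b (hNF hb)
    have hNR : N ≤ R := le_trans hNF hFR
    have hNnil : Group.IsNilpotent N := nil_of_comm N hNab
    have hsf : Fact s.Prime := ⟨hs⟩
    have hNselt : ∀ n ∈ N, ∃ k : ℕ, n ^ (s ^ k) = 1 := by
      intro n hn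
      obtain ⟨k, hk⟩ := hsN ⟨n, hn⟩
      exact ⟨k, congrArg Subtype.val hk⟩
    set q := QuotientGroup.mk' N with hq
    have hqs : Function.Surjective q := QuotientGroup.mk'_surjective N
    have hcardq : Nat.card (G ⧸ N) ≤ m := by
      have h1 := Subgroup.card_eq_card_quotient_mul_card_subgroup N
      have h2 : 1 < Nat.card N := by
        rw [Nat.one_lt_iff_ne_zero_and_ne_one]
        refine ⟨Nat.card_pos.ne', fun h => hNne (Subgroup.eq_bot_of_card_eq N h)⟩
      have h3 : 0 < Nat.card (G ⧸ N) := Nat.card_pos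
      have h4 : Nat.card (G ⧸ N) * 2 ≤ Nat.card (G ⧸ N) * Nat.card N :=
        Nat.mul_le_mul_left _ h2
      omega
    have hRq : Group.IsSolvable (R.map q) := by
      have := hR
      exact Group.isSolvable_of_surjective (MonoidHom.subgroupMap_surjective q R)
    have hRqn : (R.map q).Normal := Subgroup.Normal.map inferInstance q hqs
    have hcardRq : Nat.card (R.map q) ∣ Nat.card R :=
      Subgroup.card_dvd_of_surjective (q.subgroupMap R) (MonoidHom.subgroupMap_surjective q R)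
    have hsup : ∀ i, ((P i : Subgroup G).map q) ⊔ R.map q = ((P i : Subgroup G) ⊔ R).map q := by
      intro i
      rw [Subgroup.map_sup]
    have hmemR : ∀ (i : ι) (w : G), q w ∈ ((P i : Subgroup G).map q) ⊔ R.map q ↔
        w ∈ (P i : Subgroup G) ⊔ R := by
      intro i w
      rw [hsup, mem_map_mk', sup_assoc, sup_eq_left.2 hNR]
    -- the one-prime condition
    let SPR : ι → Prop := fun i => ∀ K : Subgroup G, K.Normal → K ≤ R → ∃ g : G, ∀ a ∈ P i,
      g * a * g⁻¹ ∈ (P i : Subgroup G) ⊔ K → ∀ h, h * a * h⁻¹ ∈ (P i : Subgroup G) ⊔ K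
    have hg0 : ∀ i, ∃ g0 : G, ∀ a ∈ P i, g0 * a * g0⁻¹ ∈ (P i : Subgroup G) ⊔ N →
        g i * a * (g i)⁻¹ ∈ (P i : Subgroup G) ⊔ N ∧
          (SPR i → ∀ h, h * a * h⁻¹ ∈ (P i : Subgroup G) ⊔ N) := by
      intro i
      by_cases hi : SPR i
      · obtain ⟨g0, hg0⟩ := hi N hNn hNR
        exact ⟨g0, fun a ha h0 => ⟨hg0 a ha h0 _, fun _ => hg0 a ha h0⟩⟩
      · exact ⟨g i, fun a ha h0 => ⟨h0, fun h => absurd h hi⟩⟩
    choose g0 hg0 using hg0
    obtain ⟨x', hx'⟩ := ih (G ⧸ N) hcardq (R.map q) hRq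
      (fun i j hij s hs hsd => hX i j hij s hs (hsd.trans hcardRq))
      (fun i => (P i).mapSurjective hqs) (by
      intro i
      rcases hgood i with h | ⟨h1, h2⟩ | ⟨h1, h2⟩ | h
      · left
        intro a ha b hb
        obtain ⟨a', ha', rfl⟩ := Subgroup.mem_map.1 ha
        obtain ⟨b', hb', rfl⟩ := Subgroup.mem_map.1 hb
        rw [← map_mul, ← map_mul, h a' ha' b' hb']
      · right; left
        refine ⟨h1, ?_⟩
        rcases h2 with h2 | h2 | h2
        · exact Or.inl h2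
        · exact Or.inr (Or.inl (Odd.of_dvd_nat h2 hcardRq))
        · exact Or.inr (Or.inr h2)
      · right; right; left
        exact ⟨h1, fun r hr hrd => h2 r hr (hrd.trans hcardRq)⟩
      · right; right; right
        intro K' hK'n hK'R
        have hKR : K'.comap q ≤ R := by
          intro w hw
          have h1 : q w ∈ R.map q := hK'R hw
          rw [mem_map_mk', sup_eq_left.2 hNR] at h1
          exact h1
        obtain ⟨g, hg⟩ := h (K'.comap q) (hK'n.comap q) hKR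
        have hmemK : ∀ w : G, q w ∈ ((P i : Subgroup G).map q) ⊔ K' ↔
            w ∈ (P i : Subgroup G) ⊔ K'.comap q := by
          intro w
          have h1 : K' = (K'.comap q).map q := (Subgroup.map_comap_eq_self_of_surjective hqs K').symm
          have h2 : N ≤ K'.comap q := by
            intro n hn
            have : q n = 1 := (QuotientGroup.eq_one_iff n).2 hn
            rw [Subgroup.mem_comap, this]
            exact K'.one_mem
          conv_lhs => rw [h1]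
          rw [← Subgroup.map_sup, mem_map_mk', sup_assoc, sup_eq_left.2 h2]
        refine ⟨q g, ?_⟩
        intro a' ha' hya h'
        obtain ⟨a, ha, rfl⟩ := Subgroup.mem_map.1 ha'
        obtain ⟨h0, rfl⟩ := hqs h'
        have h1 : q (g * a * g⁻¹) ∈ ((P i : Subgroup G).map q) ⊔ K' := by
          rw [map_mul, map_mul, map_inv]; exact hya
        have h2 := hg a ha ((hmemK _).1 h1) h0
        have h3 := (hmemK _).2 h2
        rw [map_mul, map_mul, map_inv] at h3
        exact h3) (q y) (by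
      intro i a' ha' hya h'
      obtain ⟨a, ha, rfl⟩ := Subgroup.mem_map.1 ha'
      obtain ⟨h, rfl⟩ := hqs h'
      have h1 : q (y * a * y⁻¹) ∈ ((P i : Subgroup G).map q) ⊔ R.map q := by
        rw [map_mul, map_mul, map_inv]; exact hya
      have h2 := hy i a ha ((hmemR i _).1 h1) h
      have h3 := (hmemR i _).2 h2
      rw [map_mul, map_mul, map_inv] at h3
      exact h3) (fun i => q (g0 i))
    obtain ⟨x0, rfl⟩ := hqs x'
    -- unfolding the induction hypothesis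
    obtain ⟨hx1, hx2⟩ := hx'
    have hx0 : ∀ i, ∀ a ∈ P i, x0 * a * x0⁻¹ ∈ (P i : Subgroup G) ⊔ N →
        g0 i * a * (g0 i)⁻¹ ∈ (P i : Subgroup G) ⊔ N := by
      intro i a ha hxa
      rw [← mem_map_mk'] at hxa ⊢
      have h1 := hx1 i (q a) (Subgroup.mem_map_of_mem q ha) (by
        rw [← map_inv, ← map_mul, ← map_mul]
        exact hxa)
      rw [← map_inv, ← map_mul, ← map_mul] at h1
      exact h1
    have hcomm : ∀ i j, i ≠ j → ∀ a ∈ P i, x0 * a * x0⁻¹ ∈ (P i : Subgroup G) ⊔ N →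
        ∀ b ∈ P j, x0 * b * x0⁻¹ ∈ (P j : Subgroup G) ⊔ N → ⁅a, b⁆ ∈ N := by
      intro i j hij a ha hxa b hb hxb
      rw [← mem_map_mk'] at hxa hxb
      have h2 := hx2 i j hij (q a) (Subgroup.mem_map_of_mem q ha) (by
        rw [← map_inv, ← map_mul, ← map_mul]
        exact hxa) (q b) (Subgroup.mem_map_of_mem q hb) (by
        rw [← map_inv, ← map_mul, ← map_mul]
        exact hxb)
      rw [← commutatorElement_eq_one_iff_mul_comm, ← map_commutatorElement] at h2
      exact (QuotientGroup.eq_one_iff _).1 h2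
    -- the intersections modulo `N`
    let D : ι → Subgroup G := fun i =>
      (P i : Subgroup G) ⊓ ((P i : Subgroup G) ⊔ N).comap (MulAut.conj x0).toMonoidHom
    have hDp : ∀ i, IsPGroup (p i) (D i) := fun i => (P i).isPGroup'.to_le inf_le_left
    have hNelt : ∀ i, s ≠ p i → ∀ n ∈ N, (∃ k : ℕ, n ^ (p i ^ k) = 1) → n = 1 := by
      rintro i hsp n hn ⟨k, hk⟩
      obtain ⟨l, hl⟩ := hNselt n hn
      have h1 := mem_of_pow_coprime (⊥ : Subgroup G) n (p i ^ k) (s ^ l)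
        (Nat.Coprime.pow _ _ ((Nat.coprime_primes (hp i).out hs).2 (Ne.symm hsp)))
        (by rw [hk]; exact Subgroup.one_mem _) (by rw [hl]; exact Subgroup.one_mem _)
      exact Subgroup.mem_bot.1 h1
    have hcopN : ∀ i, s ≠ p i → (Nat.card N).Coprime (p i) := by
      intro i hsp
      obtain ⟨k, hk⟩ := IsPGroup.iff_card.1 hsN
      rw [hk]
      exact Nat.Coprime.pow_left k ((Nat.coprime_primes hs (hp i).out).2 hsp)
    have hfixN : ∀ i, s ≠ p i → ∀ v ∈ N, ∀ a ∈ P i, v * a * v⁻¹ ∈ P i → a * v * a⁻¹ = v := by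
      intro i hsp v hv a ha hva
      have hone : v * a * v⁻¹ * a⁻¹ = 1 := by
        apply hNelt i hsp
        · have h1 : v * a * v⁻¹ * a⁻¹ = v * (a * v⁻¹ * a⁻¹) := by group
          rw [h1]
          exact N.mul_mem hv (hNn.conj_mem _ (N.inv_mem hv) a)
        · exact hpelt i _ ((P i).mul_mem hva ((P i).inv_mem ha))
      have h1 : v * a * v⁻¹ = a := mul_inv_eq_one.1 hone
      have h2 : v * a = a * v := mul_inv_eq_iff_eq_mul.1 h1
      rw [← h2, mul_assoc, mul_inv_cancel, mul_one]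
    have hγ : ∀ i, ∃ γ ∈ N, ∀ a ∈ D i, a * γ * a⁻¹ = γ → g i * a * (g i)⁻¹ ∈ P i := by
      intro i
      obtain ⟨u, hu, hu2⟩ := conj_into (P i) N ((D i).map (MulAut.conj (g i)).toMonoidHom)
        ((hDp i).map _) (by
          intro x hx
          obtain ⟨d, hd, rfl⟩ := Subgroup.mem_map.1 hx
          exact (hg0 i d hd.1 (hx0 i d hd.1 hd.2)).1)
      refine ⟨(g i)⁻¹ * u⁻¹ * (g i), ?_, ?_⟩
      · have := Subgroup.Normal.conj_mem (inferInstance : N.Normal) u⁻¹ (N.inv_mem hu) (g i)⁻¹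
        rwa [inv_inv] at this
      · intro a ha hfix
        have h1 := hu2 _ (Subgroup.mem_map.2 ⟨_, ha, rfl⟩)
        have h0 : (g i)⁻¹ * u⁻¹ * (g i) * a * ((g i)⁻¹ * u⁻¹ * (g i))⁻¹ = a := by
          rw [mul_inv_eq_iff_eq_mul] at hfix ⊢
          exact hfix.symm
        have h2 : u * ((MulAut.conj (g i)).toMonoidHom a) * u⁻¹ = g i * a * (g i)⁻¹ := by
          conv_lhs => rw [← h0]
          show u * ((g i) * ((g i)⁻¹ * u⁻¹ * (g i) * a * ((g i)⁻¹ * u⁻¹ * (g i))⁻¹) * (g i)⁻¹) *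
            u⁻¹ = g i * a * (g i)⁻¹
          group
        rw [h2] at h1
        exact h1
    choose γ hγ hγ2 using hγ
    have hNtarget : ∀ i, ∀ v ∈ N, ∀ a ∈ P i, v * a * v⁻¹ ∈ (P i : Subgroup G) ⊔ N := by
      intro i v hv a ha
      exact Subgroup.mul_mem _ (Subgroup.mul_mem _ (Subgroup.mem_sup_right hv)
        (Subgroup.mem_sup_left ha)) (Subgroup.mem_sup_right (N.inv_mem hv))
    -- the targets
    have htarget : ∀ i, ∃ g1 : G, (∀ a ∈ D i, g1 * a * g1⁻¹ ∈ (P i : Subgroup G) ⊔ N) ∧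
        (∀ a ∈ D i, g1 * a * g1⁻¹ ∈ P i →
          g i * a * (g i)⁻¹ ∈ P i ∧ (s ∉ X i → ∀ n ∈ N, a * n * a⁻¹ = n) ∧
          (s ≠ p i → p i ≠ 2 → s ∈ X i → ∀ k, k ≠ i → s ≠ p k → ∀ b ∈ D k, ∀ n ∈ N,
            a * (b * n * b⁻¹ * n⁻¹) * a⁻¹ = b * n * b⁻¹ * n⁻¹)) := by
      intro i
      by_cases hsp : s = p i
      · exact ⟨g i, fun a ha => (hg0 i a ha.1 (hx0 i a ha.1 ha.2)).1,
          fun a ha h1 => ⟨h1, fun h => absurd (hsp ▸ hpX i) h, fun h => absurd hsp h⟩⟩
      by_cases hsX : s ∈ X i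
      · by_cases hp2 : p i = 2
        · refine ⟨γ i, fun a ha => hNtarget i _ (hγ i) a ha.1, fun a ha h1 => ?_⟩
          exact ⟨hγ2 i a ha (hfixN i hsp _ (hγ i) a ha.1 h1), fun h => absurd hsX h,
            fun _ h => absurd hp2 h⟩
        · obtain ⟨g', hg', hg'2⟩ := target_conj N hNab p hinj D hDp (by
            intro k l hkl a ha b hb
            have h1 := hcomm k l hkl a ha.1 ha.2 b hb.1 hb.2
            rwa [commutatorElement_def] at h1) i hp2 (hcopN i hsp) {k | k ≠ i ∧ s ≠ p k}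
            (fun k hk => ⟨hk.1, hcopN k hk.2⟩) (γ i) (hγ i)
          refine ⟨g', fun a ha => hNtarget i _ hg' a ha.1, fun a ha h1 => ?_⟩
          obtain ⟨h2, h3⟩ := hg'2 a ha (hfixN i hsp _ hg' a ha.1 h1)
          exact ⟨hγ2 i a ha h2, fun h => absurd hsX h, fun _ _ _ k hk hk2 => h3 k ⟨hk, hk2⟩⟩
      by_cases hspr : SPR i
      · obtain ⟨g1, hg1⟩ := hspr ⊥ inferInstance bot_le
        simp only [sup_bot_eq] at hg1
        refine ⟨g1, fun a ha => (hg0 i a ha.1 (hx0 i a ha.1 ha.2)).2 hspr _,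
          fun a ha h1 => ?_⟩
        have h2 := hg1 a ha.1 h1
        refine ⟨h2 _, fun _ n hn => ?_, fun _ _ h => absurd h hsX⟩
        have h3 : ⁅a, n⁆ = 1 := by
          apply hNelt i hsp
          · rw [commutatorElement_def]
            exact N.mul_mem (hNn.conj_mem n hn a) (N.inv_mem hn)
          · apply hpelt i
            have h4 : ⁅a, n⁆ = a * (n * a * n⁻¹)⁻¹ := by rw [commutatorElement_def]; group
            rw [h4]
            exact (P i).mul_mem ha.1 ((P i).inv_mem (h2 n))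
        rw [commutatorElement_def, mul_inv_eq_one] at h3
        exact h3
      · obtain ⟨v, hv, hv2⟩ := reg_conj2 N hNab (D i) (hDp i) (hcopN i hsp) hNne (by
          rcases hgood i with h | ⟨h1, h2⟩ | ⟨h1, h2⟩ | h
          · left
            intro a ha b hb
            exact h a ha.1 b hb.1
          · right; left
            refine ⟨h1, ?_⟩
            rcases h2 with h2 | h2 | h2
            · left
              obtain ⟨k, hk⟩ := IsPGroup.iff_card.1 hsN
              rw [hk]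
              exact (hs.odd_of_ne_two fun h => hsX (h ▸ h2)).pow
            · exact Or.inl (Odd.of_dvd_nat h2 (Subgroup.card_dvd_of_le hNR))
            · exact Or.inr h2
          · right; right
            refine ⟨h1, fun r hr hrd => ?_⟩
            have hrs : r = s := by
              obtain ⟨k, hk⟩ := IsPGroup.iff_card.1 hsN
              rw [hk] at hrd
              exact (Nat.prime_dvd_prime_iff_eq hr hs).1 (hr.dvd_of_dvd_pow hrd)
            exact h2 r hr (hrd.trans (Subgroup.card_dvd_of_le hNR)) (by rw [hrs]; exact hsX)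
          · exact absurd h hspr)
        refine ⟨v, fun a ha => hNtarget i _ hv a ha.1, fun a ha hva => ?_⟩
        have hcent := hv2 a ha (hfixN i hsp _ hv a ha.1 hva)
        exact ⟨hγ2 i a ha (hcent _ (hγ i)), fun _ => hcent, fun _ _ h => absurd h hsX⟩
    choose g1 hg1 hg1' using htarget
    obtain ⟨m', _, hm'⟩ := lift2 N hNnil p hinj P x0 hcomm g1 (fun i a ha hxa => hg1 i a ⟨ha, hxa⟩)
    refine ⟨x0 * m', fun i a ha hxa => ?_, fun i j hij a ha hxa b hb hxb => ?_⟩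
    · obtain ⟨h1, h2⟩ := hm' i a ha hxa
      exact (hg1' i a ⟨ha, h1⟩ h2).1
    · -- commutation
      obtain ⟨ha1, ha2⟩ := hm' i a ha hxa
      obtain ⟨hb1, hb2⟩ := hm' j b hb hxb
      obtain ⟨_, ha3, ha4⟩ := hg1' i a ⟨ha, ha1⟩ ha2
      obtain ⟨_, hb3, _⟩ := hg1' j b ⟨hb, hb1⟩ hb2
      obtain ⟨ka, hka⟩ := hpelt i a ha
      obtain ⟨kb, hkb⟩ := hpelt j b hb
      have hc : a * b * a⁻¹ * b⁻¹ ∈ N := by
        have h1 := hcomm i j hij a ha ha1 b hb hb1
        rwa [commutatorElement_def] at h1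
      have hc' : b * a * b⁻¹ * a⁻¹ ∈ N := by
        have h1 := N.inv_mem hc
        have h2 : (a * b * a⁻¹ * b⁻¹)⁻¹ = b * a * b⁻¹ * a⁻¹ := by group
        rwa [h2] at h1
      obtain ⟨kc, hkc⟩ := hNselt _ hc
      obtain ⟨kc', hkc'⟩ := hNselt _ hc'
      by_cases hsj : s ∈ X j
      swap
      · -- `b` centralises `N`
        have hsp : s ≠ p j := fun h => hsj (h ▸ hpX j)
        have h1 := comm_one_of_fix a b (p j ^ kb) (s ^ kc) hkb hkc
          (Nat.Coprime.pow _ _ ((Nat.coprime_primes (hp j).out hs).2 (Ne.symm hsp)))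
          (hb3 hsj _ hc)
        exact mul_inv_eq_iff_eq_mul.1 (mul_inv_eq_one.1 h1)
      by_cases hsi : s ∈ X i
      swap
      · have hsp : s ≠ p i := fun h => hsi (h ▸ hpX i)
        have h1 := comm_one_of_fix b a (p i ^ ka) (s ^ kc') hka hkc'
          (Nat.Coprime.pow _ _ ((Nat.coprime_primes (hp i).out hs).2 (Ne.symm hsp)))
          (ha3 hsi _ hc')
        exact (mul_inv_eq_iff_eq_mul.1 (mul_inv_eq_one.1 h1)).symm
      · have hsR : s ∣ Nat.card R := by
          refine dvd_trans ?_ (Subgroup.card_dvd_of_le hNR)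
          obtain ⟨k, hk⟩ := IsPGroup.iff_card.1 hsN
          rw [hk]
          apply dvd_pow_self
          rintro rfl
          rw [pow_zero] at hk
          exact hNne (Subgroup.eq_bot_of_card_eq N hk)
        obtain ⟨h1, h2, h3, h4⟩ := hX i j hij s hs hsR hsi hsj
        have h5 := ha4 h1 h3 hsi j (Ne.symm hij) h2
        have h6 : a * (b * a * b⁻¹ * a⁻¹) * a⁻¹ = b * a * b⁻¹ * a⁻¹ := by
          apply fix_comm N hNab a b hc' (fun t n hn => h5 (b ^ t) ((D j).pow_mem ⟨hb, hb1⟩ t) n hn)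
            (p j ^ kb) (s ^ kc') hkb hkc'
          exact Nat.Coprime.pow _ _ ((Nat.coprime_primes (hp j).out hs).2 (Ne.symm h2))
        have h7 := comm_one_of_fix b a (p i ^ ka) (s ^ kc') hka hkc'
          (Nat.Coprime.pow _ _ ((Nat.coprime_primes (hp i).out hs).2 (Ne.symm h1))) h6
        exact (mul_inv_eq_iff_eq_mul.1 (mul_inv_eq_one.1 h7)).symm

end Pool.Agent.Lib.MP_3587c3_al
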