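import Mathlib
import Pool.Agent.Lib.MP_3587c3_al.Final3

set_option autoImplicit false

/-!
# MP_3587c3_al: avoiding subgroups attached to distinct primes
-/

namespace Pool.Agent.Lib.MP_3587c3_al

universe u

open scoped Pointwise

/-- a subgroup which misses an element of `p`-power order of `L` has index at least `p` in `L` -/
theorem card_inter_le {G : Type u} [Group G] [Finite G] (L M : Subgroup G) {p : ℕ}
    [hp : Fact p.Prime] (z : G) (hz : z ∈ L) (hzM : z ∉ M) (hk : ∃ k : ℕ, z ^ (p ^ k) = 1) :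
    p * Nat.card (L ⊓ M : Subgroup G) ≤ Nat.card L := by
  obtain ⟨k, hk⟩ := hk
  let f : Fin p × (L ⊓ M : Subgroup G) → L := fun x =>
    ⟨z ^ (x.1 : ℕ) * x.2, L.mul_mem (L.pow_mem hz _) x.2.2.1⟩
  have hkey : ∀ (i j : ℕ) (m m' : G), i < p → j < p → i ≤ j → m ∈ M → m' ∈ M →
      z ^ i * m = z ^ j * m' → i = j := by
    intro i j m m' _ hj hij hm hm' h
    by_contra hne
    apply hzM
    have hlt : 0 < j - i := by omega
    have hlt2 : j - i < p := by omega
    have h1 : z ^ (j - i) = m * m'⁻¹ := by
      have h2 : z ^ j = z ^ i * z ^ (j - i) := by rw [← pow_add]; congr 1; omega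
      rw [h2, mul_assoc] at h
      rw [mul_left_cancel h, mul_inv_cancel_right]
    have hcop : Nat.Coprime (j - i) (p ^ k) := by
      apply Nat.Coprime.pow_right
      rw [Nat.coprime_comm, hp.out.coprime_iff_not_dvd]
      intro hd
      have := Nat.le_of_dvd hlt hd
      omega
    exact mem_of_pow_coprime M z (j - i) (p ^ k) hcop
      (by rw [h1]; exact M.mul_mem hm (M.inv_mem hm')) (by rw [hk]; exact M.one_mem)
  have hf : Function.Injective f := by
    rintro ⟨i, m⟩ ⟨j, m'⟩ h
    have h1 : z ^ (i : ℕ) * (m : G) = z ^ (j : ℕ) * (m' : G) := congrArg Subtype.val h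
    have hij : (i : ℕ) = j := by
      rcases le_total (i : ℕ) (j : ℕ) with h2 | h2
      · exact hkey i j m m' i.2 j.2 h2 m.2.2 m'.2.2 h1
      · exact (hkey j i m' m j.2 i.2 h2 m'.2.2 m.2.2 h1.symm).symm
    have hij' : i = j := Fin.ext hij
    subst hij'
    rw [Prod.mk.injEq]
    exact ⟨rfl, Subtype.ext (mul_left_cancel h1)⟩
  have h1 := Nat.card_le_card_of_injective f hf
  rwa [Nat.card_prod, Nat.card_fin] at h1

/-- Subgroups `M i` for distinct primes `p i`, none of them containing all elements of `p i`-power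
order, do not cover the group. -/
theorem avoid {G : Type u} [Group G] [Finite G] {ι : Type*} (p : ι → ℕ)
    [hp : ∀ i, Fact (p i).Prime] (hinj : Function.Injective p) (M : ι → Subgroup G) :
    ∀ s : Finset ι, (∀ i ∈ s, ∃ z : G, z ∉ M i ∧ ∃ k : ℕ, z ^ (p i ^ k) = 1) →
      ∃ x : G, ∀ i ∈ s, x ∉ M i := by
  classical
  intro s
  induction s using Finset.strongInduction with
  | H s ih =>
    intro hs
    by_cases hs0 : s.Nonempty
    swap
    · rw [Finset.not_nonempty_iff_eq_empty] at hs0
      subst hs0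
      exact ⟨1, fun i hi => absurd hi (Finset.notMem_empty i)⟩
    obtain ⟨n, hn, hmax⟩ := Finset.exists_max_image s p hs0
    set L : Subgroup G := Subgroup.closure {z | ∃ k : ℕ, z ^ (p n ^ k) = 1} with hL
    obtain ⟨z, hz, hzk⟩ := hs n hn
    have hzL : z ∈ L := Subgroup.subset_closure hzk
    have hC : s.filter (fun i => L ≤ M i) ⊂ s := by
      rw [Finset.ssubset_iff_of_subset (Finset.filter_subset _ _)]
      refine ⟨n, hn, fun h => ?_⟩
      exact hz ((Finset.mem_filter.1 h).2 hzL)
    obtain ⟨x0, hx0⟩ := ih _ hC (fun i hi => hs i (Finset.mem_filter.1 hi).1)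
    obtain ⟨w, hw⟩ := exists_good (Ω := L) (s.filter (fun i => ¬ L ≤ M i)) (p n - 1) (by
      have h1 : (s.filter (fun i => ¬ L ≤ M i)).card ≤ s.card := Finset.card_filter_le _ _
      have h2 : s.card = (s.image p).card := (Finset.card_image_of_injective s hinj).symm
      have h3 : s.image p ⊆ Finset.Icc 2 (p n) := by
        intro q hq
        obtain ⟨i, hi, rfl⟩ := Finset.mem_image.1 hq
        exact Finset.mem_Icc.2 ⟨(hp i).out.two_le, hmax i hi⟩
      have h4 := Finset.card_le_card h3
      rw [Nat.card_Icc] at h4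
      omega) (fun i w => x0 * (w : G) ∈ M i) (by
      intro i hi
      have hLM : ¬ L ≤ M i := (Finset.mem_filter.1 hi).2
      obtain ⟨y, hyL, hyM, hyk⟩ : ∃ y ∈ L, y ∉ M i ∧ ∃ k : ℕ, y ^ (p n ^ k) = 1 := by
        by_contra hcon
        push Not at hcon
        apply hLM
        rw [hL, Subgroup.closure_le]
        rintro y ⟨k, hk⟩
        by_contra hy
        exact hcon y (Subgroup.subset_closure ⟨k, hk⟩) hy k hk
      have h1 := card_inter_le L (M i) y hyL hyM hyk
      have h2 : Nat.card {w : L // x0 * (w : G) ∈ M i} ≤ Nat.card (L ⊓ M i : Subgroup G) := by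
        by_cases hne : Nonempty {w : L // x0 * (w : G) ∈ M i}
        · obtain ⟨w1⟩ := hne
          let f : {w : L // x0 * (w : G) ∈ M i} → (L ⊓ M i : Subgroup G) := fun w =>
            ⟨(w1.1 : G)⁻¹ * (w.1 : G), L.mul_mem (L.inv_mem w1.1.2) w.1.2, by
              have h3 : (w1.1 : G)⁻¹ * (w.1 : G) = (x0 * (w1.1 : G))⁻¹ * (x0 * (w.1 : G)) := by
                group
              rw [h3]
              exact (M i).mul_mem ((M i).inv_mem w1.2) w.2⟩
          apply Nat.card_le_card_of_injective f
          intro a b hab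
          have h3 : (w1.1 : G)⁻¹ * (a.1 : G) = (w1.1 : G)⁻¹ * (b.1 : G) :=
            congrArg Subtype.val hab
          exact Subtype.ext (Subtype.ext (mul_left_cancel h3))
        · rw [not_nonempty_iff] at hne
          rw [Nat.card_of_isEmpty]
          exact Nat.zero_le _
      have hpn := (hp n).out.two_le
      have hLpos : 0 < Nat.card L := Nat.card_pos
      rcases Nat.eq_zero_or_pos (Nat.card {w : L // x0 * (w : G) ∈ M i}) with h3 | h3
      · rw [h3, mul_zero]
        exact hLpos
      · calc (p n - 1) * Nat.card {w : L // x0 * (w : G) ∈ M i}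
            < p n * Nat.card {w : L // x0 * (w : G) ∈ M i} :=
              Nat.mul_lt_mul_of_pos_right (by omega) h3
          _ ≤ p n * Nat.card (L ⊓ M i : Subgroup G) := Nat.mul_le_mul_left _ h2
          _ ≤ Nat.card L := h1)
    refine ⟨x0 * w, fun i hi => ?_⟩
    by_cases hLM : L ≤ M i
    · intro h
      apply hx0 i (Finset.mem_filter.2 ⟨hi, hLM⟩)
      have h1 : x0 = (x0 * (w : G)) * (w : G)⁻¹ := by group
      rw [h1]
      exact (M i).mul_mem h ((M i).inv_mem (hLM w.2))
    · exact hw i (Finset.mem_filter.2 ⟨hi, hLM⟩)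

end Pool.Agent.Lib.MP_3587c3_al
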