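import Mathlib
import Pool.Agent.Lib.MP_3587c3_al.Avoid

set_option autoImplicit false

/-!
# MP_3587c3_al: cyclic Sylow subgroups
-/

namespace Pool.Agent.Lib.MP_3587c3_al

universe u

open scoped Pointwise

/-- the subgroups of a cyclic `p`-group form a chain -/
theorem chain_of_cyclic {G : Type u} [Group G] [Finite G] {p : ℕ} [hp : Fact p.Prime]
    (P : Subgroup G) (hP : IsPGroup p P) (c : G) (hc : P ≤ Subgroup.zpowers c)
    (H1 H2 : Subgroup G) (h1 : H1 ≤ P) (h2 : H2 ≤ P) (hcard : Nat.card H1 ≤ Nat.card H2) :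
    H1 ≤ H2 := by
  classical
  have hfG : Fintype G := Fintype.ofFinite G
  obtain ⟨a, ha⟩ := IsPGroup.iff_card.1 (hP.to_le h1)
  obtain ⟨b, hb⟩ := IsPGroup.iff_card.1 (hP.to_le h2)
  have hab : a ≤ b := by
    rw [ha, hb] at hcard
    exact (Nat.pow_le_pow_iff_right hp.out.one_lt).1 hcard
  have hdvd : Nat.card H1 ∣ Nat.card H2 := by rw [ha, hb]; exact pow_dvd_pow p hab
  have hfZ : Fintype (Subgroup.zpowers c) := Fintype.ofFinite _
  have hpos : 0 < Nat.card H2 := Nat.card_pos
  have hle := IsCyclic.card_pow_eq_one_le (α := Subgroup.zpowers c) hpos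
  have hsub : (Finset.univ.filter (fun a : Subgroup.zpowers c => (a : G) ∈ H2)) ⊆
      Finset.univ.filter (fun a : Subgroup.zpowers c => a ^ Nat.card H2 = 1) := by
    intro x hx
    rw [Finset.mem_filter] at hx ⊢
    refine ⟨hx.1, Subtype.ext ?_⟩
    have h3 : (⟨(x : G), hx.2⟩ : H2) ^ Nat.card H2 = 1 := pow_card_eq_one'
    have h4 : (x : G) ^ Nat.card H2 = 1 := congrArg (fun y : H2 => (y : G)) h3
    exact h4
  have hcard2 : (Finset.univ.filter (fun a : Subgroup.zpowers c => (a : G) ∈ H2)).card =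
      Nat.card H2 := by
    have h3 : Nat.card (H2.subgroupOf (Subgroup.zpowers c)) = Nat.card H2 :=
      Nat.card_congr (Subgroup.subgroupOfEquivOfLe (h2.trans hc)).toEquiv
    rw [← h3, ← Fintype.card_subtype, ← Nat.card_eq_fintype_card]
    rfl
  have heq := Finset.eq_of_subset_of_card_le hsub (by rw [hcard2]; exact hle)
  intro x hx
  have hxZ : x ∈ Subgroup.zpowers c := hc (h1 hx)
  have h3 : (⟨x, hxZ⟩ : Subgroup.zpowers c) ∈
      Finset.univ.filter (fun a : Subgroup.zpowers c => a ^ Nat.card H2 = 1) := by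
    rw [Finset.mem_filter]
    refine ⟨Finset.mem_univ _, Subtype.ext ?_⟩
    have h4 : (⟨x, hx⟩ : H1) ^ Nat.card H2 = 1 := by
      obtain ⟨k, hk⟩ := hdvd
      rw [hk, pow_mul, pow_card_eq_one', one_pow]
    have h5 : x ^ Nat.card H2 = 1 := congrArg (fun y : H1 => (y : G)) h4
    exact h5
  rw [← heq, Finset.mem_filter] at h3
  exact h3.2

/-- cyclic Sylow subgroups: the bad elements lie in a subgroup -/
theorem cyc_case0 {G : Type u} [Group G] [Finite G] {p : ℕ} [hp : Fact p.Prime] (P : Sylow p G)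
    (c : G) (hc : (P : Subgroup G) ≤ Subgroup.zpowers c) :
    (∀ x, (conjInter (P : Subgroup G) x).Normal) ∨ ∃ M : Subgroup G,
      (∃ z : G, z ∉ M ∧ ∃ k : ℕ, z ^ (p ^ k) = 1) ∧
        ∀ x, x ∉ M → (conjInter (P : Subgroup G) x).Normal := by
  classical
  set K := (P : Subgroup G).normalCore with hK
  have hKP : K ≤ (P : Subgroup G) := Subgroup.normalCore_le _
  have hKn : K.Normal := Subgroup.normalCore_normal _
  have hKinter : ∀ x, K ≤ conjInter (P : Subgroup G) x := by
    intro x a ha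
    exact ⟨hKP ha, hKP (hKn.conj_mem a ha x)⟩
  by_cases hPK : (P : Subgroup G) = K
  · left
    intro x
    have h1 : conjInter (P : Subgroup G) x = K :=
      le_antisymm (le_trans inf_le_left (le_of_eq hPK)) (hKinter x)
    rw [h1]
    exact hKn
  right
  let S : Set (Subgroup G) := {H | K < H ∧ H ≤ (P : Subgroup G)}
  obtain ⟨A, ⟨hKA, hAP⟩, hAmin⟩ := Set.exists_min_image S (fun H => Nat.card H) (Set.toFinite S)
    ⟨(P : Subgroup G), lt_of_le_of_ne hKP (Ne.symm hPK), le_rfl⟩
  have hchain := chain_of_cyclic (P : Subgroup G) P.isPGroup' c hc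
  refine ⟨Subgroup.normalizer (A : Set G), ?_, ?_⟩
  · by_contra hcon
    push Not at hcon
    have hall : ∀ z : G, (∃ k : ℕ, z ^ (p ^ k) = 1) → z ∈ Subgroup.normalizer (A : Set G) := by
      rintro z ⟨k, hk⟩
      by_contra hz
      exact hcon z hz k hk
    apply absurd hKA
    rw [not_lt_iff_le_imp_ge]
    intro _ a ha
    rw [hK]
    show ∀ g : G, g * a * g⁻¹ ∈ (P : Subgroup G)
    intro g
    have hQn : ((g⁻¹ • P : Sylow p G) : Subgroup G) ≤ Subgroup.normalizer (A : Set G) := by
      intro z hz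
      apply hall
      obtain ⟨k, hk⟩ := (g⁻¹ • P : Sylow p G).isPGroup' ⟨z, hz⟩
      exact ⟨k, congrArg Subtype.val hk⟩
    have hAp : IsPGroup p A := P.isPGroup'.to_le hAP
    have hsup := IsPGroup.to_sup_of_normal_right' (g⁻¹ • P : Sylow p G).isPGroup' hAp hQn
    have h1 := (g⁻¹ • P : Sylow p G).is_maximal' hsup le_sup_left
    have h2 : a ∈ ((g⁻¹ • P : Sylow p G) : Subgroup G) := by
      rw [← h1]
      exact Subgroup.mem_sup_right ha
    rw [← SetLike.mem_coe, Sylow.coe_subgroup_smul] at h2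
    obtain ⟨b, hb, hba⟩ := h2
    have h3 : g⁻¹ * b * g⁻¹⁻¹ = a := hba
    rw [← h3]
    have h4 : g * (g⁻¹ * b * g⁻¹⁻¹) * g⁻¹ = b := by group
    rw [h4]
    exact hb
  · intro x hx
    have h1 : conjInter (P : Subgroup G) x = K := by
      by_contra hne
      apply hx
      have hD : conjInter (P : Subgroup G) x ∈ S :=
        ⟨lt_of_le_of_ne (hKinter x) (Ne.symm hne), inf_le_left⟩
      have hAD : A ≤ conjInter (P : Subgroup G) x := hchain _ _ hAP inf_le_left (hAmin _ hD)
      let A' : Subgroup G := A.map (MulAut.conj x).toMonoidHom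
      have hA'P : A' ≤ (P : Subgroup G) := by
        intro b hb
        obtain ⟨a, ha, rfl⟩ := Subgroup.mem_map.1 hb
        exact (hAD ha).2
      have hcardA : Nat.card A' = Nat.card A :=
        Nat.card_congr (A.equivMapOfInjective _ (MulAut.conj x).injective).toEquiv.symm
      have h2 : A' ≤ A := hchain _ _ hA'P hAP hcardA.le
      have h3 : A' = A := Subgroup.eq_of_le_of_card_ge h2 hcardA.ge
      rw [Subgroup.mem_normalizer_iff]
      intro a
      constructor
      · intro ha
        apply h2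
        exact Subgroup.mem_map.2 ⟨a, ha, rfl⟩
      · intro ha
        have h4 : x * a * x⁻¹ ∈ A' := by rw [h3]; exact ha
        obtain ⟨b, hb, hba⟩ := Subgroup.mem_map.1 h4
        have h5 : x * b * x⁻¹ = x * a * x⁻¹ := hba
        have h6 : b = a := by
          have := mul_right_cancel h5
          exact mul_left_cancel this
        rw [← h6]
        exact hb
    rw [h1]
    exact hKn

end Pool.Agent.Lib.MP_3587c3_al
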