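import Mathlib
import Pool.Agent.Lib.MP_3587c3_al.CycCase

set_option autoImplicit false

/-!
# MP_3587c3_al: one element good for all primes modulo a normal subgroup
-/

namespace Pool.Agent.Lib.MP_3587c3_al

universe u

open scoped Pointwise

/-- elements of `p`-power order lift -/
theorem lift_pelem {G : Type u} [Group G] [Finite G] {p : ℕ} [hp : Fact p.Prime]
    (R : Subgroup G) [R.Normal] (z : G ⧸ R) (k : ℕ) (hz : z ^ (p ^ k) = 1) :
    ∃ w : G, QuotientGroup.mk' R w = z ∧ ∃ k : ℕ, w ^ (p ^ k) = 1 := by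
  obtain ⟨g, rfl⟩ := QuotientGroup.mk'_surjective R z
  have hpos : orderOf g ≠ 0 := (orderOf_pos g).ne'
  obtain ⟨a, b, hb, hab⟩ := Nat.exists_eq_pow_mul_and_not_dvd hpos p hp.out.ne_one
  have hcop : Nat.Coprime (p ^ k) b :=
    Nat.Coprime.pow_left k ((hp.out.coprime_iff_not_dvd).2 hb)
  obtain ⟨m, hm1, hm2⟩ := Nat.chineseRemainder hcop 1 0
  refine ⟨g ^ m, ?_, a, ?_⟩
  · rw [map_pow]
    have h1 : orderOf (QuotientGroup.mk' R g) ∣ p ^ k := orderOf_dvd_of_pow_eq_one hz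
    have h2 := pow_eq_pow_iff_modEq.2 (hm1.of_dvd h1)
    rw [h2, pow_one]
  · rw [← pow_mul]
    apply orderOf_dvd_iff_pow_eq_one.1
    rw [hab, mul_comm m]
    exact Nat.mul_dvd_mul_left _ ((Nat.modEq_zero_iff_dvd).1 hm2)

theorem conjInter_comap {G : Type u} [Group G] (R : Subgroup G) [R.Normal] (P : Subgroup G)
    (x : G) : conjInter (P ⊔ R) x =
      (conjInter (P.map (QuotientGroup.mk' R)) (QuotientGroup.mk' R x)).comap
        (QuotientGroup.mk' R) := by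
  ext a
  rw [mem_conjInter, Subgroup.mem_comap, mem_conjInter, ← map_inv, ← map_mul, ← map_mul,
    mem_map_mk', mem_map_mk']

theorem cyc_case {G : Type u} [Group G] [Finite G] {p : ℕ} [hp : Fact p.Prime] (P : Sylow p G)
    (R : Subgroup G) [R.Normal] (c : G) (hc : (P : Subgroup G) ≤ Subgroup.zpowers c ⊔ R) :
    (∀ x, (conjInter ((P : Subgroup G) ⊔ R) x).Normal) ∨ ∃ M : Subgroup G,
      (∃ z : G, z ∉ M ∧ ∃ k : ℕ, z ^ (p ^ k) = 1) ∧
        ∀ x, x ∉ M → (conjInter ((P : Subgroup G) ⊔ R) x).Normal := by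
  have hqs : Function.Surjective (QuotientGroup.mk' R) := QuotientGroup.mk'_surjective R
  have hc' : ((P.mapSurjective hqs : Sylow p (G ⧸ R)) : Subgroup (G ⧸ R)) ≤
      Subgroup.zpowers (QuotientGroup.mk' R c) := by
    intro a ha
    obtain ⟨b, hb, rfl⟩ := Subgroup.mem_map.1 ha
    obtain ⟨d, hd, r, hr, rfl⟩ := Subgroup.mem_sup_of_normal_right.1 (hc hb)
    obtain ⟨j, rfl⟩ := Subgroup.mem_zpowers_iff.1 hd
    rw [map_mul, map_zpow, show QuotientGroup.mk' R r = 1 from (QuotientGroup.eq_one_iff r).2 hr,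
      mul_one]
    exact Subgroup.zpow_mem _ (Subgroup.mem_zpowers _) j
  rcases cyc_case0 (P.mapSurjective hqs) (QuotientGroup.mk' R c) hc' with h | ⟨M, ⟨z, hz, k, hk⟩, h⟩
  · left
    intro x
    rw [conjInter_comap]
    exact (h (QuotientGroup.mk' R x)).comap _
  · right
    obtain ⟨w, rfl, hw⟩ := lift_pelem R z k hk
    refine ⟨M.comap (QuotientGroup.mk' R), ⟨w, hz, hw⟩, fun x hx => ?_⟩
    rw [conjInter_comap]
    exact (h (QuotientGroup.mk' R x) hx).comap _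

/-- one element which is good for all primes modulo `R` -/
theorem exists_y {G : Type u} [Group G] [Finite G] {ι : Type*} [Finite ι] (p : ι → ℕ)
    [hp : ∀ i, Fact (p i).Prime] (hinj : Function.Injective p) (R : Subgroup G) [R.Normal]
    (P : ∀ i, Sylow (p i) G)
    (h : ∀ i, (∃ c : G, (P i : Subgroup G) ≤ Subgroup.zpowers c ⊔ R) ∨ ∃ M : Subgroup G,
      (∃ z : G, z ∉ M ∧ ∃ k : ℕ, z ^ (p i ^ k) = 1) ∧
        ∀ x, x ∉ M → (conjInter ((P i : Subgroup G) ⊔ R) x).Normal) :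
    ∃ y, ∀ i, (conjInter ((P i : Subgroup G) ⊔ R) y).Normal := by
  classical
  have hft : Fintype ι := Fintype.ofFinite ι
  have h' : ∀ i, ∃ M : Subgroup G, (¬ (∀ x, (conjInter ((P i : Subgroup G) ⊔ R) x).Normal) →
      ∃ z : G, z ∉ M ∧ ∃ k : ℕ, z ^ (p i ^ k) = 1) ∧
        ∀ x, x ∉ M → (conjInter ((P i : Subgroup G) ⊔ R) x).Normal := by
    intro i
    rcases h i with ⟨c, hc⟩ | ⟨M, hM, hM2⟩
    · rcases cyc_case (P i) R c hc with h1 | ⟨M, hM, hM2⟩
      · exact ⟨⊤, fun h2 => absurd h1 h2, fun x _ => h1 x⟩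
      · exact ⟨M, fun _ => hM, hM2⟩
    · exact ⟨M, fun _ => hM, hM2⟩
  choose M hM hM2 using h'
  obtain ⟨y, hy⟩ := avoid p hinj M
    (Finset.univ.filter (fun i => ¬ (∀ x, (conjInter ((P i : Subgroup G) ⊔ R) x).Normal)))
    (fun i hi => hM i (Finset.mem_filter.1 hi).2)
  refine ⟨y, fun i => ?_⟩
  by_cases hi : ∀ x, (conjInter ((P i : Subgroup G) ⊔ R) x).Normal
  · exact hi y
  · exact hM2 i y (hy i (Finset.mem_filter.2 ⟨Finset.mem_univ i, hi⟩))

end Pool.Agent.Lib.MP_3587c3_al
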